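import Mathlib

/-!
# Basic definitions: word length, residual finiteness growth, alternating forms and
their two-step nilpotent groups.
-/

open scoped BigOperators

namespace Pool.Agent.MPf60e8a

/-! ## Word length, residual finiteness growth -/

/-- Word length with respect to a finite set `S`: the least length of a list with entries in
`S ∪ S⁻¹` and product `g`. -/
noncomputable def wordLen {G : Type*} [Group G] (S : Finset G) (g : G) : ℕ :=
  sInf {n : ℕ | ∃ l : List G, l.length = n ∧ (∀ x ∈ l, x ∈ S ∨ x⁻¹ ∈ S) ∧ l.prod = g}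

/-- The least index of a finite-index normal subgroup that does not contain `g`. -/
noncomputable def sepIndex {G : Type*} [Group G] (g : G) : ℕ :=
  sInf {i : ℕ | ∃ N : Subgroup G, N.Normal ∧ N.index ≠ 0 ∧ g ∉ N ∧ N.index = i}

/-- Residual finiteness growth. -/
noncomputable def RF {G : Type*} [Group G] (S : Finset G) (n : ℕ) : ℕ :=
  sSup {i : ℕ | ∃ g : G, g ≠ 1 ∧ wordLen S g ≤ n ∧ sepIndex g = i}

/-! ## Alternating integral forms -/

/-- An antisymmetric integral bilinear form `ℤ^m × ℤ^m → ℤ^k`, given by its coefficients. -/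
structure Form (m k : ℕ) where
  c : Fin m → Fin m → Fin k → ℤ
  anti : ∀ i j t, c i j t = - c j i t

namespace Form

variable {m k : ℕ} (α : Form m k)

/-- The value of the form on two vectors over a commutative ring. -/
def ev {R : Type*} [CommRing R] (u v : Fin m → R) : Fin k → R :=
  fun t => ∑ i, ∑ j, (α.c i j t : R) * u i * v j

/-- The scalar form `l ∘ α` as a matrix, `l ∈ R^k`. -/
def mat {R : Type*} [CommRing R] (l : Fin k → R) : Matrix (Fin m) (Fin m) R :=
  fun i j => ∑ t, l t * (α.c i j t : R)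

/-- The coefficient vectors span `ℚ^k`. -/
def Spanning : Prop :=
  Submodule.span ℚ (Set.range fun p : Fin m × Fin m => fun t => (α.c p.1 p.2 t : ℚ)) = ⊤

/-- `ρ(α)`: the least `r` such that the `l ∈ ℂ^k` with `rank (l ∘ α) ≤ r` span `ℂ^k`. -/
noncomputable def rho : ℕ :=
  sInf {r : ℕ | Submodule.span ℂ {l : Fin k → ℂ | (α.mat l).rank ≤ r} = ⊤}

/-- A bound for the size of the form. -/
def bd : ℤ := 1 + ∑ i, ∑ j, ∑ t, |α.c i j t|

end Form

/-! ## The two-step group of a form -/

/-- The group of a form over a ring: pairs `(a, b) ∈ R^m × R^k` with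
`(a,b)(a',b') = (a+a', b+b'+α(a,a'))`. -/
@[ext] structure Gam {m k : ℕ} (α : Form m k) (R : Type*) [CommRing R] where
  a : Fin m → R
  b : Fin k → R

namespace Form

variable {m k : ℕ} (α : Form m k) {R : Type*} [CommRing R]

theorem ev_apply (u v : Fin m → R) (t : Fin k) :
    α.ev u v t = ∑ i, ∑ j, (α.c i j t : R) * u i * v j := rfl

theorem ev_add_left (u u' v : Fin m → R) : α.ev (u + u') v = α.ev u v + α.ev u' v := by
  funext t
  simp only [ev_apply, Pi.add_apply, mul_add, add_mul, Finset.sum_add_distrib]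

theorem ev_add_right (u v v' : Fin m → R) : α.ev u (v + v') = α.ev u v + α.ev u v' := by
  funext t
  simp only [ev_apply, Pi.add_apply, mul_add, Finset.sum_add_distrib]

theorem ev_smul_left (r : R) (u v : Fin m → R) : α.ev (r • u) v = r • α.ev u v := by
  funext t
  simp only [ev_apply, Pi.smul_apply, smul_eq_mul, Finset.mul_sum]
  refine Finset.sum_congr rfl fun i _ => Finset.sum_congr rfl fun j _ => ?_
  ring

theorem ev_smul_right (r : R) (u v : Fin m → R) : α.ev u (r • v) = r • α.ev u v := by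
  funext t
  simp only [ev_apply, Pi.smul_apply, smul_eq_mul, Finset.mul_sum]
  refine Finset.sum_congr rfl fun i _ => Finset.sum_congr rfl fun j _ => ?_
  ring

theorem ev_anti (u v : Fin m → R) : α.ev u v = - α.ev v u := by
  funext t
  simp only [ev_apply, Pi.neg_apply]
  rw [Finset.sum_comm, ← Finset.sum_neg_distrib]
  refine Finset.sum_congr rfl fun i _ => ?_
  rw [← Finset.sum_neg_distrib]
  refine Finset.sum_congr rfl fun j _ => ?_
  rw [α.anti j i t]
  push_cast
  ring

theorem ev_self (u : Fin m → R) : α.ev u u = 0 := by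
  funext t
  have hd : ∀ i, α.c i i t = 0 := fun i => by
    have := α.anti i i t
    omega
  -- split the double sum by exchanging `i` and `j`
  simp only [ev_apply, Pi.zero_apply]
  rw [← Finset.sum_product']
  refine Finset.sum_involution (fun p _ => (p.2, p.1)) ?_ ?_ ?_ ?_
  · rintro ⟨i, j⟩ _
    simp only
    rw [α.anti j i t]
    push_cast
    ring
  · rintro ⟨i, j⟩ _ hne heq
    simp only [Prod.mk.injEq] at heq
    obtain ⟨h1, _⟩ := heq
    subst h1
    apply hne
    simp [hd]
  · intro p _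
    simp
  · intro p _
    simp

@[simp] theorem ev_zero_left (v : Fin m → R) : α.ev 0 v = 0 := by
  have := α.ev_smul_left (0 : R) 0 v
  simpa using this

@[simp] theorem ev_zero_right (v : Fin m → R) : α.ev v 0 = 0 := by
  have := α.ev_smul_right (0 : R) v 0
  simpa using this

theorem ev_neg_left (u v : Fin m → R) : α.ev (-u) v = - α.ev u v := by
  have := α.ev_smul_left (-1 : R) u v
  simpa using this

theorem ev_neg_right (u v : Fin m → R) : α.ev u (-v) = - α.ev u v := by
  have := α.ev_smul_right (-1 : R) u v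
  simpa using this

theorem ev_map {S : Type*} [CommRing S] (φ : R →+* S) (u v : Fin m → R) :
    α.ev (fun i => φ (u i)) (fun i => φ (v i)) = fun t => φ (α.ev u v t) := by
  funext t
  simp only [ev_apply, map_sum, map_mul, map_intCast]

end Form

namespace Gam

variable {m k : ℕ} {α : Form m k} {R : Type*} [CommRing R]

instance : Group (Gam α R) where
  mul x y := ⟨x.a + y.a, x.b + y.b + α.ev x.a y.a⟩
  one := ⟨0, 0⟩
  inv x := ⟨-x.a, -x.b⟩
  mul_assoc x y z := by
    show (⟨_, _⟩ : Gam α R) = ⟨_, _⟩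
    refine Gam.ext (add_assoc _ _ _) ?_
    show x.b + y.b + α.ev x.a y.a + z.b + α.ev (x.a + y.a) z.a
      = x.b + (y.b + z.b + α.ev y.a z.a) + α.ev x.a (y.a + z.a)
    rw [Form.ev_add_left, Form.ev_add_right]
    abel
  one_mul x := by
    show (⟨_, _⟩ : Gam α R) = _
    refine Gam.ext (zero_add _) ?_
    show (0 : Fin k → R) + x.b + α.ev 0 x.a = x.b
    rw [Form.ev_zero_left]
    simp
  mul_one x := by
    show (⟨_, _⟩ : Gam α R) = _
    refine Gam.ext (add_zero _) ?_
    show x.b + 0 + α.ev x.a 0 = x.b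
    rw [Form.ev_zero_right]
    simp
  inv_mul_cancel x := by
    show (⟨_, _⟩ : Gam α R) = ⟨_, _⟩
    refine Gam.ext (neg_add_cancel _) ?_
    show -x.b + x.b + α.ev (-x.a) x.a = 0
    rw [Form.ev_neg_left, Form.ev_self]
    simp

@[simp] theorem mul_a (x y : Gam α R) : (x * y).a = x.a + y.a := rfl
@[simp] theorem mul_b (x y : Gam α R) : (x * y).b = x.b + y.b + α.ev x.a y.a := rfl
@[simp] theorem one_a : (1 : Gam α R).a = 0 := rfl
@[simp] theorem one_b : (1 : Gam α R).b = 0 := rfl
@[simp] theorem inv_a (x : Gam α R) : (x⁻¹).a = -x.a := rfl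
@[simp] theorem inv_b (x : Gam α R) : (x⁻¹).b = -x.b := rfl

theorem pow_eq (x : Gam α R) (n : ℕ) : x ^ n = ⟨(n : R) • x.a, (n : R) • x.b⟩ := by
  induction n with
  | zero => ext <;> simp
  | succ n ih =>
    rw [pow_succ, ih]
    refine Gam.ext ?_ ?_
    · simp only [mul_a, Nat.cast_add, Nat.cast_one, add_smul, one_smul]
    · simp only [mul_b, Nat.cast_add, Nat.cast_one, add_smul, one_smul, Form.ev_smul_left,
        Form.ev_self, smul_zero, add_zero]

/-- The commutator in `Gam α R` is `(0, 2 α(a,a'))`. -/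
theorem comm_eq (x y : Gam α R) : x * y * x⁻¹ * y⁻¹ = ⟨0, (2 : R) • α.ev x.a y.a⟩ := by
  refine Gam.ext ?_ ?_
  · simp only [mul_a, inv_a]
    abel
  · simp only [mul_a, mul_b, inv_a, inv_b, Form.ev_add_left, Form.ev_neg_right, Form.ev_self,
      Form.ev_neg_left]
    rw [α.ev_anti y.a x.a, two_smul]
    abel

/-- Coefficient change. -/
def map (α : Form m k) {S : Type*} [CommRing S] (φ : R →+* S) : Gam α R →* Gam α S where
  toFun x := ⟨fun i => φ (x.a i), fun t => φ (x.b t)⟩
  map_one' := by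
    refine Gam.ext ?_ ?_
    · funext i
      simp
    · funext i
      simp
  map_mul' x y := by
    refine Gam.ext ?_ ?_
    · funext i
      simp
    · funext t
      have := congrFun (α.ev_map φ x.a y.a) t
      simp only [mul_b, Pi.add_apply, map_add] at this ⊢
      rw [this]

@[simp] theorem map_a {S : Type*} [CommRing S] (φ : R →+* S) (x : Gam α R) :
    (map α φ x).a = fun i => φ (x.a i) := rfl
@[simp] theorem map_b {S : Type*} [CommRing S] (φ : R →+* S) (x : Gam α R) :
    (map α φ x).b = fun i => φ (x.b i) := rfl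

/-- The dilation `(a,b) ↦ (r a, r² b)`. -/
def dil (r : R) : Gam α R →* Gam α R where
  toFun x := ⟨r • x.a, (r * r) • x.b⟩
  map_one' := by
    refine Gam.ext ?_ ?_ <;> simp
  map_mul' x y := by
    refine Gam.ext ?_ ?_
    · simp
    · simp only [mul_b, Form.ev_smul_left, Form.ev_smul_right, smul_add, mul_smul]

@[simp] theorem dil_a (r : R) (x : Gam α R) : (dil r x).a = r • x.a := rfl
@[simp] theorem dil_b (r : R) (x : Gam α R) : (dil r x).b = (r * r) • x.b := rfl

/-- The horizontal element of a vector. -/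
def hor (α : Form m k) (v : Fin m → R) : Gam α R := ⟨v, 0⟩

@[simp] theorem hor_a (v : Fin m → R) : (hor α v).a = v := rfl
@[simp] theorem hor_b (v : Fin m → R) : (hor α v).b = 0 := rfl

/-- The vertical (central) element of a vector. -/
def ver (α : Form m k) (w : Fin k → R) : Gam α R := ⟨0, w⟩

@[simp] theorem ver_a (w : Fin k → R) : (ver α w).a = 0 := rfl
@[simp] theorem ver_b (w : Fin k → R) : (ver α w).b = w := rfl

end Gam

/-! ## The homogeneous norm -/

namespace Form

variable {m k : ℕ} (α : Form m k)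

theorem bd_pos : (0 : ℝ) < (α.bd : ℝ) := by
  have h : (0 : ℤ) ≤ ∑ i, ∑ j, ∑ t, |α.c i j t| :=
    Finset.sum_nonneg fun i _ => Finset.sum_nonneg fun j _ => Finset.sum_nonneg fun t _ =>
      abs_nonneg _
  have h2 : (0 : ℤ) < α.bd := by
    unfold bd
    omega
  exact_mod_cast h2

theorem norm_ev_le (u v : Fin m → ℝ) : ‖α.ev u v‖ ≤ α.bd * ‖u‖ * ‖v‖ := by
  rw [pi_norm_le_iff_of_nonneg (by have := α.bd_pos; positivity)]
  intro t
  have h1 : ‖α.ev u v t‖ ≤ ∑ i, ∑ j, |(α.c i j t : ℝ)| * ‖u‖ * ‖v‖ := by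
    rw [ev_apply]
    refine (norm_sum_le _ _).trans (Finset.sum_le_sum fun i _ => ?_)
    refine (norm_sum_le _ _).trans (Finset.sum_le_sum fun j _ => ?_)
    rw [norm_mul, norm_mul, Real.norm_eq_abs]
    have := norm_le_pi_norm u i
    have := norm_le_pi_norm v j
    gcongr
  refine h1.trans ?_
  have h2 : ∑ i, ∑ j, |(α.c i j t : ℝ)| * ‖u‖ * ‖v‖
      = (∑ i, ∑ j, |(α.c i j t : ℝ)|) * ‖u‖ * ‖v‖ := by
    simp only [Finset.sum_mul]
  rw [h2]
  have h3 : ∑ i, ∑ j, |(α.c i j t : ℝ)| ≤ (α.bd : ℝ) := by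
    unfold bd
    push_cast
    have : ∑ i, ∑ j, |(α.c i j t : ℝ)| ≤ ∑ i, ∑ j, ∑ t, |(α.c i j t : ℝ)| := by
      refine Finset.sum_le_sum fun i _ => Finset.sum_le_sum fun j _ => ?_
      exact Finset.single_le_sum (f := fun t => |(α.c i j t : ℝ)|)
        (fun t _ => abs_nonneg _) (Finset.mem_univ t)
    linarith
  gcongr

end Form

namespace Gam

variable {m k : ℕ} {α : Form m k}

/-- The homogeneous norm `max ‖a‖ √(‖b‖/Λ)` on the real group of the form; it is subadditive. -/
noncomputable def nrm (x : Gam α ℝ) : ℝ := max ‖x.a‖ (Real.sqrt (‖x.b‖ / α.bd))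

/-- The inclusion of the integral group in the real group. -/
def toReal (α : Form m k) : Gam α ℤ →* Gam α ℝ := map α (Int.castRingHom ℝ)

@[simp] theorem toReal_a (x : Gam α ℤ) : (toReal α x).a = fun i => (x.a i : ℝ) := rfl
@[simp] theorem toReal_b (x : Gam α ℤ) : (toReal α x).b = fun i => (x.b i : ℝ) := rfl

theorem nrm_nonneg (x : Gam α ℝ) : 0 ≤ nrm x := le_max_of_le_left (norm_nonneg _)

theorem norm_a_le (x : Gam α ℝ) : ‖x.a‖ ≤ nrm x := le_max_left _ _

theorem norm_b_le (x : Gam α ℝ) : ‖x.b‖ ≤ α.bd * nrm x ^ 2 := by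
  have h := le_max_right ‖x.a‖ (Real.sqrt (‖x.b‖ / α.bd))
  have hp := α.bd_pos
  have h0 : (0 : ℝ) ≤ ‖x.b‖ / α.bd := by positivity
  have h1 : ‖x.b‖ / α.bd ≤ nrm x ^ 2 := by
    calc ‖x.b‖ / α.bd = Real.sqrt (‖x.b‖ / α.bd) ^ 2 := (Real.sq_sqrt h0).symm
      _ ≤ nrm x ^ 2 := by
        have : 0 ≤ Real.sqrt (‖x.b‖ / α.bd) := Real.sqrt_nonneg _
        exact pow_le_pow_left₀ this h 2
  rw [div_le_iff₀ hp] at h1
  linarith

theorem nrm_le_of {x : Gam α ℝ} {r : ℝ} (hr : 0 ≤ r) (ha : ‖x.a‖ ≤ r)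
    (hb : ‖x.b‖ ≤ α.bd * r ^ 2) : nrm x ≤ r := by
  refine max_le ha ?_
  rw [Real.sqrt_le_left hr, div_le_iff₀ α.bd_pos]
  linarith

theorem nrm_mul_le (x y : Gam α ℝ) : nrm (x * y) ≤ nrm x + nrm y := by
  have hx := nrm_nonneg x
  have hy := nrm_nonneg y
  have hp := α.bd_pos
  refine nrm_le_of (by positivity) ?_ ?_
  · rw [mul_a]
    exact (norm_add_le _ _).trans (add_le_add (norm_a_le x) (norm_a_le y))
  · rw [mul_b]
    have h1 := norm_b_le x
    have h2 := norm_b_le y
    have h3 := α.norm_ev_le x.a y.a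
    have h4 : α.bd * ‖x.a‖ * ‖y.a‖ ≤ α.bd * nrm x * nrm y := by
      have := norm_a_le x
      have := norm_a_le y
      gcongr
    have h5 : ‖x.b + y.b + α.ev x.a y.a‖ ≤ ‖x.b‖ + ‖y.b‖ + ‖α.ev x.a y.a‖ :=
      (norm_add_le _ _).trans (add_le_add (norm_add_le _ _) le_rfl)
    have h6 : 0 ≤ α.bd * nrm x * nrm y := by positivity
    nlinarith

@[simp] theorem nrm_one : nrm (1 : Gam α ℝ) = 0 := by
  simp [nrm]

@[simp] theorem nrm_inv (x : Gam α ℝ) : nrm x⁻¹ = nrm x := by
  simp [nrm]

theorem nrm_dil (r : ℝ) (x : Gam α ℝ) : nrm (dil r x) = |r| * nrm x := by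
  unfold nrm
  rw [dil_a, dil_b, norm_smul, norm_smul, Real.norm_eq_abs, Real.norm_eq_abs,
    mul_max_of_nonneg _ _ (abs_nonneg r)]
  congr 1
  rw [abs_mul, mul_div_assoc, Real.sqrt_mul (by positivity), Real.sqrt_mul_self (abs_nonneg r)]

theorem nrm_eq_zero {x : Gam α ℝ} (h : nrm x = 0) : x = 1 := by
  have h1 := norm_a_le x
  have h2 := norm_b_le x
  rw [h] at h1 h2
  refine Gam.ext ?_ ?_
  · exact norm_le_zero_iff.mp h1
  · refine norm_le_zero_iff.mp ?_
    simpa using h2

end Gam

end Pool.Agent.MPf60e8a
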