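import Mathlib
import Pool.Agent.Lib.MP_f60e8a_al.Defs

/-!
# Elementary facts on word length and the separation index
-/

open scoped BigOperators

namespace Pool.Agent.MPf60e8a

section Word

variable {G : Type*} [Group G] {S : Finset G}

theorem wordLen_le_of_list {g : G} (l : List G) (h : ∀ x ∈ l, x ∈ S ∨ x⁻¹ ∈ S)
    (hp : l.prod = g) : wordLen S g ≤ l.length :=
  Nat.sInf_le ⟨l, rfl, h, hp⟩

theorem wordLen_spec (hS : Subgroup.closure (S : Set G) = ⊤) (g : G) :
    ∃ l : List G, l.length = wordLen S g ∧ (∀ x ∈ l, x ∈ S ∨ x⁻¹ ∈ S) ∧ l.prod = g := by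
  have hne : {n : ℕ | ∃ l : List G, l.length = n ∧ (∀ x ∈ l, x ∈ S ∨ x⁻¹ ∈ S) ∧
      l.prod = g}.Nonempty := by
    have hg : g ∈ Subgroup.closure (S : Set G) := by
      rw [hS]
      exact Subgroup.mem_top g
    rw [← Subgroup.mem_toSubmonoid, Subgroup.closure_toSubmonoid] at hg
    obtain ⟨l, h1, h2⟩ := Submonoid.exists_list_of_mem_closure hg
    exact ⟨l.length, l, rfl, fun x hx => by simpa using h1 x hx, h2⟩
  exact Nat.sInf_mem hne

@[simp] theorem wordLen_one : wordLen S (1 : G) = 0 :=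
  Nat.le_zero.mp (wordLen_le_of_list [] (by simp) (by simp))

theorem wordLen_mul_le (hS : Subgroup.closure (S : Set G) = ⊤) (g h : G) :
    wordLen S (g * h) ≤ wordLen S g + wordLen S h := by
  obtain ⟨l, h1, h2, h3⟩ := wordLen_spec hS g
  obtain ⟨l', h1', h2', h3'⟩ := wordLen_spec hS h
  rw [← h1, ← h1', ← List.length_append]
  refine wordLen_le_of_list _ ?_ ?_
  · intro x hx
    rcases List.mem_append.mp hx with hx | hx
    · exact h2 x hx
    · exact h2' x hx
  · rw [List.prod_append, h3, h3']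

theorem wordLen_inv_le (hS : Subgroup.closure (S : Set G) = ⊤) (g : G) :
    wordLen S g⁻¹ ≤ wordLen S g := by
  obtain ⟨l, h1, h2, h3⟩ := wordLen_spec hS g
  have := wordLen_le_of_list (S := S) (g := g⁻¹) (l.map (·⁻¹)).reverse ?_ ?_
  · rwa [List.length_reverse, List.length_map, h1] at this
  · intro x hx
    rw [List.mem_reverse, List.mem_map] at hx
    obtain ⟨y, hy, rfl⟩ := hx
    rw [inv_inv]
    exact (h2 y hy).symm
  · rw [← List.prod_inv_reverse, h3]

@[simp] theorem wordLen_inv (hS : Subgroup.closure (S : Set G) = ⊤) (g : G) :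
    wordLen S g⁻¹ = wordLen S g := by
  refine le_antisymm (wordLen_inv_le hS g) ?_
  have := wordLen_inv_le hS g⁻¹
  rwa [inv_inv] at this

theorem wordLen_inv_mul_comm (hS : Subgroup.closure (S : Set G) = ⊤) (g h : G) :
    wordLen S (g⁻¹ * h) = wordLen S (h⁻¹ * g) := by
  rw [← wordLen_inv hS (g⁻¹ * h), mul_inv_rev, inv_inv]

theorem wordLen_triangle (hS : Subgroup.closure (S : Set G) = ⊤) (x y z : G) :
    wordLen S (x⁻¹ * z) ≤ wordLen S (x⁻¹ * y) + wordLen S (y⁻¹ * z) := by
  have := wordLen_mul_le hS (x⁻¹ * y) (y⁻¹ * z)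
  have h : x⁻¹ * y * (y⁻¹ * z) = x⁻¹ * z := by group
  rwa [h] at this

theorem wordLen_pow_le (hS : Subgroup.closure (S : Set G) = ⊤) (g : G) (n : ℕ) :
    wordLen S (g ^ n) ≤ n * wordLen S g := by
  induction n with
  | zero => simp
  | succ n ih =>
    rw [pow_succ, Nat.succ_mul]
    exact (wordLen_mul_le hS _ _).trans (Nat.add_le_add_right ih _)

theorem wordLen_zpow_le (hS : Subgroup.closure (S : Set G) = ⊤) (g : G) (n : ℤ) :
    wordLen S (g ^ n) ≤ n.natAbs * wordLen S g := by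
  rcases Int.natAbs_eq n with h | h
  · rw [h, zpow_natCast, Int.natAbs_natCast]
    exact wordLen_pow_le hS g _
  · rw [h, zpow_neg, zpow_natCast, wordLen_inv hS, Int.natAbs_neg, Int.natAbs_natCast]
    exact wordLen_pow_le hS g _

theorem wordLen_prod_le (hS : Subgroup.closure (S : Set G) = ⊤) (l : List G) :
    wordLen S l.prod ≤ (l.map (wordLen S)).sum := by
  induction l with
  | nil => simp
  | cons x l ih =>
    rw [List.prod_cons, List.map_cons, List.sum_cons]
    exact (wordLen_mul_le hS _ _).trans (Nat.add_le_add_left ih _)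

/-- A subadditive symmetric function is bounded by a multiple of the word length. -/
theorem exists_le_mul_wordLen (hS : Subgroup.closure (S : Set G) = ⊤) (N : G → ℝ)
    (h1 : N 1 ≤ 0) (hmul : ∀ x y, N (x * y) ≤ N x + N y) (hinv : ∀ x, N x⁻¹ = N x) :
    ∃ C : ℝ, 0 < C ∧ ∀ g, N g ≤ C * wordLen S g := by
  refine ⟨1 + ∑ s ∈ S, |N s|, by positivity, ?_⟩
  have hs : ∀ s ∈ S, N s ≤ 1 + ∑ s ∈ S, |N s| := fun s hs => by
    have h2 := Finset.single_le_sum (f := fun s => |N s|) (fun i _ => abs_nonneg _) hs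
    have h3 := le_abs_self (N s)
    linarith
  have key : ∀ l : List G, (∀ x ∈ l, x ∈ S ∨ x⁻¹ ∈ S) →
      N l.prod ≤ (1 + ∑ s ∈ S, |N s|) * l.length := by
    intro l
    induction l with
    | nil =>
      intro _
      simpa using h1
    | cons x l ih =>
      intro h
      have hx : N x ≤ 1 + ∑ s ∈ S, |N s| := by
        rcases h x List.mem_cons_self with hx | hx
        · exact hs x hx
        · rw [← hinv x]
          exact hs _ hx
      have hl := ih fun y hy => h y (List.mem_cons_of_mem _ hy)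
      rw [List.prod_cons, List.length_cons]
      push_cast
      have := hmul x l.prod
      nlinarith
  intro g
  obtain ⟨l, h1, h2, h3⟩ := wordLen_spec hS g
  rw [← h1, ← h3]
  exact key l h2

/-- Balls are finite. -/
theorem finite_ball (hS : Subgroup.closure (S : Set G) = ⊤) (n : ℕ) :
    {g : G | wordLen S g ≤ n}.Finite := by
  classical
  have hT : ∀ n : ℕ, {l : List G | l.length ≤ n ∧ ∀ x ∈ l, x ∈ S ∨ x⁻¹ ∈ S}.Finite := by
    intro n
    induction n with
    | zero =>
      refine (Set.finite_singleton ([] : List G)).subset ?_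
      rintro l ⟨hl, _⟩
      simpa using hl
    | succ n ih =>
      let T : Set G := {x | x ∈ S ∨ x⁻¹ ∈ S}
      have hTf : T.Finite := by
        have : T ⊆ (S : Set G) ∪ (S.image (·⁻¹) : Finset G) := by
          intro x hx
          rcases hx with hx | hx
          · exact Or.inl hx
          · refine Or.inr ?_
            simp only [Finset.coe_image, Set.mem_image, Finset.mem_coe]
            exact ⟨x⁻¹, hx, inv_inv x⟩
        exact ((Finset.finite_toSet S).union (Finset.finite_toSet _)).subset this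
      refine ((Set.finite_singleton ([] : List G)).union
        ((hTf.prod ih).image fun q => q.1 :: q.2)).subset ?_
      rintro l ⟨hl, hl2⟩
      cases l with
      | nil => exact Or.inl rfl
      | cons x l =>
        refine Or.inr ⟨(x, l), ⟨hl2 x List.mem_cons_self, ?_, ?_⟩, rfl⟩
        · simpa using hl
        · exact fun y hy => hl2 y (List.mem_cons_of_mem _ hy)
  refine ((hT n).image List.prod).subset ?_
  intro g hg
  obtain ⟨l, h1, h2, h3⟩ := wordLen_spec hS g
  exact ⟨l, ⟨by rw [h1]; exact hg, h2⟩, h3⟩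

theorem sepIndex_le {g : G} (N : Subgroup G) (hN : N.Normal) (hi : N.index ≠ 0) (hg : g ∉ N) :
    sepIndex g ≤ N.index :=
  Nat.sInf_le ⟨N, hN, hi, hg, rfl⟩

theorem le_sepIndex {g : G} {n : ℕ}
    (hex : ∃ N : Subgroup G, N.Normal ∧ N.index ≠ 0 ∧ g ∉ N)
    (h : ∀ N : Subgroup G, N.Normal → N.index ≠ 0 → g ∉ N → n ≤ N.index) : n ≤ sepIndex g := by
  obtain ⟨N, h1, h2, h3⟩ := hex
  have hne : {i : ℕ | ∃ N : Subgroup G, N.Normal ∧ N.index ≠ 0 ∧ g ∉ N ∧ N.index = i}.Nonempty :=
    ⟨N.index, N, h1, h2, h3, rfl⟩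
  obtain ⟨M, m1, m2, m3, m4⟩ := Nat.sInf_mem hne
  unfold sepIndex
  rw [← m4]
  exact h M m1 m2 m3

theorem sepIndex_one : sepIndex (1 : G) = 0 := by
  unfold sepIndex
  convert Nat.sInf_empty
  ext i
  simp only [Set.mem_empty_iff_false, iff_false]
  rintro ⟨N, _, _, h, _⟩
  exact h N.one_mem

theorem RF_bddAbove (hS : Subgroup.closure (S : Set G) = ⊤) (n : ℕ) :
    BddAbove {i : ℕ | ∃ g : G, g ≠ 1 ∧ wordLen S g ≤ n ∧ sepIndex g = i} := by
  have : ({i : ℕ | ∃ g : G, g ≠ 1 ∧ wordLen S g ≤ n ∧ sepIndex g = i}).Finite := by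
    refine ((finite_ball hS n).image sepIndex).subset ?_
    rintro i ⟨g, _, hg, rfl⟩
    exact ⟨g, hg, rfl⟩
  exact this.bddAbove

theorem sepIndex_le_RF (hS : Subgroup.closure (S : Set G) = ⊤) {n : ℕ} {g : G} (hg : g ≠ 1)
    (hn : wordLen S g ≤ n) : sepIndex g ≤ RF S n :=
  le_csSup (RF_bddAbove hS n) ⟨g, hg, hn, rfl⟩

theorem RF_le {n B : ℕ} (h : ∀ g : G, g ≠ 1 → wordLen S g ≤ n → sepIndex g ≤ B) :
    RF S n ≤ B := by
  unfold RF
  rcases Set.eq_empty_or_nonempty
    {i : ℕ | ∃ g : G, g ≠ 1 ∧ wordLen S g ≤ n ∧ sepIndex g = i} with he | hne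
  · rw [he]
    simp
  · refine csSup_le hne ?_
    rintro i ⟨g, h1, h2, rfl⟩
    exact h g h1 h2

theorem RF_mono (hS : Subgroup.closure (S : Set G) = ⊤) : Monotone (RF S) := by
  intro a b hab
  exact RF_le fun g hg hl => sepIndex_le_RF hS hg (hl.trans hab)

end Word

end Pool.Agent.MPf60e8a
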