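import Mathlib
import Pool.Agent.Lib.MP_f60e8a_al.Defs
import Pool.Agent.Lib.MP_f60e8a_al.Word

/-!
# Statements passed between the modules
-/

open scoped BigOperators

namespace Pool.Agent.MPf60e8a

/-- A bounded function. -/
def Bdd {X : Type*} (φ : X → ℝ) : Prop := ∃ C : ℝ, ∀ x, |φ x| ≤ C

/-- There is a right-invariant mean on `Gam α ℤ`. -/
def HasMean {m k : ℕ} (α : Form m k) : Prop :=
  ∃ M : (Gam α ℤ → ℝ) → ℝ,
    (∀ φ ψ, Bdd φ → Bdd ψ → M (fun x => φ x + ψ x) = M φ + M ψ) ∧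
    (∀ (c : ℝ) φ, Bdd φ → M (fun x => c * φ x) = c * M φ) ∧
    (∀ φ, Bdd φ → (∀ x, 0 ≤ φ x) → 0 ≤ M φ) ∧
    M (fun _ => 1) = 1 ∧
    (∀ φ g, Bdd φ → M (fun x => φ (x * g)) = M φ)

/-- Base points at which a coarsely Lipschitz vector valued function is asymptotically
midpoint-affine in all horizontal directions, at all scales. -/
def HasBase {m k : ℕ} (α : Form m k) (q : ℕ) : Prop :=
  ∀ (P : Gam α ℤ → Fin q → ℝ) (K : ℝ),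
    (∀ x y, ‖P x - P y‖ ≤ K * Gam.nrm (Gam.toReal α (x⁻¹ * y)) + K) →
    ∃ g : ℕ → Gam α ℤ, ∀ (y : Gam α ℤ) (v : Fin m → ℤ) (l : ℕ),
      Filter.Tendsto (fun j : ℕ =>
        ((2 : ℝ) ^ (j - l))⁻¹ •
          (P (g j * Gam.dil (2 ^ (j - l)) y * Gam.hor α ((2 ^ (j - l) : ℤ) • v) ^ 2)
            - (2 : ℝ) • P (g j * Gam.dil (2 ^ (j - l)) y * Gam.hor α ((2 ^ (j - l) : ℤ) • v))
            + P (g j * Gam.dil (2 ^ (j - l)) y)))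
        Filter.atTop (nhds 0)

/-- The limit map exists. -/
def HasLimit {m₁ k₁ m₂ k₂ : ℕ} (α₁ : Form m₁ k₁) (α₂ : Form m₂ k₂) : Prop :=
  ∀ (f : Gam α₁ ℤ → Gam α₂ ℤ) (K : ℝ), 0 < K →
    (∀ x y, Gam.nrm (Gam.toReal α₂ ((f x)⁻¹ * f y)) ≤
      K * Gam.nrm (Gam.toReal α₁ (x⁻¹ * y)) + K) →
    (∀ x y, Gam.nrm (Gam.toReal α₁ (x⁻¹ * y)) ≤
      K * Gam.nrm (Gam.toReal α₂ ((f x)⁻¹ * f y)) + K) →
    ∃ F : Gam α₁ ℝ → Gam α₂ ℝ, F 1 = 1 ∧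
      (∀ x y, Gam.nrm ((F x)⁻¹ * F y) ≤ K * Gam.nrm (x⁻¹ * y)) ∧
      (∀ x y, Gam.nrm (x⁻¹ * y) ≤ K * Gam.nrm ((F x)⁻¹ * F y)) ∧
      (∀ (x : Gam α₁ ℝ) (v : Fin m₁ → ℝ),
        (F (x * Gam.hor α₁ ((2 : ℝ) • v))).a - (2 : ℝ) • (F (x * Gam.hor α₁ v)).a + (F x).a
          = 0)

/-- Elements of ideals in shifted boxes are counted with a good error term. -/
def IdealCount (K : Type) [Field K] [NumberField K] {ι : Type} [Fintype ι]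
    (b : Module.Basis ι ℤ (NumberField.RingOfIntegers K)) : Prop :=
  ∃ C : ℝ, 0 < C ∧ ∀ (I : Ideal (NumberField.RingOfIntegers K)), I ≠ ⊥ →
    ∀ (w : NumberField.RingOfIntegers K) (B δ : ℕ),
      C * (Ideal.absNorm I : ℝ) ^ ((1 : ℝ) / Fintype.card ι) ≤ δ →
      (((B - 2 * δ : ℕ) : ℝ) ^ Fintype.card ι
        ≤ Ideal.absNorm I * Nat.card {x : ι → Fin B // w + ∑ i, ((x i : ℕ) : ℤ) • b i ∈ I}) ∧
      ((Ideal.absNorm I * Nat.card {x : ι → Fin B // w + ∑ i, ((x i : ℕ) : ℤ) • b i ∈ I} : ℝ)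
        ≤ ((B + 2 * δ : ℕ) : ℝ) ^ Fintype.card ι)

/-- The pairs `(P, k)` with `P` a nonzero prime ideal, `k ≥ 1` and `N(P)^k ≤ Z`. -/
def primePowers (K : Type) [Field K] [NumberField K] (Z : ℝ) :
    Set (Ideal (NumberField.RingOfIntegers K) × ℕ) :=
  {q | q.1.IsPrime ∧ q.1 ≠ ⊥ ∧ 1 ≤ q.2 ∧ ((Ideal.absNorm q.1 : ℝ) ^ q.2 ≤ Z)}

/-- Chebyshev's upper bound for a number field. -/
def ChebField (K : Type) [Field K] [NumberField K] : Prop :=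
  (∀ Z : ℝ, (primePowers K Z).Finite) ∧
  ∃ C : ℝ, 0 < C ∧ ∀ Z : ℝ, 1 ≤ Z →
    ∑ᶠ q ∈ primePowers K Z, Real.log (Ideal.absNorm q.1) ≤ C * Z

/-- Factorization of the norm of an element. -/
def LogNorm (K : Type) [Field K] [NumberField K] : Prop :=
  ∀ v : NumberField.RingOfIntegers K, v ≠ 0 →
    ({q : Ideal (NumberField.RingOfIntegers K) × ℕ | q.1.IsPrime ∧ q.1 ≠ ⊥ ∧ 1 ≤ q.2 ∧
      v ∈ q.1 ^ q.2}).Finite ∧
    Real.log |((Algebra.norm ℤ v : ℤ) : ℝ)| =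
      ∑ᶠ q ∈ {q : Ideal (NumberField.RingOfIntegers K) × ℕ | q.1.IsPrime ∧ q.1 ≠ ⊥ ∧ 1 ≤ q.2 ∧
        v ∈ q.1 ^ q.2}, Real.log (Ideal.absNorm q.1)

/-- Norms of the elements of a box far from the origin. -/
def BoxNorm (K : Type) [Field K] [NumberField K] {ι : Type} [Fintype ι]
    (b : Module.Basis ι ℤ (NumberField.RingOfIntegers K)) : Prop :=
  ∃ (A : ℕ) (c₁ c₂ : ℝ), 0 < c₁ ∧ 0 < c₂ ∧ ∀ (B : ℕ), 1 ≤ B → ∀ x : ι → Fin B,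
    c₁ * (B : ℝ) ^ Fintype.card ι ≤
      |((Algebra.norm ℤ (((A * B : ℕ) : NumberField.RingOfIntegers K) +
        ∑ i, ((x i : ℕ) : ℤ) • b i) : ℤ) : ℝ)| ∧
    |((Algebra.norm ℤ (((A * B : ℕ) : NumberField.RingOfIntegers K) +
        ∑ i, ((x i : ℕ) : ℤ) • b i) : ℤ) : ℝ)| ≤ c₂ * (B : ℝ) ^ Fintype.card ι

/-- The weighted sum over prime ideal powers of norm at most `Z`. -/
noncomputable def mertensSum (K : Type) [Field K] [NumberField K] (Z : ℝ) : ℝ :=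
  ∑ᶠ q ∈ primePowers K Z, Real.log (Ideal.absNorm q.1) / (Ideal.absNorm q.1 : ℝ) ^ q.2

/-- Mertens' theorem for a number field. -/
def Mertens (K : Type) [Field K] [NumberField K] : Prop :=
  ∃ C : ℝ, ∀ Z : ℝ, 1 ≤ Z → |mertensSum K Z - Real.log Z| ≤ C

open Classical in
/-- A set of primes has positive lower density in the sense of Chebyshev. -/
def PosDensity (good : ℕ → Prop) : Prop :=
  ∃ c x₀ : ℝ, 0 < c ∧ ∀ x : ℝ, x₀ ≤ x →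
    c * x ≤ ∑ p ∈ (Finset.range (⌊x⌋₊ + 1)).filter (fun p => p.Prime ∧ good p), Real.log p

/-- A prime `p` is good for `α` if `F_p^k` has a basis of functionals `l` with
`rank (l ∘ α) ≤ ρ(α)`. -/
def GoodPrime {m k : ℕ} (α : Form m k) (p : ℕ) : Prop :=
  ∃ Λ : Fin k → Fin k → ZMod p,
    (∀ b : Fin k → ZMod p, b ≠ 0 → ∃ i, ∑ t, Λ i t * b t ≠ 0) ∧
    ∀ i, (α.mat (Λ i)).rank ≤ α.rho

end Pool.Agent.MPf60e8a
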