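import Mathlib
import Pool.Agent.Lib.MP_f60e8a_al.Stmts

/-!
# Module BLOWUP: the blow-up limit map
-/

open scoped BigOperators commutatorElement

namespace Pool.Agent.MPf60e8a

namespace Blowup

variable {m k : ℕ} {α : Form m k} {ι : Type*}

/-- Coordinatewise convergence in the real group. -/
def Tend (l : Filter ι) (x : ι → Gam α ℝ) (y : Gam α ℝ) : Prop :=
  Filter.Tendsto (fun j => (x j).a) l (nhds y.a) ∧ Filter.Tendsto (fun j => (x j).b) l (nhds y.b)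

theorem tend_const (l : Filter ι) (y : Gam α ℝ) : Tend l (fun _ => y) y :=
  ⟨tendsto_const_nhds, tendsto_const_nhds⟩

theorem Tend.mono {l l' : Filter ι} {x : ι → Gam α ℝ} {y : Gam α ℝ} (h : Tend l x y)
    (hl : l' ≤ l) : Tend l' x y := ⟨h.1.mono_left hl, h.2.mono_left hl⟩

theorem tendsto_ev {l : Filter ι} {u v : ι → Fin m → ℝ} {u₀ v₀ : Fin m → ℝ}
    (hu : Filter.Tendsto u l (nhds u₀)) (hv : Filter.Tendsto v l (nhds v₀)) :
    Filter.Tendsto (fun j => α.ev (u j) (v j)) l (nhds (α.ev u₀ v₀)) := by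
  rw [tendsto_pi_nhds] at hu hv ⊢
  intro t
  simp only [Form.ev_apply]
  refine tendsto_finsetSum _ fun i _ => tendsto_finsetSum _ fun j _ => ?_
  exact (tendsto_const_nhds.mul (hu i)).mul (hv j)

theorem Tend.mul {l : Filter ι} {x y : ι → Gam α ℝ} {x₀ y₀ : Gam α ℝ} (hx : Tend l x x₀)
    (hy : Tend l y y₀) : Tend l (fun j => x j * y j) (x₀ * y₀) :=
  ⟨hx.1.add hy.1, (hx.2.add hy.2).add (tendsto_ev hx.1 hy.1)⟩

theorem Tend.inv {l : Filter ι} {x : ι → Gam α ℝ} {x₀ : Gam α ℝ} (hx : Tend l x x₀) :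
    Tend l (fun j => (x j)⁻¹) x₀⁻¹ := ⟨hx.1.neg, hx.2.neg⟩

theorem Tend.nrm {l : Filter ι} {x : ι → Gam α ℝ} {x₀ : Gam α ℝ} (hx : Tend l x x₀) :
    Filter.Tendsto (fun j => Gam.nrm (x j)) l (nhds (Gam.nrm x₀)) := by
  unfold Gam.nrm
  exact hx.1.norm.max ((Real.continuous_sqrt.tendsto _).comp (hx.2.norm.div_const _))

theorem Tend.unique {l : Filter ι} [l.NeBot] {x : ι → Gam α ℝ} {y z : Gam α ℝ}
    (hy : Tend l x y) (hz : Tend l x z) : y = z :=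
  Gam.ext (tendsto_nhds_unique hy.1 hz.1) (tendsto_nhds_unique hy.2 hz.2)

/-- The coordinatewise integral part of the dilation by `2 ^ j`. -/
noncomputable def fl (j : ℕ) (x : Gam α ℝ) : Gam α ℤ :=
  ⟨fun i => ⌊(2 : ℝ) ^ j * x.a i⌋, fun t => ⌊(2 : ℝ) ^ j * 2 ^ j * x.b t⌋⟩

/-- The dyadic approximation. -/
noncomputable def rr (j : ℕ) (x : Gam α ℝ) : Gam α ℝ :=
  Gam.dil ((2 : ℝ) ^ j)⁻¹ (Gam.toReal α (fl j x))

theorem tendsto_floor (c : ℕ → ℝ) (hc : Filter.Tendsto c Filter.atTop Filter.atTop) (x : ℝ) :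
    Filter.Tendsto (fun j => (c j)⁻¹ * (⌊c j * x⌋ : ℝ)) Filter.atTop (nhds x) := by
  have h1 : Filter.Tendsto (fun j => x - (c j)⁻¹) Filter.atTop (nhds x) := by
    simpa using tendsto_const_nhds.sub (tendsto_inv_atTop_zero.comp hc)
  refine tendsto_of_tendsto_of_tendsto_of_le_of_le' h1 tendsto_const_nhds ?_ ?_
  · filter_upwards [hc.eventually_gt_atTop 0] with j hj
    have := Int.lt_floor_add_one (c j * x)
    rw [← mul_le_mul_iff_right₀ hj]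
    have h2 : c j * (x - (c j)⁻¹) = c j * x - 1 := by
      field_simp
    have h3 : c j * ((c j)⁻¹ * (⌊c j * x⌋ : ℝ)) = ⌊c j * x⌋ := by
      field_simp
    rw [h2, h3]
    linarith
  · filter_upwards [hc.eventually_gt_atTop 0] with j hj
    have := Int.floor_le (c j * x)
    rw [inv_mul_le_iff₀ hj]
    exact this

theorem tendsto_two_pow : Filter.Tendsto (fun j : ℕ => (2 : ℝ) ^ j) Filter.atTop Filter.atTop :=
  tendsto_pow_atTop_atTop_of_one_lt (by norm_num)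

theorem tend_rr (x : Gam α ℝ) : Tend Filter.atTop (fun j => rr j x) x := by
  refine ⟨?_, ?_⟩
  · rw [tendsto_pi_nhds]
    intro i
    exact tendsto_floor _ tendsto_two_pow (x.a i)
  · rw [tendsto_pi_nhds]
    intro t
    have := tendsto_floor (fun j => (2 : ℝ) ^ j * 2 ^ j)
      (tendsto_two_pow.atTop_mul_atTop₀ tendsto_two_pow) (x.b t)
    refine this.congr fun j => ?_
    simp only [rr, fl, Gam.dil_b, Gam.toReal_b, Pi.smul_apply, smul_eq_mul, mul_inv]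

theorem fl_one (j : ℕ) : fl j (1 : Gam α ℝ) = 1 := by
  refine Gam.ext ?_ ?_
  · funext i
    simp [fl]
  · funext i
    simp [fl]

theorem fl_dyadic (j l : ℕ) (h : l ≤ j) (y : Gam α ℤ) :
    fl j (Gam.dil ((2 : ℝ) ^ l)⁻¹ (Gam.toReal α y)) = Gam.dil (2 ^ (j - l)) y := by
  have h2 : (2 : ℝ) ^ j = 2 ^ (j - l) * 2 ^ l := by
    rw [← pow_add]
    congr 1
    omega
  have h3 : ((2 : ℝ) ^ l) ≠ 0 := by positivity
  refine Gam.ext ?_ ?_
  · funext i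
    simp only [fl, Gam.dil_a, Gam.toReal_a, Pi.smul_apply, smul_eq_mul]
    have : (2 : ℝ) ^ j * (((2 : ℝ) ^ l)⁻¹ * (y.a i : ℝ)) = ((2 ^ (j - l) * y.a i : ℤ) : ℝ) := by
      rw [h2]
      push_cast
      field_simp
    rw [this, Int.floor_intCast]
  · funext i
    simp only [fl, Gam.dil_b, Gam.toReal_b, Pi.smul_apply, smul_eq_mul]
    have : (2 : ℝ) ^ j * (2 : ℝ) ^ j * (((2 : ℝ) ^ l)⁻¹ * ((2 : ℝ) ^ l)⁻¹ * (y.b i : ℝ))
        = ((2 ^ (j - l) * 2 ^ (j - l) * y.b i : ℤ) : ℝ) := by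
      rw [h2]
      push_cast
      field_simp
    rw [this, Int.floor_intCast]

/-- Bounded sequences have limits along an ultrafilter. -/
theorem exists_ultralimit {E : Type*} [NormedAddCommGroup E] [ProperSpace E] (𝒰 : Ultrafilter ℕ)
    (u : ℕ → E) (C : ℝ) (h : ∀ j, ‖u j‖ ≤ C) :
    ∃ a, Filter.Tendsto u (𝒰 : Filter ℕ) (nhds a) := by
  have hc : IsCompact (Metric.closedBall (0 : E) C) := isCompact_closedBall 0 C
  obtain ⟨a, -, ha⟩ := hc.ultrafilter_le_nhds (𝒰.map u) (by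
    rw [Filter.le_principal_iff]
    show u ⁻¹' _ ∈ (𝒰 : Filter ℕ)
    refine Filter.mem_of_superset Filter.univ_mem fun j _ => ?_
    simpa using h j)
  exact ⟨a, ha⟩

theorem nrm_bounded_of_tend {x : ℕ → Gam α ℝ} {x₀ : Gam α ℝ} (h : Tend Filter.atTop x x₀) :
    ∃ C : ℝ, ∀ j, Gam.nrm (x j) ≤ C := by
  obtain ⟨C, hC⟩ := h.nrm.bddAbove_range
  exact ⟨C, fun j => hC ⟨j, rfl⟩⟩

end Blowup

open Blowup in
theorem exists_limit {m₁ k₁ m₂ k₂ : ℕ} (α₁ : Form m₁ k₁) (α₂ : Form m₂ k₂)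
    (hB : HasBase α₁ m₂) : HasLimit α₁ α₂ := by
  intro f K hK hub hlb
  set P : Gam α₁ ℤ → Fin m₂ → ℝ := fun x => (Gam.toReal α₂ (f x)).a with hP
  have hPL : ∀ x y, ‖P x - P y‖ ≤ K * Gam.nrm (Gam.toReal α₁ (x⁻¹ * y)) + K := by
    intro x y
    have h1 := Gam.norm_a_le (Gam.toReal α₂ ((f x)⁻¹ * f y))
    have h2 : (Gam.toReal α₂ ((f x)⁻¹ * f y)).a = -(P x - P y) := by
      rw [map_mul, map_inv, Gam.mul_a, Gam.inv_a]
      simp only [hP]
      abel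
    rw [h2, norm_neg] at h1
    exact h1.trans (hub x y)
  obtain ⟨g, hg⟩ := hB P K hPL
  -- the rescaled maps
  set phi : ℕ → Gam α₁ ℝ → Gam α₂ ℝ := fun j x =>
    Gam.dil ((2 : ℝ) ^ j)⁻¹ (Gam.toReal α₂ ((f (g j))⁻¹ * f (g j * fl j x))) with hphi
  have hphi_mul : ∀ j x y, (phi j x)⁻¹ * phi j y = Gam.dil ((2 : ℝ) ^ j)⁻¹
      (Gam.toReal α₂ ((f (g j * fl j x))⁻¹ * f (g j * fl j y))) := by
    intro j x y
    simp only [hphi]
    rw [← map_inv, ← map_mul, ← map_inv, ← map_mul]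
    congr 2
    group
  have hrr_mul : ∀ j (x y : Gam α₁ ℝ), (rr j x)⁻¹ * rr j y = Gam.dil ((2 : ℝ) ^ j)⁻¹
      (Gam.toReal α₁ ((g j * fl j x)⁻¹ * (g j * fl j y))) := by
    intro j x y
    simp only [rr]
    rw [← map_inv, ← map_mul, ← map_inv, ← map_mul]
    congr 2
    group
  have habs : ∀ j : ℕ, |((2 : ℝ) ^ j)⁻¹| = ((2 : ℝ) ^ j)⁻¹ := fun j =>
    abs_of_pos (by positivity)
  have hphi_ub : ∀ j x y, Gam.nrm ((phi j x)⁻¹ * phi j y)
      ≤ K * Gam.nrm ((rr j x)⁻¹ * rr j y) + ((2 : ℝ) ^ j)⁻¹ * K := by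
    intro j x y
    rw [hphi_mul, hrr_mul, Gam.nrm_dil, Gam.nrm_dil, habs]
    have h1 := hub (g j * fl j x) (g j * fl j y)
    have h2 : (0 : ℝ) < ((2 : ℝ) ^ j)⁻¹ := by positivity
    have h3 := mul_le_mul_of_nonneg_left h1 h2.le
    linarith
  have hphi_lb : ∀ j x y, Gam.nrm ((rr j x)⁻¹ * rr j y)
      ≤ K * Gam.nrm ((phi j x)⁻¹ * phi j y) + ((2 : ℝ) ^ j)⁻¹ * K := by
    intro j x y
    rw [hphi_mul, hrr_mul, Gam.nrm_dil, Gam.nrm_dil, habs]
    have h1 := hlb (g j * fl j x) (g j * fl j y)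
    have h2 : (0 : ℝ) < ((2 : ℝ) ^ j)⁻¹ := by positivity
    have h3 := mul_le_mul_of_nonneg_left h1 h2.le
    linarith
  have hphi_one : ∀ j, phi j 1 = 1 := by
    intro j
    simp only [hphi, fl_one, mul_one, inv_mul_cancel, map_one]
  have hrr_one : ∀ j, rr j (1 : Gam α₁ ℝ) = 1 := by
    intro j
    simp only [rr, fl_one, map_one]
  -- boundedness
  have hbd : ∀ x, ∃ C : ℝ, ∀ j, Gam.nrm (phi j x) ≤ C := by
    intro x
    obtain ⟨C, hC⟩ := nrm_bounded_of_tend (tend_rr x)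
    refine ⟨K * C + K, fun j => ?_⟩
    have h1 := hphi_ub j 1 x
    rw [hphi_one, hrr_one, inv_one, one_mul, inv_one, one_mul] at h1
    have h2 : ((2 : ℝ) ^ j)⁻¹ ≤ 1 := inv_le_one_of_one_le₀ (one_le_pow₀ (by norm_num))
    have h3 := mul_le_mul_of_nonneg_left (hC j) hK.le
    have h4 := mul_le_mul_of_nonneg_right h2 hK.le
    linarith
  -- the limit
  set 𝒰 : Ultrafilter ℕ := Filter.hyperfilter ℕ with h𝒰
  have h𝒰le : (𝒰 : Filter ℕ) ≤ Filter.atTop := by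
    rw [← Nat.cofinite_eq_atTop]
    exact Filter.hyperfilter_le_cofinite
  have hlim : ∀ x, ∃ y : Gam α₂ ℝ, Tend (𝒰 : Filter ℕ) (fun j => phi j x) y := by
    intro x
    obtain ⟨C, hC⟩ := hbd x
    obtain ⟨a, ha⟩ := exists_ultralimit 𝒰 (fun j => (phi j x).a) C fun j =>
      (Gam.norm_a_le _).trans (hC j)
    obtain ⟨b, hb⟩ := exists_ultralimit 𝒰 (fun j => (phi j x).b) (α₂.bd * C ^ 2) fun j => by
      refine (Gam.norm_b_le _).trans ?_
      have h1 := α₂.bd_pos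
      have h2 := Gam.nrm_nonneg (phi j x)
      have h3 := pow_le_pow_left₀ h2 (hC j) 2
      exact mul_le_mul_of_nonneg_left h3 h1.le
    exact ⟨⟨a, b⟩, ha, hb⟩
  choose F hF using hlim
  have hsmall : Filter.Tendsto (fun j : ℕ => ((2 : ℝ) ^ j)⁻¹ * K) (𝒰 : Filter ℕ) (nhds 0) := by
    have : Filter.Tendsto (fun j : ℕ => ((2 : ℝ) ^ j)⁻¹ * K) Filter.atTop (nhds (0 * K)) :=
      (tendsto_inv_atTop_zero.comp tendsto_two_pow).mul_const K
    rw [zero_mul] at this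
    exact this.mono_left h𝒰le
  have hub' : ∀ x y, Gam.nrm ((F x)⁻¹ * F y) ≤ K * Gam.nrm (x⁻¹ * y) := by
    intro x y
    have h1 := ((hF x).inv.mul (hF y)).nrm
    have h2 := (((tend_rr x).inv.mul (tend_rr y)).nrm.mono_left h𝒰le).const_mul K
    have h3 := h2.add hsmall
    rw [add_zero] at h3
    exact le_of_tendsto_of_tendsto' h1 h3 fun j => hphi_ub j x y
  have hlb' : ∀ x y, Gam.nrm (x⁻¹ * y) ≤ K * Gam.nrm ((F x)⁻¹ * F y) := by
    intro x y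
    have h1 := ((hF x).inv.mul (hF y)).nrm.const_mul K
    have h2 := ((tend_rr x).inv.mul (tend_rr y)).nrm.mono_left h𝒰le
    have h3 := h1.add hsmall
    rw [add_zero] at h3
    exact le_of_tendsto_of_tendsto' h2 h3 fun j => hphi_lb j x y
  -- affinity at dyadic points
  have hdy : ∀ (l : ℕ) (y : Gam α₁ ℤ) (v : Fin m₁ → ℤ),
      (F (Gam.dil ((2 : ℝ) ^ l)⁻¹ (Gam.toReal α₁ y) *
          Gam.hor α₁ ((2 : ℝ) • (((2 : ℝ) ^ l)⁻¹ • fun i => (v i : ℝ))))).a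
        - (2 : ℝ) • (F (Gam.dil ((2 : ℝ) ^ l)⁻¹ (Gam.toReal α₁ y) *
          Gam.hor α₁ (((2 : ℝ) ^ l)⁻¹ • fun i => (v i : ℝ)))).a
        + (F (Gam.dil ((2 : ℝ) ^ l)⁻¹ (Gam.toReal α₁ y))).a = 0 := by
    intro l y v
    set x := Gam.dil ((2 : ℝ) ^ l)⁻¹ (Gam.toReal α₁ y) with hx
    have hxv : x * Gam.hor α₁ (((2 : ℝ) ^ l)⁻¹ • fun i => (v i : ℝ))
        = Gam.dil ((2 : ℝ) ^ l)⁻¹ (Gam.toReal α₁ (y * Gam.hor α₁ v)) := by
      rw [hx, map_mul, map_mul]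
      congr 1
      refine Gam.ext ?_ ?_
      · rfl
      · funext t
        simp
    have hxvv : x * Gam.hor α₁ ((2 : ℝ) • (((2 : ℝ) ^ l)⁻¹ • fun i => (v i : ℝ)))
        = Gam.dil ((2 : ℝ) ^ l)⁻¹ (Gam.toReal α₁ (y * Gam.hor α₁ v ^ 2)) := by
      rw [hx, map_mul, map_mul]
      congr 1
      rw [Gam.pow_eq]
      refine Gam.ext ?_ ?_
      · funext i
        simp
        ring
      · funext t
        simp
    have hpa : ∀ j z, (phi j z).a = ((2 : ℝ) ^ j)⁻¹ • (P (g j * fl j z) - P (g j)) := by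
      intro j z
      simp only [hphi, Gam.dil_a]
      congr 1
      rw [map_mul, map_inv, Gam.mul_a, Gam.inv_a]
      simp only [hP]
      abel
    have h1 := hg y v l
    have h2 : Filter.Tendsto (fun j : ℕ =>
        (phi j (Gam.dil ((2 : ℝ) ^ l)⁻¹ (Gam.toReal α₁ (y * Gam.hor α₁ v ^ 2)))).a
          - (2 : ℝ) • (phi j (Gam.dil ((2 : ℝ) ^ l)⁻¹ (Gam.toReal α₁ (y * Gam.hor α₁ v)))).a
          + (phi j x).a) Filter.atTop (nhds 0) := by
      have h3 := h1.const_smul ((2 : ℝ) ^ l)⁻¹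
      rw [smul_zero] at h3
      refine h3.congr' ?_
      filter_upwards [Filter.eventually_ge_atTop l] with j hj
      rw [hpa, hpa, hpa, hx, fl_dyadic j l hj, fl_dyadic j l hj, fl_dyadic j l hj]
      have e1 : g j * Gam.dil (2 ^ (j - l)) (y * Gam.hor α₁ v)
          = g j * Gam.dil (2 ^ (j - l)) y * Gam.hor α₁ ((2 ^ (j - l) : ℤ) • v) := by
        rw [map_mul, mul_assoc]
        congr 2
      have e2 : g j * Gam.dil (2 ^ (j - l)) (y * Gam.hor α₁ v ^ 2)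
          = g j * Gam.dil (2 ^ (j - l)) y * Gam.hor α₁ ((2 ^ (j - l) : ℤ) • v) ^ 2 := by
        rw [map_mul, mul_assoc, map_pow]
        congr 3
      rw [e1, e2]
      have e3 : ((2 : ℝ) ^ j)⁻¹ = ((2 : ℝ) ^ l)⁻¹ * ((2 : ℝ) ^ (j - l))⁻¹ := by
        rw [← mul_inv, ← pow_add]
        congr 2
        omega
      rw [e3, mul_smul, mul_smul, mul_smul, smul_comm (2 : ℝ) (((2 : ℝ) ^ l)⁻¹) _,
        ← smul_sub, ← smul_add]
      congr 1
      rw [smul_comm (2 : ℝ) (((2 : ℝ) ^ (j - l))⁻¹) _, ← smul_sub, ← smul_add]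
      congr 1
      rw [smul_sub, two_smul, two_smul]
      abel
    have h3 := h2.mono_left h𝒰le
    have h4 := ((hF (Gam.dil ((2 : ℝ) ^ l)⁻¹ (Gam.toReal α₁ (y * Gam.hor α₁ v ^ 2)))).1.sub
      ((hF (Gam.dil ((2 : ℝ) ^ l)⁻¹ (Gam.toReal α₁ (y * Gam.hor α₁ v)))).1.const_smul
        (2 : ℝ))).add (hF x).1
    rw [hxv, hxvv]
    exact tendsto_nhds_unique h4 h3
  -- continuity of the horizontal part
  have hcont : ∀ (z : ℕ → Gam α₁ ℝ) (z₀ : Gam α₁ ℝ), Tend Filter.atTop z z₀ →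
      Filter.Tendsto (fun n => (F (z n)).a) Filter.atTop (nhds (F z₀).a) := by
    intro z z₀ hz
    rw [tendsto_iff_norm_sub_tendsto_zero]
    have h1 := (((tend_const Filter.atTop z₀).inv.mul hz).nrm).const_mul K
    rw [inv_mul_cancel, Gam.nrm_one, mul_zero] at h1
    refine squeeze_zero (fun _ => norm_nonneg _) (fun n => ?_) h1
    have h2 := Gam.norm_a_le ((F z₀)⁻¹ * F (z n))
    have h3 : ((F z₀)⁻¹ * F (z n)).a = (F (z n)).a - (F z₀).a := by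
      rw [Gam.mul_a, Gam.inv_a]
      abel
    rw [h3] at h2
    exact h2.trans (hub' _ _)
  refine ⟨F, ?_, hub', hlb', ?_⟩
  · refine (hF 1).unique ?_
    simp only [hphi_one]
    exact tend_const _ _
  · intro x v
    have hv : Filter.Tendsto (fun n : ℕ => ((2 : ℝ) ^ n)⁻¹ •
        fun i => ((⌊(2 : ℝ) ^ n * v i⌋ : ℤ) : ℝ)) Filter.atTop (nhds v) := by
      rw [tendsto_pi_nhds]
      intro i
      exact tendsto_floor _ tendsto_two_pow (v i)
    have hz1 : Tend Filter.atTop (fun n : ℕ => rr n x * Gam.hor α₁ (((2 : ℝ) ^ n)⁻¹ •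
        fun i => ((⌊(2 : ℝ) ^ n * v i⌋ : ℤ) : ℝ))) (x * Gam.hor α₁ v) :=
      (tend_rr x).mul ⟨hv, tendsto_const_nhds⟩
    have hz2 : Tend Filter.atTop (fun n : ℕ => rr n x * Gam.hor α₁ ((2 : ℝ) •
        (((2 : ℝ) ^ n)⁻¹ • fun i => ((⌊(2 : ℝ) ^ n * v i⌋ : ℤ) : ℝ))))
        (x * Gam.hor α₁ ((2 : ℝ) • v)) :=
      (tend_rr x).mul ⟨hv.const_smul (2 : ℝ), tendsto_const_nhds⟩
    have h1 := ((hcont _ _ hz2).sub ((hcont _ _ hz1).const_smul (2 : ℝ))).add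
      (hcont _ _ (tend_rr x))
    refine tendsto_nhds_unique h1 ?_
    refine tendsto_const_nhds.congr fun n => ?_
    exact (hdy n (fl n x) (fun i => ⌊(2 : ℝ) ^ n * v i⌋)).symm

end Pool.Agent.MPf60e8a
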