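import Mathlib
import Pool.Agent.Lib.MP_f60e8a_al.Stmts

set_option autoImplicit false

/-!
# A bi-Lipschitz map which is midpoint-affine along horizontal lines is linear
-/

open scoped BigOperators

namespace Pool.Agent.MPf60e8a

namespace Deriv

theorem nonpos_of_nat_mul_le {d C : ℝ} (h : ∀ n : ℕ, 1 ≤ n → (n : ℝ) * d ≤ C) : d ≤ 0 := by
  by_contra hd
  push Not at hd
  obtain ⟨n, hn⟩ := exists_nat_gt (C / d)
  have h1 := h (n + 1) (by omega)
  rw [div_lt_iff₀ hd] at hn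
  push_cast at h1
  nlinarith

section

variable {m k : ℕ} {α : Form m k}

theorem nrm_hor (v : Fin m → ℝ) : Gam.nrm (Gam.hor α v) = ‖v‖ := by
  simp [Gam.nrm]

theorem hor_smul_mul (s t : ℝ) (v : Fin m → ℝ) :
    Gam.hor α (s • v) * Gam.hor α (t • v) = Gam.hor α ((s + t) • v) := by
  refine Gam.ext ?_ ?_
  · simp [add_smul]
  · simp [Form.ev_smul_left, Form.ev_smul_right, Form.ev_self]

theorem hor_neg (v : Fin m → ℝ) : Gam.hor α (-v) = (Gam.hor α v)⁻¹ := by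
  refine Gam.ext ?_ ?_ <;> simp

theorem ver_comm (v w : Fin m → ℝ) :
    Gam.ver α ((2 : ℝ) • α.ev v w) =
      Gam.hor α v * Gam.hor α w * Gam.hor α (-v) * Gam.hor α (-w) := by
  rw [hor_neg, hor_neg, Gam.comm_eq]
  rfl

theorem hor_mul_hor (v w : Fin m → ℝ) :
    Gam.hor α v * Gam.hor α w = Gam.hor α (v + w) * Gam.ver α (α.ev v w) := by
  refine Gam.ext ?_ ?_ <;> simp

theorem ver_mul_ver (c d : Fin k → ℝ) : Gam.ver α c * Gam.ver α d = Gam.ver α (c + d) := by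
  refine Gam.ext ?_ ?_ <;> simp

theorem ev_half (v w : Fin m → ℝ) : (2 : ℝ) • α.ev ((1 / 2 : ℝ) • v) w = α.ev v w := by
  rw [Form.ev_smul_left, smul_smul]
  norm_num

theorem nrm_conj_le (x : Gam α ℝ) (v : Fin m → ℝ) : ∃ R : ℝ, 0 ≤ R ∧ ∀ n : ℕ, 1 ≤ n →
    Gam.nrm ((x * Gam.hor α (((n : ℝ) ^ 2) • v))⁻¹ * Gam.hor α (((n : ℝ) ^ 2) • v)) ≤ n * R := by
  have hp := α.bd_pos
  have hp1 : (1 : ℝ) ≤ α.bd := by
    have : (0 : ℤ) < α.bd := by exact_mod_cast hp
    exact_mod_cast this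
  refine ⟨1 + ‖x.a‖ + ‖x.b‖ + 2 * ‖α.ev v x.a‖, by positivity, fun n hn => ?_⟩
  have hn1 : (1 : ℝ) ≤ n := by exact_mod_cast hn
  set N : ℝ := (n : ℝ) with hN
  have ha := norm_nonneg x.a
  have hb := norm_nonneg x.b
  have he := norm_nonneg (α.ev v x.a)
  set R : ℝ := 1 + ‖x.a‖ + ‖x.b‖ + 2 * ‖α.ev v x.a‖ with hR
  have hR1 : 1 ≤ R := by linarith
  have e1 : ((x * Gam.hor α ((N ^ 2) • v))⁻¹ * Gam.hor α ((N ^ 2) • v)).a = - x.a := by
    simp
  have e2 : ((x * Gam.hor α ((N ^ 2) • v))⁻¹ * Gam.hor α ((N ^ 2) • v)).b =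
      - x.b + ((2 * N ^ 2) • α.ev v x.a) := by
    simp only [Gam.mul_b, Gam.inv_b, Gam.inv_a, Gam.mul_a, Gam.hor_a, Gam.hor_b, Form.ev_neg_left,
      Form.ev_add_left, Form.ev_smul_right, Form.ev_smul_left, Form.ev_self]
    rw [α.ev_anti x.a v]
    funext t
    simp only [Pi.add_apply, Pi.neg_apply, Pi.smul_apply, smul_eq_mul, Pi.zero_apply]
    ring
  refine Gam.nrm_le_of (by positivity) ?_ ?_
  · rw [e1, norm_neg]
    nlinarith
  · rw [e2]
    have h1 : ‖-x.b + (2 * N ^ 2) • α.ev v x.a‖ ≤ ‖x.b‖ + 2 * N ^ 2 * ‖α.ev v x.a‖ := by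
      refine (norm_add_le _ _).trans ?_
      rw [norm_neg, norm_smul, Real.norm_eq_abs, abs_of_nonneg (by positivity)]
    have hN2 : 1 ≤ N ^ 2 := by nlinarith
    have h2 : ‖x.b‖ + 2 * N ^ 2 * ‖α.ev v x.a‖ ≤ N ^ 2 * R := by
      rw [hR]
      nlinarith
    have h3 : N ^ 2 * R ≤ (N * R) ^ 2 := by
      rw [mul_pow]
      have : R ≤ R ^ 2 := by nlinarith
      gcongr
    have h4 : (N * R) ^ 2 ≤ α.bd * (N * R) ^ 2 := by nlinarith [sq_nonneg (N * R)]
    linarith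

end

section

variable {m₁ k₁ m₂ k₂ : ℕ} {α₁ : Form m₁ k₁} {α₂ : Form m₂ k₂}
    {F : Gam α₁ ℝ → Gam α₂ ℝ} {K : ℝ}

theorem iterate
    (haff : ∀ (x : Gam α₁ ℝ) (v : Fin m₁ → ℝ),
        (F (x * Gam.hor α₁ ((2 : ℝ) • v))).a - (2 : ℝ) • (F (x * Gam.hor α₁ v)).a + (F x).a
          = 0) (x : Gam α₁ ℝ) (v : Fin m₁ → ℝ) (n : ℕ) :
    (F (x * Gam.hor α₁ ((n : ℝ) • v))).a =
      (F x).a + (n : ℝ) • ((F (x * Gam.hor α₁ v)).a - (F x).a) := by
  induction n using Nat.twoStepInduction with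
  | zero =>
    have h0 : x * Gam.hor α₁ (((0 : ℕ) : ℝ) • v) = x := by
      refine Gam.ext ?_ ?_ <;> simp
    rw [h0]
    simp
  | one => simp
  | more n ih1 ih2 =>
    have h := haff (x * Gam.hor α₁ ((n : ℝ) • v)) v
    have e1 : x * Gam.hor α₁ ((n : ℝ) • v) * Gam.hor α₁ ((2 : ℝ) • v) =
        x * Gam.hor α₁ (((n + 2 : ℕ) : ℝ) • v) := by
      rw [mul_assoc, hor_smul_mul]
      push_cast
      rfl
    have e2 : x * Gam.hor α₁ ((n : ℝ) • v) * Gam.hor α₁ v =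
        x * Gam.hor α₁ (((n + 1 : ℕ) : ℝ) • v) := by
      have := hor_smul_mul (α := α₁) (n : ℝ) 1 v
      rw [one_smul] at this
      rw [mul_assoc, this]
      push_cast
      rfl
    rw [e1, e2, ih1, ih2] at h
    have h' : (F (x * Gam.hor α₁ (((n + 2 : ℕ) : ℝ) • v))).a =
        (2 : ℝ) • ((F x).a + ((n + 1 : ℕ) : ℝ) • ((F (x * Gam.hor α₁ v)).a - (F x).a)) -
        ((F x).a + (n : ℝ) • ((F (x * Gam.hor α₁ v)).a - (F x).a)) := by
      funext i
      have := congrFun h i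
      simp only [Pi.add_apply, Pi.sub_apply, Pi.smul_apply, smul_eq_mul, Pi.zero_apply] at this ⊢
      linarith
    rw [h']
    funext i
    simp only [Pi.add_apply, Pi.sub_apply, Pi.smul_apply, smul_eq_mul]
    push_cast
    ring

theorem base_indep (hK : 0 < K) (h1 : F 1 = 1)
    (hub : ∀ x y, Gam.nrm ((F x)⁻¹ * F y) ≤ K * Gam.nrm (x⁻¹ * y))
    (haff : ∀ (x : Gam α₁ ℝ) (v : Fin m₁ → ℝ),
        (F (x * Gam.hor α₁ ((2 : ℝ) • v))).a - (2 : ℝ) • (F (x * Gam.hor α₁ v)).a + (F x).a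
          = 0) (x : Gam α₁ ℝ) (v : Fin m₁ → ℝ) :
    (F (x * Gam.hor α₁ v)).a = (F x).a + (F (Gam.hor α₁ v)).a := by
  obtain ⟨R, hR0, hR⟩ := nrm_conj_le x v
  have hd : ‖((F (x * Gam.hor α₁ v)).a - (F x).a) - (F (Gam.hor α₁ v)).a‖ ≤ 0 := by
    refine nonpos_of_nat_mul_le (C := K * R + ‖(F x).a‖) fun n hn => ?_
    have hn1 : (1 : ℝ) ≤ n := by exact_mod_cast hn
    have h2 := iterate haff x v (n ^ 2)
    have h3 := iterate haff 1 v (n ^ 2)
    rw [one_mul, one_mul, h1, Gam.one_a, sub_zero, zero_add] at h3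
    push_cast at h2 h3
    have h4 := hub (x * Gam.hor α₁ (((n : ℝ) ^ 2) • v)) (Gam.hor α₁ (((n : ℝ) ^ 2) • v))
    have h5 := (Gam.norm_a_le _).trans (h4.trans (mul_le_mul_of_nonneg_left (hR n hn) hK.le))
    rw [Gam.mul_a, Gam.inv_a, h2, h3] at h5
    have h6 : ((n : ℝ) ^ 2) • (((F (x * Gam.hor α₁ v)).a - (F x).a) - (F (Gam.hor α₁ v)).a) =
        -(-((F x).a + ((n : ℝ) ^ 2) • ((F (x * Gam.hor α₁ v)).a - (F x).a)) +
          ((n : ℝ) ^ 2) • (F (Gam.hor α₁ v)).a) - (F x).a := by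
      funext i
      simp only [Pi.add_apply, Pi.sub_apply, Pi.smul_apply, smul_eq_mul, Pi.neg_apply]
      ring
    have h7 := norm_sub_le (-(-((F x).a + ((n : ℝ) ^ 2) • ((F (x * Gam.hor α₁ v)).a - (F x).a)) +
          ((n : ℝ) ^ 2) • (F (Gam.hor α₁ v)).a)) (F x).a
    rw [← h6, norm_neg, norm_smul, Real.norm_eq_abs, abs_of_nonneg (by positivity)] at h7
    have h8 : (n : ℝ) * ((n : ℝ) *
        ‖((F (x * Gam.hor α₁ v)).a - (F x).a) - (F (Gam.hor α₁ v)).a‖) ≤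
        (n : ℝ) * (K * R + ‖(F x).a‖) := by
      have h9 : ‖(F x).a‖ ≤ n * ‖(F x).a‖ := by
        have := norm_nonneg (F x).a
        nlinarith
      calc _ = (n : ℝ) ^ 2 *
            ‖((F (x * Gam.hor α₁ v)).a - (F x).a) - (F (Gam.hor α₁ v)).a‖ := by ring
        _ ≤ _ := h7
        _ ≤ K * (n * R) + n * ‖(F x).a‖ := add_le_add h5 h9
        _ = _ := by ring
    exact le_of_mul_le_mul_left h8 (by linarith)
  have h2 := norm_le_zero_iff.mp hd
  funext i
  have := congrFun h2 i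
  simp only [Pi.sub_apply, Pi.zero_apply, Pi.add_apply] at this ⊢
  linarith

end

end Deriv

open Deriv in
/-- A bi-Lipschitz map which is midpoint-affine along horizontal lines is given by
linear maps intertwining the forms. -/
theorem exists_linear {m₁ k₁ m₂ k₂ : ℕ} (α₁ : Form m₁ k₁) (α₂ : Form m₂ k₂)
    (h₁ : α₁.Spanning)
    (F : Gam α₁ ℝ → Gam α₂ ℝ) (K : ℝ) (hK : 0 < K) (h1 : F 1 = 1)
    (hub : ∀ x y, Gam.nrm ((F x)⁻¹ * F y) ≤ K * Gam.nrm (x⁻¹ * y))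
    (hlb : ∀ x y, Gam.nrm (x⁻¹ * y) ≤ K * Gam.nrm ((F x)⁻¹ * F y))
    (haff : ∀ (x : Gam α₁ ℝ) (v : Fin m₁ → ℝ),
        (F (x * Gam.hor α₁ ((2 : ℝ) • v))).a - (2 : ℝ) • (F (x * Gam.hor α₁ v)).a + (F x).a
          = 0) :
    ∃ (A : (Fin m₁ → ℝ) →ₗ[ℝ] (Fin m₂ → ℝ)) (B : (Fin k₁ → ℝ) →ₗ[ℝ] (Fin k₂ → ℝ)),
      Function.Injective A ∧ Function.Injective B ∧
      ∀ v w, B (α₁.ev v w) = α₂.ev (A v) (A w) := by
  have hD := base_indep hK h1 hub haff
  -- the map `A`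
  have hneg : ∀ v, (F (Gam.hor α₁ (-v))).a = - (F (Gam.hor α₁ v)).a := by
    intro v
    have h2 := hD (Gam.hor α₁ v) (-v)
    rw [hor_neg, mul_inv_cancel, h1, Gam.one_a] at h2
    rw [hor_neg]
    exact (neg_eq_of_add_eq_zero_right h2.symm).symm
  have hver : ∀ x v w, (F (x * Gam.ver α₁ ((2 : ℝ) • α₁.ev v w))).a = (F x).a := by
    intro x v w
    rw [ver_comm, ← mul_assoc, ← mul_assoc, ← mul_assoc, hD, hD, hD, hD, hneg, hneg]
    abel
  have hadd : ∀ v w, (F (Gam.hor α₁ (v + w))).a = (F (Gam.hor α₁ v)).a + (F (Gam.hor α₁ w)).a := by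
    intro v w
    rw [← hD, hor_mul_hor, ← ev_half, hver]
  have hnormA : ∀ v, ‖(F (Gam.hor α₁ v)).a‖ ≤ K * ‖v‖ := by
    intro v
    have h2 := hub 1 (Gam.hor α₁ v)
    rw [h1, inv_one, one_mul, inv_one, one_mul, nrm_hor] at h2
    exact (Gam.norm_a_le _).trans h2
  let A₀ : (Fin m₁ → ℝ) →+ (Fin m₂ → ℝ) := AddMonoidHom.mk' (fun v => (F (Gam.hor α₁ v)).a) hadd
  let A₁ : (Fin m₁ → ℝ) →L[ℝ] (Fin m₂ → ℝ) :=
    A₀.toRealLinearMap (AddMonoidHomClass.continuous_of_bound A₀ K hnormA)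
  let A : (Fin m₁ → ℝ) →ₗ[ℝ] (Fin m₂ → ℝ) := A₁.toLinearMap
  have hA : ∀ v, A v = (F (Gam.hor α₁ v)).a := fun v => rfl
  -- the map is a homomorphism along horizontal lines
  have hbound : ∀ x v, ‖((F x)⁻¹ * F (x * Gam.hor α₁ v)).b‖ ≤ α₂.bd * (K * ‖v‖) ^ 2 := by
    intro x v
    have h2 := hub x (x * Gam.hor α₁ v)
    rw [inv_mul_cancel_left, nrm_hor] at h2
    refine (Gam.norm_b_le _).trans ?_
    have := α₂.bd_pos
    have := Gam.nrm_nonneg ((F x)⁻¹ * F (x * Gam.hor α₁ v))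
    gcongr
  have hya : ∀ x v, ((F x)⁻¹ * F (x * Gam.hor α₁ v)).a = A v := by
    intro x v
    rw [Gam.mul_a, Gam.inv_a, hD, hA]
    abel
  have hiter : ∀ (n : ℕ) x v, ‖((F x)⁻¹ * F (x * Gam.hor α₁ ((n : ℝ) • v))).b‖ ≤
      n * (α₂.bd * (K * ‖v‖) ^ 2) := by
    intro n
    induction n with
    | zero =>
      intro x v
      have h0 : x * Gam.hor α₁ (((0 : ℕ) : ℝ) • v) = x := by
        refine Gam.ext ?_ ?_ <;> simp
      rw [h0, inv_mul_cancel]
      simp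
    | succ n ih =>
      intro x v
      have e1 : x * Gam.hor α₁ (((n + 1 : ℕ) : ℝ) • v) =
          x * Gam.hor α₁ ((n : ℝ) • v) * Gam.hor α₁ v := by
        have := hor_smul_mul (α := α₁) (n : ℝ) 1 v
        rw [one_smul] at this
        rw [mul_assoc, this]
        push_cast
        rfl
      have e2 : (F x)⁻¹ * F (x * Gam.hor α₁ (((n + 1 : ℕ) : ℝ) • v)) =
          ((F x)⁻¹ * F (x * Gam.hor α₁ ((n : ℝ) • v))) *
          ((F (x * Gam.hor α₁ ((n : ℝ) • v)))⁻¹ *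
            F (x * Gam.hor α₁ ((n : ℝ) • v) * Gam.hor α₁ v)) := by
        rw [e1]
        group
      rw [e2, Gam.mul_b, hya, hya, map_smul, Form.ev_smul_left, Form.ev_self, smul_zero, add_zero]
      refine (norm_add_le _ _).trans ?_
      have h2 := ih x v
      have h3 := hbound (x * Gam.hor α₁ ((n : ℝ) • v)) v
      push_cast
      linarith
  have hyb : ∀ x v, ((F x)⁻¹ * F (x * Gam.hor α₁ v)).b = 0 := by
    intro x v
    refine norm_le_zero_iff.mp ?_
    refine nonpos_of_nat_mul_le (C := α₂.bd * (K * ‖v‖) ^ 2) fun n hn => ?_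
    have hn0 : (0 : ℝ) < n := by exact_mod_cast hn
    have h2 := hiter n x ((n : ℝ)⁻¹ • v)
    rw [smul_smul, mul_inv_cancel₀ hn0.ne', one_smul, norm_smul, Real.norm_eq_abs,
      abs_of_nonneg (by positivity)] at h2
    calc (n : ℝ) * ‖((F x)⁻¹ * F (x * Gam.hor α₁ v)).b‖ ≤
        n * (n * (α₂.bd * (K * ((n : ℝ)⁻¹ * ‖v‖)) ^ 2)) := by gcongr
      _ = α₂.bd * (K * ‖v‖) ^ 2 := by
        field_simp
  have hhom : ∀ x v, F (x * Gam.hor α₁ v) = F x * Gam.hor α₂ (A v) := by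
    intro x v
    have : (F x)⁻¹ * F (x * Gam.hor α₁ v) = Gam.hor α₂ (A v) := Gam.ext (hya x v) (hyb x v)
    rw [← this, mul_inv_cancel_left]
  have hverhom : ∀ x v w, F (x * Gam.ver α₁ ((2 : ℝ) • α₁.ev v w)) =
      F x * Gam.ver α₂ ((2 : ℝ) • α₂.ev (A v) (A w)) := by
    intro x v w
    rw [ver_comm, ver_comm, ← mul_assoc, ← mul_assoc, ← mul_assoc, hhom, hhom, hhom, hhom,
      map_neg, map_neg]
    simp only [mul_assoc]
  -- the real span of the values
  have hspan : ∀ c : Fin k₁ → ℝ,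
      c ∈ Submodule.span ℝ {c | ∃ v w, c = α₁.ev v w} := by
    have hq : ∀ c : Fin k₁ → ℚ, (fun t => (c t : ℝ)) ∈
        Submodule.span ℝ {c | ∃ v w, c = α₁.ev v w} := by
      intro c
      have hc : c ∈ Submodule.span ℚ
          (Set.range fun p : Fin m₁ × Fin m₁ => fun t => (α₁.c p.1 p.2 t : ℚ)) := by
        rw [h₁]
        trivial
      induction hc using Submodule.span_induction with
      | mem x hx =>
        obtain ⟨⟨i, j⟩, rfl⟩ := hx
        refine Submodule.subset_span ⟨Pi.single i 1, Pi.single j 1, ?_⟩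
        funext t
        rw [Form.ev_apply]
        simp [Pi.single_apply]
      | zero =>
        have : (fun t : Fin k₁ => (((0 : Fin k₁ → ℚ) t : ℚ) : ℝ)) = 0 := by
          funext t
          simp
        rw [this]
        exact Submodule.zero_mem _
      | add x y _ _ hx hy =>
        have : (fun t : Fin k₁ => (((x + y) t : ℚ) : ℝ)) =
            (fun t => (x t : ℝ)) + fun t => (y t : ℝ) := by
          funext t
          simp
        rw [this]
        exact Submodule.add_mem _ hx hy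
      | smul r x _ hx =>
        have : (fun t : Fin k₁ => (((r • x) t : ℚ) : ℝ)) = (r : ℝ) • fun t => (x t : ℝ) := by
          funext t
          simp
        rw [this]
        exact Submodule.smul_mem _ _ hx
    intro c
    rw [pi_eq_sum_univ c]
    refine Submodule.sum_mem _ fun t _ => Submodule.smul_mem _ _ ?_
    have := hq (fun j => if t = j then 1 else 0)
    have e : (fun j => (((if t = j then 1 else 0 : ℚ)) : ℝ)) =
        fun j => if t = j then (1 : ℝ) else 0 := by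
      funext j
      split_ifs <;> simp
    rwa [e] at this
  -- the map `B`
  have hB : ∀ c : Fin k₁ → ℝ, ∃ d : Fin k₂ → ℝ, ∀ (r : ℝ) x,
      F (x * Gam.ver α₁ (r • c)) = F x * Gam.ver α₂ (r • d) := by
    intro c
    induction hspan c using Submodule.span_induction with
    | mem x hx =>
      obtain ⟨v, w, rfl⟩ := hx
      refine ⟨α₂.ev (A v) (A w), fun r x => ?_⟩
      have e1 : r • α₁.ev v w = (2 : ℝ) • α₁.ev ((r / 2) • v) w := by
        rw [Form.ev_smul_left, smul_smul]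
        congr 1
        ring
      have e2 : r • α₂.ev (A v) (A w) = (2 : ℝ) • α₂.ev (A ((r / 2) • v)) (A w) := by
        rw [map_smul, Form.ev_smul_left, smul_smul]
        congr 1
        ring
      rw [e1, e2, hverhom]
    | zero =>
      refine ⟨0, fun r x => ?_⟩
      have e1 : x * Gam.ver α₁ (r • 0) = x := by
        refine Gam.ext ?_ ?_ <;> simp
      have e2 : F x * Gam.ver α₂ (r • 0) = F x := by
        refine Gam.ext ?_ ?_ <;> simp
      rw [e1, e2]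
    | add c c' _ _ hc hc' =>
      obtain ⟨d, hd⟩ := hc
      obtain ⟨d', hd'⟩ := hc'
      refine ⟨d + d', fun r x => ?_⟩
      rw [smul_add, smul_add, ← ver_mul_ver, ← ver_mul_ver, ← mul_assoc, hd', hd, mul_assoc]
    | smul s c _ hc =>
      obtain ⟨d, hd⟩ := hc
      refine ⟨s • d, fun r x => ?_⟩
      rw [smul_smul, smul_smul, hd]
  choose B₀ hB₀ using hB
  have hB1 : ∀ c x, F (x * Gam.ver α₁ c) = F x * Gam.ver α₂ (B₀ c) := by
    intro c x
    have := hB₀ c 1 x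
    rwa [one_smul, one_smul] at this
  have hBu : ∀ c, F (Gam.ver α₁ c) = Gam.ver α₂ (B₀ c) := by
    intro c
    have := hB1 c 1
    rwa [one_mul, h1, one_mul] at this
  have hinj : ∀ {c d : Fin k₂ → ℝ}, Gam.ver α₂ c = Gam.ver α₂ d → c = d := by
    intro c d h
    exact congrArg Gam.b h
  let B : (Fin k₁ → ℝ) →ₗ[ℝ] (Fin k₂ → ℝ) :=
    { toFun := B₀
      map_add' := by
        intro c d
        apply hinj
        rw [← hBu, ← ver_mul_ver, hB1, hBu, ver_mul_ver]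
      map_smul' := by
        intro r c
        apply hinj
        have := hB₀ c r 1
        rw [one_mul, h1, one_mul] at this
        rw [← hBu, this]
        rfl }
  refine ⟨A, B, ?_, ?_, ?_⟩
  · rw [← LinearMap.ker_eq_bot, LinearMap.ker_eq_bot']
    intro v hv
    have h2 := hlb 1 (Gam.hor α₁ v)
    have h3 := hhom 1 v
    rw [one_mul, h1, one_mul, hv] at h3
    rw [h1, inv_one, inv_one, one_mul, one_mul, h3, nrm_hor, nrm_hor, norm_zero, mul_zero] at h2
    exact norm_le_zero_iff.mp h2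
  · rw [← LinearMap.ker_eq_bot, LinearMap.ker_eq_bot']
    intro c hc
    have hc' : B₀ c = 0 := hc
    have h2 := hlb 1 (Gam.ver α₁ c)
    have h3 : F (Gam.ver α₁ c) = 1 := by
      rw [hBu, hc']
      rfl
    rw [h1, inv_one, inv_one, one_mul, one_mul, h3, Gam.nrm_one, mul_zero] at h2
    have h4 := Gam.nrm_eq_zero (le_antisymm h2 (Gam.nrm_nonneg _))
    exact congrArg Gam.b h4
  · intro v w
    show B₀ (α₁.ev v w) = _
    apply hinj
    rw [← hBu]
    have h2 := hverhom 1 ((1 / 2 : ℝ) • v) w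
    rw [one_mul, h1, one_mul, ev_half, map_smul, ev_half] at h2
    exact h2

end Pool.Agent.MPf60e8a
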