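import Mathlib
import Pool.Agent.Lib.MP_f60e8a_al.Stmts

set_option autoImplicit false

/-!
# Rank and minors
-/

open scoped BigOperators

namespace Pool.Agent.MPf60e8a

namespace Minor

theorem exists_indep {F V : Type*} [Field F] [AddCommGroup V] [Module F V]
    [FiniteDimensional F V] (s : Set V) (r : ℕ)
    (hr : r < Module.finrank F (Submodule.span F s)) :
    ∃ v : Fin (r + 1) → V, (∀ i, v i ∈ s) ∧ LinearIndependent F v := by
  obtain ⟨u, hu1, -, hu3⟩ := Submodule.exists_fun_fin_finrank_span_eq F s
  exact ⟨fun i => u (Fin.castLE hr i), fun i => hu1 _, hu3.comp _ (Fin.castLE_injective hr)⟩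

end Minor

theorem rank_le_iff_minors {F : Type*} [Field F] {m n : ℕ} (M : Matrix (Fin m) (Fin n) F)
    (r : ℕ) : M.rank ≤ r ↔
      ∀ (f : Fin (r + 1) → Fin m) (g : Fin (r + 1) → Fin n), (M.submatrix f g).det = 0 := by
  constructor
  · intro h f g
    by_contra hne
    have h1 := Matrix.rank_of_det_ne_zero hne
    have h2 := Matrix.rank_submatrix_le M f g
    rw [h1, Fintype.card_fin] at h2
    omega
  · intro h
    by_contra hr
    push Not at hr
    -- independent rows
    obtain ⟨u, hu1, hu2⟩ := Minor.exists_indep (Set.range M.row) r
      (by rwa [← Matrix.rank_eq_finrank_span_row])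
    choose f hf using hu1
    have hN : (M.submatrix f id).row = u := funext fun i => hf i
    have hrank : (M.submatrix f id).rank = r + 1 := by
      rw [LinearIndependent.rank_matrix (by rw [hN]; exact hu2), Fintype.card_fin]
    -- independent columns
    obtain ⟨v, hv1, hv2⟩ := Minor.exists_indep (Set.range (M.submatrix f id).col) r
      (by rw [← Matrix.rank_eq_finrank_span_cols, hrank]; omega)
    choose g hg using hv1
    have hC : (M.submatrix f g).col = v := funext fun i => hg i
    have hunit := Matrix.linearIndependent_cols_iff_isUnit.mp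
      (show LinearIndependent F (M.submatrix f g).col by rw [hC]; exact hv2)
    have hdet := (Matrix.isUnit_iff_isUnit_det _).mp hunit
    rw [h f g] at hdet
    exact not_isUnit_zero hdet

end Pool.Agent.MPf60e8a
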