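import Mathlib
import Pool.Agent.Lib.MP_f60e8a_al.Stmts
import Pool.Agent.Lib.MP_f60e8a_al.Minor

set_option autoImplicit false

/-!
# A rational vector orthogonal to all functionals of small rank
-/

open scoped BigOperators

namespace Pool.Agent.MPf60e8a

namespace Descent

variable {m k : ℕ} (α : Form m k)

theorem minor_map {R S : Type*} [CommRing R] [CommRing S] (φ : R →+* S) (l : Fin k → R)
    {r : ℕ} (f g : Fin r → Fin m) :
    ((α.mat (fun t => φ (l t))).submatrix f g).det = φ ((α.mat l).submatrix f g).det := by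
  rw [RingHom.map_det]
  congr 1
  ext i j
  simp [Form.mat, Matrix.submatrix_apply, map_sum, map_mul, map_intCast]

theorem rank_map_le_iff {E F : Type*} [Field E] [Field F] (φ : E →+* F) (l : Fin k → E)
    (r : ℕ) : (α.mat (fun t => φ (l t))).rank ≤ r ↔ (α.mat l).rank ≤ r := by
  rw [rank_le_iff_minors, rank_le_iff_minors]
  refine forall_congr' fun f => forall_congr' fun g => ?_
  rw [minor_map, map_eq_zero]

section

variable (Qb : Type) [Field Qb] [Algebra ℚ Qb] [IsAlgClosed Qb] [Algebra.IsAlgebraic ℚ Qb]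

omit [IsAlgClosed Qb] in
theorem span_ne_top {r : ℕ}
    (h : Submodule.span ℂ {l : Fin k → ℂ | (α.mat l).rank ≤ r} ≠ ⊤) :
    Submodule.span Qb {l : Fin k → Qb | (α.mat l).rank ≤ r} ≠ ⊤ := by
  classical
  intro hQ
  apply h
  let φ : Qb →+* ℂ := (IsAlgClosed.lift (R := ℚ) (S := Qb) (M := ℂ)).toRingHom
  have key : ∀ x ∈ Submodule.span Qb {l : Fin k → Qb | (α.mat l).rank ≤ r},
      (fun t => φ (x t)) ∈ Submodule.span ℂ {l : Fin k → ℂ | (α.mat l).rank ≤ r} := by
    intro x hx
    induction hx using Submodule.span_induction with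
    | mem x hx => exact Submodule.subset_span ((rank_map_le_iff α φ x r).mpr hx)
    | zero =>
      have : (fun t : Fin k => φ ((0 : Fin k → Qb) t)) = 0 := by
        funext t
        simp
      rw [this]
      exact Submodule.zero_mem _
    | add x y _ _ hx hy =>
      have : (fun t : Fin k => φ ((x + y) t)) = (fun t => φ (x t)) + fun t => φ (y t) := by
        funext t
        simp
      rw [this]
      exact Submodule.add_mem _ hx hy
    | smul c x _ hx =>
      have : (fun t : Fin k => φ ((c • x) t)) = φ c • fun t => φ (x t) := by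
        funext t
        simp
      rw [this]
      exact Submodule.smul_mem _ _ hx
  rw [Submodule.eq_top_iff']
  intro x
  rw [pi_eq_sum_univ x]
  refine Submodule.sum_mem _ fun t _ => Submodule.smul_mem _ _ ?_
  have h1 := key (fun j => if t = j then 1 else 0) (by rw [hQ]; trivial)
  have h2 : (fun j => φ (if t = j then (1 : Qb) else 0)) = fun j => if t = j then (1 : ℂ) else 0 := by
    funext j
    split_ifs <;> simp
  rw [h2] at h1
  exact h1

/-- A vector over the base field that kills all functionals of small rank over its algebraic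
closure. -/
theorem exists_base (K Kb : Type) [Field K] [CharZero K] [Field Kb] [Algebra K Kb]
    [IsAlgClosed Kb] [Algebra.IsAlgebraic K Kb] {r : ℕ}
    (h : Submodule.span Kb {l : Fin k → Kb | (α.mat l).rank ≤ r} ≠ ⊤) :
    ∃ z : Fin k → K, z ≠ 0 ∧ ∀ x : Fin k → Kb, (α.mat x).rank ≤ r →
      ∑ t, x t * algebraMap K Kb (z t) = 0 := by
  classical
  obtain ⟨f, hf0, hf⟩ := Submodule.exists_le_ker_of_lt_top _ (lt_top_iff_ne_top.mpr h)
  have hfx : ∀ x : Fin k → Kb, f x = ∑ t, x t * f (fun j => if t = j then 1 else 0) := by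
    intro x
    rw [LinearMap.pi_apply_eq_sum_univ f x]
    rfl
  obtain ⟨t₀, ht₀⟩ : ∃ t₀, f (fun j => if t₀ = j then 1 else 0) ≠ 0 := by
    by_contra hcon
    push Not at hcon
    apply hf0
    apply LinearMap.ext
    intro x
    rw [hfx]
    simp [hcon]
  let w : Fin k → Kb := fun t => f (fun j => if t = j then 1 else 0) /
    f (fun j => if t₀ = j then 1 else 0)
  have hw0 : w t₀ = 1 := div_self ht₀
  have hw : ∀ x : Fin k → Kb, (α.mat x).rank ≤ r → ∑ t, x t * w t = 0 := by
    intro x hx
    have h1 : f x = 0 := hf (Submodule.subset_span hx)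
    rw [hfx] at h1
    have h2 : ∑ t, x t * w t = (∑ t, x t * f (fun j => if t = j then 1 else 0)) /
        f (fun j => if t₀ = j then 1 else 0) := by
      rw [Finset.sum_div]
      refine Finset.sum_congr rfl fun t _ => ?_
      rw [mul_div_assoc]
    rw [h2, h1, zero_div]
  let L : IntermediateField K Kb := IntermediateField.adjoin K (Set.range w)
  have hfin : FiniteDimensional K L := by
    have : Finite (Set.range w) := Set.finite_range w
    exact IntermediateField.finiteDimensional_adjoin fun x _ =>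
      Algebra.IsIntegral.isIntegral x
  let w' : Fin k → L := fun t => ⟨w t, IntermediateField.subset_adjoin K _ ⟨t, rfl⟩⟩
  refine ⟨fun t => Algebra.trace K L (w' t), ?_, ?_⟩
  · intro hz
    have h1 := congrFun hz t₀
    have h2 : w' t₀ = 1 := Subtype.ext hw0
    simp only [h2, Pi.zero_apply] at h1
    rw [← map_one (algebraMap K L), Algebra.trace_algebraMap] at h1
    have h3 : 0 < Module.finrank K L := Module.finrank_pos
    rw [nsmul_one] at h1
    have h5 : Module.finrank K L = 0 := by exact_mod_cast h1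
    omega
  · intro x hx
    have h1 : ∀ t, algebraMap K Kb (Algebra.trace K L (w' t)) =
        ∑ σ : L →ₐ[K] Kb, σ (w' t) := fun t => trace_eq_sum_embeddings Kb
    simp only [h1, Finset.mul_sum]
    rw [Finset.sum_comm]
    refine Finset.sum_eq_zero fun σ _ => ?_
    obtain ⟨φ, hφ⟩ := IsAlgClosed.surjective_domRestrict_of_isAlgebraic
      (K := K) (L := L) (M := Kb) (E := Kb) σ
    have hbij : Function.Bijective φ := Algebra.IsAlgebraic.algHom_bijective φ
    let ψ : Kb ≃ₐ[K] Kb := AlgEquiv.ofBijective φ hbij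
    have h2 : ∀ t, σ (w' t) = φ (w t) := by
      intro t
      rw [← hφ]
      rfl
    have h3 : ∀ t, x t = φ (ψ.symm (x t)) := fun t => (ψ.apply_symm_apply (x t)).symm
    have h4 : ∑ t, x t * σ (w' t) = φ (∑ t, ψ.symm (x t) * w t) := by
      rw [map_sum]
      refine Finset.sum_congr rfl fun t _ => ?_
      rw [map_mul, ← h3, h2]
    rw [h4, hw (fun t => ψ.symm (x t)) ?_, map_zero]
    exact (rank_map_le_iff α (ψ.symm : Kb ≃+* Kb).toRingHom x r).mpr hx

/-- Clearing denominators. -/
theorem exists_int {r : ℕ}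
    (h : Submodule.span Qb {l : Fin k → Qb | (α.mat l).rank ≤ r} ≠ ⊤) :
    ∃ z : Fin k → ℤ, z ≠ 0 ∧ ∀ x : Fin k → Qb, (α.mat x).rank ≤ r →
      ∑ t, x t * (z t : Qb) = 0 := by
  obtain ⟨z, hz0, hz⟩ := exists_base α ℚ Qb h
  let N : ℕ := ∏ t, (z t).den
  have hN : N ≠ 0 := Finset.prod_ne_zero_iff.mpr fun t _ => (z t).den_nz
  have hint : ∀ t, ∃ n : ℤ, (n : ℚ) = N * z t := by
    intro t
    obtain ⟨c, hc⟩ := Finset.dvd_prod_of_mem (fun t => (z t).den) (Finset.mem_univ t)
    refine ⟨c * (z t).num, ?_⟩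
    have h1 : (N : ℚ) = (z t).den * c := by
      have : N = (z t).den * c := hc
      rw [this]
      push_cast
      ring
    rw [h1]
    push_cast
    have h2 : ((z t).den : ℚ) * z t = (z t).num := by
      rw [mul_comm]
      exact Rat.mul_den_eq_num (z t)
    linear_combination -(c : ℚ) * h2
  choose n hn using hint
  refine ⟨n, ?_, ?_⟩
  · intro h0
    apply hz0
    funext t
    have h1 := hn t
    rw [h0] at h1
    simp only [Pi.zero_apply, Int.cast_zero] at h1
    have hN' : (N : ℚ) ≠ 0 := by exact_mod_cast hN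
    exact (mul_eq_zero.mp h1.symm).resolve_left hN'
  · intro x hx
    have h1 := hz x hx
    have h2 : ∀ t, (n t : Qb) = (N : Qb) * algebraMap ℚ Qb (z t) := by
      intro t
      have := congrArg (algebraMap ℚ Qb) (hn t)
      rwa [map_intCast, map_mul, map_natCast] at this
    have h3 : ∑ t, x t * (n t : Qb) = (N : Qb) * ∑ t, x t * algebraMap ℚ Qb (z t) := by
      rw [Finset.mul_sum]
      refine Finset.sum_congr rfl fun t _ => ?_
      rw [h2]
      ring
    rw [h3, h1, mul_zero]

/-- Specialisation from an arbitrary field of characteristic zero to the algebraic numbers. -/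
theorem specialise {r : ℕ} {z : Fin k → ℤ}
    (hz : ∀ x : Fin k → Qb, (α.mat x).rank ≤ r → ∑ t, x t * (z t : Qb) = 0)
    (F : Type) [Field F] [CharZero F] (l : Fin k → F) (hl : (α.mat l).rank ≤ r) :
    ∑ t, l t * (z t : F) = 0 := by
  classical
  by_contra hs
  obtain ⟨s, hsdef⟩ : ∃ s : F, s = ∑ t, l t * (z t : F) := ⟨_, rfl⟩
  rw [← hsdef] at hs
  obtain ⟨A, hA⟩ : ∃ A : Subalgebra ℚ F, A = Algebra.adjoin ℚ (Set.range l ∪ {s⁻¹}) := ⟨_, rfl⟩
  have hfg : Algebra.FiniteType ℚ A := by
    rw [← Subalgebra.fg_iff_finiteType, hA]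
    exact Subalgebra.fg_def.mpr ⟨_, (Set.finite_range l).union (Set.finite_singleton _), rfl⟩
  have hlA : ∀ t, l t ∈ A := fun t => by
    rw [hA]
    exact Algebra.subset_adjoin (Or.inl ⟨t, rfl⟩)
  have hsA : s⁻¹ ∈ A := by
    rw [hA]
    exact Algebra.subset_adjoin (Or.inr rfl)
  let lA : Fin k → A := fun t => ⟨l t, hlA t⟩
  let sA : A := ∑ t, lA t * (z t : A)
  let uA : A := ⟨s⁻¹, hsA⟩
  have hus : sA * uA = 1 := by
    apply Subtype.ext
    have : ((sA : A) : F) = s := by
      rw [hsdef]
      simp [sA, lA]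
    rw [MulMemClass.coe_mul, this]
    exact mul_inv_cancel₀ hs
  obtain ⟨M, hM⟩ := Ideal.exists_maximal A
  let _ : Field (A ⧸ M) := Ideal.Quotient.field M
  have : Algebra.FiniteType ℚ (A ⧸ M) := inferInstance
  have : Module.Finite ℚ (A ⧸ M) := finite_of_finite_type_of_isJacobsonRing ℚ (A ⧸ M)
  have : Algebra.IsAlgebraic ℚ (A ⧸ M) := inferInstance
  let ψ : (A ⧸ M) →ₐ[ℚ] Qb := IsAlgClosed.lift
  let φ : A →+* Qb := ψ.toRingHom.comp (Ideal.Quotient.mk M)
  have h1 : (α.mat (fun t => φ (lA t))).rank ≤ r := by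
    rw [rank_le_iff_minors]
    rw [rank_le_iff_minors] at hl
    intro f g
    rw [minor_map]
    have h2 := hl f g
    have h3 : l = fun t => A.val.toRingHom (lA t) := rfl
    rw [h3, minor_map] at h2
    have h4 : ((α.mat lA).submatrix f g).det = 0 := Subtype.ext h2
    rw [h4, map_zero]
  have h2 := hz _ h1
  have h3 : φ sA = 0 := by
    rw [← h2]
    simp [sA, map_sum]
  have h4 := congrArg φ hus
  rw [map_mul, h3, zero_mul, map_one] at h4
  exact zero_ne_one h4

end

end Descent

theorem exists_z {m k : ℕ} (α : Form m k) (hk : 0 < k) :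
    ∃ z : Fin k → ℤ, z ≠ 0 ∧ ∀ (F : Type) [Field F] [CharZero F] (l : Fin k → F),
      (α.mat l).rank < α.rho → ∑ t, l t * (z t : F) = 0 := by
  by_cases h0 : α.rho = 0
  · refine ⟨fun _ => 1, ?_, ?_⟩
    · intro h
      have := congrFun h ⟨0, hk⟩
      simp at this
    · intro F _ _ l hl
      omega
  · have hlt : α.rho - 1 < α.rho := by omega
    have h1 := Nat.notMem_of_lt_sInf hlt
    have h2 : Submodule.span ℂ {l : Fin k → ℂ | (α.mat l).rank ≤ α.rho - 1} ≠ ⊤ := h1
    obtain ⟨Qb, i1, i2, i3, i4⟩ : ∃ (Qb : Type) (_ : Field Qb) (_ : Algebra ℚ Qb)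
        (_ : IsAlgClosed Qb), Algebra.IsAlgebraic ℚ Qb :=
      ⟨AlgebraicClosure ℚ, inferInstance, AlgebraicClosure.instAlgebra ℚ, inferInstance,
        AlgebraicClosure.isAlgebraic ℚ⟩
    obtain ⟨z, hz0, hz⟩ := Descent.exists_int α Qb (Descent.span_ne_top α Qb h2)
    exact ⟨z, hz0, fun F _ _ l hl => Descent.specialise α Qb hz F l (by omega)⟩

end Pool.Agent.MPf60e8a
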