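import Mathlib

/-!
# An lcm-type integer (module LCM of MP_f60e8a_al)
-/

namespace Pool.Agent.MPf60e8a

namespace LcmAux

/-- `p ^ log_p n` divides `lcm (1, ..., n)`. -/
theorem pow_log_dvd (n p : ℕ) (hp : p.Prime) : p ^ p.log n ∣ Nat.lcmUpto n := by
  have h := Nat.ordProj_dvd (Nat.lcmUpto n) p
  rwa [Nat.factorization_lcmUpto n hp] at h

/-- The exponent bound. -/
theorem exp_le (n d p e : ℕ) (hp : p.Prime) (hpn : p ≤ n) (h : p ^ e < n ^ d) :
    e ≤ p.log n * (2 * d) := by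
  have h1 : 1 < p := hp.one_lt
  have hl : 1 ≤ p.log n := Nat.log_pos h1 hpn
  have h2 : n < p ^ (p.log n + 1) := Nat.lt_pow_succ_log_self h1 n
  have h3 : n ^ d ≤ (p ^ (p.log n + 1)) ^ d := Nat.pow_le_pow_left h2.le d
  rw [← pow_mul] at h3
  have h4 : p ^ e < p ^ ((p.log n + 1) * d) := lt_of_lt_of_le h h3
  have h5 : e < (p.log n + 1) * d := (Nat.pow_lt_pow_iff_right h1).1 h4
  have h6 : (p.log n + 1) * d ≤ (p.log n * 2) * d := Nat.mul_le_mul_right d (by omega)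
  have h7 : (p.log n * 2) * d = p.log n * (2 * d) := by ring
  omega

end LcmAux

open LcmAux in
theorem exists_K (d : ℕ) : ∃ C : ℝ, 0 < C ∧ ∀ n : ℕ, 1 ≤ n → ∃ K : ℕ, 0 < K ∧
    (K : ℝ) ≤ Real.exp (C * n) ∧
    ∀ p e : ℕ, p.Prime → p ≤ n → p ^ e < n ^ d → p ^ e ∣ K := by
  have hlog : 0 < Real.log 4 := Real.log_pos (by norm_num)
  refine ⟨(Real.log 4 + 4) * (2 * d) + 1, by positivity, fun n hn => ?_⟩
  refine ⟨Nat.lcmUpto n ^ (2 * d), pow_pos (Nat.lcmUpto_pos n) _, ?_, ?_⟩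
  · have hL : (0 : ℝ) < (Nat.lcmUpto n : ℝ) := by exact_mod_cast Nat.lcmUpto_pos n
    have h1 : Real.log (Nat.lcmUpto n) ≤ (Real.log 4 + 4) * n := by
      rw [← Chebyshev.psi_eq_log_lcmUpto]
      exact Chebyshev.psi_le_const_mul_self (Nat.cast_nonneg n)
    have h2 : Real.log ((Nat.lcmUpto n : ℝ) ^ (2 * d)) ≤ ((Real.log 4 + 4) * (2 * d) + 1) * n := by
      rw [Real.log_pow]
      push_cast
      have h3 : (2 * (d : ℝ)) * Real.log (Nat.lcmUpto n) ≤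
          (2 * (d : ℝ)) * ((Real.log 4 + 4) * n) :=
        mul_le_mul_of_nonneg_left h1 (by positivity)
      have h4 : (0 : ℝ) ≤ n := Nat.cast_nonneg n
      calc (2 * (d : ℝ)) * Real.log (Nat.lcmUpto n)
          ≤ (2 * (d : ℝ)) * ((Real.log 4 + 4) * n) := h3
        _ ≤ (2 * (d : ℝ)) * ((Real.log 4 + 4) * n) + n := by linarith
        _ = ((Real.log 4 + 4) * (2 * d) + 1) * n := by ring
    have h5 : (0 : ℝ) < (Nat.lcmUpto n : ℝ) ^ (2 * d) := pow_pos hL _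
    have h6 := (Real.log_le_iff_le_exp h5).1 h2
    exact_mod_cast h6
  · intro p e hp hpn h
    have h1 := exp_le n d p e hp hpn h
    calc p ^ e ∣ p ^ (p.log n * (2 * d)) := pow_dvd_pow p h1
      _ = (p ^ p.log n) ^ (2 * d) := by rw [pow_mul]
      _ ∣ Nat.lcmUpto n ^ (2 * d) := pow_dvd_pow_of_dvd (pow_log_dvd n p hp) _

end Pool.Agent.MPf60e8a
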