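import Mathlib
import Pool.Agent.Lib.MP_f60e8a_al.Stmts

/-!
# Characters of the centre and the index
-/

open scoped BigOperators commutatorElement DirectSum

namespace Pool.Agent.MPf60e8a

namespace LowGroup

/-- A nonzero element of a finite abelian group is detected by a surjective homomorphism onto a
cyclic group of prime power order. -/
theorem exists_hom {A : Type*} [AddCommGroup A] [Finite A] {a : A} (ha : a ≠ 0) :
    ∃ (p e : ℕ) (χ : A →+ ZMod (p ^ e)), p.Prime ∧ Function.Surjective χ ∧ χ a ≠ 0 := by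
  classical
  obtain ⟨ι, _, p, hp, e, ⟨f⟩⟩ := AddCommGroup.equiv_directSum_zmod_of_finite A
  have hfa : f a ≠ 0 := fun h => ha (by simpa using h)
  obtain ⟨i, hi⟩ : ∃ i, (f a) i ≠ 0 := by
    by_contra hcon
    push Not at hcon
    exact hfa (DFinsupp.ext fun i => by simpa using hcon i)
  refine ⟨p i, e i, (DFinsupp.evalAddMonoidHom i).comp f.toAddMonoidHom, hp i, ?_, hi⟩
  intro z
  refine ⟨f.symm (DFinsupp.single i z), ?_⟩
  show (f (f.symm (DFinsupp.single i z))) i = z
  rw [AddEquiv.apply_symm_apply]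
  exact DFinsupp.single_eq_same

/-- The subgroup of vectors mapped into `N`. -/
def hsub {G : Type*} [Group G] {k : ℕ} (s : Multiplicative (Fin k → ℤ) →* G) (N : Subgroup G) :
    AddSubgroup (Fin k → ℤ) where
  carrier := {b | s (Multiplicative.ofAdd b) ∈ N}
  zero_mem' := by simp
  add_mem' := by
    intro a b ha hb
    show s (Multiplicative.ofAdd (a + b)) ∈ N
    rw [ofAdd_add, map_mul]
    exact N.mul_mem ha hb
  neg_mem' := by
    intro a ha
    show s (Multiplicative.ofAdd (-a)) ∈ N
    rw [ofAdd_neg, map_inv]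
    exact N.inv_mem ha

theorem mem_hsub {G : Type*} [Group G] {k : ℕ} (s : Multiplicative (Fin k → ℤ) →* G)
    (N : Subgroup G) (b : Fin k → ℤ) : b ∈ hsub s N ↔ s (Multiplicative.ofAdd b) ∈ N := Iff.rfl

/-- The injection of the quotient of the centre. -/
theorem card_le {G : Type*} [Group G] {k : ℕ} (s : Multiplicative (Fin k → ℤ) →* G)
    (N K : Subgroup G) (hK : ∀ b, s b ∈ K) (hfin : N.relIndex K ≠ 0) :
    Finite ((Fin k → ℤ) ⧸ hsub s N) ∧ Nat.card ((Fin k → ℤ) ⧸ hsub s N) ≤ N.relIndex K := by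
  have hF : (N.subgroupOf K).FiniteIndex := ⟨hfin⟩
  have hF2 : Finite (K ⧸ N.subgroupOf K) := Subgroup.finite_quotient_of_finiteIndex
  let j : ((Fin k → ℤ) ⧸ hsub s N) → K ⧸ N.subgroupOf K := fun a =>
    QuotientGroup.mk ⟨s (Multiplicative.ofAdd (Quotient.out a)), hK _⟩
  have hj : Function.Injective j := by
    intro a a' h
    have h1 := QuotientGroup.eq.1 h
    rw [Subgroup.mem_subgroupOf] at h1
    have h2 : (-(Quotient.out a) + Quotient.out a') ∈ hsub s N := by
      rw [mem_hsub, ofAdd_add, ofAdd_neg, map_mul, map_inv]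
      exact h1
    rw [← QuotientAddGroup.out_eq' a, ← QuotientAddGroup.out_eq' a']
    exact QuotientAddGroup.eq.2 h2
  exact ⟨Finite.of_injective j hj, Nat.card_le_card_of_injective j hj⟩

/-- The homomorphism attached to a functional. -/
noncomputable def theta {G : Type*} [Group G] {m k : ℕ} (α : Form m k) (Φ : G →* Gam α ℤ) (q : ℕ)
    (l : Fin k → ZMod q) : G →* Multiplicative (Fin m → ZMod q) where
  toFun g := Multiplicative.ofAdd (Matrix.vecMul (fun i => ((Φ g).a i : ZMod q)) (α.mat l))
  map_one' := by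
    have : (fun i => (((Φ (1 : G)).a i : ℤ) : ZMod q)) = 0 := by
      funext i
      simp
    rw [this, Matrix.zero_vecMul]
    rfl
  map_mul' x y := by
    have : (fun i => (((Φ (x * y)).a i : ℤ) : ZMod q)) =
        (fun i => (((Φ x).a i : ℤ) : ZMod q)) + fun i => (((Φ y).a i : ℤ) : ZMod q) := by
      funext i
      simp
    rw [this, Matrix.add_vecMul]
    rfl

theorem card_range_theta {G : Type*} [Group G] {m k : ℕ} (α : Form m k) (Φ : G →* Gam α ℤ)
    (hsurj : ∀ a : Fin m → ℤ, ∃ g, (Φ g).a = a) (q : ℕ) (l : Fin k → ZMod q) :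
    Nat.card (theta α Φ q l).range =
      Nat.card (Set.range fun x : Fin m → ZMod q => Matrix.vecMul x (α.mat l)) := by
  have h : ((theta α Φ q l).range : Set (Multiplicative (Fin m → ZMod q))) =
      Set.range fun x : Fin m → ZMod q => Multiplicative.ofAdd (Matrix.vecMul x (α.mat l)) := by
    ext z
    constructor
    · rintro ⟨g, rfl⟩
      exact ⟨_, rfl⟩
    · rintro ⟨x, rfl⟩
      have hx : ∀ i, ∃ n : ℤ, (n : ZMod q) = x i := fun i => ZMod.intCast_surjective (x i)
      choose n hn using hx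
      obtain ⟨g, hg⟩ := hsurj n
      refine ⟨g, ?_⟩
      show Multiplicative.ofAdd (Matrix.vecMul (fun i => ((Φ g).a i : ZMod q)) (α.mat l)) = _
      rw [hg]
      simp only [hn]
  show Nat.card ((theta α Φ q l).range : Set (Multiplicative (Fin m → ZMod q))) = _
  rw [h]
  rfl

theorem sum_smul_hom {k q : ℕ} (χ : (Fin k → ℤ) →+ ZMod q) (b : Fin k → ℤ) :
    χ b = ∑ t, χ (Pi.single t 1) * (b t : ZMod q) := by
  have h : b = ∑ t, b t • (Pi.single t (1 : ℤ) : Fin k → ℤ) := by
    funext i
    simp [Finset.sum_apply, Pi.single_apply]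
  conv_lhs => rw [h]
  rw [map_sum]
  refine Finset.sum_congr rfl fun t _ => ?_
  rw [map_zsmul, zsmul_eq_mul, mul_comm]

end LowGroup

open LowGroup

theorem exists_character {G : Type*} [Group G] {m k : ℕ} (α : Form m k)
    (Φ : G →* Gam α ℤ) (hsurj : ∀ a : Fin m → ℤ, ∃ g, (Φ g).a = a)
    (s : Multiplicative (Fin k → ℤ) →* G) (hs : ∀ b, (Φ (s b)).a = 0) (c₁ c₂ : ℕ)
    (hc : ∀ x y : G, ⁅x, y⁆ ^ c₁ =
        s (Multiplicative.ofAdd ((c₂ : ℤ) • α.ev (Φ x).a (Φ y).a)))
    (N : Subgroup G) (hN : N.Normal) (hi : N.index ≠ 0) (b : Fin k → ℤ)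
    (hb : s (Multiplicative.ofAdd b) ∉ N) :
    ∃ (p e : ℕ) (l : Fin k → ZMod (p ^ e)), p.Prime ∧ ∑ t, l t * (b t : ZMod (p ^ e)) ≠ 0 ∧
      p ^ e ≤ N.index ∧
      (p ∣ c₂ ∨ p ^ e * Nat.card (Set.range fun x : Fin m → ZMod (p ^ e) =>
        Matrix.vecMul x (α.mat l)) ≤ N.index) := by
  have htop : N.relIndex ⊤ = N.index := Subgroup.relIndex_top_right N
  obtain ⟨hfinA, hcardA⟩ := card_le s N ⊤ (fun b => Subgroup.mem_top _) (by rw [htop]; exact hi)
  rw [htop] at hcardA
  have hbA : (QuotientAddGroup.mk' (hsub s N)) b ≠ 0 := by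
    intro h
    rw [QuotientAddGroup.mk'_apply, QuotientAddGroup.eq_zero_iff] at h
    exact hb h
  obtain ⟨p, e, χ, hp, hχ, hχb⟩ := exists_hom hbA
  have : NeZero (p ^ e) := ⟨pow_ne_zero _ hp.ne_zero⟩
  have hq : p ^ e ≤ Nat.card ((Fin k → ℤ) ⧸ hsub s N) := by
    have := Nat.card_le_card_of_surjective χ hχ
    rwa [Nat.card_zmod] at this
  set χ' : (Fin k → ℤ) →+ ZMod (p ^ e) := χ.comp (QuotientAddGroup.mk' (hsub s N)) with hχ'
  have hχH : ∀ x ∈ hsub s N, χ' x = 0 := by
    intro x hx
    rw [hχ', AddMonoidHom.comp_apply, QuotientAddGroup.mk'_apply,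
      (QuotientAddGroup.eq_zero_iff x).2 hx, map_zero]
  set l : Fin k → ZMod (p ^ e) := fun t => χ' (Pi.single t 1) with hl
  have hsum : ∀ x, χ' x = ∑ t, l t * (x t : ZMod (p ^ e)) := fun x => sum_smul_hom χ' x
  refine ⟨p, e, l, hp, ?_, hq.trans hcardA, ?_⟩
  · rw [← hsum b]
    exact hχb
  · by_cases hpc : p ∣ c₂
    · exact Or.inl hpc
    · right
      set K := (theta α Φ (p ^ e) l).ker with hK
      have hcu : IsUnit ((c₂ : ℕ) : ZMod (p ^ e)) := by
        rw [ZMod.isUnit_iff_coprime]
        exact ((Nat.coprime_comm.1 ((Nat.Prime.coprime_iff_not_dvd hp).2 hpc))).pow_right e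
      have hNK : N ≤ K := by
        intro x hx
        rw [hK, MonoidHom.mem_ker]
        have key : ∀ y : G, ∑ t, l t * ((α.ev (Φ x).a (Φ y).a t : ℤ) : ZMod (p ^ e)) = 0 := by
          intro y
          have h1 : ⁅x, y⁆ ∈ N := by
            rw [commutatorElement_def]
            have : x * y * x⁻¹ * y⁻¹ = x * (y * x⁻¹ * y⁻¹) := by group
            rw [this]
            exact N.mul_mem hx (hN.conj_mem _ (N.inv_mem hx) y)
          have h2 := N.pow_mem h1 c₁
          rw [hc x y, ← mem_hsub] at h2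
          have h3 := hχH _ h2
          rw [hsum] at h3
          have h4 : ((c₂ : ℕ) : ZMod (p ^ e)) *
              ∑ t, l t * ((α.ev (Φ x).a (Φ y).a t : ℤ) : ZMod (p ^ e)) = 0 := by
            rw [← h3, Finset.mul_sum]
            refine Finset.sum_congr rfl fun t _ => ?_
            simp only [Pi.smul_apply, smul_eq_mul]
            push_cast
            ring
          exact (hcu.mul_right_eq_zero).1 h4
        show Multiplicative.ofAdd (Matrix.vecMul (fun i => ((Φ x).a i : ZMod (p ^ e)))
          (α.mat l)) = 1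
        rw [ofAdd_eq_one]
        funext j
        obtain ⟨y, hy⟩ := hsurj (Pi.single j 1)
        have h5 := key y
        rw [hy] at h5
        rw [Pi.zero_apply, ← h5]
        simp only [Matrix.vecMul, dotProduct, Form.mat, Form.ev_apply]
        push_cast
        simp only [Finset.mul_sum, Pi.single_apply]
        rw [Finset.sum_comm]
        refine Finset.sum_congr rfl fun t _ => Finset.sum_congr rfl fun i _ => ?_
        rw [Finset.sum_eq_single j]
        · simp
          ring
        · intro j' _ hj'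
          simp [hj']
        · intro h
          exact absurd (Finset.mem_univ j) h
      have hmul := Subgroup.relIndex_mul_index hNK
      have hKidx : K.index = Nat.card (Set.range fun x : Fin m → ZMod (p ^ e) =>
          Matrix.vecMul x (α.mat l)) := by
        rw [hK, Subgroup.index_ker, card_range_theta α Φ hsurj]
      have hrel : N.relIndex K ≠ 0 := by
        intro h
        rw [h, zero_mul] at hmul
        exact hi hmul.symm
      have hsK : ∀ b, s b ∈ K := by
        intro b
        rw [hK, MonoidHom.mem_ker]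
        show Multiplicative.ofAdd (Matrix.vecMul (fun i => ((Φ (s b)).a i : ZMod (p ^ e)))
          (α.mat l)) = 1
        rw [hs b]
        have : (fun i => (((0 : Fin m → ℤ) i : ℤ) : ZMod (p ^ e))) = 0 := by
          funext i
          simp
        rw [this, Matrix.zero_vecMul]
        rfl
      obtain ⟨-, h6⟩ := card_le s N K hsK hrel
      rw [← hmul, ← hKidx]
      exact Nat.mul_le_mul_right _ (hq.trans h6)

end Pool.Agent.MPf60e8a
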