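import Mathlib
import Pool.Agent.Lib.MP_f60e8a_al.Stmts

/-!
# Module ULTRA: the ultraproduct argument
-/

open scoped BigOperators commutatorElement

namespace Pool.Agent.MPf60e8a

namespace Ultra

/-- Every field of characteristic zero is formally smooth over the rationals. -/
theorem formallySmooth_rat (K : Type*) [Field K] [Algebra ℚ K] : Algebra.FormallySmooth ℚ K := by
  obtain ⟨s, hs⟩ := exists_isTranscendenceBasis ℚ K
  have : Algebra.IsAlgebraic (IntermediateField.adjoin ℚ (Set.range ((↑) : s → K))) K := by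
    exact hs.isAlgebraic_field
  exact Algebra.FormallySmooth.of_algebraicIndependent_of_isSeparable hs.1

/-- The residue ring of a nilpotent maximal ideal of a `ℚ`-algebra has a section. -/
theorem exists_section (R : Type*) [CommRing R] [Algebra ℚ R] (M : Ideal R) (hM : M.IsMaximal)
    (hnil : IsNilpotent M) : ∃ σ : (R ⧸ M) →+* R, ∀ a, Ideal.Quotient.mk M (σ a) = a := by
  have h1 : @Algebra.FormallySmooth ℚ (R ⧸ M) _ _ (Ideal.instAlgebraQuotient ℚ M) :=
    @formallySmooth_rat (R ⧸ M) (Ideal.Quotient.field M) (Ideal.instAlgebraQuotient ℚ M)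
  obtain ⟨σ, hσ⟩ := Algebra.FormallySmooth.exists_lift (R := ℚ) (A := R ⧸ M) (B := R) M hnil
    (@AlgHom.id ℚ (R ⧸ M) _ _ (Ideal.instAlgebraQuotient ℚ M))
  exact ⟨σ.toRingHom, fun a => AlgHom.congr_fun hσ a⟩

/-- A combination of a chain of generators with coefficients in `R` is a combination with
coefficients in the coefficient field. -/
theorem mem_span_of_chain {K R V : Type*} [Field K] [CommRing R] [Algebra K R]
    [AddCommGroup V] [Module R V] [Module K V] [IsScalarTower K R V] (π : R)
    (hR : ∀ x : R, ∃ (a : K) (y : R), x = algebraMap K R a + y * π) :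
    ∀ (s : ℕ) (w : Fin s → V) (c : Fin s → Fin s → R),
      (∀ i i', ¬ i < i' → c i i' = 0) → (∀ i, π • w i = ∑ i', c i i' • w i') →
      ∀ d : Fin s → R, ∑ i, d i • w i ∈ Submodule.span K (Set.range w) := by
  intro s
  induction s with
  | zero =>
    intro w c _ _ d
    simp
  | succ s ih =>
    intro w c hc hw d
    have ih' := ih (fun i => w i.succ) (fun i i' => c i.succ i'.succ)
      (fun i i' h => hc _ _ (by simpa using h))
      (fun i => by
        rw [hw i.succ, Fin.sum_univ_succ, hc i.succ 0 (by simp), zero_smul, zero_add])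
    have hmono : Submodule.span K (Set.range fun i : Fin s => w i.succ) ≤
        Submodule.span K (Set.range w) := by
      refine Submodule.span_mono ?_
      rintro _ ⟨i, rfl⟩
      exact ⟨i.succ, rfl⟩
    rw [Fin.sum_univ_succ]
    refine Submodule.add_mem _ ?_ (hmono (ih' _))
    obtain ⟨a, y, hy⟩ := hR (d 0)
    have h1 : d 0 • w 0 = a • w 0 + ∑ i : Fin s, (y * c 0 i.succ) • w i.succ := by
      rw [hy, add_smul, algebraMap_smul, mul_smul, hw 0, Fin.sum_univ_succ,
        hc 0 0 (by simp), zero_smul, zero_add, Finset.smul_sum]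
      simp only [mul_smul]
    rw [h1]
    refine Submodule.add_mem _ (Submodule.smul_mem _ _ (Submodule.subset_span ⟨0, rfl⟩)) ?_
    exact hmono (ih' _)

theorem core (R : Type) [CommRing R] [Algebra ℚ R] [Nontrivial R] (π : R) (e : ℕ)
    (hπ : π ^ e = 0) (hunit : ∀ x : R, IsUnit x ∨ ∃ y, x = y * π)
    {m k : ℕ} (α : Form m k) (s : ℕ) (z : Fin k → ℤ)
    (hz : ∀ (F : Type) [Field F] [CharZero F] (l : Fin k → F),
      (α.mat l).rank < s + 1 → ∑ t, l t * (z t : F) = 0)
    (l : Fin k → R) (hl : ∑ t, l t * (z t : R) ≠ 0)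
    (w : Fin s → (Fin m → R)) (c : Fin s → Fin s → R)
    (hc : ∀ i i', ¬ i < i' → c i i' = 0) (hw : ∀ i, π • w i = ∑ i', c i i' • w i')
    (hspan : ∀ x : Fin m → R, ∃ d : Fin s → R, Matrix.vecMul x (α.mat l) = ∑ i, d i • w i) :
    False := by
  classical
  -- the maximal ideal
  let M : Ideal R := Ideal.span {π}
  have hMtop : M ≠ ⊤ := by
    intro h
    have hu : IsUnit π := Ideal.span_singleton_eq_top.mp h
    have h1 : IsUnit (π ^ e) := hu.pow e
    rw [hπ] at h1
    exact not_isUnit_zero h1
  have hMmax : M.IsMaximal := by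
    refine Ideal.isMaximal_iff.mpr ⟨fun h => hMtop ((Ideal.eq_top_iff_one M).mpr h), ?_⟩
    intro J x hMJ hx hxJ
    rcases hunit x with h | ⟨y, hy⟩
    · exact (Ideal.eq_top_iff_one J).mp (Ideal.eq_top_of_isUnit_mem J hxJ h)
    · exact absurd (hy ▸ Ideal.mul_mem_left M y (Ideal.mem_span_singleton_self π)) hx
  let K := R ⧸ M
  have hKchar0 : CharZero (R ⧸ M) := by
    have : Nontrivial (R ⧸ M) := Ideal.Quotient.nontrivial_iff.mpr hMtop
    exact algebraRat.charZero (R ⧸ M)
  have hnil : IsNilpotent M := by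
    refine ⟨e, ?_⟩
    show Ideal.span {π} ^ e = 0
    rw [Ideal.span_singleton_pow, hπ]
    simp
  obtain ⟨σ, hσ'⟩ := exists_section R M hMmax hnil
  let _ : Field K := Ideal.Quotient.field M
  have hKchar : CharZero K := hKchar0
  let _ : Algebra K R := σ.toAlgebra
  have halg : ∀ a : K, algebraMap K R a = σ a := fun a => rfl
  have hR : ∀ x : R, ∃ (a : K) (y : R), x = algebraMap K R a + y * π := by
    intro x
    have h1 : x - σ (Ideal.Quotient.mk M x) ∈ M := by
      rw [← Ideal.Quotient.eq_zero_iff_mem, map_sub, hσ', sub_self]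
    obtain ⟨y, hy⟩ := Ideal.mem_span_singleton'.mp h1
    exact ⟨Ideal.Quotient.mk M x, y, by rw [halg, hy]; ring⟩
  -- the functional
  obtain ⟨φ, hφ⟩ := Module.Projective.exists_dual_ne_zero K hl
  have hφz : φ (∑ t, l t * (z t : R)) = ∑ t, φ (l t) * (z t : K) := by
    rw [map_sum]
    refine Finset.sum_congr rfl fun t _ => ?_
    rw [mul_comm, ← zsmul_eq_mul, map_zsmul, zsmul_eq_mul, mul_comm]
  rw [hφz] at hφ
  have hrank : s + 1 ≤ (α.mat fun t => φ (l t)).rank := by
    by_contra hlt
    exact hφ (hz K _ (not_le.mp hlt))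
  -- the upper bound
  have hmat : ∀ i j, φ (α.mat l i j) = α.mat (fun t => φ (l t)) i j := by
    intro i j
    simp only [Form.mat]
    rw [map_sum]
    refine Finset.sum_congr rfl fun t _ => ?_
    rw [mul_comm, ← zsmul_eq_mul, map_zsmul, zsmul_eq_mul, mul_comm]
  let Φ : (Fin m → R) →ₗ[K] (Fin m → K) := LinearMap.compLeft φ (Fin m)
  have hvec : ∀ x : Fin m → K, Matrix.vecMul x (α.mat fun t => φ (l t)) =
      Φ (Matrix.vecMul (fun i => σ (x i)) (α.mat l)) := by
    intro x
    funext j
    show _ = φ _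
    simp only [Matrix.vecMul, dotProduct]
    rw [map_sum]
    refine Finset.sum_congr rfl fun i _ => ?_
    rw [← hmat, ← halg, ← Algebra.smul_def, map_smul, smul_eq_mul]
  have hle : (α.mat fun t => φ (l t)).rank ≤ s := by
    rw [← Matrix.rank_transpose, Matrix.rank]
    have h1 : LinearMap.range (α.mat fun t => φ (l t)).transpose.mulVecLin ≤
        Submodule.span K (Set.range fun i => Φ (w i)) := by
      rintro _ ⟨x, rfl⟩
      rw [Matrix.mulVecLin_apply, Matrix.mulVec_transpose, hvec]
      obtain ⟨d, hd⟩ := hspan fun i => σ (x i)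
      rw [hd]
      have h2 := mem_span_of_chain (K := K) π hR s w c hc hw d
      have h3 := Submodule.mem_map_of_mem (f := Φ) h2
      rwa [Submodule.map_span, ← Set.range_comp] at h3
    calc Module.finrank K (LinearMap.range (α.mat fun t => φ (l t)).transpose.mulVecLin)
        ≤ Module.finrank K (Submodule.span K (Set.range fun i => Φ (w i))) :=
          Submodule.finrank_mono h1
      _ ≤ s := by
        have := finrank_range_le_card (R := K) (fun i => Φ (w i))
        simpa [Set.finrank] using this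
  omega

/-- A nontrivial finite module over `ZMod (p ^ e)` has at least `p` elements. -/
theorem le_card {p e : ℕ} (hp : p.Prime) {V : Type*} [AddCommGroup V] [Module (ZMod (p ^ e)) V]
    [Finite V] [Nontrivial V] : p ≤ Nat.card V := by
  obtain ⟨x, hx⟩ := exists_ne (0 : V)
  have h1 : (p ^ e) • x = 0 := by
    have h2 : ((p ^ e : ℕ) : ZMod (p ^ e)) • x = 0 := by
      rw [ZMod.natCast_self, zero_smul]
    rwa [Nat.cast_smul_eq_nsmul] at h2
  have h2 : addOrderOf x ∣ p ^ e := addOrderOf_dvd_of_nsmul_eq_zero h1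
  obtain ⟨i, _, hi⟩ := (Nat.dvd_prime_pow hp).mp h2
  have h3 : addOrderOf x ≠ 1 := fun h => hx (AddMonoid.addOrderOf_eq_one_iff.mp h)
  have hi0 : i ≠ 0 := by
    rintro rfl
    exact h3 (by simpa using hi)
  have h4 : p ∣ Nat.card V := by
    refine dvd_trans ?_ (addOrderOf_dvd_natCard x)
    rw [hi]
    exact dvd_pow_self p hi0
  exact Nat.le_of_dvd Nat.card_pos h4

/-- Chains of generators of small modules over `ZMod (p ^ e)`. -/
theorem fin_chain {p e : ℕ} (hp : p.Prime) {V : Type*} [AddCommGroup V]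
    [Module (ZMod (p ^ e)) V] : ∀ (s : ℕ) (W : Submodule (ZMod (p ^ e)) V), Finite W →
    Nat.card W < p ^ (s + 1) → ∃ (w : Fin s → V) (c : Fin s → Fin s → ZMod (p ^ e)),
      (∀ i i', ¬ i < i' → c i i' = 0) ∧
      (∀ i, (p : ZMod (p ^ e)) • w i = ∑ i', c i i' • w i') ∧
      ∀ x ∈ W, ∃ d : Fin s → ZMod (p ^ e), x = ∑ i, d i • w i := by
  intro s
  induction s with
  | zero =>
    intro W hW hcard
    refine ⟨fun i => 0, fun i i' => 0, fun _ _ _ => rfl, fun i => i.elim0, ?_⟩
    intro x hx
    refine ⟨fun i => 0, ?_⟩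
    have h1 : ¬ Nontrivial W := by
      intro h
      have := le_card (e := e) hp (V := W)
      rw [zero_add, pow_one] at hcard
      omega
    rw [not_nontrivial_iff_subsingleton] at h1
    have h2 : (⟨x, hx⟩ : W) = 0 := Subsingleton.elim _ _
    have h3 : x = 0 := congrArg Subtype.val h2
    simp [h3]
  | succ s ih =>
    intro W hW hcard
    rcases eq_top_or_exists_le_coatom (⊥ : Submodule (ZMod (p ^ e)) W) with htop | ⟨N, hN, _⟩
    · refine ⟨fun i => 0, fun i i' => 0, fun _ _ _ => rfl, fun i => by simp, ?_⟩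
      intro x hx
      refine ⟨fun i => 0, ?_⟩
      have h2 : (⟨x, hx⟩ : W) ∈ (⊥ : Submodule (ZMod (p ^ e)) W) := by
        rw [htop]
        trivial
      have h3 : x = 0 := congrArg Subtype.val ((Submodule.mem_bot _).mp h2)
      simp [h3]
    · obtain ⟨x₀, hx₀⟩ : ∃ x₀ : W, x₀ ∉ N := by
        by_contra hcon
        push Not at hcon
        exact hN.1 (eq_top_iff.mpr fun x _ => hcon x)
      have hpn : IsNilpotent ((p : ZMod (p ^ e))) := ⟨e, by
        have := ZMod.natCast_self (p ^ e)
        push_cast at this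
        exact this⟩
      have hpx : (p : ZMod (p ^ e)) • x₀ ∈ N := by
        by_contra hcon
        have h1 : N ⊔ Submodule.span _ {(p : ZMod (p ^ e)) • x₀} = ⊤ := by
          refine hN.2 _ (lt_of_le_of_ne le_sup_left ?_)
          intro h
          exact hcon (h ▸ Submodule.mem_sup_right (Submodule.mem_span_singleton_self _))
        have h2 : x₀ ∈ N ⊔ Submodule.span _ {(p : ZMod (p ^ e)) • x₀} := by
          rw [h1]
          trivial
        obtain ⟨n, hn, y, hy, hny⟩ := Submodule.mem_sup.mp h2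
        obtain ⟨a, rfl⟩ := Submodule.mem_span_singleton.mp hy
        have h3 : IsUnit (1 - a * (p : ZMod (p ^ e))) :=
          ((Commute.all a (p : ZMod (p ^ e))).isNilpotent_mul_left hpn).isUnit_one_sub
        obtain ⟨u, hu⟩ := h3
        have h4 : (u : ZMod (p ^ e)) • x₀ ∈ N := by
          have : (u : ZMod (p ^ e)) • x₀ = n := by
            rw [hu, sub_smul, one_smul, mul_smul]
            exact sub_eq_of_eq_add hny.symm
          rw [this]
          exact hn
        have h5 : (↑u⁻¹ : ZMod (p ^ e)) • (u : ZMod (p ^ e)) • x₀ ∈ N := N.smul_mem _ h4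
        rw [smul_smul, Units.inv_mul, one_smul] at h5
        exact hx₀ h5
      have hsup : N ⊔ Submodule.span _ {x₀} = ⊤ := by
        refine hN.2 _ (lt_of_le_of_ne le_sup_left ?_)
        intro h
        exact hx₀ (h ▸ Submodule.mem_sup_right (Submodule.mem_span_singleton_self _))
      have hcardN : Nat.card (N.map W.subtype) < p ^ (s + 1) := by
        have h1 : Nat.card (N.map W.subtype) = Nat.card N :=
          Nat.card_congr (Submodule.equivMapOfInjective W.subtype W.injective_subtype N).symm.toEquiv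
        have h2 : Nat.card W = Nat.card N * Nat.card (W ⧸ N) :=
          Submodule.card_eq_card_quotient_mul_card N
        have h3 : Nontrivial (W ⧸ N) := Submodule.Quotient.nontrivial_iff.mpr hN.1
        have h5 : Finite (W ⧸ N) := Finite.of_surjective _ (Submodule.mkQ_surjective N)
        have h4 : p ≤ Nat.card (W ⧸ N) := le_card (e := e) hp
        rw [h1]
        by_contra hcon
        push Not at hcon
        have : p ^ (s + 1) * p ≤ Nat.card N * Nat.card (W ⧸ N) := Nat.mul_le_mul hcon h4
        rw [← h2, ← pow_succ] at this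
        omega
      have hfin : Finite (N.map W.subtype) :=
        Finite.of_equiv N (Submodule.equivMapOfInjective W.subtype W.injective_subtype N).toEquiv
      obtain ⟨w, c, hc, hw, hspan⟩ := ih (N.map W.subtype) hfin hcardN
      obtain ⟨d, hd⟩ := hspan _ (Submodule.mem_map_of_mem hpx)
      refine ⟨Fin.cons (x₀ : V) w, Fin.cons (Fin.cons 0 d) (fun i => Fin.cons 0 (c i)),
        ?_, ?_, ?_⟩
      · intro i i' h
        refine Fin.cases ?_ (fun i h => ?_) i h
        · refine Fin.cases (fun _ => rfl) (fun i' h => ?_) i'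
          exact absurd (Fin.succ_pos i') h
        · refine Fin.cases (fun _ => rfl) (fun i' h => ?_) i' h
          exact hc i i' (by simpa using h)
      · intro i
        refine Fin.cases ?_ (fun i => ?_) i
        · rw [Fin.sum_univ_succ]
          simp only [Fin.cons_zero, zero_smul, zero_add, Fin.cons_succ]
          exact hd
        · rw [Fin.sum_univ_succ]
          simp only [Fin.cons_zero, zero_smul, zero_add, Fin.cons_succ]
          exact hw i
      · intro x hx
        have h1 : (⟨x, hx⟩ : W) ∈ N ⊔ Submodule.span _ {x₀} := by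
          rw [hsup]
          trivial
        obtain ⟨n, hn, y, hy, hny⟩ := Submodule.mem_sup.mp h1
        obtain ⟨a, rfl⟩ := Submodule.mem_span_singleton.mp hy
        obtain ⟨d', hd'⟩ := hspan _ (Submodule.mem_map_of_mem hn)
        refine ⟨Fin.cons a d', ?_⟩
        rw [Fin.sum_univ_succ]
        simp only [Fin.cons_zero, Fin.cons_succ]
        rw [← hd']
        have h2 := congrArg Subtype.val hny
        simp only [Submodule.coe_add, SetLike.val_smul] at h2
        rw [← h2, add_comm]
        rfl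

theorem zmod_unit_or {p e : ℕ} (hp : p.Prime) (x : ZMod (p ^ e)) :
    IsUnit x ∨ ∃ y, x = y * (p : ZMod (p ^ e)) := by
  have : NeZero (p ^ e) := ⟨pow_ne_zero _ hp.ne_zero⟩
  have hx : ((x.val : ℕ) : ZMod (p ^ e)) = x := ZMod.natCast_zmod_val x
  rcases Nat.coprime_or_dvd_of_prime hp x.val with h | ⟨d, hd⟩
  · left
    rw [← hx, ZMod.isUnit_iff_coprime]
    exact (Nat.Coprime.pow_left e h).symm
  · right
    refine ⟨(d : ZMod (p ^ e)), ?_⟩
    rw [← hx, hd]
    push_cast
    ring

/-- The ideal of sequences vanishing almost everywhere. -/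
def ideal (U : Filter ℕ) (q : ℕ → ℕ) : Ideal (∀ j, ZMod (q j)) where
  carrier := {x | ∀ᶠ j in U, x j = 0}
  add_mem' := by
    intro x y hx hy
    filter_upwards [hx, hy] with j h1 h2
    rw [Pi.add_apply, h1, h2, add_zero]
  zero_mem' := Filter.Eventually.of_forall fun _ => rfl
  smul_mem' := by
    intro a x hx
    filter_upwards [hx] with j h1
    rw [smul_eq_mul, Pi.mul_apply, h1, mul_zero]

theorem mem_ideal (U : Filter ℕ) (q : ℕ → ℕ) (x : ∀ j, ZMod (q j)) :
    x ∈ ideal U q ↔ ∀ᶠ j in U, x j = 0 := Iff.rfl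

theorem mk_eq_mk (U : Filter ℕ) (q : ℕ → ℕ) (x y : ∀ j, ZMod (q j)) :
    Ideal.Quotient.mk (ideal U q) x = Ideal.Quotient.mk (ideal U q) y ↔
      ∀ᶠ j in U, x j = y j := by
  rw [Ideal.Quotient.eq, mem_ideal]
  simp only [Pi.sub_apply, sub_eq_zero]

theorem isUnit_mk (U : Filter ℕ) (q : ℕ → ℕ) (x : ∀ j, ZMod (q j))
    (h : ∀ᶠ j in U, IsUnit (x j)) : IsUnit (Ideal.Quotient.mk (ideal U q) x) := by
  refine IsUnit.of_mul_eq_one (Ideal.Quotient.mk (ideal U q) fun j => Ring.inverse (x j)) ?_
  rw [← map_mul, ← map_one (Ideal.Quotient.mk (ideal U q)), mk_eq_mk]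
  filter_upwards [h] with j hj
  rw [Pi.mul_apply, Pi.one_apply]
  exact Ring.mul_inverse_cancel _ hj

end Ultra

theorem claimC {m k : ℕ} (α : Form m k) (r : ℕ) (z : Fin k → ℤ)
    (hz : ∀ (F : Type) [Field F] [CharZero F] (l : Fin k → F),
      (α.mat l).rank < r → ∑ t, l t * (z t : F) = 0) :
    ∃ p₀ : ℕ, ∀ p : ℕ, p.Prime → p₀ ≤ p → ∀ (e : ℕ) (l : Fin k → ZMod (p ^ e)),
      ∑ t, l t * (z t : ZMod (p ^ e)) ≠ 0 →
      p ^ (r + 1) ≤ p ^ e * Nat.card (Set.range fun x : Fin m → ZMod (p ^ e) =>
        Matrix.vecMul x (α.mat l)) := by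
  classical
  by_contra hcon
  push Not at hcon
  choose P hP hPge E L hL hcard using hcon
  have hq0 : ∀ j, NeZero (P j ^ E j) := fun j => ⟨pow_ne_zero _ (hP j).ne_zero⟩
  -- the exponents
  have hE1 : ∀ j, 1 ≤ E j := by
    intro j
    by_contra h
    have h0 : E j = 0 := by omega
    apply hL j
    have h1 : P j ^ E j = 1 := by rw [h0, pow_zero]
    have : Subsingleton (ZMod (P j ^ E j)) := by
      rw [h1]
      infer_instance
    exact Subsingleton.elim _ _
  have hcpos : ∀ j, 1 ≤ Nat.card (Set.range fun x : Fin m → ZMod (P j ^ E j) =>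
        Matrix.vecMul x (α.mat (L j))) := by
    intro j
    have : Nonempty (Set.range fun x : Fin m → ZMod (P j ^ E j) =>
        Matrix.vecMul x (α.mat (L j))) := ⟨⟨_, ⟨0, rfl⟩⟩⟩
    exact Nat.card_pos
  have hEr : ∀ j, E j ≤ r := by
    intro j
    by_contra h
    push Not at h
    have h1 : P j ^ (r + 1) ≤ P j ^ E j := Nat.pow_le_pow_right (hP j).pos (by omega)
    have h2 : P j ^ E j * 1 ≤ P j ^ E j * _ := Nat.mul_le_mul_left _ (hcpos j)
    have h3 := hcard j
    omega
  obtain ⟨s, rfl⟩ : ∃ s, r = s + 1 := ⟨r - 1, by have := hE1 0; have := hEr 0; omega⟩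
  have hcard' : ∀ j, Nat.card (LinearMap.range (Matrix.vecMulLinear (α.mat (L j)))) <
      P j ^ (s + 1) := by
    intro j
    have h1 : Nat.card (LinearMap.range (Matrix.vecMulLinear (α.mat (L j)))) =
      Nat.card (Set.range fun x : Fin m → ZMod (P j ^ E j) => Matrix.vecMul x (α.mat (L j))) :=
      rfl
    rw [h1]
    have h2 := hcard j
    have h3 : P j ≤ P j ^ E j := Nat.le_self_pow (by have := hE1 j; omega) _
    have h4 : P j * _ ≤ P j ^ E j * _ := Nat.mul_le_mul_right
      (Nat.card (Set.range fun x : Fin m → ZMod (P j ^ E j) => Matrix.vecMul x (α.mat (L j)))) h3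
    have h5 : P j ^ (s + 1 + 1) = P j * P j ^ (s + 1) := by ring
    rw [h5] at h2
    exact Nat.lt_of_mul_lt_mul_left (lt_of_le_of_lt h4 h2)
  have hchain := fun j => Ultra.fin_chain (hP j) s
    (LinearMap.range (Matrix.vecMulLinear (α.mat (L j)))) inferInstance (hcard' j)
  choose w c hc hw hspan using hchain
  -- the ultraproduct
  let U : Filter ℕ := (Filter.hyperfilter ℕ : Filter ℕ)
  let q : ℕ → ℕ := fun j => P j ^ E j
  let R := (∀ j, ZMod (q j)) ⧸ Ultra.ideal U q
  let mk : (∀ j, ZMod (q j)) →+* R := Ideal.Quotient.mk (Ultra.ideal U q)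
  have hmk : ∀ x y, mk x = mk y ↔ ∀ᶠ j in U, x j = y j := Ultra.mk_eq_mk U q
  have hsurj : Function.Surjective mk := Ideal.Quotient.mk_surjective
  have hU : ∀ n : ℕ, ∀ᶠ j in U, n ≤ j := by
    intro n
    have h1 : ∀ᶠ j in Filter.cofinite, n ≤ j := by
      rw [Nat.cofinite_eq_atTop]
      exact Filter.eventually_ge_atTop n
    exact Filter.Eventually.filter_mono Filter.hyperfilter_le_cofinite h1
  have hnontriv : Nontrivial R := by
    refine ⟨⟨0, 1, fun h => ?_⟩⟩
    rw [← map_zero mk, ← map_one mk, hmk] at h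
    obtain ⟨j, hj⟩ := h.exists
    have h1 : (0 : ZMod (P j ^ E j)) = 1 := hj
    have : Fact (1 < P j ^ E j) := ⟨Nat.one_lt_pow (by have := hE1 j; omega) (hP j).one_lt⟩
    exact zero_ne_one h1
  have hint : ∀ n : ℤ, n ≠ 0 → IsUnit ((n : ℤ) : R) := by
    intro n hn
    rw [← map_intCast mk]
    refine Ultra.isUnit_mk U q _ ?_
    filter_upwards [hU (n.natAbs + 1)] with j hj
    show IsUnit ((n : ZMod (P j ^ E j)))
    have h1 : Nat.Coprime n.natAbs (P j ^ E j) := by
      refine Nat.Coprime.pow_right _ ?_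
      rw [Nat.coprime_comm, (hP j).coprime_iff_not_dvd]
      intro hd
      have h2 := Nat.le_of_dvd (Int.natAbs_pos.mpr hn) hd
      have h3 := hPge j
      omega
    have h2 : IsUnit ((n.natAbs : ℕ) : ZMod (P j ^ E j)) := (ZMod.isUnit_iff_coprime _ _).mpr h1
    rcases Int.natAbs_eq n with h | h
    · rw [h]
      simpa using h2
    · rw [h]
      simpa using h2
  let _ : Algebra ℚ R := (IsLocalization.lift (M := nonZeroDivisors ℤ) (S := ℚ)
    (g := Int.castRingHom R) (fun y => hint y.1 (nonZeroDivisors.ne_zero y.2))).toAlgebra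
  refine Ultra.core R (mk fun j => (P j : ZMod (q j))) (s + 1) ?_ ?_ α s z ?_
    (fun t => mk fun j => L j t) ?_ (fun i a => mk fun j => w j i a)
    (fun i i' => mk fun j => c j i i') ?_ ?_ ?_
  · rw [← map_pow, ← map_zero mk, hmk]
    refine Filter.Eventually.of_forall fun j => ?_
    show ((P j : ZMod (P j ^ E j))) ^ (s + 1) = 0
    have h1 : (((P j) ^ (s + 1) : ℕ) : ZMod (P j ^ E j)) = 0 :=
      (ZMod.natCast_eq_zero_iff _ _).mpr (pow_dvd_pow _ (hEr j))
    simpa using h1
  · intro x
    obtain ⟨x, rfl⟩ := hsurj x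
    by_cases h : ∀ᶠ j in U, IsUnit (x j)
    · exact Or.inl (Ultra.isUnit_mk U q x h)
    · right
      have h' : ∀ᶠ j in U, ¬ IsUnit (x j) := Ultrafilter.eventually_not.mpr h
      have h2 : ∀ j, ∃ y : ZMod (q j), ¬ IsUnit (x j) → x j = y * (P j : ZMod (q j)) := by
        intro j
        rcases Ultra.zmod_unit_or (hP j) (x j) with h3 | ⟨y, hy⟩
        · exact ⟨0, fun h4 => absurd h3 h4⟩
        · exact ⟨y, fun _ => hy⟩
      choose y hy using h2
      refine ⟨mk y, ?_⟩
      rw [← map_mul, hmk]
      filter_upwards [h'] with j hj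
      exact hy j hj
  · exact hz
  · intro h0
    have h1 : (∑ t, mk (fun j => L j t) * ((z t : ℤ) : R)) =
        mk (∑ t, (fun j => L j t) * ((z t : ℤ) : ∀ j, ZMod (q j))) := by
      rw [map_sum]
      simp only [map_mul, map_intCast]
    rw [h1, ← map_zero mk, hmk] at h0
    obtain ⟨j, hj⟩ := h0.exists
    refine hL j ?_
    have h2 : (∑ t, (fun j => L j t) * ((z t : ℤ) : ∀ j, ZMod (q j))) j =
        ∑ t, L j t * (z t : ZMod (P j ^ E j)) := by
      rw [Finset.sum_apply]
      rfl
    rw [← h2]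
    exact hj
  · intro i i' h
    have h1 : (fun j => c j i i') = (0 : ∀ j, ZMod (q j)) := by
      funext j
      exact hc j i i' h
    show mk (fun j => c j i i') = 0
    rw [h1, map_zero]
  · intro i
    funext a
    rw [Finset.sum_apply]
    show mk (fun j => (P j : ZMod (q j))) * mk (fun j => w j i a) =
      ∑ i', mk (fun j => c j i i') * mk (fun j => w j i' a)
    simp only [← map_mul]
    rw [← map_sum, hmk]
    refine Filter.Eventually.of_forall fun j => ?_
    rw [Finset.sum_apply]
    have h1 := congrFun (hw j i) a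
    rw [Finset.sum_apply] at h1
    exact h1
  · intro x
    choose X hX using fun i => hsurj (x i)
    choose d hd using fun j => hspan j (Matrix.vecMul (fun i => X i j) (α.mat (L j)))
      ⟨fun i => X i j, rfl⟩
    refine ⟨fun i => mk fun j => d j i, ?_⟩
    funext a
    rw [Finset.sum_apply]
    have h1 : Matrix.vecMul x (α.mat fun t => mk fun j => L j t) a =
        mk (fun j => Matrix.vecMul (fun i => X i j) (α.mat (L j)) a) := by
      have h2 : (fun j => Matrix.vecMul (fun i => X i j) (α.mat (L j)) a) =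
          ∑ i, X i * ∑ t, (fun j => L j t) * ((α.c i a t : ℤ) : ∀ j, ZMod (q j)) := by
        funext j
        simp only [Matrix.vecMul, dotProduct, Form.mat, Finset.sum_apply, Pi.mul_apply]
        rfl
      rw [h2]
      simp only [Matrix.vecMul, dotProduct, Form.mat, map_sum, map_mul, map_intCast, hX]
    rw [h1]
    show _ = ∑ i, mk (fun j => d j i) * mk (fun j => w j i a)
    simp only [← map_mul]
    rw [← map_sum, hmk]
    refine Filter.Eventually.of_forall fun j => ?_
    rw [Finset.sum_apply]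
    have h3 := congrFun (hd j) a
    rw [Finset.sum_apply] at h3
    exact h3

end Pool.Agent.MPf60e8a
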