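import Mathlib
import Pool.Agent.Lib.MP_f60e8a_al.Stmts
import Pool.Agent.Lib.MP_f60e8a_al.Descent
import Pool.Agent.Lib.MP_f60e8a_al.Ultra
import Pool.Agent.Lib.MP_f60e8a_al.Lcm
import Pool.Agent.Lib.MP_f60e8a_al.LowGroup

/-!
# Assembly of the lower bound
-/

open scoped BigOperators commutatorElement

namespace Pool.Agent.MPf60e8a.Lower

theorem rho_eq_zero {m : ℕ} (α : Form m 0) : α.rho = 0 := by
  unfold Form.rho
  rw [Nat.sInf_eq_zero]
  left
  show Submodule.span ℂ _ = ⊤
  exact Subsingleton.elim _ _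

theorem lower_assembly {G : Type*} [Group G] {m k : ℕ} (hm : 0 < m) (α : Form m k)
    (Φ : G →* Gam α ℤ) (hsurj : ∀ a : Fin m → ℤ, ∃ g, (Φ g).a = a)
    (s : Multiplicative (Fin k → ℤ) →* G) (c₀ c₁ c₂ : ℕ) (h₀ : 0 < c₀)
    (h₂ : 0 < c₂)
    (hs : ∀ b : Fin k → ℤ, Φ (s (Multiplicative.ofAdd b)) = Gam.ver α ((c₀ : ℤ) • b))
    (hc : ∀ x y : G, ⁅x, y⁆ ^ c₁ =
        s (Multiplicative.ofAdd ((c₂ : ℤ) • α.ev (Φ x).a (Φ y).a))) :
    ∃ (x : G) (C : ℝ) (n₀ : ℕ), 0 < C ∧ ∀ n : ℕ, 1 ≤ n → n₀ ≤ n → ∃ K : ℕ, 0 < K ∧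
      (K : ℝ) ≤ Real.exp (C * n) ∧
      (∀ p e : ℕ, p.Prime → p ≤ n → p ^ e < n ^ (α.rho + 1) → p ^ e ∣ K) ∧
      Φ (x ^ K) ≠ 1 ∧
      ∀ N : Subgroup G, N.Normal → N.index ≠ 0 → x ^ K ∉ N → n ^ (α.rho + 1) ≤ N.index := by
  rcases Nat.eq_zero_or_pos k with hk | hk
  · -- the abelian case
    subst hk
    have hrho := rho_eq_zero α
    obtain ⟨C, hC, hK⟩ := exists_K 1
    obtain ⟨x, hx⟩ := hsurj (Pi.single ⟨0, hm⟩ 1)
    refine ⟨x, C, 0, hC, fun n hn _ => ?_⟩
    obtain ⟨K, hK0, hKe, hKd⟩ := hK n hn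
    refine ⟨K, hK0, hKe, ?_, ?_, ?_⟩
    · rw [hrho, zero_add]
      exact hKd
    · intro h
      have h2 := congrArg (fun y => y.a ⟨0, hm⟩) h
      simp only [map_pow, Gam.pow_eq, Gam.one_a, hx, Pi.smul_apply, Pi.single_eq_same,
        Pi.zero_apply, smul_eq_mul, mul_one] at h2
      have h3 : (K : ℤ) ≠ 0 := by exact_mod_cast hK0.ne'
      exact h3 (by exact_mod_cast h2)
    · intro N hN hi hg
      have := hN
      rw [hrho, zero_add, pow_one]
      set q := orderOf (QuotientGroup.mk x : G ⧸ N) with hq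
      have hfi : N.FiniteIndex := ⟨hi⟩
      have hfin : Finite (G ⧸ N) := inferInstance
      have hq1 : q ∣ N.index := by
        rw [Subgroup.index_eq_card]
        exact orderOf_dvd_natCard _
      have hq2 : ¬ q ∣ K := by
        intro h
        apply hg
        rw [← QuotientGroup.eq_one_iff, QuotientGroup.mk_pow]
        exact orderOf_dvd_iff_pow_eq_one.mp h
      rw [Nat.dvd_iff_prime_pow_dvd_dvd] at hq2
      push Not at hq2
      obtain ⟨p, e, hp, hpe, hpK⟩ := hq2
      have hle : p ^ e ≤ N.index := Nat.le_of_dvd (Nat.pos_of_ne_zero hi) (hpe.trans hq1)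
      by_cases hpn : p ≤ n
      · have := mt (hKd p e hp hpn) hpK
        rw [not_lt, pow_one] at this
        exact this.trans hle
      · push Not at hpn
        have he : e ≠ 0 := by
          rintro rfl
          exact hpK (by simp)
        have : p ≤ p ^ e := Nat.le_self_pow he p
        omega
  · -- the general case
    obtain ⟨z, hz0, hz⟩ := exists_z α hk
    obtain ⟨p₀, hp₀⟩ := claimC α α.rho z hz
    obtain ⟨C, hC, hK⟩ := exists_K (α.rho + 1)
    set x : G := s (Multiplicative.ofAdd z) with hx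
    refine ⟨x, C, max p₀ (c₂ + 1), hC, fun n hn hnn => ?_⟩
    obtain ⟨K, hK0, hKe, hKd⟩ := hK n hn
    have hxK : x ^ K = s (Multiplicative.ofAdd ((K : ℤ) • z)) := by
      rw [hx, ← map_pow, ← ofAdd_nsmul, natCast_zsmul]
    refine ⟨K, hK0, hKe, hKd, ?_, ?_⟩
    · intro h
      rw [hxK, hs] at h
      have h2 := congrArg Gam.b h
      simp only [Gam.ver_b, Gam.one_b] at h2
      rw [smul_eq_zero, smul_eq_zero] at h2
      rcases h2 with h2 | h2 | h2
      · exact h₀.ne' (by exact_mod_cast h2)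
      · exact hK0.ne' (by exact_mod_cast h2)
      · exact hz0 h2
    · intro N hN hi hg
      rw [hxK] at hg
      have hs0 : ∀ b, (Φ (s b)).a = 0 := by
        intro b
        have := hs (Multiplicative.toAdd b)
        rw [ofAdd_toAdd] at this
        rw [this, Gam.ver_a]
      obtain ⟨p, e, l, hp, hl, hle, hor⟩ := exists_character α Φ hsurj s hs0 c₁ c₂ hc N hN hi _ hg
      have hl2 : (K : ZMod (p ^ e)) * ∑ t, l t * (z t : ZMod (p ^ e)) ≠ 0 := by
        intro h
        apply hl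
        rw [← h, Finset.mul_sum]
        refine Finset.sum_congr rfl fun t _ => ?_
        simp only [Pi.smul_apply, smul_eq_mul, Int.cast_mul, Int.cast_natCast]
        ring
      have hlz : ∑ t, l t * (z t : ZMod (p ^ e)) ≠ 0 := right_ne_zero_of_mul hl2
      have hKp : ¬ p ^ e ∣ K := by
        intro h
        apply left_ne_zero_of_mul hl2
        rwa [ZMod.natCast_eq_zero_iff]
      by_cases hpn : p ≤ n
      · have := mt (hKd p e hp hpn) hKp
        rw [not_lt] at this
        exact this.trans hle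
      · push Not at hpn
        have h1 : p₀ ≤ p := ((le_max_left p₀ (c₂ + 1)).trans hnn).trans hpn.le
        have h2 : c₂ < p := by
          have := ((le_max_right p₀ (c₂ + 1)).trans hnn).trans hpn.le
          omega
        have h3 : ¬ p ∣ c₂ := fun h => by
          have := Nat.le_of_dvd h₂ h
          omega
        have h4 := hp₀ p hp h1 e l hlz
        have h5 := hor.resolve_left h3
        exact (Nat.pow_le_pow_left hpn.le _).trans (h4.trans h5)

/-- Passing from `G ⧸ T` (`T` finite) to `G`, and uniformizing in `n`. -/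
theorem lower_lift {G : Type*} [Group G] {S : Finset G}
    (hS : Subgroup.closure (S : Set G) = ⊤) (T : Subgroup G) [T.Normal] [Finite T] (d : ℕ)
    (x : G ⧸ T) (C : ℝ) (n₀ : ℕ) (hC : 0 < C)
    (h : ∀ n : ℕ, 1 ≤ n → n₀ ≤ n → ∃ K : ℕ, 0 < K ∧ (K : ℝ) ≤ Real.exp (C * n) ∧
      (∀ p e : ℕ, p.Prime → p ≤ n → p ^ e < n ^ d → p ^ e ∣ K) ∧ x ^ K ≠ 1 ∧
      ∀ N : Subgroup (G ⧸ T), N.Normal → N.index ≠ 0 → x ^ K ∉ N → n ^ d ≤ N.index) :
    ∃ C' : ℝ, 0 < C' ∧ ∀ n : ℕ, 1 ≤ n → ∃ g : G, (QuotientGroup.mk g : G ⧸ T) ≠ 1 ∧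
      (∃ K : ℕ, (QuotientGroup.mk g : G ⧸ T) = x ^ K) ∧
      (wordLen S g : ℝ) ≤ Real.exp (C' * n) ∧
      ∀ N : Subgroup G, N.Normal → N.index ≠ 0 → g ∉ N → n ^ d ≤ N.index := by
  obtain ⟨y, hy⟩ := QuotientGroup.mk_surjective x
  set t := Nat.card T with ht
  have ht0 : 0 < t := Nat.card_pos
  set n₁ := max n₀ (t + 1) with hn₁
  have hn₁1 : 1 ≤ n₁ := le_trans (by omega) (le_max_right n₀ (t + 1))
  refine ⟨C * n₁ + wordLen S y, by positivity, fun n hn => ?_⟩
  have hnn : n₁ ≤ max n n₁ := le_max_right _ _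
  obtain ⟨K, hK0, hKe, hKd, hK1, hKN⟩ :=
    h (max n n₁) (le_max_of_le_left hn) ((le_max_left n₀ (t + 1)).trans hnn)
  have hyK : (QuotientGroup.mk (y ^ K) : G ⧸ T) = x ^ K := by
    rw [QuotientGroup.mk_pow, hy]
  refine ⟨y ^ K, by rw [hyK]; exact hK1, ⟨K, hyK⟩, ?_, ?_⟩
  · have h1 : (wordLen S (y ^ K) : ℝ) ≤ K * wordLen S y := by
      exact_mod_cast wordLen_pow_le hS y K
    have hn1 : (1 : ℝ) ≤ n := by exact_mod_cast hn
    have hn01 : (1 : ℝ) ≤ n₁ := by exact_mod_cast hn₁1
    have h2 : (wordLen S y : ℝ) ≤ Real.exp (wordLen S y * n) := by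
      have h3 : (wordLen S y : ℝ) ≤ wordLen S y * n := by
        nlinarith [Nat.cast_nonneg (α := ℝ) (wordLen S y)]
      have h4 := Real.add_one_le_exp ((wordLen S y : ℝ) * n)
      linarith
    have h5 : ((max n n₁ : ℕ) : ℝ) ≤ n₁ * n := by
      rw [Nat.cast_max]
      refine max_le ?_ ?_ <;> nlinarith
    have h6 : (K : ℝ) ≤ Real.exp (C * n₁ * n) := by
      refine hKe.trans (Real.exp_le_exp.mpr ?_)
      rw [mul_assoc]
      exact mul_le_mul_of_nonneg_left h5 hC.le
    calc (wordLen S (y ^ K) : ℝ) ≤ K * wordLen S y := h1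
      _ ≤ Real.exp (C * n₁ * n) * Real.exp (wordLen S y * n) := by gcongr
      _ = Real.exp ((C * n₁ + wordLen S y) * n) := by rw [← Real.exp_add, add_mul]
  · intro N hN hi hg
    have hNn := hN
    have hfi : N.FiniteIndex := ⟨hi⟩
    have hfin : Finite (G ⧸ N) := inferInstance
    have hmono : n ^ d ≤ (max n n₁) ^ d := Nat.pow_le_pow_left (le_max_left _ _) _
    by_cases hNT : y ^ K ∈ N ⊔ T
    · -- the image of `y ^ K` in `G ⧸ N` has order dividing `t`
      set q := orderOf (QuotientGroup.mk y : G ⧸ N) with hq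
      have hq1 : q ∣ N.index := by
        rw [Subgroup.index_eq_card]
        exact orderOf_dvd_natCard _
      have hq2 : ¬ q ∣ K := by
        intro h
        apply hg
        rw [← QuotientGroup.eq_one_iff, QuotientGroup.mk_pow]
        exact orderOf_dvd_iff_pow_eq_one.mp h
      have hq3 : q ∣ K * t := by
        obtain ⟨u, hu, v, hv, huv⟩ := Subgroup.mem_sup_of_normal_right.mp hNT
        rw [hq, orderOf_dvd_iff_pow_eq_one, pow_mul]
        have h1 : (QuotientGroup.mk y : G ⧸ N) ^ K = QuotientGroup.mk v := by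
          rw [← QuotientGroup.mk_pow, ← huv, QuotientGroup.mk_mul,
            (QuotientGroup.eq_one_iff u).mpr hu, one_mul]
        rw [h1, ← QuotientGroup.mk_pow]
        have h2 : v ^ t = 1 := by
          have h3 : (⟨v, hv⟩ : T) ^ Nat.card T = 1 := pow_card_eq_one'
          have h4 : (((⟨v, hv⟩ : T) ^ t : T) : G) = 1 := by
            rw [ht, h3]
            rfl
          rwa [Subgroup.coe_pow] at h4
        rw [h2, QuotientGroup.mk_one]
      have hq2' := hq2
      rw [Nat.dvd_iff_prime_pow_dvd_dvd] at hq2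
      push Not at hq2
      obtain ⟨p, e, hp, hpe, hpK⟩ := hq2
      have hpt : p ∣ t := by
        by_contra hpt
        have h1 : Nat.Coprime (p ^ e) t := Nat.Coprime.pow_left e
          ((Nat.Prime.coprime_iff_not_dvd hp).mpr hpt)
        exact hpK (h1.dvd_of_dvd_mul_right (hpe.trans hq3))
      have hpn : p ≤ max n n₁ := by
        have h1 := Nat.le_of_dvd ht0 hpt
        have h2 : t + 1 ≤ n₁ := le_max_right _ _
        have h3 : n₁ ≤ max n n₁ := le_max_right _ _
        omega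
      have h1 := mt (hKd p e hp hpn) hpK
      rw [not_lt] at h1
      have hle : p ^ e ≤ N.index := Nat.le_of_dvd (Nat.pos_of_ne_zero hi) (hpe.trans hq1)
      exact hmono.trans (h1.trans hle)
    · -- pass to the quotient by `T`
      set N' : Subgroup (G ⧸ T) := N.map (QuotientGroup.mk' T) with hN'
      have hN'n : N'.Normal := hN.map _ (QuotientGroup.mk'_surjective T)
      have hidx : N'.index = (N ⊔ T).index := by
        rw [hN', Subgroup.index_map, QuotientGroup.ker_mk',
          MonoidHom.range_eq_top.mpr (QuotientGroup.mk'_surjective T), Subgroup.index_top, mul_one]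
      have hdvd : (N ⊔ T).index ∣ N.index := Subgroup.index_dvd_of_le le_sup_left
      have hN'i : N'.index ≠ 0 := by
        rw [hidx]
        intro h0
        rw [h0] at hdvd
        exact hi (Nat.eq_zero_of_zero_dvd hdvd)
      have hmem : x ^ K ∉ N' := by
        intro hmem
        apply hNT
        rw [← hyK, hN', Subgroup.mem_map] at hmem
        obtain ⟨u, hu, huv⟩ := hmem
        rw [QuotientGroup.mk'_apply, QuotientGroup.eq] at huv
        have : y ^ K = u * (u⁻¹ * y ^ K) := by group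
        rw [this]
        exact Subgroup.mul_mem_sup hu huv
      have h1 := hKN N' hN'n hN'i hmem
      rw [hidx] at h1
      exact hmono.trans (h1.trans (Nat.le_of_dvd (Nat.pos_of_ne_zero hi) hdvd))

end Pool.Agent.MPf60e8a.Lower
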