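import Mathlib
import Pool.Agent.Lib.MP_f60e8a_al.Stmts

/-!
# A right-invariant mean on the integral group of a form
-/

open scoped BigOperators commutatorElement

namespace Pool.Agent.MPf60e8a

namespace MeanAux

variable {m k : ℕ} (α : Form m k)

/-- The pairing of the two coordinates as an embedding. -/
def emb : (Fin m → ℤ) × (Fin k → ℤ) ↪ Gam α ℤ :=
  ⟨fun p => ⟨p.1, p.2⟩, fun p q h => by
    have h1 := congrArg Gam.a h
    have h2 := congrArg Gam.b h
    exact Prod.ext h1 h2⟩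

/-- Boxes. -/
noncomputable def box (A B : ℕ) : Finset (Gam α ℤ) :=
  ((Fintype.piFinset fun _ : Fin m => Finset.Icc (-(A : ℤ)) A) ×ˢ
    (Fintype.piFinset fun _ : Fin k => Finset.Icc (-(B : ℤ)) B)).map (emb α)

theorem mem_box {A B : ℕ} {x : Gam α ℤ} :
    x ∈ box α A B ↔ (∀ i, |x.a i| ≤ A) ∧ (∀ t, |x.b t| ≤ B) := by
  unfold box
  rw [Finset.mem_map]
  constructor
  · rintro ⟨p, hp, rfl⟩
    rw [Finset.mem_product, Fintype.mem_piFinset, Fintype.mem_piFinset] at hp
    refine ⟨fun i => ?_, fun t => ?_⟩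
    · have := hp.1 i
      rw [Finset.mem_Icc] at this
      exact abs_le.mpr this
    · have := hp.2 t
      rw [Finset.mem_Icc] at this
      exact abs_le.mpr this
  · rintro ⟨h1, h2⟩
    refine ⟨(x.a, x.b), ?_, rfl⟩
    rw [Finset.mem_product, Fintype.mem_piFinset, Fintype.mem_piFinset]
    refine ⟨fun i => ?_, fun t => ?_⟩
    · rw [Finset.mem_Icc]
      exact abs_le.mp (h1 i)
    · rw [Finset.mem_Icc]
      exact abs_le.mp (h2 t)

theorem card_box (A B : ℕ) : (box α A B).card = (2 * A + 1) ^ m * (2 * B + 1) ^ k := by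
  unfold box
  rw [Finset.card_map, Finset.card_product, Fintype.card_piFinset, Fintype.card_piFinset]
  have h : ∀ n : ℕ, (Finset.Icc (-(n : ℤ)) n).card = 2 * n + 1 := by
    intro n
    rw [Int.card_Icc]
    omega
  simp only [h, Finset.prod_const, Finset.card_univ, Fintype.card_fin]

theorem card_box_pos (A B : ℕ) : (0 : ℝ) < ((box α A B).card : ℝ) := by
  rw [card_box]
  positivity

/-- The averages. -/
noncomputable def avg (φ : Gam α ℤ → ℝ) (r : ℕ) : ℝ :=
  (∑ x ∈ box α r (r ^ 2), φ x) / ((box α r (r ^ 2)).card : ℝ)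

theorem avg_add (φ ψ : Gam α ℤ → ℝ) (r : ℕ) :
    avg α (fun x => φ x + ψ x) r = avg α φ r + avg α ψ r := by
  unfold avg
  rw [Finset.sum_add_distrib, add_div]

theorem avg_smul (c : ℝ) (φ : Gam α ℤ → ℝ) (r : ℕ) :
    avg α (fun x => c * φ x) r = c * avg α φ r := by
  unfold avg
  rw [← Finset.mul_sum, mul_div_assoc]

theorem avg_nonneg {φ : Gam α ℤ → ℝ} (h : ∀ x, 0 ≤ φ x) (r : ℕ) : 0 ≤ avg α φ r := by
  unfold avg
  exact div_nonneg (Finset.sum_nonneg fun x _ => h x) (Nat.cast_nonneg _)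

theorem avg_one (r : ℕ) : avg α (fun _ => 1) r = 1 := by
  unfold avg
  rw [Finset.sum_const, nsmul_eq_mul, mul_one]
  exact div_self (card_box_pos α _ _).ne'

theorem avg_abs {φ : Gam α ℤ → ℝ} {C : ℝ} (h : ∀ x, |φ x| ≤ C) (r : ℕ) :
    |avg α φ r| ≤ C := by
  unfold avg
  have hp := card_box_pos α r (r ^ 2)
  rw [abs_div, abs_of_pos hp, div_le_iff₀ hp]
  calc |∑ x ∈ box α r (r ^ 2), φ x| ≤ ∑ x ∈ box α r (r ^ 2), |φ x| :=
        Finset.abs_sum_le_sum_abs _ _
    _ ≤ ∑ _x ∈ box α r (r ^ 2), C := Finset.sum_le_sum fun x _ => h x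
    _ = C * ((box α r (r ^ 2)).card : ℝ) := by
        rw [Finset.sum_const, nsmul_eq_mul, mul_comm]

/-- The constant for the translation by `g`. -/
def tc (g : Gam α ℤ) : ℕ :=
  ∑ i, (g.a i).natAbs + ∑ t, (g.b t).natAbs +
    ∑ t, ∑ i, ∑ j, (α.c i j t).natAbs * (g.a j).natAbs

theorem box_subset {A B A' B' : ℕ} (h1 : A ≤ A') (h2 : B ≤ B') :
    box α A B ⊆ box α A' B' := by
  intro x hx
  rw [mem_box] at hx ⊢
  refine ⟨fun i => (hx.1 i).trans ?_, fun t => (hx.2 t).trans ?_⟩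
  · exact_mod_cast h1
  · exact_mod_cast h2

theorem mul_mem_box (g : Gam α ℤ) (r : ℕ) {x : Gam α ℤ} (hx : x ∈ box α r (r ^ 2)) :
    x * g ∈ box α (r + tc α g) (r ^ 2 + tc α g * r + tc α g) := by
  rw [mem_box] at hx ⊢
  obtain ⟨hxa, hxb⟩ := hx
  have ha : ∀ i, |g.a i| ≤ (tc α g : ℤ) := by
    intro i
    have h1 : (g.a i).natAbs ≤ ∑ i, (g.a i).natAbs :=
      Finset.single_le_sum (f := fun i => (g.a i).natAbs) (fun _ _ => Nat.zero_le _)
        (Finset.mem_univ i)
    have h2 : (g.a i).natAbs ≤ tc α g := by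
      unfold tc
      omega
    rw [Int.abs_eq_natAbs]
    exact_mod_cast h2
  have hb : ∀ t, |g.b t| ≤ (tc α g : ℤ) := by
    intro t
    have h1 : (g.b t).natAbs ≤ ∑ t, (g.b t).natAbs :=
      Finset.single_le_sum (f := fun t => (g.b t).natAbs) (fun _ _ => Nat.zero_le _)
        (Finset.mem_univ t)
    have h2 : (g.b t).natAbs ≤ tc α g := by
      unfold tc
      omega
    rw [Int.abs_eq_natAbs]
    exact_mod_cast h2
  have hev : ∀ t, |α.ev x.a g.a t| ≤ (tc α g : ℤ) * r := by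
    intro t
    have h1 : |α.ev x.a g.a t| ≤ ∑ i, ∑ j, |α.c i j t| * |g.a j| * r := by
      rw [Form.ev_apply]
      refine (Finset.abs_sum_le_sum_abs _ _).trans (Finset.sum_le_sum fun i _ => ?_)
      refine (Finset.abs_sum_le_sum_abs _ _).trans (Finset.sum_le_sum fun j _ => ?_)
      rw [abs_mul, abs_mul]
      have := hxa i
      have h0 : 0 ≤ |α.c i j t| * |g.a j| := by positivity
      simp only [Int.cast_id]
      calc |α.c i j t| * |x.a i| * |g.a j| = |α.c i j t| * |g.a j| * |x.a i| := by ring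
        _ ≤ |α.c i j t| * |g.a j| * r := mul_le_mul_of_nonneg_left this h0
    refine h1.trans ?_
    simp only [← Finset.sum_mul]
    refine mul_le_mul_of_nonneg_right ?_ (Int.natCast_nonneg r)
    have h2 : ∑ i, ∑ j, (α.c i j t).natAbs * (g.a j).natAbs ≤
        ∑ t, ∑ i, ∑ j, (α.c i j t).natAbs * (g.a j).natAbs :=
      Finset.single_le_sum (f := fun t => ∑ i, ∑ j, (α.c i j t).natAbs * (g.a j).natAbs)
        (fun _ _ => Nat.zero_le _) (Finset.mem_univ t)
    have h3 : ∑ i, ∑ j, (α.c i j t).natAbs * (g.a j).natAbs ≤ tc α g := by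
      unfold tc
      omega
    have h4 : (∑ i, ∑ j, |α.c i j t| * |g.a j| : ℤ) =
        ((∑ i, ∑ j, (α.c i j t).natAbs * (g.a j).natAbs : ℕ) : ℤ) := by
      push_cast
      rfl
    rw [h4]
    exact_mod_cast h3
  refine ⟨fun i => ?_, fun t => ?_⟩
  · rw [Gam.mul_a, Pi.add_apply]
    push_cast
    exact (abs_add_le _ _).trans (add_le_add (hxa i) (ha i))
  · rw [Gam.mul_b, Pi.add_apply, Pi.add_apply]
    have h1 := hxb t
    have h2 := hb t
    have h3 := hev t
    have h4 := abs_add_le (x.b t + g.b t) (α.ev x.a g.a t)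
    have h5 := abs_add_le (x.b t) (g.b t)
    push_cast at h1 ⊢
    linarith

theorem avg_translate (g : Gam α ℤ) {φ : Gam α ℤ → ℝ} {C : ℝ} (h : ∀ x, |φ x| ≤ C) (r : ℕ) :
    |avg α (fun x => φ (x * g)) r - avg α φ r| ≤
      2 * C * (((box α (r + tc α g) (r ^ 2 + tc α g * r + tc α g)).card : ℝ) /
        ((box α r (r ^ 2)).card : ℝ) - 1) := by
  classical
  set F := box α r (r ^ 2) with hF
  set F' := box α (r + tc α g) (r ^ 2 + tc α g * r + tc α g) with hF'
  have hp : (0 : ℝ) < (F.card : ℝ) := card_box_pos α _ _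
  have hsub1 : F ⊆ F' := box_subset α (by omega) (by
    have : 0 ≤ tc α g * r := Nat.zero_le _
    omega)
  set e : Gam α ℤ ↪ Gam α ℤ := ⟨fun x => x * g, mul_left_injective g⟩ with he
  have hsub2 : F.map e ⊆ F' := by
    intro y hy
    rw [Finset.mem_map] at hy
    obtain ⟨x, hx, rfl⟩ := hy
    exact mul_mem_box α g r hx
  have hsum : ∑ x ∈ F, φ (x * g) = ∑ y ∈ F.map e, φ y := by
    rw [Finset.sum_map]
    rfl
  have key : ∀ S : Finset (Gam α ℤ), S ⊆ F' → S.card = F.card →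
      |∑ x ∈ F', φ x - ∑ x ∈ S, φ x| ≤ C * ((F'.card : ℝ) - F.card) := by
    intro S hS hc
    have h1 : ∑ x ∈ F', φ x - ∑ x ∈ S, φ x = ∑ x ∈ F' \ S, φ x := by
      rw [← Finset.sum_sdiff hS]
      ring
    rw [h1]
    calc |∑ x ∈ F' \ S, φ x| ≤ ∑ x ∈ F' \ S, |φ x| := Finset.abs_sum_le_sum_abs _ _
      _ ≤ ∑ _x ∈ F' \ S, C := Finset.sum_le_sum fun x _ => h x
      _ = C * ((F' \ S).card : ℝ) := by
          rw [Finset.sum_const, nsmul_eq_mul, mul_comm]
      _ = C * ((F'.card : ℝ) - F.card) := by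
          rw [Finset.card_sdiff_of_subset hS, Nat.cast_sub (Finset.card_le_card hS), hc]
  have k1 := key F hsub1 rfl
  have k2 := key (F.map e) hsub2 (Finset.card_map _)
  have h2 : |∑ x ∈ F, φ (x * g) - ∑ x ∈ F, φ x| ≤ 2 * C * ((F'.card : ℝ) - F.card) := by
    rw [hsum]
    have : ∑ y ∈ F.map e, φ y - ∑ x ∈ F, φ x =
        (∑ x ∈ F', φ x - ∑ x ∈ F, φ x) - (∑ x ∈ F', φ x - ∑ y ∈ F.map e, φ y) := by ring
    rw [this]
    refine (abs_sub _ _).trans ?_
    linarith
  unfold avg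
  rw [← hF, ← sub_div, abs_div, abs_of_pos hp, div_le_iff₀ hp]
  refine h2.trans (le_of_eq ?_)
  field_simp

theorem ratio_tendsto (c : ℕ) :
    Filter.Tendsto (fun r : ℕ => ((box α (r + c) (r ^ 2 + c * r + c)).card : ℝ) /
      ((box α r (r ^ 2)).card : ℝ)) Filter.atTop (nhds 1) := by
  have h1 : Filter.Tendsto (fun r : ℕ => 1 + (2 * c : ℝ) / (2 * r + 1)) Filter.atTop
      (nhds (1 + 0)) := by
    refine tendsto_const_nhds.add ?_
    refine Filter.Tendsto.const_div_atTop ?_ _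
    refine Filter.tendsto_atTop_add_const_right _ _ ?_
    exact Filter.Tendsto.const_mul_atTop (by norm_num) tendsto_natCast_atTop_atTop
  have h2 : Filter.Tendsto (fun r : ℕ => (2 * (c * r + c) : ℝ) / (2 * r ^ 2 + 1)) Filter.atTop
      (nhds 0) := by
    have hb : ∀ r : ℕ, 1 ≤ r → (2 * (c * r + c) : ℝ) / (2 * r ^ 2 + 1) ≤ (2 * c) / r := by
      intro r hr
      have hr' : (1 : ℝ) ≤ r := by exact_mod_cast hr
      rw [div_le_div_iff₀ (by positivity) (by positivity)]
      have hc : (0 : ℝ) ≤ c := Nat.cast_nonneg _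
      nlinarith [mul_nonneg hc (sub_nonneg.mpr hr'), mul_nonneg hc (mul_nonneg (sub_nonneg.mpr hr') (by linarith : (0:ℝ) ≤ r))]
    refine squeeze_zero' (g := fun r : ℕ => (2 * c : ℝ) / r) ?_ ?_ ?_
    · exact Filter.Eventually.of_forall fun r => by positivity
    · exact Filter.eventually_atTop.mpr ⟨1, hb⟩
    · exact Filter.Tendsto.const_div_atTop tendsto_natCast_atTop_atTop _
  have h3 : Filter.Tendsto (fun r : ℕ => 1 + (2 * (c * r + c) : ℝ) / (2 * r ^ 2 + 1))
      Filter.atTop (nhds (1 + 0)) := tendsto_const_nhds.add h2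
  have h4 := (h1.pow m).mul (h3.pow k)
  simp only [add_zero, one_pow, mul_one] at h4
  refine h4.congr fun r => ?_
  rw [card_box, card_box]
  push_cast
  rw [mul_div_mul_comm, ← div_pow, ← div_pow]
  congr 2
  · field_simp
    ring
  · field_simp
    ring

end MeanAux

open MeanAux in
/-- There is a right-invariant mean on the integral group of a form. -/
theorem exists_mean {m k : ℕ} (α : Form m k) : HasMean α := by
  classical
  let U : Filter ℕ := (Filter.hyperfilter ℕ : Filter ℕ)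
  have : U.NeBot := (Filter.hyperfilter ℕ).neBot'
  let M : (Gam α ℤ → ℝ) → ℝ := fun φ => Filter.limUnder U (avg α φ)
  have hlim : ∀ φ, Bdd φ → Filter.Tendsto (avg α φ) U (nhds (M φ)) := by
    rintro φ ⟨C, hC⟩
    apply tendsto_nhds_limUnder
    have hmem : ∀ r, avg α φ r ∈ Set.Icc (-C) C := fun r => abs_le.mp (avg_abs α hC r)
    obtain ⟨x, _, hx⟩ := (isCompact_Icc (a := -C) (b := C)).ultrafilter_le_nhds
      ((Filter.hyperfilter ℕ).map (avg α φ)) (by
        rw [Filter.le_principal_iff, Ultrafilter.mem_coe, Ultrafilter.mem_map]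
        exact Filter.univ_mem' hmem)
    exact ⟨x, hx⟩
  refine ⟨M, ?_, ?_, ?_, ?_, ?_⟩
  · rintro φ ψ hφ hψ
    have hs : Bdd (fun x => φ x + ψ x) := by
      obtain ⟨C, hC⟩ := hφ
      obtain ⟨D, hD⟩ := hψ
      exact ⟨C + D, fun x => (abs_add_le _ _).trans (add_le_add (hC x) (hD x))⟩
    refine tendsto_nhds_unique (hlim _ hs) ?_
    refine ((hlim φ hφ).add (hlim ψ hψ)).congr fun r => ?_
    exact (avg_add α φ ψ r).symm
  · rintro c φ hφ
    have hs : Bdd (fun x => c * φ x) := by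
      obtain ⟨C, hC⟩ := hφ
      refine ⟨|c| * C, fun x => ?_⟩
      rw [abs_mul]
      exact mul_le_mul_of_nonneg_left (hC x) (abs_nonneg c)
    refine tendsto_nhds_unique (hlim _ hs) ?_
    refine ((hlim φ hφ).const_mul c).congr fun r => ?_
    exact (avg_smul α c φ r).symm
  · rintro φ hφ hpos
    exact ge_of_tendsto' (hlim φ hφ) fun r => avg_nonneg α hpos r
  · have hb : Bdd (fun _ : Gam α ℤ => (1 : ℝ)) := ⟨1, fun _ => by simp⟩
    refine tendsto_nhds_unique (hlim _ hb) ?_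
    refine tendsto_const_nhds.congr fun r => ?_
    exact (avg_one α r).symm
  · rintro φ g ⟨C, hC⟩
    have hb : Bdd (fun x => φ (x * g)) := ⟨C, fun x => hC _⟩
    have h1 := hlim _ hb
    have h2 := hlim φ ⟨C, hC⟩
    have h3 := h1.sub h2
    have h4 : Filter.Tendsto (fun r => avg α (fun x => φ (x * g)) r - avg α φ r) U (nhds 0) := by
      have h5 := (ratio_tendsto α (tc α g)).sub_const 1
      have h6 := h5.const_mul (2 * C)
      simp only [sub_self, mul_zero] at h6
      have h7 : Filter.Tendsto (fun r => avg α (fun x => φ (x * g)) r - avg α φ r)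
          Filter.atTop (nhds 0) :=
        squeeze_zero_norm (fun r => avg_translate α g hC r) h6
      exact h7.mono_left Nat.hyperfilter_le_atTop
    have h5 := tendsto_nhds_unique h3 h4
    exact sub_eq_zero.mp h5

end Pool.Agent.MPf60e8a
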