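import Mathlib
import Pool.Agent.Lib.MP_f60e8a_al.Stmts

/-!
# Word length is bounded by the homogeneous norm
-/

open scoped BigOperators commutatorElement

namespace Pool.Agent.MPf60e8a

namespace MetricAux

variable {G : Type*} [Group G] {m k : ℕ} {α : Form m k}

theorem prod_a {ι : Type*} (Φ : G →* Gam α ℤ) (F : ι → G) (l : List ι) :
    (Φ (l.map F).prod).a = (l.map fun i => (Φ (F i)).a).sum := by
  induction l with
  | nil => simp
  | cons i l ih => simp [ih]

theorem prod_b {ι : Type*} (Φ : G →* Gam α ℤ) (F : ι → G) (hF : ∀ i, (Φ (F i)).a = 0)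
    (l : List ι) : (Φ (l.map F).prod).b = (l.map fun i => (Φ (F i)).b).sum := by
  induction l with
  | nil => simp
  | cons i l ih => simp [ih, hF]

theorem exists_int_rel (hα : α.Spanning) : ∃ q : ℕ, 0 < q ∧
    ∃ u : Fin k → Fin m × Fin m → ℤ,
      ∀ t t', ∑ p, u t p * α.c p.1 p.2 t' = if t = t' then (q : ℤ) else 0 := by
  classical
  have h : ∀ t : Fin k, ∃ c : Fin m × Fin m → ℚ,
      ∑ p, c p • (fun t' => (α.c p.1 p.2 t' : ℚ)) = Pi.single t 1 := by
    intro t
    have : (Pi.single t 1 : Fin k → ℚ) ∈ Submodule.span ℚ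
        (Set.range fun p : Fin m × Fin m => fun t => (α.c p.1 p.2 t : ℚ)) := by
      rw [show Submodule.span ℚ
        (Set.range fun p : Fin m × Fin m => fun t => (α.c p.1 p.2 t : ℚ)) = ⊤ from hα]
      trivial
    exact (Submodule.mem_span_range_iff_exists_fun ℚ).1 this
  choose c hc using h
  set q : ℕ := ∏ x : Fin k × (Fin m × Fin m), (c x.1 x.2).den with hqdef
  have hq : 0 < q := Finset.prod_pos fun x _ => (c x.1 x.2).den_pos
  have hdvd : ∀ t p, ∃ z : ℤ, (q : ℚ) * c t p = z := by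
    intro t p
    obtain ⟨r, hr⟩ := Finset.dvd_prod_of_mem
      (fun x : Fin k × (Fin m × Fin m) => (c x.1 x.2).den) (Finset.mem_univ (t, p))
    refine ⟨r * (c t p).num, ?_⟩
    have h1 : (q : ℚ) = (c t p).den * r := by
      rw [hqdef]
      exact_mod_cast hr
    rw [h1]
    push_cast
    have h2 := Rat.mul_den_eq_num (c t p)
    linear_combination (r : ℚ) * h2
  choose u hu using hdvd
  refine ⟨q, hq, u, fun t t' => ?_⟩
  have h1 := congrFun (hc t) t'
  simp only [Finset.sum_apply, Pi.smul_apply, smul_eq_mul] at h1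
  have h2 : ((∑ p, u t p * α.c p.1 p.2 t' : ℤ) : ℚ)
      = ((if t = t' then (q : ℤ) else 0 : ℤ) : ℚ) := by
    push_cast
    calc ∑ p, (u t p : ℚ) * α.c p.1 p.2 t'
        = ∑ p, (q : ℚ) * (c t p * α.c p.1 p.2 t') := by
          refine Finset.sum_congr rfl fun p _ => ?_
          rw [← hu]
          ring
      _ = q * (Pi.single t 1 : Fin k → ℚ) t' := by rw [← Finset.mul_sum, h1]
      _ = _ := by
          rw [Pi.single_apply]
          by_cases h : t = t'
          · simp [h]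
          · simp [h, Ne.symm h]
  exact_mod_cast h2

/-- The first coordinate as a homomorphism. -/
def aHom (α : Form m k) : Gam α ℤ →* Multiplicative (Fin m → ℤ) where
  toFun x := Multiplicative.ofAdd x.a
  map_one' := rfl
  map_mul' _ _ := rfl

theorem zpow_a (y : Gam α ℤ) (n : ℤ) : (y ^ n).a = n • y.a :=
  map_zpow (aHom α) y n

theorem comm_phi (Φ : G →* Gam α ℤ) (x y : G) :
    Φ (x * y * x⁻¹ * y⁻¹) = ⟨0, (2 : ℤ) • α.ev (Φ x).a (Φ y).a⟩ := by
  rw [map_mul, map_mul, map_mul, map_inv, map_inv, Gam.comm_eq]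

theorem ev_single (i j : Fin m) :
    α.ev (Pi.single i (1 : ℤ)) (Pi.single j 1) = α.c i j := by
  funext t
  rw [Form.ev_apply]
  simp [Pi.single_apply]

theorem exists_comm {S : Finset G} (hS : Subgroup.closure (S : Set G) = ⊤) (Φ : G →* Gam α ℤ)
    (x : Fin m → G) (hx : ∀ i, (Φ (x i)).a = Pi.single i 1) (p : Fin m × Fin m) :
    ∃ C : ℝ, 0 ≤ C ∧ ∀ n : ℤ, ∃ w : G, Φ w = ⟨0, (2 * n) • α.c p.1 p.2⟩ ∧
      (wordLen S w : ℝ) ≤ C * Real.sqrt |(n : ℝ)| + C := by
  obtain ⟨i, j⟩ := p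
  set Li : ℕ := wordLen S (x i) with hLi
  set Lj : ℕ := wordLen S (x j) with hLj
  refine ⟨6 * Li + 2 * Lj, by positivity, fun n => ?_⟩
  set s : ℕ := Nat.sqrt n.natAbs with hs
  set r : ℕ := n.natAbs - s * s with hr
  have h1 : s * s ≤ n.natAbs := Nat.sqrt_le _
  have h2 : n.natAbs ≤ s * s + s + s := Nat.sqrt_le_add _
  have h3 : r ≤ 2 * s := by omega
  have h4 : s * s + r = n.natAbs := by omega
  set σ : ℤ := n.sign with hσ
  have hσ1 : σ.natAbs ≤ 1 := by
    rcases Int.sign_trichotomy n with h | h | h <;> rw [hσ, h] <;> simp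
  have hmul : (2 : ℤ) * ((s : ℤ) * (σ * s)) + 2 * ((r : ℤ) * σ) = 2 * n := by
    have h5 : σ * (n.natAbs : ℤ) = n := Int.sign_mul_natAbs n
    have h6 : ((s : ℤ) * s + r) = (n.natAbs : ℤ) := by exact_mod_cast h4
    calc (2 : ℤ) * ((s : ℤ) * (σ * s)) + 2 * ((r : ℤ) * σ) = 2 * (σ * ((s : ℤ) * s + r)) := by ring
      _ = 2 * n := by rw [h6, h5]
  set X1 : G := x i ^ (s : ℤ) with hX1
  set Y1 : G := x j ^ (σ * s) with hY1
  set X2 : G := x i ^ (r : ℤ) with hX2
  set Y2 : G := x j ^ σ with hY2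
  refine ⟨(X1 * Y1 * X1⁻¹ * Y1⁻¹) * (X2 * Y2 * X2⁻¹ * Y2⁻¹), ?_, ?_⟩
  · rw [map_mul, comm_phi, comm_phi]
    refine Gam.ext ?_ ?_
    · simp
    · simp only [Gam.mul_b, Form.ev_zero_left, add_zero]
      rw [hX1, hY1, hX2, hY2, map_zpow, map_zpow, map_zpow, map_zpow, zpow_a, zpow_a, zpow_a,
        zpow_a, hx, hx, Form.ev_smul_left, Form.ev_smul_right, Form.ev_smul_left,
        Form.ev_smul_right, ev_single, smul_smul, smul_smul, smul_smul, smul_smul, ← add_smul,
        ← hmul]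
      congr 1
      ring
  · have hc : ∀ a b : G, wordLen S (a * b * a⁻¹ * b⁻¹) ≤ 2 * (wordLen S a + wordLen S b) := by
      intro a b
      have e1 := wordLen_mul_le hS (a * b * a⁻¹) b⁻¹
      have e2 := wordLen_mul_le hS (a * b) a⁻¹
      have e3 := wordLen_mul_le hS a b
      rw [wordLen_inv hS] at e1 e2
      omega
    have f1 := wordLen_mul_le hS (X1 * Y1 * X1⁻¹ * Y1⁻¹) (X2 * Y2 * X2⁻¹ * Y2⁻¹)
    have f2 := hc X1 Y1
    have f3 := hc X2 Y2
    have g1 : wordLen S X1 ≤ s * Li := by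
      have := wordLen_zpow_le hS (x i) (s : ℤ)
      rwa [Int.natAbs_natCast] at this
    have g2 : wordLen S Y1 ≤ s * Lj := by
      have := wordLen_zpow_le hS (x j) (σ * s)
      refine this.trans ?_
      rw [Int.natAbs_mul, Int.natAbs_natCast]
      exact Nat.mul_le_mul_right _ (by nlinarith)
    have g3 : wordLen S X2 ≤ r * Li := by
      have := wordLen_zpow_le hS (x i) (r : ℤ)
      rwa [Int.natAbs_natCast] at this
    have g4 : wordLen S Y2 ≤ Lj := by
      have := wordLen_zpow_le hS (x j) σ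
      refine this.trans ?_
      calc σ.natAbs * Lj ≤ 1 * Lj := Nat.mul_le_mul_right _ hσ1
        _ = Lj := one_mul _
    have g5 : r * Li ≤ 2 * s * Li := Nat.mul_le_mul_right _ h3
    have htot : wordLen S ((X1 * Y1 * X1⁻¹ * Y1⁻¹) * (X2 * Y2 * X2⁻¹ * Y2⁻¹)) ≤
        (6 * Li + 2 * Lj) * s + 2 * Lj := by
      calc wordLen S ((X1 * Y1 * X1⁻¹ * Y1⁻¹) * (X2 * Y2 * X2⁻¹ * Y2⁻¹))
          ≤ 2 * (s * Li + s * Lj) + 2 * (2 * s * Li + Lj) := by omega
        _ = (6 * Li + 2 * Lj) * s + 2 * Lj := by ring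
    have hsq : (s : ℝ) ≤ Real.sqrt |(n : ℝ)| := by
      apply Real.le_sqrt_of_sq_le
      have : ((s * s : ℕ) : ℝ) ≤ (n.natAbs : ℝ) := by exact_mod_cast h1
      rw [Nat.cast_natAbs, Int.cast_abs] at this
      push_cast at this
      nlinarith
    have htot' : (wordLen S ((X1 * Y1 * X1⁻¹ * Y1⁻¹) * (X2 * Y2 * X2⁻¹ * Y2⁻¹)) : ℝ) ≤
        (6 * Li + 2 * Lj) * s + 2 * Lj := by exact_mod_cast htot
    have hC : (0 : ℝ) ≤ 6 * Li + 2 * Lj := by positivity
    have hLi0 : (0 : ℝ) ≤ Li := Nat.cast_nonneg _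
    calc (wordLen S ((X1 * Y1 * X1⁻¹ * Y1⁻¹) * (X2 * Y2 * X2⁻¹ * Y2⁻¹)) : ℝ) ≤ _ := htot'
      _ ≤ (6 * Li + 2 * Lj) * Real.sqrt |(n : ℝ)| + (6 * Li + 2 * Lj) := by
          have := mul_le_mul_of_nonneg_left hsq hC
          linarith

/-- The preimage of a finite set under a homomorphism with finite kernel is finite. -/
theorem finite_preimage {H : Type*} [Group H] (Φ : G →* H) (hker : Finite Φ.ker) {T : Set H}
    (hT : T.Finite) : (Φ ⁻¹' T).Finite := by
  refine hT.preimage' fun b _ => ?_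
  rcases (Φ ⁻¹' {b}).eq_empty_or_nonempty with h | ⟨g₀, hg₀⟩
  · rw [h]
    exact Set.finite_empty
  · have hk : ((Φ.ker : Subgroup G) : Set G).Finite := Set.toFinite _
    refine (hk.image fun z => g₀ * z).subset ?_
    intro g hg
    refine ⟨g₀⁻¹ * g, ?_, by group⟩
    simp only [Set.mem_preimage, Set.mem_singleton_iff] at hg hg₀
    rw [SetLike.mem_coe, MonoidHom.mem_ker, map_mul, map_inv, hg, hg₀]
    group

end MetricAux

open MetricAux in
/-- A group with a homomorphism to `Gam α ℤ` with finite kernel that is onto in the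
`a`-coordinates: the word length is bounded by the homogeneous norm. -/
theorem wordLen_le_nrm {G : Type*} [Group G] {S : Finset G}
    (hS : Subgroup.closure (S : Set G) = ⊤) {m k : ℕ} (α : Form m k) (hα : α.Spanning)
    (Φ : G →* Gam α ℤ) (hker : Finite Φ.ker) (hsurj : ∀ a : Fin m → ℤ, ∃ g, (Φ g).a = a) :
    ∃ C : ℝ, 0 < C ∧ ∀ g : G, (wordLen S g : ℝ) ≤ C * Gam.nrm (Gam.toReal α (Φ g)) + C := by
  classical
  choose x hx using fun i : Fin m => hsurj (Pi.single i 1)
  -- the norm as a function on `G`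
  set N : G → ℝ := fun g => Gam.nrm (Gam.toReal α (Φ g)) with hN
  have hN0 : ∀ g, 0 ≤ N g := fun g => Gam.nrm_nonneg _
  have hNmul : ∀ g h, N (g * h) ≤ N g + N h := by
    intro g h
    simp only [hN, map_mul]
    exact Gam.nrm_mul_le _ _
  have hNinv : ∀ g, N g⁻¹ = N g := by
    intro g
    simp only [hN, map_inv, Gam.nrm_inv]
  obtain ⟨C₂, hC₂, hNL⟩ := exists_le_mul_wordLen hS N (by simp [hN]) hNmul hNinv
  -- Step D: elements with vanishing first coordinate
  obtain ⟨q, hq, u, hu⟩ := exists_int_rel hα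
  choose C hC0 hC using exists_comm hS Φ x hx
  choose w hw1 hw2 using hC
  have hD : ∃ C₄ : ℝ, 0 ≤ C₄ ∧ ∀ h : G, (Φ h).a = 0 → (wordLen S h : ℝ) ≤ C₄ * N h + C₄ := by
    -- the finite set of remainders
    have hfin : {g : G | (Φ g).a = 0 ∧ ∀ t, 0 ≤ (Φ g).b t ∧ (Φ g).b t < 2 * (q : ℤ)}.Finite := by
      have hT : {y : Gam α ℤ | y.a = 0 ∧ ∀ t, 0 ≤ y.b t ∧ y.b t < 2 * (q : ℤ)}.Finite := by
        have h1 : (Set.Icc (0 : Fin k → ℤ) (fun _ => 2 * (q : ℤ))).Finite := Set.finite_Icc _ _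
        refine (h1.image fun r => (⟨0, r⟩ : Gam α ℤ)).subset ?_
        rintro y ⟨hy1, hy2⟩
        refine ⟨y.b, ⟨fun t => (hy2 t).1, fun t => (hy2 t).2.le⟩, ?_⟩
        exact Gam.ext hy1.symm rfl
      exact finite_preimage Φ hker hT
    obtain ⟨B, hB⟩ := (hfin.image (wordLen S)).bddAbove
    have hBle : ∀ g : G, (Φ g).a = 0 → (∀ t, 0 ≤ (Φ g).b t ∧ (Φ g).b t < 2 * (q : ℤ)) →
        wordLen S g ≤ B := fun g h1 h2 => hB ⟨g, ⟨h1, h2⟩, rfl⟩
    set A : ℝ := ∑ y : Fin k × (Fin m × Fin m),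
      (C y.2 * (Real.sqrt |(u y.1 y.2 : ℝ)| * Real.sqrt α.bd) + C y.2) with hA
    have hA0 : 0 ≤ A := Finset.sum_nonneg fun y _ => by
      have := hC0 y.2
      positivity
    refine ⟨A + B, by positivity, fun h hh => ?_⟩
    set b : Fin k → ℤ := (Φ h).b with hb
    set d : Fin k → ℤ := fun t => b t / (2 * (q : ℤ)) with hd
    set W : G := ((Finset.univ : Finset (Fin k × (Fin m × Fin m))).toList.map
      fun y => w y.2 (d y.1 * u y.1 y.2)).prod with hW
    have hWa0 : ∀ y : Fin k × (Fin m × Fin m), (Φ (w y.2 (d y.1 * u y.1 y.2))).a = 0 := by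
      intro y
      rw [hw1]
    have hWa : (Φ W).a = 0 := by
      rw [hW, prod_a, Finset.sum_map_toList]
      exact Finset.sum_eq_zero fun y _ => hWa0 y
    have hWb : ∀ t', (Φ W).b t' = 2 * (q : ℤ) * d t' := by
      intro t'
      rw [hW, prod_b Φ _ hWa0, Finset.sum_map_toList, Finset.sum_apply]
      calc ∑ y : Fin k × (Fin m × Fin m), (Φ (w y.2 (d y.1 * u y.1 y.2))).b t'
          = ∑ y : Fin k × (Fin m × Fin m),
              (2 * d y.1) * (u y.1 y.2 * α.c y.2.1 y.2.2 t') := by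
            refine Finset.sum_congr rfl fun y _ => ?_
            rw [hw1]
            simp only [Pi.smul_apply, smul_eq_mul]
            ring
        _ = ∑ t, (2 * d t) * ∑ p : Fin m × Fin m, u t p * α.c p.1 p.2 t' := by
            rw [Fintype.sum_prod_type]
            refine Finset.sum_congr rfl fun t _ => ?_
            rw [Finset.mul_sum]
        _ = ∑ t, (2 * d t) * (if t = t' then (q : ℤ) else 0) := by
            refine Finset.sum_congr rfl fun t _ => ?_
            rw [hu]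
        _ = 2 * (q : ℤ) * d t' := by
            simp only [mul_ite, mul_zero, Finset.sum_ite_eq', Finset.mem_univ, if_true]
            ring
    have hrest : wordLen S (W⁻¹ * h) ≤ B := by
      apply hBle
      · rw [map_mul, map_inv, Gam.mul_a, Gam.inv_a, hWa, hh]
        simp
      · intro t
        have e : (Φ (W⁻¹ * h)).b t = b t - 2 * (q : ℤ) * d t := by
          rw [map_mul, map_inv, Gam.mul_b, Gam.inv_a, Gam.inv_b, hWa, hh, neg_zero,
            Form.ev_zero_left, add_zero, Pi.add_apply, Pi.neg_apply, hWb]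
          ring
        have hq' : (0 : ℤ) < 2 * (q : ℤ) := by positivity
        have e2 : b t - 2 * (q : ℤ) * d t = b t % (2 * (q : ℤ)) := by
          have := Int.emod_add_mul_ediv (b t) (2 * (q : ℤ))
          rw [hd]
          linarith
        rw [e, e2]
        exact ⟨Int.emod_nonneg _ hq'.ne', Int.emod_lt_of_pos _ hq'⟩
    have hWlen : (wordLen S W : ℝ) ≤ A * N h + A := by
      have h1 := wordLen_prod_le hS ((Finset.univ : Finset (Fin k × (Fin m × Fin m))).toList.map
        fun y => w y.2 (d y.1 * u y.1 y.2))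
      rw [← hW, List.map_map, Finset.sum_map_toList] at h1
      have h2 : (wordLen S W : ℝ) ≤ ∑ y : Fin k × (Fin m × Fin m),
          (wordLen S (w y.2 (d y.1 * u y.1 y.2)) : ℝ) := by
        exact_mod_cast h1
      refine h2.trans ?_
      have h3 : ∀ y : Fin k × (Fin m × Fin m),
          (wordLen S (w y.2 (d y.1 * u y.1 y.2)) : ℝ) ≤
          (C y.2 * (Real.sqrt |(u y.1 y.2 : ℝ)| * Real.sqrt α.bd) + C y.2) * (N h + 1) := by
        intro y
        have e1 := hw2 y.2 (d y.1 * u y.1 y.2)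
        have e2 : |((d y.1 : ℤ) : ℝ)| ≤ α.bd * N h ^ 2 := by
          have f1 : |d y.1| ≤ |b y.1| := by
            have hq' : (1 : ℤ) ≤ 2 * (q : ℤ) := by
              have : (1 : ℤ) ≤ q := by exact_mod_cast hq
              linarith
            have := Int.natAbs_ediv_le_natAbs (b y.1) (2 * (q : ℤ))
            rw [Int.abs_eq_natAbs, Int.abs_eq_natAbs]
            exact_mod_cast this
          have f2 : |((d y.1 : ℤ) : ℝ)| ≤ |((b y.1 : ℤ) : ℝ)| := by exact_mod_cast f1
          have f3 : |((b y.1 : ℤ) : ℝ)| ≤ ‖(Gam.toReal α (Φ h)).b‖ := by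
            have := norm_le_pi_norm (Gam.toReal α (Φ h)).b y.1
            rw [Gam.toReal_b, Real.norm_eq_abs] at this
            exact this
          exact f2.trans (f3.trans (Gam.norm_b_le _))
        have e3 : Real.sqrt |((d y.1 * u y.1 y.2 : ℤ) : ℝ)| ≤
            (Real.sqrt |(u y.1 y.2 : ℝ)| * Real.sqrt α.bd) * N h := by
          have hbd := α.bd_pos
          have f1 : Real.sqrt |((d y.1 : ℤ) : ℝ)| ≤ Real.sqrt α.bd * N h := by
            calc Real.sqrt |((d y.1 : ℤ) : ℝ)| ≤ Real.sqrt (α.bd * N h ^ 2) :=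
                  Real.sqrt_le_sqrt e2
              _ = Real.sqrt α.bd * N h := by
                  rw [Real.sqrt_mul hbd.le, Real.sqrt_sq (hN0 h)]
          push_cast
          rw [abs_mul, Real.sqrt_mul (abs_nonneg _)]
          calc Real.sqrt |((d y.1 : ℤ) : ℝ)| * Real.sqrt |(u y.1 y.2 : ℝ)|
              ≤ (Real.sqrt α.bd * N h) * Real.sqrt |(u y.1 y.2 : ℝ)| :=
                mul_le_mul_of_nonneg_right f1 (Real.sqrt_nonneg _)
            _ = _ := by ring
        have e4 := mul_le_mul_of_nonneg_left e3 (hC0 y.2)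
        have e5 : 0 ≤ C y.2 * (Real.sqrt |(u y.1 y.2 : ℝ)| * Real.sqrt α.bd) := by
          have := hC0 y.2
          positivity
        have e6 := hN0 h
        have e7 := mul_nonneg (hC0 y.2) e6
        nlinarith
      calc ∑ y : Fin k × (Fin m × Fin m), (wordLen S (w y.2 (d y.1 * u y.1 y.2)) : ℝ)
          ≤ ∑ y : Fin k × (Fin m × Fin m),
            (C y.2 * (Real.sqrt |(u y.1 y.2 : ℝ)| * Real.sqrt α.bd) + C y.2) * (N h + 1) :=
              Finset.sum_le_sum fun y _ => h3 y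
        _ = A * (N h + 1) := by rw [← Finset.sum_mul]
        _ = A * N h + A := by ring
    have hsplit : wordLen S h ≤ wordLen S W + wordLen S (W⁻¹ * h) := by
      have := wordLen_mul_le hS W (W⁻¹ * h)
      rwa [mul_inv_cancel_left] at this
    have hsplit' : (wordLen S h : ℝ) ≤ wordLen S W + B := by
      have : wordLen S h ≤ wordLen S W + B := hsplit.trans (Nat.add_le_add_left hrest _)
      exact_mod_cast this
    have hB0 : (0 : ℝ) ≤ (B : ℝ) * N h := mul_nonneg (Nat.cast_nonneg _) (hN0 h)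
    calc (wordLen S h : ℝ) ≤ wordLen S W + B := hsplit'
      _ ≤ (A + B) * N h + (A + B) := by linarith
  obtain ⟨C₄, hC₄, hD⟩ := hD
  -- Step A: horizontal words
  set C₁ : ℝ := ∑ i, (wordLen S (x i) : ℝ) with hC₁
  have hC₁0 : 0 ≤ C₁ := Finset.sum_nonneg fun i _ => Nat.cast_nonneg _
  set C₃ : ℝ := C₂ * C₁ + 1 with hC₃
  have hC₃0 : 0 ≤ C₃ := by positivity
  refine ⟨C₁ + C₄ * C₃ + C₄ + 1, by positivity, fun g => ?_⟩
  set a : Fin m → ℤ := (Φ g).a with ha
  set X : G := ((Finset.univ : Finset (Fin m)).toList.map fun i => x i ^ a i).prod with hX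
  have hXa : (Φ X).a = a := by
    rw [hX, prod_a, Finset.sum_map_toList]
    have : ∀ i, (Φ (x i ^ a i)).a = Pi.single i (a i) := by
      intro i
      rw [map_zpow, zpow_a, hx, ← Pi.single_smul]
      simp
    simp_rw [this]
    exact Finset.univ_sum_single a
  have hna : ∀ i, |((a i : ℤ) : ℝ)| ≤ N g := by
    intro i
    have h1 : |((a i : ℤ) : ℝ)| ≤ ‖(Gam.toReal α (Φ g)).a‖ := by
      have := norm_le_pi_norm (Gam.toReal α (Φ g)).a i
      rw [Gam.toReal_a, Real.norm_eq_abs] at this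
      exact this
    exact h1.trans (Gam.norm_a_le _)
  have hXlen : (wordLen S X : ℝ) ≤ C₁ * N g := by
    have h1 := wordLen_prod_le hS ((Finset.univ : Finset (Fin m)).toList.map fun i => x i ^ a i)
    rw [← hX, List.map_map, Finset.sum_map_toList] at h1
    have h2 : (wordLen S X : ℝ) ≤ ∑ i, (wordLen S (x i ^ a i) : ℝ) := by exact_mod_cast h1
    refine h2.trans ?_
    rw [hC₁, Finset.sum_mul]
    refine Finset.sum_le_sum fun i _ => ?_
    have h3 := wordLen_zpow_le hS (x i) (a i)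
    have h4 : (wordLen S (x i ^ a i) : ℝ) ≤ ((a i).natAbs : ℝ) * wordLen S (x i) := by
      exact_mod_cast h3
    rw [Nat.cast_natAbs, Int.cast_abs] at h4
    have h5 := mul_le_mul_of_nonneg_right (hna i) (Nat.cast_nonneg (α := ℝ) (wordLen S (x i)))
    linarith
  have hh : (Φ (X⁻¹ * g)).a = 0 := by
    rw [map_mul, map_inv, Gam.mul_a, Gam.inv_a, hXa]
    simp [ha]
  have hNh : N (X⁻¹ * g) ≤ C₃ * N g := by
    have h1 := hNmul X⁻¹ g
    rw [hNinv] at h1
    have h2 := hNL X
    have h3 := mul_le_mul_of_nonneg_left hXlen hC₂.le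
    rw [hC₃]
    nlinarith
  have hlen := hD _ hh
  have hsplit : wordLen S g ≤ wordLen S X + wordLen S (X⁻¹ * g) := by
    have := wordLen_mul_le hS X (X⁻¹ * g)
    rwa [mul_inv_cancel_left] at this
  have hsplit' : (wordLen S g : ℝ) ≤ wordLen S X + wordLen S (X⁻¹ * g) := by
    exact_mod_cast hsplit
  have h6 := mul_le_mul_of_nonneg_left hNh hC₄
  have h7 := hN0 g
  have h8 := mul_nonneg hC₄ h7
  have h9 := mul_nonneg hC₁0 h7
  have h10 := mul_nonneg hC₄ hC₃0
  change (wordLen S g : ℝ) ≤ _ * N g + _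
  nlinarith

end Pool.Agent.MPf60e8a
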