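import Mathlib
import Pool.Agent.Lib.MP_f60e8a_al.Stmts

/-!
# Norms of the elements of a box far from the origin
-/

open scoped BigOperators commutatorElement

namespace Pool.Agent.MPf60e8a

theorem box_norm (K : Type) [Field K] [NumberField K] {ι : Type} [Fintype ι]
    (b : Module.Basis ι ℤ (NumberField.RingOfIntegers K)) : BoxNorm K b := by
  classical
  have hcard : Fintype.card (K →ₐ[ℚ] ℂ) = Fintype.card ι := by
    rw [AlgHom.card, ← NumberField.RingOfIntegers.rank K, Module.finrank_eq_card_basis b]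
  set M : ℝ := ∑ σ : K →ₐ[ℚ] ℂ, ∑ i, ‖σ (b i : K)‖ with hM
  have hMσ : ∀ σ : K →ₐ[ℚ] ℂ, ∑ i, ‖σ (b i : K)‖ ≤ M := by
    intro σ
    rw [hM]
    exact Finset.single_le_sum (f := fun σ : K →ₐ[ℚ] ℂ => ∑ i, ‖σ (b i : K)‖)
      (fun τ _ => Finset.sum_nonneg (fun i _ => norm_nonneg _)) (Finset.mem_univ σ)
  set A : ℕ := ⌈2 * M⌉₊ + 1 with hA
  have hA1 : 2 * M ≤ A := by
    have := Nat.le_ceil (2 * M)
    rw [hA]
    push_cast
    linarith
  have hA0 : (0 : ℝ) < A := by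
    rw [hA]
    positivity
  refine ⟨A, ((A : ℝ) / 2) ^ Fintype.card ι, (3 * (A : ℝ) / 2) ^ Fintype.card ι, by positivity,
    by positivity, ?_⟩
  intro B hB x
  set v : NumberField.RingOfIntegers K := ((A * B : ℕ) : NumberField.RingOfIntegers K) +
        ∑ i, ((x i : ℕ) : ℤ) • b i with hv
  have hnorm : |((Algebra.norm ℤ v : ℤ) : ℝ)| = ∏ σ : K →ₐ[ℚ] ℂ, ‖σ (v : K)‖ := by
    have h1 : ((Algebra.norm ℤ v : ℤ) : ℚ) = Algebra.norm ℚ (v : K) := Algebra.coe_norm_int v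
    have h2 : algebraMap ℚ ℂ (Algebra.norm ℚ (v : K)) = ∏ σ : K →ₐ[ℚ] ℂ, σ (v : K) :=
      Algebra.norm_eq_prod_embeddings ℚ ℂ (v : K)
    rw [← h1] at h2
    have h3 : algebraMap ℚ ℂ ((Algebra.norm ℤ v : ℤ) : ℚ) = (((Algebra.norm ℤ v : ℤ) : ℝ) : ℂ) := by
      simp
    rw [h3] at h2
    rw [← norm_prod, ← h2, Complex.norm_real, Real.norm_eq_abs]
  have hσ : ∀ σ : K →ₐ[ℚ] ℂ, (A : ℝ) / 2 * B ≤ ‖σ (v : K)‖ ∧ ‖σ (v : K)‖ ≤ 3 * (A : ℝ) / 2 * B := by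
    intro σ
    have h1 : σ (v : K) = ((A : ℂ) * (B : ℂ)) + ∑ i, ((x i : ℕ) : ℂ) * σ (b i : K) := by
      rw [hv]
      push_cast
      simp [map_sum, zsmul_eq_mul]
    have h2 : ‖∑ i, ((x i : ℕ) : ℂ) * σ (b i : K)‖ ≤ (A : ℝ) / 2 * B := by
      calc ‖∑ i, ((x i : ℕ) : ℂ) * σ (b i : K)‖ ≤ ∑ i, ‖((x i : ℕ) : ℂ) * σ (b i : K)‖ :=
            norm_sum_le _ _
        _ ≤ ∑ i, (B : ℝ) * ‖σ (b i : K)‖ := by
            refine Finset.sum_le_sum (fun i _ => ?_)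
            rw [norm_mul, Complex.norm_natCast]
            refine mul_le_mul_of_nonneg_right ?_ (norm_nonneg _)
            exact_mod_cast (x i).2.le
        _ = (B : ℝ) * ∑ i, ‖σ (b i : K)‖ := by rw [Finset.mul_sum]
        _ ≤ (B : ℝ) * M := mul_le_mul_of_nonneg_left (hMσ σ) (by positivity)
        _ ≤ (A : ℝ) / 2 * B := by nlinarith [hA1, (Nat.cast_nonneg B : (0:ℝ) ≤ B)]
    have h3 : ‖((A : ℂ) * (B : ℂ))‖ = (A : ℝ) * B := by
      rw [norm_mul, Complex.norm_natCast, Complex.norm_natCast]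
    rw [h1]
    constructor
    · have := norm_sub_le (((A : ℂ) * (B : ℂ)) + ∑ i, ((x i : ℕ) : ℂ) * σ (b i : K))
        (∑ i, ((x i : ℕ) : ℂ) * σ (b i : K))
      rw [add_sub_cancel_right, h3] at this
      linarith
    · have := norm_add_le ((A : ℂ) * (B : ℂ)) (∑ i, ((x i : ℕ) : ℂ) * σ (b i : K))
      rw [h3] at this
      linarith
  rw [hnorm, ← mul_pow, ← mul_pow, ← hcard]
  constructor
  · calc ((A : ℝ) / 2 * B) ^ Fintype.card (K →ₐ[ℚ] ℂ)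
        = ∏ _σ : K →ₐ[ℚ] ℂ, ((A : ℝ) / 2 * B) := by
          rw [Finset.prod_const, Finset.card_univ]
      _ ≤ _ := Finset.prod_le_prod (fun σ _ => by positivity) (fun σ _ => (hσ σ).1)
  · calc ∏ σ : K →ₐ[ℚ] ℂ, ‖σ (v : K)‖ ≤ ∏ _σ : K →ₐ[ℚ] ℂ, (3 * (A : ℝ) / 2 * B) :=
          Finset.prod_le_prod (fun σ _ => norm_nonneg _) (fun σ _ => (hσ σ).2)
      _ = _ := by rw [Finset.prod_const, Finset.card_univ]

end Pool.Agent.MPf60e8a
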