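import Mathlib
import Pool.Agent.Lib.MP_f60e8a_al.Stmts

open scoped BigOperators

namespace Pool.Agent.MPf60e8a

open NumberField

namespace NTCount

variable {K : Type} [Field K] [NumberField K] {ι : Type} [Fintype ι]
  (b : Module.Basis ι ℤ (𝓞 K))

/-- Sum of the absolute values of the structure constants. -/
noncomputable def sc : ℤ := ∑ i, ∑ j, ∑ k, |b.repr (b k * b i) j|

omit [NumberField K] in
theorem coord_mul_le (v : 𝓞 K) (M : ℤ) (r : ι → ℤ) (m : ℤ) (hr : ∀ i, 0 ≤ r i) (hrM : ∀ i, r i ≤ M)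
    (hM : 0 ≤ M) (hv : ∀ k, |b.repr v k| ≤ m) (j : ι) :
    |b.repr (∑ i, r i • (v * b i)) j| ≤ M * (m * sc b) := by
  classical
  have hm : 0 ≤ m ∨ IsEmpty ι := by
    rcases isEmpty_or_nonempty ι with h | ⟨⟨k⟩⟩
    · exact Or.inr h
    · exact Or.inl ((abs_nonneg _).trans (hv k))
  have hm : 0 ≤ m := (abs_nonneg _).trans (hv j)
  have h1 : ∀ i, |b.repr (v * b i) j| ≤ m * ∑ k, |b.repr (b k * b i) j| := by
    intro i
    have hvexp : v = ∑ k, b.repr v k • b k := (b.sum_repr v).symm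
    have : v * b i = ∑ k, b.repr v k • (b k * b i) := by
      conv_lhs => rw [hvexp]
      rw [Finset.sum_mul]
      exact Finset.sum_congr rfl fun k _ => by rw [smul_mul_assoc]
    rw [this, map_sum, Finsupp.finsetSum_apply, Finset.mul_sum]
    refine (Finset.abs_sum_le_sum_abs _ _).trans (Finset.sum_le_sum fun k _ => ?_)
    rw [map_smul, Finsupp.smul_apply, smul_eq_mul, abs_mul]
    exact mul_le_mul_of_nonneg_right (hv k) (abs_nonneg _)
  rw [map_sum, Finsupp.finsetSum_apply]
  calc |∑ i, b.repr (r i • (v * b i)) j| ≤ ∑ i, |b.repr (r i • (v * b i)) j| :=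
        Finset.abs_sum_le_sum_abs _ _
    _ ≤ ∑ i, M * (m * ∑ k, |b.repr (b k * b i) j|) := by
        refine Finset.sum_le_sum fun i _ => ?_
        rw [map_smul, Finsupp.smul_apply, smul_eq_mul, abs_mul, abs_of_nonneg (hr i)]
        exact mul_le_mul (hrM i) (h1 i) (abs_nonneg _) hM
    _ = M * (m * ∑ i, ∑ k, |b.repr (b k * b i) j|) := by
        rw [Finset.mul_sum, Finset.mul_sum]
    _ ≤ M * (m * sc b) := by
        refine mul_le_mul_of_nonneg_left (mul_le_mul_of_nonneg_left ?_ hm) hM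
        refine Finset.sum_le_sum fun i _ => ?_
        exact Finset.single_le_sum (f := fun j => ∑ k, |b.repr (b k * b i) j|)
          (fun j _ => Finset.sum_nonneg fun k _ => abs_nonneg _) (Finset.mem_univ j)

/-- Every class modulo a principal ideal contains an element with small coordinates. -/
theorem exists_small (v : 𝓞 K) (hv0 : v ≠ 0) (m : ℤ) (hv : ∀ k, |b.repr v k| ≤ m) (z : 𝓞 K) :
    ∃ y : 𝓞 K, y - z ∈ Ideal.span {v} ∧ ∀ j, |b.repr y j| ≤ m * sc b := by
  classical
  set M : ℕ := Ideal.absNorm (Ideal.span {v}) with hM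
  have hM0 : M ≠ 0 := by
    rw [hM, Ne, Ideal.absNorm_eq_zero_iff, Ideal.span_singleton_eq_bot]
    exact hv0
  have hMpos : (0 : ℤ) < M := by exact_mod_cast Nat.pos_of_ne_zero hM0
  obtain ⟨u, hu⟩ : ∃ u : 𝓞 K, v * u = (M : 𝓞 K) := by
    have := Ideal.absNorm_mem (Ideal.span {v})
    rw [Ideal.mem_span_singleton] at this
    obtain ⟨u, hu⟩ := this
    exact ⟨u, hu.symm⟩
  set a : ι → ℤ := fun i => b.repr (z * u) i with ha
  have hzu : z * u = ∑ i, a i • b i := (b.sum_repr (z * u)).symm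
  refine ⟨z - v * ∑ i, (a i / M) • b i, ?_, ?_⟩
  · rw [Ideal.mem_span_singleton]
    exact ⟨-∑ i, (a i / M) • b i, by ring⟩
  · intro j
    have key : (M : ℤ) • (z - v * ∑ i, (a i / M) • b i) = ∑ i, (a i % M) • (v * b i) := by
      have h1 : (M : ℤ) • z = v * ∑ i, a i • b i := by
        rw [← hzu, zsmul_eq_mul]
        push_cast
        rw [← hu]; ring
      rw [smul_sub, h1, Finset.mul_sum, Finset.mul_sum, Finset.smul_sum,
        ← Finset.sum_sub_distrib]
      refine Finset.sum_congr rfl fun i _ => ?_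
      rw [mul_smul_comm, mul_smul_comm, smul_smul, ← sub_smul]
      congr 1
      have := Int.emod_add_mul_ediv (a i) M
      linarith
    have h2 := coord_mul_le b v M (fun i => a i % M) m (fun i => Int.emod_nonneg _ hMpos.ne')
      (fun i => (Int.emod_lt_of_pos _ hMpos).le) hMpos.le hv j
    rw [← key, map_smul, Finsupp.smul_apply, smul_eq_mul, abs_mul, abs_of_pos hMpos] at h2
    exact le_of_mul_le_mul_left h2 hMpos

/-- A nonzero ideal contains a nonzero element with small coordinates. -/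
theorem exists_mem_small (I : Ideal (𝓞 K)) (hI : I ≠ ⊥) (m : ℕ)
    (hm : Ideal.absNorm I < (m + 1) ^ Fintype.card ι) :
    ∃ v ∈ I, v ≠ 0 ∧ ∀ k, |b.repr v k| ≤ m := by
  classical
  have : Finite (𝓞 K ⧸ I) := Ideal.finiteQuotientOfFreeOfNeBot I hI
  have : Fintype (𝓞 K ⧸ I) := Fintype.ofFinite _
  have hcard : Fintype.card (𝓞 K ⧸ I) < Fintype.card (ι → Fin (m + 1)) := by
    rw [Fintype.card_fun, Fintype.card_fin, ← Nat.card_eq_fintype_card,
      ← Submodule.cardQuot_apply, ← Ideal.absNorm_apply]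
    exact hm
  obtain ⟨x, y, hxy, he⟩ := Fintype.exists_ne_map_eq_of_card_lt
    (fun x : ι → Fin (m + 1) => Ideal.Quotient.mk I (∑ i, ((x i : ℕ) : ℤ) • b i)) hcard
  have hrepr : ∀ k, b.repr (∑ i, ((x i : ℕ) : ℤ) • b i - ∑ i, ((y i : ℕ) : ℤ) • b i) k
      = ((x k : ℕ) : ℤ) - ((y k : ℕ) : ℤ) := by
    intro k
    rw [map_sub, Finsupp.sub_apply, b.repr_sum_self, b.repr_sum_self]
  refine ⟨∑ i, ((x i : ℕ) : ℤ) • b i - ∑ i, ((y i : ℕ) : ℤ) • b i, ?_, ?_, ?_⟩
  · exact Ideal.Quotient.eq.1 he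
  · intro h0
    apply hxy
    funext k
    have := hrepr k
    rw [h0, map_zero, Finsupp.zero_apply] at this
    apply Fin.ext
    omega
  · intro k
    rw [hrepr]
    have h1 := (x k).2
    have h2 := (y k).2
    rw [abs_le]
    constructor <;> omega

end NTCount

open NTCount in
/-- Elements of ideals in shifted boxes are counted with a good error term. -/
theorem ideal_count (K : Type) [Field K] [NumberField K] {ι : Type} [Fintype ι]
    (b : Module.Basis ι ℤ (NumberField.RingOfIntegers K)) : IdealCount K b := by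
  classical
  have hne : Nonempty ι := by
    by_contra h
    rw [not_nonempty_iff] at h
    have := b.repr.toEquiv.subsingleton
    exact one_ne_zero (Subsingleton.elim (1 : 𝓞 K) 0)
  have hd : Fintype.card ι ≠ 0 := Fintype.card_ne_zero
  have hsc : 0 ≤ sc b := Finset.sum_nonneg fun i _ => Finset.sum_nonneg fun j _ =>
    Finset.sum_nonneg fun k _ => abs_nonneg _
  refine ⟨(sc b : ℝ) + 1, by have : (0:ℝ) ≤ sc b := by exact_mod_cast hsc
                             linarith, ?_⟩
  intro I hI w B δ hδ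
  have : Finite (𝓞 K ⧸ I) := Ideal.finiteQuotientOfFreeOfNeBot I hI
  have : Fintype (𝓞 K ⧸ I) := Fintype.ofFinite _
  set N : ℕ := Ideal.absNorm I with hN
  have hNcard : N = Nat.card (𝓞 K ⧸ I) := by
    rw [hN, Ideal.absNorm_apply, Submodule.cardQuot_apply]
  have hNpos : 0 < N := by
    rw [hNcard]; exact Nat.card_pos
  -- a small element
  set m : ℕ := ⌊(N : ℝ) ^ ((1 : ℝ) / Fintype.card ι)⌋₊ with hm
  have hmN : N < (m + 1) ^ Fintype.card ι := by
    have h1 : (N : ℝ) ^ ((1 : ℝ) / Fintype.card ι) < m + 1 := Nat.lt_floor_add_one _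
    have h2 : (N : ℝ) < ((m : ℝ) + 1) ^ Fintype.card ι := by
      have h3 : ((N : ℝ) ^ ((1 : ℝ) / Fintype.card ι)) ^ Fintype.card ι = N := by
        rw [one_div, Real.rpow_inv_natCast_pow (Nat.cast_nonneg N) hd]
      rw [← h3]
      exact pow_lt_pow_left₀ h1 (by positivity) hd
    exact_mod_cast h2
  obtain ⟨v, hvI, hv0, hv⟩ := exists_mem_small b I hI m hmN
  have hδ' : (m : ℤ) * sc b ≤ δ := by
    have h1 : (m : ℝ) ≤ (N : ℝ) ^ ((1 : ℝ) / Fintype.card ι) := Nat.floor_le (by positivity)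
    have h2 : ((m : ℝ) * sc b) ≤ δ := by
      have hsc' : (0:ℝ) ≤ sc b := by exact_mod_cast hsc
      have hx : (0:ℝ) ≤ (N : ℝ) ^ ((1 : ℝ) / Fintype.card ι) := by positivity
      nlinarith [mul_le_mul_of_nonneg_right h1 hsc']
    exact_mod_cast h2
  have hrep : ∀ q : 𝓞 K ⧸ I, ∃ y : 𝓞 K, Ideal.Quotient.mk I y = q ∧ ∀ j, |b.repr y j| ≤ δ := by
    intro q
    obtain ⟨z, rfl⟩ := Ideal.Quotient.mk_surjective q
    obtain ⟨y, hy, hy'⟩ := exists_small b v hv0 m hv z
    refine ⟨y, Ideal.Quotient.eq.2 ?_, fun j => (hy' j).trans hδ'⟩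
    exact (Ideal.span_singleton_le_iff_mem I).2 hvI hy
  choose ρ hρ hρ' using hrep
  set S := {x : ι → Fin B // w + ∑ i, ((x i : ℕ) : ℤ) • b i ∈ I} with hS
  have : Fintype S := Fintype.ofFinite _
  have hprod : N * Nat.card S = Fintype.card (S × (𝓞 K ⧸ I)) := by
    rw [Fintype.card_prod, hNcard, Nat.card_eq_fintype_card, Nat.card_eq_fintype_card, mul_comm]
  have hbd : ∀ q j, -(δ : ℤ) ≤ b.repr (ρ q) j ∧ b.repr (ρ q) j ≤ δ := fun q j =>
    abs_le.1 (hρ' q j)
  constructor
  · -- lower bound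
    have hinj : (B - 2 * δ) ^ Fintype.card ι ≤ N * Nat.card S := by
      rw [hprod]
      have hc : (B - 2 * δ) ^ Fintype.card ι = Fintype.card (ι → Fin (B - 2 * δ)) := by
        rw [Fintype.card_fun, Fintype.card_fin]
      rw [hc]
      -- the class
      let Q : (ι → Fin (B - 2 * δ)) → 𝓞 K ⧸ I := fun y =>
        Ideal.Quotient.mk I (w + ∑ i, (((y i : ℕ) : ℤ) + δ) • b i)
      have hlt : ∀ (y : ι → Fin (B - 2 * δ)) i,
          0 ≤ ((y i : ℕ) : ℤ) + δ - b.repr (ρ (Q y)) i ∧
          ((y i : ℕ) : ℤ) + δ - b.repr (ρ (Q y)) i < B := by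
        intro y i
        have h1 := hbd (Q y) i
        have h2 := (y i).2
        constructor <;> omega
      let X : (y : ι → Fin (B - 2 * δ)) → ι → Fin B := fun y i =>
        ⟨(((y i : ℕ) : ℤ) + δ - b.repr (ρ (Q y)) i).toNat, by
          have := hlt y i
          omega⟩
      have hX : ∀ y i, ((X y i : ℕ) : ℤ) = ((y i : ℕ) : ℤ) + δ - b.repr (ρ (Q y)) i := by
        intro y i
        exact Int.toNat_of_nonneg (hlt y i).1
      have hmem : ∀ y, w + ∑ i, ((X y i : ℕ) : ℤ) • b i ∈ I := by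
        intro y
        have h1 : w + ∑ i, ((X y i : ℕ) : ℤ) • b i
            = (w + ∑ i, (((y i : ℕ) : ℤ) + δ) • b i) - ρ (Q y) := by
          have h2 : ∑ i, ((X y i : ℕ) : ℤ) • b i
              = ∑ i, (((y i : ℕ) : ℤ) + δ) • b i - ∑ i, b.repr (ρ (Q y)) i • b i := by
            rw [← Finset.sum_sub_distrib]
            refine Finset.sum_congr rfl fun i _ => ?_
            rw [hX, sub_smul]
          rw [h2, b.sum_repr]
          ring
        rw [h1]
        exact Ideal.Quotient.eq.1 (hρ (Q y)).symm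
      refine Fintype.card_le_of_injective
        (fun y => ((⟨X y, hmem y⟩ : S), Q y)) ?_
      intro y y' hyy
      have h1 : X y = X y' := congrArg (fun p => (Prod.fst p).1) hyy
      have h2 : Q y = Q y' := congrArg (fun p => Prod.snd p) hyy
      funext i
      have h3 := hX y i
      have h4 := hX y' i
      rw [h1, h2] at h3
      apply Fin.ext
      omega
    exact_mod_cast hinj
  · -- upper bound
    have hinj : N * Nat.card S ≤ (B + 2 * δ) ^ Fintype.card ι := by
      rw [hprod]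
      have hc : (B + 2 * δ) ^ Fintype.card ι = Fintype.card (ι → Fin (B + 2 * δ)) := by
        rw [Fintype.card_fun, Fintype.card_fin]
      rw [hc]
      have hlt : ∀ (p : S × (𝓞 K ⧸ I)) i,
          0 ≤ ((p.1.1 i : ℕ) : ℤ) + b.repr (ρ p.2) i + δ ∧
          ((p.1.1 i : ℕ) : ℤ) + b.repr (ρ p.2) i + δ < (B + 2 * δ : ℕ) := by
        intro p i
        have h1 := hbd p.2 i
        have h2 := (p.1.1 i).2
        constructor
        · omega
        · push_cast; omega
      let Y : S × (𝓞 K ⧸ I) → ι → Fin (B + 2 * δ) := fun p i =>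
        ⟨(((p.1.1 i : ℕ) : ℤ) + b.repr (ρ p.2) i + δ).toNat, by
          have := hlt p i
          omega⟩
      have hY : ∀ p i, ((Y p i : ℕ) : ℤ) = ((p.1.1 i : ℕ) : ℤ) + b.repr (ρ p.2) i + δ := by
        intro p i
        exact Int.toNat_of_nonneg (hlt p i).1
      have hsum : ∀ p : S × (𝓞 K ⧸ I), Ideal.Quotient.mk I
          (w + ∑ i, (((Y p i : ℕ) : ℤ) - δ) • b i) = p.2 := by
        intro p
        have h2 : ∑ i, (((Y p i : ℕ) : ℤ) - δ) • b i
            = ∑ i, ((p.1.1 i : ℕ) : ℤ) • b i + ∑ i, b.repr (ρ p.2) i • b i := by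
          rw [← Finset.sum_add_distrib]
          refine Finset.sum_congr rfl fun i _ => ?_
          rw [hY, ← add_smul]
          congr 1
          ring
        rw [h2, b.sum_repr, ← add_assoc, map_add, hρ,
          Ideal.Quotient.eq_zero_iff_mem.2 p.1.2, zero_add]
      refine Fintype.card_le_of_injective Y ?_
      intro p p' hpp
      have h2 : p.2 = p'.2 := by rw [← hsum p, ← hsum p', hpp]
      have h1 : p.1.1 = p'.1.1 := by
        funext i
        have h3 := hY p i
        have h4 := hY p' i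
        rw [hpp, h2] at h3
        apply Fin.ext
        omega
      exact Prod.ext (Subtype.ext h1) h2
    exact_mod_cast hinj

end Pool.Agent.MPf60e8a
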