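import Mathlib
import Pool.Agent.Lib.MP_f60e8a_al.Stmts

/-!
# Chebyshev's upper bound for a number field
-/

open scoped BigOperators commutatorElement

namespace Pool.Agent.MPf60e8a

namespace NTCheb

open NumberField Ideal

variable {K : Type} [Field K] [NumberField K]

theorem prime_pow (P : Ideal (𝓞 K)) (hP : P.IsPrime) (h0 : P ≠ ⊥) :
    ∃ p f : ℕ, p.Prime ∧ f ≠ 0 ∧ absNorm P = p ^ f ∧ ((p : ℕ) : 𝓞 K) ∈ P := by
  have : NeZero P := ⟨h0⟩
  have hp : (absNorm (under ℤ P)).Prime := Nat.absNorm_under_prime P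
  refine ⟨absNorm (under ℤ P), _, hp, ?_, absNorm_eq_pow_inertiaDeg' P hp, ?_⟩
  · intro hf
    have h1 := absNorm_eq_pow_inertiaDeg' P hp
    rw [hf, pow_zero, absNorm_eq_one_iff] at h1
    exact hP.ne_top h1
  · exact Int.absNorm_under_mem P

theorem prod_le (p : ℕ) (hp : p.Prime) (S : Finset (Ideal (𝓞 K)))
    (hS : ∀ P ∈ S, P.IsPrime ∧ P ≠ ⊥ ∧ ((p : ℕ) : 𝓞 K) ∈ P) :
    ∏ P ∈ S, absNorm P ≤ p ^ Module.finrank ℤ (𝓞 K) := by
  have h1 : ∏ P ∈ S, P ∣ span {((p : ℕ) : 𝓞 K)} := by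
    refine Finset.prod_primes_dvd _ ?_ ?_
    · intro P hP
      exact Ideal.prime_of_isPrime (hS P hP).2.1 (hS P hP).1
    · intro P hP
      rw [Ideal.dvd_iff_le, Ideal.span_le, Set.singleton_subset_iff]
      exact (hS P hP).2.2
  have h2 := map_dvd (absNorm (S := 𝓞 K)) h1
  rw [map_prod, Ideal.absNorm_span_natCast] at h2
  exact Nat.le_of_dvd (pow_pos hp.pos _) h2

theorem two_le_norm {P : Ideal (𝓞 K)} (hP : P.IsPrime) (h0 : P ≠ ⊥) : 2 ≤ absNorm P := by
  obtain ⟨p, f, hp, hf, h1, -⟩ := prime_pow P hP h0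
  rw [h1]
  calc 2 ≤ p := hp.two_le
    _ = p ^ 1 := (pow_one p).symm
    _ ≤ p ^ f := Nat.pow_le_pow_right hp.pos (Nat.one_le_iff_ne_zero.2 hf)

theorem finite_primePowers (Z : ℝ) : (primePowers K Z).Finite := by
  have h1 : {I : Ideal (𝓞 K) | absNorm I ≤ ⌊Z⌋₊}.Finite := Ideal.finite_setOfPred_absNorm_le _
  refine (h1.prod (Set.finite_Iic ⌊Z⌋₊)).subset ?_
  rintro ⟨P, k⟩ ⟨hP, h0, hk, hZ⟩
  simp only at hP h0 hk hZ
  have h2 : absNorm P ^ k ≤ ⌊Z⌋₊ := Nat.le_floor (by exact_mod_cast hZ)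
  have h3 := two_le_norm hP h0
  refine ⟨?_, ?_⟩
  · refine le_trans ?_ h2
    calc absNorm P = absNorm P ^ 1 := (pow_one _).symm
      _ ≤ absNorm P ^ k := Nat.pow_le_pow_right (by omega) hk
  · refine le_trans ?_ h2
    show k ≤ absNorm P ^ k
    exact (Nat.lt_pow_self (by omega)).le

theorem fiber_le (T : Finset (Ideal (𝓞 K) × ℕ))
    (hT : ∀ q ∈ T, q.1.IsPrime ∧ q.1 ≠ ⊥ ∧ 1 ≤ q.2) (n : ℕ) :
    ∑ q ∈ T with absNorm q.1 ^ q.2 = n, Real.log (absNorm q.1) ≤
      Module.finrank ℤ (𝓞 K) * ArithmeticFunction.vonMangoldt n := by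
  classical
  rcases (T.filter fun q => absNorm q.1 ^ q.2 = n).eq_empty_or_nonempty with he | ⟨q₀, hq₀⟩
  · rw [he, Finset.sum_empty]
    exact mul_nonneg (Nat.cast_nonneg _) ArithmeticFunction.vonMangoldt_nonneg
  · rw [Finset.mem_filter] at hq₀
    obtain ⟨hP₀, h0₀, hk₀⟩ := hT q₀ hq₀.1
    obtain ⟨p, f, hp, hf, hN, hmem⟩ := prime_pow q₀.1 hP₀ h0₀
    have hn : n = p ^ (f * q₀.2) := by
      rw [← hq₀.2, hN, pow_mul]
    have hfk : f * q₀.2 ≠ 0 := Nat.mul_ne_zero hf (by omega)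
    have hΛ : ArithmeticFunction.vonMangoldt n = Real.log p := by
      rw [hn, ArithmeticFunction.vonMangoldt_apply_pow hfk,
        ArithmeticFunction.vonMangoldt_apply_prime hp]
    have hall : ∀ q ∈ T.filter fun q => absNorm q.1 ^ q.2 = n,
        q.1.IsPrime ∧ q.1 ≠ ⊥ ∧ ((p : ℕ) : 𝓞 K) ∈ q.1 := by
      intro q hq
      rw [Finset.mem_filter] at hq
      obtain ⟨hP, h0, hk⟩ := hT q hq.1
      obtain ⟨p', f', hp', hf', hN', hmem'⟩ := prime_pow q.1 hP h0
      have h1 : p' ^ (f' * q.2) = p ^ (f * q₀.2) := by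
        rw [← hn, ← hq.2, hN', pow_mul]
      have hfk' : f' * q.2 ≠ 0 := Nat.mul_ne_zero hf' (by omega)
      have h2 : p' ∣ p := by
        have : p' ∣ p ^ (f * q₀.2) := by
          rw [← h1]; exact dvd_pow_self _ hfk'
        exact hp'.dvd_of_dvd_pow this
      have h3 : p' = p := (Nat.prime_dvd_prime_iff_eq hp' hp).1 h2
      rw [h3] at hmem'
      exact ⟨hP, h0, hmem'⟩
    have hinj : Set.InjOn (fun q : Ideal (𝓞 K) × ℕ => q.1)
        (T.filter fun q => absNorm q.1 ^ q.2 = n) := by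
      rintro ⟨P, k⟩ hq ⟨P', k'⟩ hq' (h : P = P')
      subst h
      have hq1 := hall _ hq
      rw [Finset.mem_coe, Finset.mem_filter] at hq hq'
      have h2 := two_le_norm hq1.1 hq1.2.1
      have h3 : absNorm P ^ k = absNorm P ^ k' := hq.2.trans hq'.2.symm
      have h4 : k = k' := Nat.pow_right_injective h2 h3
      rw [h4]
    rw [← Finset.sum_image (f := fun P : Ideal (𝓞 K) => Real.log (absNorm P)) hinj, hΛ]
    set S := (T.filter fun q => absNorm q.1 ^ q.2 = n).image fun q => q.1 with hSdef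
    have hS : ∀ P ∈ S, P.IsPrime ∧ P ≠ ⊥ ∧ ((p : ℕ) : 𝓞 K) ∈ P := by
      intro P hP
      rw [hSdef, Finset.mem_image] at hP
      obtain ⟨q, hq, rfl⟩ := hP
      exact hall q hq
    have h1 := prod_le p hp S hS
    have h2 : ∑ P ∈ S, Real.log (absNorm P) = Real.log ((∏ P ∈ S, absNorm P : ℕ) : ℝ) := by
      rw [Nat.cast_prod, Real.log_prod]
      intro P hP
      have := two_le_norm (hS P hP).1 (hS P hP).2.1
      positivity
    rw [h2, ← Real.log_pow]
    refine Real.log_le_log ?_ ?_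
    · have : 0 < ∏ P ∈ S, absNorm P := by
        refine Finset.prod_pos fun P hP => ?_
        have := two_le_norm (hS P hP).1 (hS P hP).2.1
        omega
      exact_mod_cast this
    · exact_mod_cast h1

end NTCheb

open NTCheb in
/-- Chebyshev's upper bound for number fields. -/
theorem cheb_field (K : Type) [Field K] [NumberField K] : ChebField K := by
  classical
  refine ⟨finite_primePowers, (Module.finrank ℤ (NumberField.RingOfIntegers K) + 1) *
    (Real.log 4 + 4), ?_, ?_⟩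
  · have : 0 < Real.log 4 := Real.log_pos (by norm_num)
    positivity
  · intro Z hZ
    have hfin := finite_primePowers (K := K) Z
    rw [finsum_mem_eq_finite_toFinset_sum _ hfin]
    have hT : ∀ q ∈ hfin.toFinset, q.1.IsPrime ∧ q.1 ≠ ⊥ ∧ 1 ≤ q.2 := by
      intro q hq
      rw [Set.Finite.mem_toFinset] at hq
      exact ⟨hq.1, hq.2.1, hq.2.2.1⟩
    have hmaps : ∀ q ∈ hfin.toFinset, Ideal.absNorm q.1 ^ q.2 ∈ Finset.Ioc 0 ⌊Z⌋₊ := by
      intro q hq
      have hq' := hT q hq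
      rw [Set.Finite.mem_toFinset] at hq
      have h2 := two_le_norm hq'.1 hq'.2.1
      rw [Finset.mem_Ioc]
      refine ⟨by positivity, Nat.le_floor ?_⟩
      have := hq.2.2.2
      exact_mod_cast this
    rw [← Finset.sum_fiberwise_of_maps_to hmaps]
    calc ∑ n ∈ Finset.Ioc 0 ⌊Z⌋₊, ∑ q ∈ hfin.toFinset with Ideal.absNorm q.1 ^ q.2 = n,
          Real.log (Ideal.absNorm q.1)
        ≤ ∑ n ∈ Finset.Ioc 0 ⌊Z⌋₊, (Module.finrank ℤ (NumberField.RingOfIntegers K) : ℝ) *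
          ArithmeticFunction.vonMangoldt n :=
          Finset.sum_le_sum fun n _ => fiber_le _ hT n
      _ = Module.finrank ℤ (NumberField.RingOfIntegers K) * Chebyshev.psi Z := by
          rw [← Finset.mul_sum]
          rfl
      _ ≤ Module.finrank ℤ (NumberField.RingOfIntegers K) * ((Real.log 4 + 4) * Z) := by
          gcongr
          exact Chebyshev.psi_le_const_mul_self (by linarith)
      _ ≤ (Module.finrank ℤ (NumberField.RingOfIntegers K) + 1) * (Real.log 4 + 4) * Z := by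
          have : 0 < Real.log 4 := Real.log_pos (by norm_num)
          have h3 : 0 ≤ (Real.log 4 + 4) * Z := by positivity
          nlinarith

end Pool.Agent.MPf60e8a
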