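import Mathlib
import Pool.Agent.Lib.MP_f60e8a_al.Stmts
import Pool.Agent.Lib.MP_f60e8a_al.NTCheb

/-!
# Positive density of the primes with a prime ideal of degree one above them
-/

open scoped BigOperators commutatorElement

namespace Pool.Agent.MPf60e8a

open NumberField

namespace NTField

variable {K : Type} [Field K] [NumberField K]

theorem summable_np : Summable fun n : ℕ =>
    (if n.Prime then 0 else ArithmeticFunction.vonMangoldt n) / (n : ℝ) := by
  have h := ArithmeticFunction.vonMangoldt.summable_residueClass_non_primes_div (q := 1) 0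
  refine h.congr fun n => ?_
  have h1 : (n : ZMod 1) = 0 := Subsingleton.elim _ _
  have h2 : ArithmeticFunction.vonMangoldt.residueClass (0 : ZMod 1) n =
      ArithmeticFunction.vonMangoldt n := by
    unfold ArithmeticFunction.vonMangoldt.residueClass
    rw [Set.indicator_of_mem]
    exact h1
  rw [h2]

/-- The part of the sum over prime powers of non-prime norm is bounded. -/
theorem part_one (T : Finset (Ideal (𝓞 K) × ℕ))
    (hT : ∀ q ∈ T, q.1.IsPrime ∧ q.1 ≠ ⊥ ∧ 1 ≤ q.2 ∧ ¬ (Ideal.absNorm q.1 ^ q.2).Prime) :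
    ∑ q ∈ T, Real.log (Ideal.absNorm q.1) / (Ideal.absNorm q.1 : ℝ) ^ q.2 ≤
      Module.finrank ℤ (𝓞 K) *
        ∑' n : ℕ, (if n.Prime then 0 else ArithmeticFunction.vonMangoldt n) / (n : ℝ) := by
  classical
  have hT' : ∀ q ∈ T, q.1.IsPrime ∧ q.1 ≠ ⊥ ∧ 1 ≤ q.2 := fun q hq =>
    ⟨(hT q hq).1, (hT q hq).2.1, (hT q hq).2.2.1⟩
  have hmaps : ∀ q ∈ T, Ideal.absNorm q.1 ^ q.2 ∈
      T.image (fun q => Ideal.absNorm q.1 ^ q.2) := fun q hq =>
    Finset.mem_image_of_mem _ hq
  rw [← Finset.sum_fiberwise_of_maps_to hmaps]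
  calc _ ≤ ∑ n ∈ T.image (fun q => Ideal.absNorm q.1 ^ q.2),
        (Module.finrank ℤ (𝓞 K) : ℝ) *
          ((if n.Prime then 0 else ArithmeticFunction.vonMangoldt n) / (n : ℝ)) := by
        refine Finset.sum_le_sum fun n hn => ?_
        rw [Finset.mem_image] at hn
        obtain ⟨q₀, hq₀, rfl⟩ := hn
        have hnp := (hT q₀ hq₀).2.2.2
        rw [if_neg hnp]
        set n := Ideal.absNorm q₀.1 ^ q₀.2 with hn
        have h1 := NTCheb.fiber_le T hT' n
        calc _ = (∑ q ∈ T with Ideal.absNorm q.1 ^ q.2 = n, Real.log (Ideal.absNorm q.1)) /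
              (n : ℝ) := by
              rw [Finset.sum_div]
              refine Finset.sum_congr rfl fun q hq => ?_
              rw [Finset.mem_filter] at hq
              rw [← hq.2]
              push_cast
              rfl
          _ ≤ ((Module.finrank ℤ (𝓞 K) : ℝ) * ArithmeticFunction.vonMangoldt n) / (n : ℝ) :=
              div_le_div_of_nonneg_right h1 (Nat.cast_nonneg _)
          _ = _ := by ring
    _ = Module.finrank ℤ (𝓞 K) * ∑ n ∈ T.image (fun q => Ideal.absNorm q.1 ^ q.2),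
          ((if n.Prime then 0 else ArithmeticFunction.vonMangoldt n) / (n : ℝ)) := by
        rw [Finset.mul_sum]
    _ ≤ _ := by
        refine mul_le_mul_of_nonneg_left ?_ (Nat.cast_nonneg _)
        refine summable_np.sum_le_tsum _ fun n _ => ?_
        refine div_nonneg ?_ (Nat.cast_nonneg _)
        split_ifs
        · exact le_rfl
        · exact ArithmeticFunction.vonMangoldt_nonneg

open Classical in
/-- The part of the sum over prime powers of prime norm. -/
theorem part_two (x : ℝ) (T : Finset (Ideal (𝓞 K) × ℕ))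
    (hT : ∀ q ∈ T, q.1.IsPrime ∧ q.1 ≠ ⊥ ∧ 1 ≤ q.2 ∧ (Ideal.absNorm q.1 : ℝ) ^ q.2 ≤ x ∧
      (Ideal.absNorm q.1 ^ q.2).Prime) :
    ∑ q ∈ T, Real.log (Ideal.absNorm q.1) ≤
      Module.finrank ℤ (𝓞 K) *
        ∑ p ∈ (Finset.range (⌊x⌋₊ + 1)).filter (fun p => p.Prime ∧
          ∃ P : Ideal (𝓞 K), P.IsPrime ∧ Ideal.absNorm P = p), Real.log p := by
  have hT' : ∀ q ∈ T, q.1.IsPrime ∧ q.1 ≠ ⊥ ∧ 1 ≤ q.2 := fun q hq =>
    ⟨(hT q hq).1, (hT q hq).2.1, (hT q hq).2.2.1⟩
  have hmaps : ∀ q ∈ T, Ideal.absNorm q.1 ^ q.2 ∈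
      (Finset.range (⌊x⌋₊ + 1)).filter (fun p => p.Prime ∧
          ∃ P : Ideal (𝓞 K), P.IsPrime ∧ Ideal.absNorm P = p) := by
    intro q hq
    obtain ⟨a1, a2, a3, a4, a5⟩ := hT q hq
    rw [Finset.mem_filter, Finset.mem_range]
    refine ⟨Nat.lt_succ_of_le (Nat.le_floor (by push_cast; exact a4)), a5, q.1, a1, ?_⟩
    rw [a5.eq_one_of_pow, pow_one]
  rw [← Finset.sum_fiberwise_of_maps_to hmaps, Finset.mul_sum]
  refine Finset.sum_le_sum fun n hn => ?_
  rw [Finset.mem_filter] at hn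
  have h1 := NTCheb.fiber_le T hT' n
  rwa [ArithmeticFunction.vonMangoldt_apply_prime hn.2.1] at h1

end NTField

open NTField in
/-- The primes with a prime ideal of degree one above them have positive lower density. -/
theorem density_field (K : Type) [Field K] [NumberField K] (hC : ChebField K) (hM : Mertens K) :
    PosDensity (fun p => ∃ P : Ideal (NumberField.RingOfIntegers K),
      P.IsPrime ∧ Ideal.absNorm P = p) := by
  classical
  obtain ⟨C, hM⟩ := hM
  have hfin := hC.1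
  set g : ℝ := (Module.finrank ℤ (NumberField.RingOfIntegers K) : ℝ) with hg
  have hg0 : 0 ≤ g := Nat.cast_nonneg _
  set E : ℝ := g * ∑' n : ℕ,
    (if n.Prime then 0 else ArithmeticFunction.vonMangoldt n) / (n : ℝ) with hE
  have hE0 : 0 ≤ E := by
    refine mul_nonneg hg0 (tsum_nonneg fun n => div_nonneg ?_ (Nat.cast_nonneg _))
    split_ifs
    · exact le_rfl
    · exact ArithmeticFunction.vonMangoldt_nonneg
  have hC0 : 0 ≤ C := (abs_nonneg _).trans (hM 1 le_rfl)
  set A : ℝ := Real.exp (2 * C + E + 1) with hA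
  have hA0 : 0 < A := Real.exp_pos _
  have hA1 : 1 ≤ A := Real.one_le_exp (by linarith)
  refine ⟨1 / ((g + 1) * A), A, by positivity, ?_⟩
  intro x hx
  have hx0 : 0 < x := by linarith
  have hx1 : 1 ≤ x := by linarith
  have hxA : 1 ≤ x / A := by rwa [one_le_div hA0]
  set G : ℝ := ∑ p ∈ (Finset.range (⌊x⌋₊ + 1)).filter (fun p => p.Prime ∧
          ∃ P : Ideal (𝓞 K), P.IsPrime ∧ Ideal.absNorm P = p), Real.log p with hG
  have hG0 : 0 ≤ G := by
    refine Finset.sum_nonneg fun p hp => ?_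
    rw [Finset.mem_filter] at hp
    exact Real.log_nonneg (by exact_mod_cast hp.2.1.one_lt.le)
  have m1 := abs_le.1 (hM x hx1)
  have m2 := abs_le.1 (hM (x / A) hxA)
  have m3 : Real.log (x / A) = Real.log x - (2 * C + E + 1) := by
    rw [Real.log_div hx0.ne' hA0.ne', hA, Real.log_exp]
  set T := (hfin x).toFinset with hT
  have memT : ∀ q, q ∈ T ↔ q.1.IsPrime ∧ q.1 ≠ ⊥ ∧ 1 ≤ q.2 ∧
      ((Ideal.absNorm q.1 : ℝ) ^ q.2 ≤ x) := by
    intro q
    rw [hT, Set.Finite.mem_toFinset]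
    rfl
  have e1 : mertensSum K x = ∑ q ∈ T,
      Real.log (Ideal.absNorm q.1) / (Ideal.absNorm q.1 : ℝ) ^ q.2 := by
    rw [mertensSum, finsum_mem_eq_finite_toFinset_sum _ (hfin x)]
  have e2 : mertensSum K (x / A) =
      ∑ q ∈ T.filter (fun q => (Ideal.absNorm q.1 : ℝ) ^ q.2 ≤ x / A),
      Real.log (Ideal.absNorm q.1) / (Ideal.absNorm q.1 : ℝ) ^ q.2 := by
    rw [mertensSum, finsum_mem_eq_finite_toFinset_sum _ (hfin (x / A))]
    refine Finset.sum_congr ?_ fun _ _ => rfl
    ext q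
    rw [Set.Finite.mem_toFinset, Finset.mem_filter, memT]
    constructor
    · rintro ⟨a1, a2, a3, a4⟩
      refine ⟨⟨a1, a2, a3, a4.trans ?_⟩, a4⟩
      exact div_le_self hx0.le hA1
    · rintro ⟨⟨a1, a2, a3, _⟩, a4⟩
      exact ⟨a1, a2, a3, a4⟩
  set T' := T.filter (fun q => ¬ ((Ideal.absNorm q.1 : ℝ) ^ q.2 ≤ x / A)) with hT'
  have e3 : mertensSum K x - mertensSum K (x / A) = ∑ q ∈ T',
      Real.log (Ideal.absNorm q.1) / (Ideal.absNorm q.1 : ℝ) ^ q.2 := by
    rw [e1, e2, ← Finset.sum_filter_add_sum_filter_not T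
      (fun q => (Ideal.absNorm q.1 : ℝ) ^ q.2 ≤ x / A)]
    ring
  rw [← Finset.sum_filter_add_sum_filter_not T'
      (fun q => ¬ (Ideal.absNorm q.1 ^ q.2).Prime)] at e3
  have f1 : ∑ q ∈ T'.filter (fun q => ¬ (Ideal.absNorm q.1 ^ q.2).Prime),
      Real.log (Ideal.absNorm q.1) / (Ideal.absNorm q.1 : ℝ) ^ q.2 ≤ E := by
    refine part_one _ fun q hq => ?_
    rw [Finset.mem_filter, hT', Finset.mem_filter, memT] at hq
    exact ⟨hq.1.1.1, hq.1.1.2.1, hq.1.1.2.2.1, hq.2⟩
  have f2 : ∑ q ∈ T'.filter (fun q => ¬ ¬ (Ideal.absNorm q.1 ^ q.2).Prime),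
      Real.log (Ideal.absNorm q.1) / (Ideal.absNorm q.1 : ℝ) ^ q.2 ≤ (A / x) * (g * G) := by
    calc _ ≤ ∑ q ∈ T'.filter (fun q => ¬ ¬ (Ideal.absNorm q.1 ^ q.2).Prime),
          (A / x) * Real.log (Ideal.absNorm q.1) := by
          refine Finset.sum_le_sum fun q hq => ?_
          rw [Finset.mem_filter, hT', Finset.mem_filter, memT, not_le] at hq
          have hlog : 0 ≤ Real.log (Ideal.absNorm q.1) := by
            have := NTCheb.two_le_norm hq.1.1.1 hq.1.1.2.1
            refine Real.log_nonneg ?_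
            exact_mod_cast (by omega : 1 ≤ Ideal.absNorm q.1)
          have hpos : 0 < x / A := by positivity
          have h1 : (1 : ℝ) / (Ideal.absNorm q.1 : ℝ) ^ q.2 ≤ A / x := by
            rw [← one_div_div x A]
            exact one_div_le_one_div_of_le hpos hq.1.2.le
          calc _ = (1 / (Ideal.absNorm q.1 : ℝ) ^ q.2) * Real.log (Ideal.absNorm q.1) := by ring
            _ ≤ _ := mul_le_mul_of_nonneg_right h1 hlog
      _ = (A / x) * ∑ q ∈ T'.filter (fun q => ¬ ¬ (Ideal.absNorm q.1 ^ q.2).Prime),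
          Real.log (Ideal.absNorm q.1) := by rw [Finset.mul_sum]
      _ ≤ (A / x) * (g * G) := by
          refine mul_le_mul_of_nonneg_left ?_ (by positivity)
          refine part_two x _ fun q hq => ?_
          rw [Finset.mem_filter, hT', Finset.mem_filter, memT, not_not] at hq
          exact ⟨hq.1.1.1, hq.1.1.2.1, hq.1.1.2.2.1, hq.1.1.2.2.2, hq.2⟩
  have f3 : 1 ≤ (A / x) * (g * G) := by linarith
  have f4 : 1 ≤ (A / x) * ((g + 1) * G) := by
    refine f3.trans (mul_le_mul_of_nonneg_left ?_ (by positivity))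
    nlinarith
  have f5 : x ≤ A * ((g + 1) * G) := by
    have := mul_le_mul_of_nonneg_left f4 hx0.le
    have h' : x * (A / x * ((g + 1) * G)) = A * ((g + 1) * G) := by
      field_simp
    linarith
  rw [one_div, inv_mul_le_iff₀ (by positivity)]
  linarith

end Pool.Agent.MPf60e8a
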