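import Mathlib
import Pool.Agent.Lib.MP_f60e8a_al.Stmts

/-!
# From finitely generated rings to number fields
-/

open scoped BigOperators commutatorElement

namespace Pool.Agent.MPf60e8a

namespace NTHoms

/-- Removing finitely many primes keeps the density positive. -/
theorem posDensity_mono {good good' : ℕ → Prop} (h : PosDensity good) (T : Finset ℕ)
    (hT : ∀ p : ℕ, p.Prime → good p → p ∉ T → good' p) : PosDensity good' := by
  classical
  obtain ⟨c, x₀, hc, hx⟩ := h
  set C : ℝ := ∑ p ∈ T.filter Nat.Prime, Real.log p with hC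
  have hC0 : 0 ≤ C := Finset.sum_nonneg fun p hp =>
    Real.log_nonneg (by exact_mod_cast (Finset.mem_filter.mp hp).2.one_lt.le)
  refine ⟨c / 2, max x₀ (2 * C / c), by positivity, fun x hxx => ?_⟩
  have h1 := hx x (le_trans (le_max_left _ _) hxx)
  have h2 : 2 * C / c ≤ x := le_trans (le_max_right _ _) hxx
  have h3 : C ≤ c / 2 * x := by
    rw [div_le_iff₀ hc] at h2
    nlinarith
  have h4 : (∑ p ∈ (Finset.range (⌊x⌋₊ + 1)).filter (fun p => p.Prime ∧ good p), Real.log p) ≤
      (∑ p ∈ (Finset.range (⌊x⌋₊ + 1)).filter (fun p => p.Prime ∧ good' p), Real.log p) + C := by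
    rw [hC]
    have hsub : (Finset.range (⌊x⌋₊ + 1)).filter (fun p => p.Prime ∧ good p) ⊆
        (Finset.range (⌊x⌋₊ + 1)).filter (fun p => p.Prime ∧ good' p) ∪ T.filter Nat.Prime := by
      intro p hp
      rw [Finset.mem_filter] at hp
      rw [Finset.mem_union, Finset.mem_filter, Finset.mem_filter]
      by_cases hpT : p ∈ T
      · exact Or.inr ⟨hpT, hp.2.1⟩
      · exact Or.inl ⟨hp.1, hp.2.1, hT p hp.2.1 hp.2.2 hpT⟩
    have hnn : ∀ p ∈ (Finset.range (⌊x⌋₊ + 1)).filter (fun p => p.Prime ∧ good' p) ∪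
        T.filter Nat.Prime, 0 ≤ Real.log (p : ℝ) := by
      intro p hp
      have hpp : p.Prime := by
        rw [Finset.mem_union, Finset.mem_filter, Finset.mem_filter] at hp
        rcases hp with h | h
        · exact h.2.1
        · exact h.2
      exact Real.log_nonneg (by exact_mod_cast hpp.one_lt.le)
    refine (Finset.sum_le_sum_of_subset_of_nonneg hsub fun p hp _ => hnn p hp).trans ?_
    rw [← Finset.sum_union_inter]
    have : 0 ≤ ∑ p ∈ (Finset.range (⌊x⌋₊ + 1)).filter (fun p => p.Prime ∧ good' p) ∩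
        T.filter Nat.Prime, Real.log (p : ℝ) := Finset.sum_nonneg fun p hp =>
      hnn p (Finset.mem_union_left _ (Finset.mem_inter.mp hp).1)
    linarith
  linarith

/-- A finitely generated ring with a point over `ℂ` has a point over a number field. -/
theorem exists_numberField (R : Type) [CommRing R] [Algebra.FiniteType ℤ R]
    (h : Nonempty (R →+* ℂ)) :
    ∃ (K : Type) (_ : Field K) (_ : NumberField K), Nonempty (R →+* K) := by
  obtain ⟨φ⟩ := h
  obtain ⟨s, hs⟩ := (inferInstance : Algebra.FiniteType ℤ R).out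
  classical
  set A : Subalgebra ℚ ℂ := Algebra.adjoin ℚ ((s.image φ : Finset ℂ) : Set ℂ) with hA
  have hfg : A.FG := Subalgebra.fg_adjoin_finset _
  have : Algebra.FiniteType ℚ A := A.fg_iff_finiteType.mp hfg
  have hmem : ∀ r : R, φ r ∈ A := by
    intro r
    have hr : r ∈ Algebra.adjoin ℤ (s : Set R) := by rw [hs]; trivial
    induction hr using Algebra.adjoin_induction with
    | mem x hx =>
      exact Algebra.subset_adjoin (by
        rw [Finset.coe_image]; exact ⟨x, hx, rfl⟩)
    | algebraMap z =>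
      have : φ (algebraMap ℤ R z) = ((z : ℤ) : ℂ) := by simp
      rw [this]
      exact intCast_mem A z
    | add x y _ _ hx hy => rw [map_add]; exact A.add_mem hx hy
    | mul x y _ _ hx hy => rw [map_mul]; exact A.mul_mem hx hy
  set φ' : R →+* A := φ.codRestrict A hmem with hφ'
  obtain ⟨m, hm⟩ := Ideal.exists_maximal A
  have := hm
  letI fK : Field (A ⧸ m) := Ideal.Quotient.field m
  have : Algebra.FiniteType ℚ (A ⧸ m) := inferInstance
  have hfin : Module.Finite ℚ (A ⧸ m) := finite_of_finite_type_of_isJacobsonRing ℚ (A ⧸ m)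
  have : CharZero (A ⧸ m) := charZero_of_injective_algebraMap (algebraMap ℚ (A ⧸ m)).injective
  refine ⟨A ⧸ m, fK, ?_, ⟨(Ideal.Quotient.mk m).comp φ'⟩⟩
  refine @NumberField.mk _ _ inferInstance ?_
  convert hfin
  exact congrArg (fun a => @Algebra.toModule ℚ (A ⧸ m) _ _ a)
    (Subsingleton.elim _ (Ideal.Quotient.algebra ℚ))

open NumberField in
/-- All but finitely many primes of degree one of `K` give points of `R`. -/
theorem exists_finset (K : Type) [Field K] [NumberField K] (R : Type) [CommRing R]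
    [Algebra.FiniteType ℤ R] (ψ : R →+* K) :
    ∃ T : Finset ℕ, ∀ p : ℕ, p.Prime → (∃ P : Ideal (𝓞 K), P.IsPrime ∧ Ideal.absNorm P = p) →
      p ∉ T → Nonempty (R →+* ZMod p) := by
  classical
  obtain ⟨s, hs⟩ := (inferInstance : Algebra.FiniteType ℤ R).out
  -- denominators
  have hden : ∀ r : R, ∃ d : ℤ, d ≠ 0 ∧ IsIntegral ℤ (d • ψ r) := by
    intro r
    have halg : IsAlgebraic ℤ (ψ r) := by
      have h1 : IsAlgebraic ℚ (ψ r) := Algebra.IsAlgebraic.isAlgebraic _
      exact (IsFractionRing.isAlgebraic_iff ℤ ℚ K).mpr h1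
    obtain ⟨d, hd, hdi⟩ := halg.exists_integral_multiple
    exact ⟨d, hd, hdi⟩
  choose d hd0 hdi using hden
  set M : ℤ := ∏ r ∈ s, d r with hM
  have hM0 : M ≠ 0 := Finset.prod_ne_zero_iff.mpr fun r _ => hd0 r
  set MO : 𝓞 K := ((M : ℤ) : 𝓞 K) with hMO
  have hMO0 : MO ≠ 0 := by
    rw [hMO]; exact_mod_cast hM0
  -- the localization
  let S := Localization.Away MO
  have hMK : IsUnit (algebraMap (𝓞 K) K MO) := by
    rw [isUnit_iff_ne_zero]
    intro h0
    exact hMO0 ((FaithfulSMul.algebraMap_injective (𝓞 K) K) (by rw [h0, map_zero]))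
  let j : S →+* K := IsLocalization.Away.lift MO hMK
  have hj : ∀ a : 𝓞 K, j (algebraMap (𝓞 K) S a) = algebraMap (𝓞 K) K a := fun a =>
    IsLocalization.Away.lift_eq MO hMK a
  have hjinj : Function.Injective j := by
    rw [injective_iff_map_eq_zero]
    intro x hx
    obtain ⟨n, a, hna⟩ := IsLocalization.Away.surj MO x
    have h1 : j (x * algebraMap (𝓞 K) S MO ^ n) = 0 := by rw [map_mul, hx, zero_mul]
    rw [hna, hj] at h1
    have h2 : a = 0 := (FaithfulSMul.algebraMap_injective (𝓞 K) K) (by rw [h1, map_zero])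
    rw [h2, map_zero] at hna
    have hu : IsUnit (algebraMap (𝓞 K) S MO ^ n) :=
      (IsLocalization.Away.algebraMap_isUnit MO).pow n
    exact (hu.mul_left_eq_zero).mp hna
  have hrange : ∀ r : R, ψ r ∈ j.range := by
    intro r
    have hr : r ∈ Algebra.adjoin ℤ (s : Set R) := by rw [hs]; trivial
    induction hr using Algebra.adjoin_induction with
    | mem x hx =>
      have hx' : x ∈ s := hx
      have h1 : IsIntegral ℤ ((M : ℤ) • ψ x) := by
        rw [hM, ← Finset.mul_prod_erase s d hx', mul_comm, mul_smul]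
        exact (hdi x).smul _
      set y : 𝓞 K := ⟨(M : ℤ) • ψ x, h1⟩ with hy
      have hyK : algebraMap (𝓞 K) K y = (M : ℤ) • ψ x := rfl
      obtain ⟨z, hz⟩ := IsUnit.exists_left_inv
        (IsLocalization.Away.algebraMap_isUnit (S := S) MO)
      refine ⟨z * algebraMap (𝓞 K) S y, ?_⟩
      have h2 : j z * algebraMap (𝓞 K) K MO = 1 := by
        rw [← hj, ← map_mul, hz, map_one]
      rw [map_mul, hj, hyK]
      have h3 : (M : ℤ) • ψ x = algebraMap (𝓞 K) K MO * ψ x := by
        rw [zsmul_eq_mul, hMO, map_intCast]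
      rw [h3, ← mul_assoc, h2, one_mul]
    | algebraMap z =>
      have : ψ (algebraMap ℤ R z) = ((z : ℤ) : K) := by simp
      rw [this]
      exact intCast_mem j.range z
    | add x y _ _ hx hy => rw [map_add]; exact add_mem hx hy
    | mul x y _ _ hx hy => rw [map_mul]; exact mul_mem hx hy
  have hlift : Nonempty (R →+* S) := by
    let e : S ≃+* j.range := RingEquiv.ofBijective j.rangeRestrict
      ⟨fun x y hxy => hjinj (congrArg Subtype.val hxy), j.rangeRestrict_surjective⟩
    exact ⟨(e.symm : j.range →+* S).comp (ψ.codRestrict j.range hrange)⟩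
  obtain ⟨θ⟩ := hlift
  refine ⟨M.natAbs.primeFactors, fun p hp ⟨P, hP, hPn⟩ hpT => ?_⟩
  have hpM : ¬ (p : ℤ) ∣ M := by
    intro h
    apply hpT
    rw [Nat.mem_primeFactors]
    exact ⟨hp, Int.natCast_dvd.mp h, Int.natAbs_ne_zero.mpr hM0⟩
  have := hP
  have hcard : Nat.card (𝓞 K ⧸ P) = p := by
    rw [← hPn, Ideal.absNorm_apply, Submodule.cardQuot_apply]
  have : Finite (𝓞 K ⧸ P) := Nat.finite_of_card_ne_zero (by rw [hcard]; exact hp.ne_zero)
  letI : Fintype (𝓞 K ⧸ P) := Fintype.ofFinite _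
  have hfc : Fintype.card (𝓞 K ⧸ P) = p := by rw [← Nat.card_eq_fintype_card, hcard]
  let e : ZMod p ≃+* (𝓞 K ⧸ P) := ZMod.ringEquivOfPrime _ hp hfc
  let q : 𝓞 K →+* ZMod p := (e.symm : (𝓞 K ⧸ P) →+* ZMod p).comp (Ideal.Quotient.mk P)
  have : Fact p.Prime := ⟨hp⟩
  have hqM : IsUnit (q MO) := by
    rw [isUnit_iff_ne_zero, hMO, map_intCast]
    intro h0
    exact hpM ((ZMod.intCast_zmod_eq_zero_iff_dvd M p).mp h0)
  exact ⟨(IsLocalization.Away.lift MO hqM : S →+* ZMod p).comp θ⟩

end NTHoms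

/-- The primes with a point of a finitely generated ring. -/
theorem density_homs
    (hF : ∀ (K : Type) [Field K] [NumberField K],
      PosDensity (fun p => ∃ P : Ideal (NumberField.RingOfIntegers K),
        P.IsPrime ∧ Ideal.absNorm P = p))
    (R : Type) [CommRing R] [Algebra.FiniteType ℤ R] (h : Nonempty (R →+* ℂ)) :
    PosDensity (fun p => Nonempty (R →+* ZMod p)) := by
  obtain ⟨K, _, _, ⟨ψ⟩⟩ := NTHoms.exists_numberField R h
  obtain ⟨T, hT⟩ := NTHoms.exists_finset K R ψ
  exact NTHoms.posDensity_mono (hF K) T hT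

end Pool.Agent.MPf60e8a
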