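import Mathlib
import Pool.Agent.Lib.MP_f60e8a_al.Stmts

/-!
# Factorization of the norm of an element
-/

open scoped BigOperators

namespace Pool.Agent.MPf60e8a

namespace NTLog

open UniqueFactorizationMonoid Ideal

open Classical in
/-- The finite set of pairs `(P, k)` with `P` a prime factor of `I` and
`1 ≤ k ≤ v_P(I)`. -/
noncomputable def pairs {K : Type} [Field K] [NumberField K]
    (I : Ideal (NumberField.RingOfIntegers K)) :
    Finset (Ideal (NumberField.RingOfIntegers K) × ℕ) :=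
  (normalizedFactors I).toFinset.biUnion
    (fun P => (Finset.Icc 1 ((normalizedFactors I).count P)).image (fun k => (P, k)))

theorem mem_pairs {K : Type} [Field K] [NumberField K]
    {v : NumberField.RingOfIntegers K} (hv : v ≠ 0)
    (q : Ideal (NumberField.RingOfIntegers K) × ℕ) :
    q ∈ pairs (Ideal.span {v}) ↔ (q.1.IsPrime ∧ q.1 ≠ ⊥ ∧ 1 ≤ q.2 ∧ v ∈ q.1 ^ q.2) := by
  classical
  obtain ⟨P, k⟩ := q
  have hI : Ideal.span {v} ≠ 0 := by
    rw [Ne, Ideal.zero_eq_bot, Ideal.span_singleton_eq_bot]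
    exact hv
  have key : ∀ (_ : P.IsPrime) (_ : P ≠ ⊥), (v ∈ P ^ k ↔
      k ≤ (normalizedFactors (Ideal.span {v})).count P) := by
    intro hP hP0
    have hirr : Irreducible P := (Ideal.prime_of_isPrime hP0 hP).irreducible
    rw [← Ideal.dvd_span_singleton]
    have h1 := emultiplicity_eq_count_normalizedFactors hirr hI
    rw [normalize_eq] at h1
    rw [pow_dvd_iff_le_emultiplicity, h1]
    exact Nat.cast_le
  simp only [pairs, Finset.mem_biUnion, Multiset.mem_toFinset, Finset.mem_image,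
    Finset.mem_Icc, Prod.mk.injEq]
  constructor
  · rintro ⟨Q, hQ, j, ⟨hj1, hj2⟩, rfl, rfl⟩
    have hQp : Prime Q := prime_of_normalized_factor Q hQ
    have hQ1 : Q.IsPrime := Ideal.isPrime_of_prime hQp
    exact ⟨hQ1, hQp.ne_zero, hj1, (key hQ1 hQp.ne_zero).2 hj2⟩
  · rintro ⟨h1, h2, h3, h4⟩
    have h5 := (key h1 h2).1 h4
    refine ⟨P, ?_, k, ⟨h3, h5⟩, rfl, rfl⟩
    rw [← Multiset.one_le_count_iff_mem]
    exact le_trans h3 h5

theorem log_absNorm {K : Type} [Field K] [NumberField K]
    (I : Ideal (NumberField.RingOfIntegers K)) (hI : I ≠ 0) :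
    Real.log (Ideal.absNorm I) = ∑ q ∈ pairs I, Real.log (Ideal.absNorm q.1) := by
  classical
  have h1 : (Ideal.absNorm I : ℕ) =
      ∏ P ∈ (normalizedFactors I).toFinset, Ideal.absNorm P ^ (normalizedFactors I).count P := by
    rw [← Finset.prod_multiset_map_count, ← map_multiset_prod]
    have h2 := prod_normalizedFactors hI
    rw [associated_iff_eq] at h2
    rw [h2]
  rw [h1, Nat.cast_prod, Real.log_prod]
  · rw [pairs, Finset.sum_biUnion]
    · refine Finset.sum_congr rfl (fun P _ => ?_)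
      rw [Finset.sum_image (fun a _ b _ h => (Prod.mk.inj h).2)]
      simp [Real.log_pow]
    · intro P _ Q _ hPQ
      rw [Function.onFun, Finset.disjoint_left]
      rintro ⟨R, k⟩ hR hR'
      simp only [Finset.mem_image, Prod.mk.injEq] at hR hR'
      obtain ⟨_, _, h1, _⟩ := hR
      obtain ⟨_, _, h2, _⟩ := hR'
      exact hPQ (h1.trans h2.symm)
  · intro P hP
    rw [Multiset.mem_toFinset] at hP
    have hQp : Prime P := prime_of_normalized_factor P hP
    have h3 : Ideal.absNorm P ≠ 0 := by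
      rw [Ne, Ideal.absNorm_eq_zero_iff]
      exact hQp.ne_zero
    exact_mod_cast pow_ne_zero _ h3

end NTLog

/-- Factorization of the norm of an element. -/
theorem log_norm (K : Type) [Field K] [NumberField K] : LogNorm K := by
  intro v hv
  have hI : Ideal.span {v} ≠ (0 : Ideal (NumberField.RingOfIntegers K)) := by
    rw [Ne, Ideal.zero_eq_bot, Ideal.span_singleton_eq_bot]
    exact hv
  have hS : {q : Ideal (NumberField.RingOfIntegers K) × ℕ | q.1.IsPrime ∧ q.1 ≠ ⊥ ∧ 1 ≤ q.2 ∧
      v ∈ q.1 ^ q.2} = (NTLog.pairs (Ideal.span {v}) : Set _) := by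
    ext q
    rw [Finset.mem_coe, NTLog.mem_pairs hv]
    rfl
  rw [hS]
  refine ⟨Finset.finite_toSet _, ?_⟩
  rw [finsum_mem_coe_finset, ← NTLog.log_absNorm _ hI, Ideal.absNorm_span_singleton,
    Nat.cast_natAbs, Int.cast_abs]

end Pool.Agent.MPf60e8a
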