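import Mathlib
import Pool.Agent.Lib.MP_f60e8a_al.Stmts

open scoped BigOperators commutatorElement

namespace Pool.Agent.MPf60e8a

open NumberField

namespace NTMert

variable {K : Type} [Field K] [NumberField K]

/-- The finite set of prime powers of norm at most `Z`. -/
noncomputable def PPf (h : ∀ Z : ℝ, (primePowers K Z).Finite) (Z : ℝ) :
    Finset (Ideal (𝓞 K) × ℕ) := (h Z).toFinset

theorem mem_PPf (h : ∀ Z : ℝ, (primePowers K Z).Finite) (Z : ℝ) (q : Ideal (𝓞 K) × ℕ) :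
    q ∈ PPf h Z ↔ q.1.IsPrime ∧ q.1 ≠ ⊥ ∧ 1 ≤ q.2 ∧ ((Ideal.absNorm q.1 : ℝ) ^ q.2 ≤ Z) := by
  rw [PPf, Set.Finite.mem_toFinset]
  rfl

theorem mertensSum_eq (h : ∀ Z : ℝ, (primePowers K Z).Finite) (Z : ℝ) :
    mertensSum K Z = ∑ q ∈ PPf h Z,
      Real.log (Ideal.absNorm q.1) / (Ideal.absNorm q.1 : ℝ) ^ q.2 := by
  rw [mertensSum, finsum_mem_eq_finite_toFinset_sum _ (h Z)]
  rfl

theorem two_le (P : Ideal (𝓞 K)) (h1 : P.IsPrime) (h2 : P ≠ ⊥) :
    (2 : ℝ) ≤ (Ideal.absNorm P : ℝ) := by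
  have h3 : Ideal.absNorm P ≠ 0 := fun h => h2 (Ideal.absNorm_eq_zero_iff.1 h)
  have h4 : Ideal.absNorm P ≠ 1 := fun h => h1.ne_top (Ideal.absNorm_eq_one_iff.1 h)
  have : 2 ≤ Ideal.absNorm P := by omega
  exact_mod_cast this

theorem two_le_pow (P : Ideal (𝓞 K)) (h1 : P.IsPrime) (h2 : P ≠ ⊥) (k : ℕ) (hk : 1 ≤ k) :
    (2 : ℝ) ≤ (Ideal.absNorm P : ℝ) ^ k := by
  have h3 := two_le P h1 h2
  calc (2 : ℝ) ≤ (Ideal.absNorm P : ℝ) := h3
    _ = (Ideal.absNorm P : ℝ) ^ 1 := (pow_one _).symm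
    _ ≤ (Ideal.absNorm P : ℝ) ^ k := pow_le_pow_right₀ (by linarith) hk

theorem log_nonneg' (P : Ideal (𝓞 K)) (h1 : P.IsPrime) (h2 : P ≠ ⊥) :
    0 ≤ Real.log (Ideal.absNorm P : ℝ) :=
  Real.log_nonneg (by linarith [two_le P h1 h2])

theorem mertensSum_nonneg (h : ∀ Z : ℝ, (primePowers K Z).Finite) (Z : ℝ) :
    0 ≤ mertensSum K Z := by
  rw [mertensSum_eq h]
  refine Finset.sum_nonneg fun q hq => ?_
  rw [mem_PPf] at hq
  exact div_nonneg (log_nonneg' _ hq.1 hq.2.1) (by positivity)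

theorem mertensSum_mono (h : ∀ Z : ℝ, (primePowers K Z).Finite) {Z Z' : ℝ} (hZ : Z ≤ Z') :
    mertensSum K Z ≤ mertensSum K Z' := by
  rw [mertensSum_eq h, mertensSum_eq h]
  refine Finset.sum_le_sum_of_subset_of_nonneg ?_ ?_
  · intro q hq
    rw [mem_PPf] at hq ⊢
    exact ⟨hq.1, hq.2.1, hq.2.2.1, hq.2.2.2.trans hZ⟩
  · intro q hq _
    rw [mem_PPf] at hq
    exact div_nonneg (log_nonneg' _ hq.1 hq.2.1) (by positivity)

/-- The weighted sum appearing in the error term. -/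
noncomputable def F (h : ∀ Z : ℝ, (primePowers K Z).Finite) (e Z : ℝ) : ℝ :=
  ∑ q ∈ PPf h Z, Real.log (Ideal.absNorm q.1) *
    ((Ideal.absNorm q.1 : ℝ) ^ q.2) ^ (e - 1)

theorem F_bound (h : ∀ Z : ℝ, (primePowers K Z).Finite) (C₃ : ℝ) (hC₃ : 0 < C₃)
    (hC : ∀ Z : ℝ, 1 ≤ Z → ∑ q ∈ PPf h Z, Real.log (Ideal.absNorm q.1) ≤ C₃ * Z)
    (e : ℝ) (he : 0 < e) (he1 : e ≤ 1) :
    ∃ C : ℝ, 0 < C ∧ ∀ Z : ℝ, 0 ≤ Z → F h e Z ≤ C * Z ^ e := by
  have h2e : 1 < (2 : ℝ) ^ e := Real.one_lt_rpow (by norm_num) he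
  set C : ℝ := 2 * C₃ / ((2 : ℝ) ^ e - 1) with hCdef
  have hCpos : 0 < C := by rw [hCdef]; exact div_pos (by linarith) (by linarith)
  have hCeq : C * ((2 : ℝ) ^ e - 1) = 2 * C₃ := by
    rw [hCdef]; exact div_mul_cancel₀ _ (by linarith)
  have hempty : ∀ Z : ℝ, Z < 2 → F h e Z = 0 := by
    intro Z hZ
    rw [F]
    refine Finset.sum_eq_zero fun q hq => ?_
    rw [mem_PPf] at hq
    have := two_le_pow q.1 hq.1 hq.2.1 q.2 hq.2.2.1
    linarith [hq.2.2.2]
  refine ⟨C, hCpos, ?_⟩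
  have main : ∀ n : ℕ, ∀ Z : ℝ, 0 ≤ Z → Z < 2 ^ n → F h e Z ≤ C * Z ^ e := by
    intro n
    induction n with
    | zero =>
      intro Z hZ hZ1
      rw [pow_zero] at hZ1
      rw [hempty Z (by linarith)]
      positivity
    | succ n ih =>
      intro Z hZ hZ1
      rcases lt_or_ge Z 2 with hZ2 | hZ2
      · rw [hempty Z hZ2]
        positivity
      have hsplit : F h e Z = F h e (Z / 2) + ∑ q ∈ (PPf h Z).filter
          (fun q => ¬ ((Ideal.absNorm q.1 : ℝ) ^ q.2 ≤ Z / 2)),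
          Real.log (Ideal.absNorm q.1) * ((Ideal.absNorm q.1 : ℝ) ^ q.2) ^ (e - 1) := by
        rw [F, ← Finset.sum_filter_add_sum_filter_not (PPf h Z)
          (fun q => (Ideal.absNorm q.1 : ℝ) ^ q.2 ≤ Z / 2)]
        congr 1
        rw [F]
        refine Finset.sum_congr ?_ fun _ _ => rfl
        ext q
        rw [Finset.mem_filter, mem_PPf, mem_PPf]
        constructor
        · rintro ⟨⟨a1, a2, a3, _⟩, a5⟩
          exact ⟨a1, a2, a3, a5⟩
        · rintro ⟨a1, a2, a3, a4⟩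
          exact ⟨⟨a1, a2, a3, by linarith⟩, a4⟩
      have h1 : F h e (Z / 2) ≤ C * (Z / 2) ^ e := by
        refine ih (Z / 2) (by linarith) ?_
        rw [pow_succ] at hZ1
        linarith
      have h2 : ∑ q ∈ (PPf h Z).filter
          (fun q => ¬ ((Ideal.absNorm q.1 : ℝ) ^ q.2 ≤ Z / 2)),
          Real.log (Ideal.absNorm q.1) * ((Ideal.absNorm q.1 : ℝ) ^ q.2) ^ (e - 1)
          ≤ (C₃ * Z) * (Z / 2) ^ (e - 1) := by
        calc _ ≤ ∑ q ∈ (PPf h Z).filter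
              (fun q => ¬ ((Ideal.absNorm q.1 : ℝ) ^ q.2 ≤ Z / 2)),
              Real.log (Ideal.absNorm q.1) * (Z / 2) ^ (e - 1) := by
                refine Finset.sum_le_sum fun q hq => ?_
                rw [Finset.mem_filter, mem_PPf] at hq
                refine mul_le_mul_of_nonneg_left ?_ (log_nonneg' _ hq.1.1 hq.1.2.1)
                exact Real.rpow_le_rpow_of_nonpos (by linarith) (not_le.1 hq.2).le
                  (by linarith)
          _ = (∑ q ∈ (PPf h Z).filter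
              (fun q => ¬ ((Ideal.absNorm q.1 : ℝ) ^ q.2 ≤ Z / 2)),
              Real.log (Ideal.absNorm q.1)) * (Z / 2) ^ (e - 1) := by
                rw [Finset.sum_mul]
          _ ≤ (∑ q ∈ PPf h Z, Real.log (Ideal.absNorm q.1)) * (Z / 2) ^ (e - 1) := by
                refine mul_le_mul_of_nonneg_right ?_ (by positivity)
                refine Finset.sum_le_sum_of_subset_of_nonneg (Finset.filter_subset _ _) ?_
                intro q hq _
                rw [mem_PPf] at hq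
                exact log_nonneg' _ hq.1 hq.2.1
          _ ≤ (C₃ * Z) * (Z / 2) ^ (e - 1) :=
                mul_le_mul_of_nonneg_right (hC Z (by linarith)) (by positivity)
      have h3 : Z * (Z / 2) ^ (e - 1) = 2 * (Z / 2) ^ e := by
        have hz : (0 : ℝ) < Z / 2 := by linarith
        have : (Z / 2) ^ e = (Z / 2) * (Z / 2) ^ (e - 1) := by
          conv_lhs => rw [show e = 1 + (e - 1) by ring]
          rw [Real.rpow_add hz, Real.rpow_one]
        rw [this]; ring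
      have h4 : (Z / 2) ^ e * (2 : ℝ) ^ e = Z ^ e := by
        rw [← Real.mul_rpow (by linarith) (by norm_num)]
        congr 1; ring
      have hx : 0 ≤ (Z / 2) ^ e := by positivity
      rw [hsplit]
      calc _ ≤ C * (Z / 2) ^ e + (C₃ * Z) * (Z / 2) ^ (e - 1) := add_le_add h1 h2
        _ = C * (Z / 2) ^ e + C₃ * (Z * (Z / 2) ^ (e - 1)) := by ring
        _ = (C + 2 * C₃) * (Z / 2) ^ e := by rw [h3]; ring
        _ = C * Z ^ e := by
            rw [← h4, ← hCeq]; ring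
  intro Z hZ
  obtain ⟨n, hn⟩ := pow_unbounded_of_one_lt Z (by norm_num : (1 : ℝ) < 2)
  exact main n Z hZ hn

theorem pow_sub_pow_le' (a b : ℝ) (hb : 0 ≤ b) (hab : b ≤ a) (n : ℕ) :
    a ^ (n + 1) - b ^ (n + 1) ≤ (n + 1) * a ^ n * (a - b) := by
  have ha : 0 ≤ a := hb.trans hab
  induction n with
  | zero => simp
  | succ n ih =>
    have h1 : a ^ (n + 2) - b ^ (n + 2) = a * (a ^ (n + 1) - b ^ (n + 1))
        + b ^ (n + 1) * (a - b) := by ring
    have h2 : b ^ (n + 1) ≤ a ^ (n + 1) := pow_le_pow_left₀ hb hab _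
    have h3 : b ^ (n + 1) * (a - b) ≤ a ^ (n + 1) * (a - b) :=
      mul_le_mul_of_nonneg_right h2 (by linarith)
    have h4 := mul_le_mul_of_nonneg_left ih ha
    rw [show n + 1 + 1 = n + 2 by rfl, h1]
    push_cast
    calc _ ≤ a * ((n + 1) * a ^ n * (a - b)) + a ^ (n + 1) * (a - b) := add_le_add h4 h3
      _ = ((n : ℝ) + 1 + 1) * a ^ (n + 1) * (a - b) := by ring

/-- The prime powers containing `v` are among those of norm at most `|N v|`. -/
theorem filter_eq (h : ∀ Z : ℝ, (primePowers K Z).Finite) (v : 𝓞 K) (hv : v ≠ 0) (Z : ℝ)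
    (hZ : |((Algebra.norm ℤ v : ℤ) : ℝ)| ≤ Z)
    (hf : ({q : Ideal (𝓞 K) × ℕ | q.1.IsPrime ∧ q.1 ≠ ⊥ ∧ 1 ≤ q.2 ∧
      v ∈ q.1 ^ q.2}).Finite) [DecidablePred fun q : Ideal (𝓞 K) × ℕ => v ∈ q.1 ^ q.2] :
    hf.toFinset = (PPf h Z).filter (fun q => v ∈ q.1 ^ q.2) := by
  ext q
  rw [Set.Finite.mem_toFinset, Finset.mem_filter, mem_PPf]
  constructor
  · rintro ⟨a1, a2, a3, a4⟩
    refine ⟨⟨a1, a2, a3, ?_⟩, a4⟩
    have h1 : Ideal.span {v} ≤ q.1 ^ q.2 := by
      rw [Ideal.span_singleton_le_iff_mem]; exact a4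
    have h2 : Ideal.absNorm (q.1 ^ q.2) ∣ Ideal.absNorm (Ideal.span {v}) :=
      Ideal.absNorm_dvd_absNorm_of_le h1
    rw [Ideal.absNorm_span_singleton, map_pow] at h2
    have h3 : (Algebra.norm ℤ v).natAbs ≠ 0 := by
      rw [Int.natAbs_ne_zero]
      exact Algebra.norm_ne_zero_iff.2 hv
    have h4 : Ideal.absNorm q.1 ^ q.2 ≤ (Algebra.norm ℤ v).natAbs :=
      Nat.le_of_dvd (Nat.pos_of_ne_zero h3) h2
    have h5 : ((Ideal.absNorm q.1 : ℝ)) ^ q.2 ≤ (((Algebra.norm ℤ v).natAbs : ℕ) : ℝ) := by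
      exact_mod_cast h4
    rw [Nat.cast_natAbs, Int.cast_abs] at h5
    exact h5.trans hZ
  · rintro ⟨⟨a1, a2, a3, _⟩, a4⟩
    exact ⟨a1, a2, a3, a4⟩

theorem log_norm_eq (h : ∀ Z : ℝ, (primePowers K Z).Finite) (h2 : LogNorm K) (v : 𝓞 K)
    (hv : v ≠ 0) (Z : ℝ) (hZ : |((Algebra.norm ℤ v : ℤ) : ℝ)| ≤ Z)
    [DecidablePred fun q : Ideal (𝓞 K) × ℕ => v ∈ q.1 ^ q.2] :
    Real.log |((Algebra.norm ℤ v : ℤ) : ℝ)| =
      ∑ q ∈ PPf h Z, if v ∈ q.1 ^ q.2 then Real.log (Ideal.absNorm q.1) else 0 := by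
  obtain ⟨hf, hs⟩ := h2 v hv
  rw [hs, finsum_mem_eq_finite_toFinset_sum _ hf, filter_eq h v hv Z hZ hf, Finset.sum_filter]

/-- The element of the box. -/
noncomputable def el {ι : Type} [Fintype ι] (b : Module.Basis ι ℤ (𝓞 K)) (A B : ℕ)
    (x : ι → Fin B) : 𝓞 K :=
  ((A * B : ℕ) : 𝓞 K) + ∑ i, ((x i : ℕ) : ℤ) • b i

open Classical in
/-- The logarithmic sum of norms, expressed through counts. -/
theorem sum_log_eq {ι : Type} [Fintype ι] (b : Module.Basis ι ℤ (𝓞 K)) (A B : ℕ)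
    (h : ∀ Z : ℝ, (primePowers K Z).Finite) (h2 : LogNorm K) (Z : ℝ)
    (hv : ∀ x, el b A B x ≠ 0)
    (hZ : ∀ x, |((Algebra.norm ℤ (el b A B x) : ℤ) : ℝ)| ≤ Z) :
    ∑ x : ι → Fin B, Real.log |((Algebra.norm ℤ (el b A B x) : ℤ) : ℝ)| =
      ∑ q ∈ PPf h Z, Real.log (Ideal.absNorm q.1) *
        (Nat.card {x : ι → Fin B // el b A B x ∈ q.1 ^ q.2} : ℝ) := by
  calc _ = ∑ x : ι → Fin B, ∑ q ∈ PPf h Z,
        (if el b A B x ∈ q.1 ^ q.2 then Real.log (Ideal.absNorm q.1) else 0) :=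
        Finset.sum_congr rfl fun x _ => log_norm_eq h h2 _ (hv x) Z (hZ x)
    _ = ∑ q ∈ PPf h Z, ∑ x : ι → Fin B,
        (if el b A B x ∈ q.1 ^ q.2 then Real.log (Ideal.absNorm q.1) else 0) :=
        Finset.sum_comm
    _ = _ := by
        refine Finset.sum_congr rfl fun q _ => ?_
        rw [← Finset.sum_filter, Finset.sum_const, nsmul_eq_mul, mul_comm]
        congr 2
        rw [Nat.card_eq_fintype_card, Fintype.card_subtype]

/-- The error in one count. -/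
theorem count_err (d : ℕ) (C₁ c₂ e B D n : ℝ) (δ m : ℕ) (hd : 1 ≤ d) (hC₁ : 0 < C₁)
    (hc₂ : 0 < c₂) (he : e = 1 / d) (hB : 1 ≤ B) (hD : 1 ≤ D) (hDB : D ≤ c₂ * B ^ d)
    (hδ : δ = ⌈C₁ * D ^ e⌉₊) (hm : B = m)
    (hlo : ((m - 2 * δ : ℕ) : ℝ) ^ d ≤ D * n) (hup : D * n ≤ ((m + 2 * δ : ℕ) : ℝ) ^ d) :
    |n - B ^ d / D| ≤ (d * (1 + 2 * (C₁ + 1) * c₂ ^ e) ^ (d - 1) * (2 * (C₁ + 1)))
      * B ^ (d - 1) * D ^ (e - 1) := by
  have hd0 : (d : ℝ) ≠ 0 := by positivity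
  have hD0 : 0 < D := by linarith
  have hB0 : 0 < B := by linarith
  have he0 : 0 ≤ e := by rw [he]; positivity
  have hDe : 1 ≤ D ^ e := Real.one_le_rpow hD he0
  have hDe2 : D ^ e ≤ c₂ ^ e * B := by
    calc D ^ e ≤ (c₂ * B ^ d) ^ e := Real.rpow_le_rpow hD0.le hDB he0
      _ = c₂ ^ e * (B ^ d) ^ e := Real.mul_rpow hc₂.le (by positivity)
      _ = c₂ ^ e * B := by
          congr 1
          rw [he, ← Real.rpow_natCast, ← Real.rpow_mul hB0.le, mul_one_div_cancel hd0,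
            Real.rpow_one]
  have hδ1 : (δ : ℝ) ≤ (C₁ + 1) * D ^ e := by
    have := Nat.ceil_lt_add_one (show 0 ≤ C₁ * D ^ e by positivity)
    rw [hδ]
    nlinarith
  obtain ⟨k, rfl⟩ : ∃ k, d = k + 1 := ⟨d - 1, by omega⟩
  rw [show k + 1 - 1 = k by omega]
  set C₄ : ℝ := 1 + 2 * (C₁ + 1) * c₂ ^ e with hC₄
  have hC₄1 : 1 ≤ C₄ := by
    rw [hC₄]
    have : 0 ≤ 2 * (C₁ + 1) * c₂ ^ e := by positivity
    linarith
  have hBd : B + 2 * δ ≤ C₄ * B := by
    rw [hC₄]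
    nlinarith
  have hk0 : (0 : ℝ) ≤ (k : ℝ) + 1 := by positivity
  have key : |D * n - B ^ (k + 1)| ≤ ((k : ℝ) + 1) * (C₄ * B) ^ k * (2 * ((C₁ + 1) * D ^ e)) := by
    rw [abs_le]
    constructor
    · have h1 : B ^ (k + 1) - ((m - 2 * δ : ℕ) : ℝ) ^ (k + 1)
          ≤ ((k : ℝ) + 1) * B ^ k * (B - ((m - 2 * δ : ℕ) : ℝ)) := by
        refine pow_sub_pow_le' _ _ (by positivity) ?_ k
        rw [hm]
        exact_mod_cast Nat.sub_le _ _
      have h2 : B - ((m - 2 * δ : ℕ) : ℝ) ≤ 2 * δ := by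
        rw [hm]
        have : m ≤ (m - 2 * δ) + 2 * δ := by omega
        have h' : (m : ℝ) ≤ ((m - 2 * δ : ℕ) : ℝ) + 2 * δ := by exact_mod_cast this
        linarith
      have h3 : ((k : ℝ) + 1) * B ^ k * (B - ((m - 2 * δ : ℕ) : ℝ))
          ≤ ((k : ℝ) + 1) * (C₄ * B) ^ k * (2 * ((C₁ + 1) * D ^ e)) := by
        refine mul_le_mul ?_ (by linarith) ?_ (by positivity)
        · refine mul_le_mul_of_nonneg_left ?_ hk0
          exact pow_le_pow_left₀ hB0.le (by nlinarith) _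
        · rw [hm]
          have : ((m - 2 * δ : ℕ) : ℝ) ≤ m := by exact_mod_cast Nat.sub_le _ _
          linarith
      linarith
    · have h1 : ((m + 2 * δ : ℕ) : ℝ) ^ (k + 1) - B ^ (k + 1)
          ≤ ((k : ℝ) + 1) * ((m + 2 * δ : ℕ) : ℝ) ^ k * (((m + 2 * δ : ℕ) : ℝ) - B) := by
        refine pow_sub_pow_le' _ _ hB0.le ?_ k
        rw [hm]
        exact_mod_cast Nat.le_add_right _ _
      have h2 : ((m + 2 * δ : ℕ) : ℝ) = B + 2 * δ := by
        rw [hm]; push_cast; ring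
      have h3 : ((k : ℝ) + 1) * ((m + 2 * δ : ℕ) : ℝ) ^ k * (((m + 2 * δ : ℕ) : ℝ) - B)
          ≤ ((k : ℝ) + 1) * (C₄ * B) ^ k * (2 * ((C₁ + 1) * D ^ e)) := by
        rw [h2]
        refine mul_le_mul ?_ (by linarith) (by
          have : (0 : ℝ) ≤ δ := by positivity
          linarith) (by positivity)
        refine mul_le_mul_of_nonneg_left ?_ hk0
        exact pow_le_pow_left₀ (by positivity) hBd _
      linarith
  have h5 : n - B ^ (k + 1) / D = (D * n - B ^ (k + 1)) / D := by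
    field_simp
  rw [h5, abs_div, abs_of_pos hD0, div_le_iff₀ hD0]
  refine key.trans (le_of_eq ?_)
  have h6 : D ^ e = D ^ (e - 1) * D := by
    conv_lhs => rw [show e = (e - 1) + 1 by ring]
    rw [Real.rpow_add hD0, Real.rpow_one]
  rw [h6, mul_pow]
  push_cast
  ring

/-- The Mertens estimate at `c₂ B ^ d`. -/
theorem at_boxes {ι : Type} [Fintype ι] (b : Module.Basis ι ℤ (𝓞 K)) (h1 : IdealCount K b)
    (h2 : LogNorm K) (h : ∀ Z : ℝ, (primePowers K Z).Finite) (C₃ : ℝ) (hC₃ : 0 < C₃)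
    (hC : ∀ Z : ℝ, 1 ≤ Z → ∑ q ∈ PPf h Z, Real.log (Ideal.absNorm q.1) ≤ C₃ * Z)
    (hd : 1 ≤ Fintype.card ι) (A : ℕ) (c₁ c₂ : ℝ) (hc₁ : 0 < c₁) (hc₂ : 0 < c₂)
    (h4 : ∀ (B : ℕ), 1 ≤ B → ∀ x : ι → Fin B,
      c₁ * (B : ℝ) ^ Fintype.card ι ≤ |((Algebra.norm ℤ (el b A B x) : ℤ) : ℝ)| ∧
      |((Algebra.norm ℤ (el b A B x) : ℤ) : ℝ)| ≤ c₂ * (B : ℝ) ^ Fintype.card ι) :
    ∃ C : ℝ, 0 ≤ C ∧ ∀ B : ℕ, 1 ≤ B →
      |mertensSum K (c₂ * (B : ℝ) ^ Fintype.card ι) - Fintype.card ι * Real.log B| ≤ C := by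
  classical
  set d := Fintype.card ι with hddef
  set e : ℝ := 1 / d with hedef
  have hd0 : (0 : ℝ) < d := by exact_mod_cast hd
  have he0 : 0 < e := by rw [hedef]; positivity
  have he1 : e ≤ 1 := by
    rw [hedef, div_le_one hd0]
    exact_mod_cast hd
  obtain ⟨CF, hCF, hF⟩ := F_bound h C₃ hC₃ hC e he0 he1
  obtain ⟨C₁, hC₁, hI⟩ := h1
  set C₅ : ℝ := d * (1 + 2 * (C₁ + 1) * c₂ ^ e) ^ (d - 1) * (2 * (C₁ + 1)) with hC₅
  have hC₅0 : 0 ≤ C₅ := by rw [hC₅]; positivity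
  refine ⟨|Real.log c₁| + |Real.log c₂| + C₅ * CF * c₂ ^ e, by positivity, ?_⟩
  intro B hB
  have hB1 : (1 : ℝ) ≤ B := by exact_mod_cast hB
  have hB0 : (0 : ℝ) < B := by linarith
  set Z : ℝ := c₂ * (B : ℝ) ^ d with hZdef
  have hZ0 : 0 < Z := by rw [hZdef]; positivity
  have hv : ∀ x : ι → Fin B, el b A B x ≠ 0 := by
    intro x hx
    have := (h4 B hB x).1
    rw [hx, Algebra.norm_zero] at this
    simp only [Int.cast_zero, abs_zero] at this
    have h' : 0 < c₁ * (B : ℝ) ^ d := by positivity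
    linarith
  set S : ℝ := ∑ x : ι → Fin B, Real.log |((Algebra.norm ℤ (el b A B x) : ℤ) : ℝ)| with hS
  have hSeq := sum_log_eq b A B h h2 Z hv (fun x => (h4 B hB x).2)
  rw [← hS] at hSeq
  -- first estimate of `S`
  have hS1 : |S - (B : ℝ) ^ d * (d * Real.log B)| ≤
      (B : ℝ) ^ d * (|Real.log c₁| + |Real.log c₂|) := by
    have hcard : (B : ℝ) ^ d * (d * Real.log B) =
        ∑ _x : ι → Fin B, (d * Real.log B : ℝ) := by
      rw [Finset.sum_const, Finset.card_univ, Fintype.card_fun, Fintype.card_fin, nsmul_eq_mul]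
      push_cast
      rfl
    have hcard2 : (B : ℝ) ^ d * (|Real.log c₁| + |Real.log c₂|) =
        ∑ _x : ι → Fin B, (|Real.log c₁| + |Real.log c₂|) := by
      rw [Finset.sum_const, Finset.card_univ, Fintype.card_fun, Fintype.card_fin, nsmul_eq_mul]
      push_cast
      rfl
    rw [hcard, hS, ← Finset.sum_sub_distrib, hcard2]
    refine (Finset.abs_sum_le_sum_abs _ _).trans (Finset.sum_le_sum fun x _ => ?_)
    obtain ⟨a1, a2⟩ := h4 B hB x
    have hBd : (0 : ℝ) < (B : ℝ) ^ d := by positivity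
    have l1 : Real.log c₁ + d * Real.log B ≤
        Real.log |((Algebra.norm ℤ (el b A B x) : ℤ) : ℝ)| := by
      rw [← Real.log_pow, ← Real.log_mul hc₁.ne' hBd.ne']
      exact Real.log_le_log (by positivity) a1
    have l2 : Real.log |((Algebra.norm ℤ (el b A B x) : ℤ) : ℝ)| ≤
        Real.log c₂ + d * Real.log B := by
      rw [← Real.log_pow, ← Real.log_mul hc₂.ne' hBd.ne']
      refine Real.log_le_log ?_ a2
      exact lt_of_lt_of_le (by positivity) a1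
    rw [abs_le]
    constructor
    · linarith [neg_abs_le (Real.log c₁), abs_nonneg (Real.log c₂)]
    · linarith [le_abs_self (Real.log c₂), abs_nonneg (Real.log c₁)]
  -- second estimate of `S`
  have hS2 : |S - (B : ℝ) ^ d * mertensSum K Z| ≤ (B : ℝ) ^ d * (C₅ * CF * c₂ ^ e) := by
    rw [hSeq, mertensSum_eq h, Finset.mul_sum, ← Finset.sum_sub_distrib]
    calc _ ≤ ∑ q ∈ PPf h Z, Real.log (Ideal.absNorm q.1) *
          (C₅ * (B : ℝ) ^ (d - 1) * ((Ideal.absNorm q.1 : ℝ) ^ q.2) ^ (e - 1)) := by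
          refine (Finset.abs_sum_le_sum_abs _ _).trans (Finset.sum_le_sum fun q hq => ?_)
          rw [mem_PPf] at hq
          obtain ⟨a1, a2, a3, a4⟩ := hq
          have hlog := log_nonneg' q.1 a1 a2
          set D : ℝ := (Ideal.absNorm q.1 : ℝ) ^ q.2 with hD
          have hD2 : 2 ≤ D := two_le_pow q.1 a1 a2 q.2 a3
          have hne : q.1 ^ q.2 ≠ ⊥ := pow_ne_zero _ a2
          have hDn : (Ideal.absNorm (q.1 ^ q.2) : ℝ) = D := by
            rw [map_pow, hD]; push_cast; rfl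
          have hI' := hI (q.1 ^ q.2) hne ((A * B : ℕ) : 𝓞 K) B ⌈C₁ * D ^ e⌉₊ (by
            rw [hDn]; exact Nat.le_ceil _)
          rw [hDn] at hI'
          have herr := count_err d C₁ c₂ e B D
            (Nat.card {x : ι → Fin B // el b A B x ∈ q.1 ^ q.2}) ⌈C₁ * D ^ e⌉₊ B hd hC₁ hc₂
            hedef hB1 (by linarith) a4 rfl rfl hI'.1 hI'.2
          rw [← hC₅] at herr
          have hrw : Real.log (Ideal.absNorm q.1) *
              (Nat.card {x : ι → Fin B // el b A B x ∈ q.1 ^ q.2} : ℝ) -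
              (B : ℝ) ^ d * (Real.log (Ideal.absNorm q.1) / D) =
              Real.log (Ideal.absNorm q.1) *
              ((Nat.card {x : ι → Fin B // el b A B x ∈ q.1 ^ q.2} : ℝ) - (B : ℝ) ^ d / D) := by
            ring
          rw [hrw, abs_mul, abs_of_nonneg hlog]
          exact mul_le_mul_of_nonneg_left herr hlog
      _ = C₅ * (B : ℝ) ^ (d - 1) * F h e Z := by
          rw [F, Finset.mul_sum]
          refine Finset.sum_congr rfl fun q _ => ?_
          ring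
      _ ≤ C₅ * (B : ℝ) ^ (d - 1) * (CF * Z ^ e) :=
          mul_le_mul_of_nonneg_left (hF Z hZ0.le) (by positivity)
      _ = (B : ℝ) ^ d * (C₅ * CF * c₂ ^ e) := by
          have hZe : Z ^ e = c₂ ^ e * B := by
            rw [hZdef, Real.mul_rpow hc₂.le (by positivity)]
            congr 1
            rw [hedef, ← Real.rpow_natCast, ← Real.rpow_mul hB0.le,
              mul_one_div_cancel hd0.ne', Real.rpow_one]
          have hBd : (B : ℝ) ^ d = (B : ℝ) ^ (d - 1) * B := by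
            rw [← pow_succ]; congr 1; omega
          rw [hZe, hBd]; ring
  have hBd : (0 : ℝ) < (B : ℝ) ^ d := by positivity
  have h6 : (B : ℝ) ^ d * |mertensSum K Z - d * Real.log B| ≤
      (B : ℝ) ^ d * (|Real.log c₁| + |Real.log c₂| + C₅ * CF * c₂ ^ e) := by
    rw [← abs_of_pos hBd, ← abs_mul, abs_of_pos hBd]
    have : (B : ℝ) ^ d * (mertensSum K Z - d * Real.log B) =
        (S - (B : ℝ) ^ d * (d * Real.log B)) - (S - (B : ℝ) ^ d * mertensSum K Z) := by ring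
    rw [this]
    refine (abs_sub _ _).trans ?_
    linarith
  exact le_of_mul_le_mul_left h6 hBd

end NTMert

open NTMert in
theorem mertens (K : Type) [Field K] [NumberField K] {ι : Type} [Fintype ι]
    (b : Module.Basis ι ℤ (NumberField.RingOfIntegers K)) (h1 : IdealCount K b)
    (h2 : LogNorm K) (h3 : ChebField K) (h4 : BoxNorm K b) : Mertens K := by
  obtain ⟨h, C₃, hC₃, hC'⟩ := h3
  have hC : ∀ Z : ℝ, 1 ≤ Z → ∑ q ∈ PPf h Z, Real.log (Ideal.absNorm q.1) ≤ C₃ * Z := by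
    intro Z hZ
    have := hC' Z hZ
    rw [finsum_mem_eq_finite_toFinset_sum _ (h Z)] at this
    exact this
  obtain ⟨A, c₁, c₂, hc₁, hc₂, hx⟩ := h4
  have hne : Nonempty ι := b.index_nonempty
  have hd : 1 ≤ Fintype.card ι := Fintype.card_pos
  obtain ⟨C₇, hC₇, hbox⟩ := at_boxes b h1 h2 h C₃ hC₃ hC hd A c₁ c₂ hc₁ hc₂ hx
  set d := Fintype.card ι with hddef
  have hd0 : (0 : ℝ) < d := by exact_mod_cast hd
  have hm0 := mertensSum_nonneg h c₂
  refine ⟨C₇ + |Real.log c₂| + d * Real.log 2 + mertensSum K c₂, ?_⟩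
  have hlog2 : 0 ≤ Real.log 2 := Real.log_nonneg (by norm_num)
  intro Z hZ
  rcases lt_or_ge Z c₂ with hlt | hge
  · have a1 := mertensSum_nonneg h Z
    have a2 := mertensSum_mono h hlt.le
    have a3 := Real.log_nonneg hZ
    have a4 : Real.log Z ≤ |Real.log c₂| :=
      (Real.log_le_log (by linarith) hlt.le).trans (le_abs_self _)
    have a5 : 0 ≤ d * Real.log 2 := by positivity
    rw [abs_le]
    constructor <;> linarith
  · set t : ℝ := (Z / c₂) ^ ((1 : ℝ) / d) with ht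
    have hZc : 1 ≤ Z / c₂ := by rwa [one_le_div hc₂]
    have ht1 : 1 ≤ t := Real.one_le_rpow hZc (by positivity)
    have htd : c₂ * t ^ d = Z := by
      rw [ht, ← Real.rpow_natCast, ← Real.rpow_mul (by linarith), one_div_mul_cancel hd0.ne',
        Real.rpow_one]
      field_simp
    set B := ⌊t⌋₊ with hB
    have hB1 : 1 ≤ B := by rw [hB]; exact Nat.le_floor (by push_cast; exact ht1)
    have hBt : (B : ℝ) ≤ t := Nat.floor_le (by linarith)
    have htB : t < (B : ℝ) + 1 := Nat.lt_floor_add_one t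
    have hB1' : (1 : ℝ) ≤ B := by exact_mod_cast hB1
    have hB0 : (0 : ℝ) < B := by linarith
    have e1 : c₂ * (B : ℝ) ^ d ≤ Z := by
      rw [← htd]
      exact mul_le_mul_of_nonneg_left (pow_le_pow_left₀ hB0.le hBt _) hc₂.le
    have e2 : Z ≤ c₂ * ((B + 1 : ℕ) : ℝ) ^ d := by
      rw [← htd]
      push_cast
      exact mul_le_mul_of_nonneg_left (pow_le_pow_left₀ (by linarith) htB.le _) hc₂.le
    have f1 := hbox B hB1
    have f2 := hbox (B + 1) (by omega)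
    have g1 := mertensSum_mono h e1
    have g2 := mertensSum_mono h e2
    have k1 : Real.log c₂ + d * Real.log B ≤ Real.log Z := by
      rw [← Real.log_pow, ← Real.log_mul hc₂.ne' (by positivity)]
      exact Real.log_le_log (by positivity) e1
    have k2 : Real.log Z ≤ Real.log c₂ + d * Real.log ((B + 1 : ℕ) : ℝ) := by
      rw [← Real.log_pow, ← Real.log_mul hc₂.ne' (by positivity)]
      exact Real.log_le_log (by linarith) e2
    have k3 : Real.log ((B + 1 : ℕ) : ℝ) ≤ Real.log 2 + Real.log B := by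
      rw [← Real.log_mul (by norm_num) hB0.ne']
      refine Real.log_le_log (by positivity) ?_
      push_cast
      linarith
    have k4 : d * Real.log ((B + 1 : ℕ) : ℝ) ≤ d * Real.log 2 + d * Real.log B := by
      have := mul_le_mul_of_nonneg_left k3 hd0.le
      linarith
    have m1 := le_abs_self (Real.log c₂)
    have m2 := neg_abs_le (Real.log c₂)
    rw [abs_le] at f1 f2 ⊢
    constructor <;> linarith [f1.1, f1.2, f2.1, f2.2]

end Pool.Agent.MPf60e8a
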