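import Mathlib
import Pool.Agent.Lib.MP_f60e8a_al.Stmts
import Pool.Agent.Lib.MP_f60e8a_al.Minor

/-!
# Pencils of small rank modulo primes (module PENCIL)
-/

open scoped BigOperators commutatorElement

namespace Pool.Agent.MPf60e8a

namespace Pencil

open Classical in
/-- Positive lower density is monotone in the set of primes. -/
theorem posDensity_mono {g₁ g₂ : ℕ → Prop} (h : ∀ p, p.Prime → g₁ p → g₂ p)
    (h₁ : PosDensity g₁) : PosDensity g₂ := by
  obtain ⟨c, x₀, hc, hx⟩ := h₁
  refine ⟨c, x₀, hc, fun x hx₀ => (hx x hx₀).trans ?_⟩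
  refine Finset.sum_le_sum_of_subset_of_nonneg ?_ ?_
  · intro p hp
    rw [Finset.mem_filter] at hp ⊢
    exact ⟨hp.1, hp.2.1, h p hp.2.1 hp.2.2⟩
  · intro p _ _
    exact Real.log_natCast_nonneg p

theorem span_rho {m k : ℕ} (α : Form m k) :
    Submodule.span ℂ {l : Fin k → ℂ | (α.mat l).rank ≤ α.rho} = ⊤ := by
  have hne : {r : ℕ | Submodule.span ℂ {l : Fin k → ℂ | (α.mat l).rank ≤ r} = ⊤}.Nonempty := by
    refine ⟨m, ?_⟩
    rw [Set.mem_ofPred_eq, eq_top_iff]
    intro x _
    refine Submodule.subset_span ?_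
    exact Matrix.rank_le_width _
  exact Nat.sInf_mem hne

/-- A basis of functionals of small rank. -/
theorem exists_basis {m k : ℕ} (α : Form m k) :
    ∃ Λ : Matrix (Fin k) (Fin k) ℂ, Λ.det ≠ 0 ∧ ∀ i, (α.mat (Λ i)).rank ≤ α.rho := by
  have hs := span_rho α
  set S : Set (Fin k → ℂ) := {l | (α.mat l).rank ≤ α.rho} with hS
  let b₀ := Module.Basis.ofSpan (K := ℂ) (V := Fin k → ℂ) (s := S) hs.ge
  have hb₀ : Set.range b₀ ⊆ S := Module.Basis.ofSpan_subset hs.ge
  have : Fintype ((linearIndepOn_empty ℂ id).extend (Set.empty_subset S)) :=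
    FiniteDimensional.fintypeBasisIndex b₀
  have hcard : Fintype.card ((linearIndepOn_empty ℂ id).extend (Set.empty_subset S)) = k := by
    rw [← Module.finrank_eq_card_basis b₀, Module.finrank_fin_fun]
  let e := Fintype.equivFinOfCardEq hcard
  let b := b₀.reindex e
  refine ⟨Matrix.of (fun i => b i), ?_, ?_⟩
  · have hli : LinearIndependent ℂ (Matrix.of (fun i => b i)).row := b.linearIndependent
    rw [Matrix.linearIndependent_rows_iff_isUnit, Matrix.isUnit_iff_isUnit_det] at hli
    exact hli.ne_zero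
  · intro i
    have : b i ∈ S := hb₀ ⟨e.symm i, by simp [b]⟩
    exact this

theorem map_mat {m k : ℕ} (α : Form m k) {R S : Type*} [CommRing R] [CommRing S] (φ : R →+* S)
    (l : Fin k → R) : φ.mapMatrix (α.mat l) = α.mat (fun t => φ (l t)) := by
  ext i j
  simp [Form.mat, map_sum]

end Pencil

open Pencil

theorem good_density
    (hR : ∀ (R : Type) [CommRing R] [Algebra.FiniteType ℤ R], Nonempty (R →+* ℂ) →
      PosDensity (fun p => Nonempty (R →+* ZMod p)))
    {m k : ℕ} (α : Form m k) : PosDensity (GoodPrime α) := by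
  obtain ⟨Λ, hdet, hrank⟩ := exists_basis α
  classical
  let gens : Finset ℂ := insert (Λ.det)⁻¹ (Finset.univ.image fun q : Fin k × Fin k => Λ q.1 q.2)
  let A : Subalgebra ℤ ℂ := Algebra.adjoin ℤ (gens : Set ℂ)
  have : Algebra.FiniteType ℤ A := A.fg_iff_finiteType.mp (Subalgebra.fg_adjoin_finset gens)
  refine posDensity_mono ?_ (hR A ⟨A.val.toRingHom⟩)
  rintro p hp ⟨φ⟩
  have : Fact p.Prime := ⟨hp⟩
  have hmem : ∀ i t, Λ i t ∈ A := fun i t => by
    refine Algebra.subset_adjoin ?_
    simp only [gens, Finset.coe_insert, Finset.coe_image, Finset.coe_univ, Set.image_univ]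
    exact Set.mem_insert_of_mem _ ⟨(i, t), rfl⟩
  have hmem' : (Λ.det)⁻¹ ∈ A := Algebra.subset_adjoin (by simp [gens])
  let ΛA : Matrix (Fin k) (Fin k) A := fun i t => ⟨Λ i t, hmem i t⟩
  have hΛA : (A.val.toRingHom).mapMatrix ΛA = Λ := by
    ext i t
    rfl
  have hdetA : ΛA.det * (⟨(Λ.det)⁻¹, hmem'⟩ : A) = 1 := by
    have h1 : (A.val.toRingHom) ΛA.det = Λ.det := by
      rw [RingHom.map_det, hΛA]
    apply Subtype.ext
    show (A.val.toRingHom) ΛA.det * (Λ.det)⁻¹ = 1
    rw [h1, mul_inv_cancel₀ hdet]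
  refine ⟨fun i t => φ (ΛA i t), ?_, ?_⟩
  · intro b hb
    by_contra hcon
    push Not at hcon
    apply hb
    have hd : (φ.mapMatrix ΛA).det ≠ 0 := by
      rw [← RingHom.map_det]
      intro h0
      have h2 := congrArg φ hdetA
      rw [map_mul, h0, zero_mul, map_one] at h2
      exact zero_ne_one h2
    refine Matrix.eq_zero_of_mulVec_eq_zero hd ?_
    funext i
    exact hcon i
  · intro i
    rw [rank_le_iff_minors]
    intro f g
    have h3 : φ.mapMatrix (α.mat (ΛA i)) = α.mat (fun t => φ (ΛA i t)) := map_mat α φ (ΛA i)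
    have h4 : (A.val.toRingHom).mapMatrix (α.mat (ΛA i)) = α.mat (Λ i) := by
      rw [map_mat]
      rfl
    have h5 : ((α.mat (ΛA i)).submatrix f g).det = 0 := by
      have h6 := (rank_le_iff_minors (α.mat (Λ i)) α.rho).mp (hrank i) f g
      rw [← h4] at h6
      have h7 : (A.val.toRingHom) ((α.mat (ΛA i)).submatrix f g).det = 0 := by
        rw [RingHom.map_det]
        exact h6
      exact Subtype.ext h7
    rw [← h3]
    have h8 := congrArg φ h5
    rw [RingHom.map_det, map_zero] at h8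
    exact h8

end Pool.Agent.MPf60e8a
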