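import Mathlib
import Pool.Agent.Lib.MP_f60e8a_al.Stmts

/-!
# The invariant `ρ` depends only on the real isomorphism class of the form
-/

open scoped BigOperators commutatorElement

namespace Pool.Agent.MPf60e8a

namespace RankInv

open Matrix

variable {m₁ k₁ m₂ k₂ : ℕ}

/-- The coefficient identity for an equivalence of forms. -/
theorem coeff (α₁ : Form m₁ k₁) (α₂ : Form m₂ k₂)
    (A : (Fin m₁ → ℝ) →ₗ[ℝ] (Fin m₂ → ℝ)) (B : (Fin k₁ → ℝ) →ₗ[ℝ] (Fin k₂ → ℝ))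
    (h : ∀ v w, B (α₁.ev v w) = α₂.ev (A v) (A w)) (i j : Fin m₁) (t : Fin k₂) :
    ∑ s, LinearMap.toMatrix' B t s * (α₁.c i j s : ℝ) =
      ∑ p, ∑ q, (α₂.c p q t : ℝ) * LinearMap.toMatrix' A p i * LinearMap.toMatrix' A q j := by
  have h1 := congrFun (h (Pi.single i 1) (Pi.single j 1)) t
  have h2 : α₁.ev (Pi.single i (1 : ℝ)) (Pi.single j 1) = fun s => (α₁.c i j s : ℝ) := by
    funext s
    rw [Form.ev_apply, Finset.sum_eq_single i, Finset.sum_eq_single j]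
    · simp
    · intro q _ hq
      simp [Pi.single_eq_of_ne hq]
    · simp
    · intro p _ hp
      simp [Pi.single_eq_of_ne hp]
    · simp
  have h3 : B (α₁.ev (Pi.single i (1 : ℝ)) (Pi.single j 1)) t =
      ∑ s, LinearMap.toMatrix' B t s * (α₁.c i j s : ℝ) := by
    rw [h2]
    conv_lhs => rw [← LinearMap.toMatrix'_mulVec B]
    rfl
  rw [← h3, h1, Form.ev_apply]
  simp only [LinearMap.toMatrix'_apply]

theorem rank_le (α₁ : Form m₁ k₁) (α₂ : Form m₂ k₂)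
    (A : (Fin m₁ → ℝ) →ₗ[ℝ] (Fin m₂ → ℝ)) (B : (Fin k₁ → ℝ) →ₗ[ℝ] (Fin k₂ → ℝ))
    (h : ∀ v w, B (α₁.ev v w) = α₂.ev (A v) (A w)) (l : Fin k₂ → ℂ) :
    (α₁.mat (l ᵥ* (LinearMap.toMatrix' B).map Complex.ofReal)).rank ≤ (α₂.mat l).rank := by
  have h1 : α₁.mat (l ᵥ* (LinearMap.toMatrix' B).map Complex.ofReal) =
      ((LinearMap.toMatrix' A).map Complex.ofReal)ᵀ * α₂.mat l *
        (LinearMap.toMatrix' A).map Complex.ofReal := by
    ext i j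
    have hc : ∀ t : Fin k₂, ∑ s, ((LinearMap.toMatrix' B t s : ℝ) : ℂ) * (α₁.c i j s : ℂ) =
        ∑ p, ∑ q, (α₂.c p q t : ℂ) * ((LinearMap.toMatrix' A p i : ℝ) : ℂ) *
          ((LinearMap.toMatrix' A q j : ℝ) : ℂ) := by
      intro t
      have := congrArg (fun x : ℝ => (x : ℂ)) (coeff α₁ α₂ A B h i j t)
      push_cast at this
      exact this
    calc α₁.mat (l ᵥ* (LinearMap.toMatrix' B).map Complex.ofReal) i j
        = ∑ s, (∑ t, l t * ((LinearMap.toMatrix' B t s : ℝ) : ℂ)) * (α₁.c i j s : ℂ) := rfl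
      _ = ∑ t, l t * ∑ s, ((LinearMap.toMatrix' B t s : ℝ) : ℂ) * (α₁.c i j s : ℂ) := by
          simp only [Finset.sum_mul, Finset.mul_sum]
          rw [Finset.sum_comm]
          refine Finset.sum_congr rfl fun t _ => Finset.sum_congr rfl fun s _ => ?_
          ring
      _ = ∑ t, l t * ∑ p, ∑ q, (α₂.c p q t : ℂ) * ((LinearMap.toMatrix' A p i : ℝ) : ℂ) *
          ((LinearMap.toMatrix' A q j : ℝ) : ℂ) := by
          simp only [hc]
      _ = ∑ q, (∑ p, ((LinearMap.toMatrix' A p i : ℝ) : ℂ) * ∑ t, l t * (α₂.c p q t : ℂ)) *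
          ((LinearMap.toMatrix' A q j : ℝ) : ℂ) := by
          simp only [Finset.sum_mul, Finset.mul_sum]
          rw [Finset.sum_comm]
          conv_rhs => rw [Finset.sum_comm]
          refine Finset.sum_congr rfl fun p _ => ?_
          rw [Finset.sum_comm]
          refine Finset.sum_congr rfl fun q _ => Finset.sum_congr rfl fun t _ => ?_
          ring
      _ = _ := by
          rw [Matrix.mul_apply]
          refine Finset.sum_congr rfl fun q _ => ?_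
          rw [Matrix.mul_apply]
          rfl
  rw [h1]
  exact (Matrix.rank_mul_le_left _ _).trans (Matrix.rank_mul_le_right _ _)

theorem span_top (α₁ : Form m₁ k₁) (α₂ : Form m₂ k₂)
    (A : (Fin m₁ → ℝ) ≃ₗ[ℝ] (Fin m₂ → ℝ)) (B : (Fin k₁ → ℝ) ≃ₗ[ℝ] (Fin k₂ → ℝ))
    (h : ∀ v w, B (α₁.ev v w) = α₂.ev (A v) (A w)) {r : ℕ}
    (hr : Submodule.span ℂ {l : Fin k₂ → ℂ | (α₂.mat l).rank ≤ r} = ⊤) :
    Submodule.span ℂ {l : Fin k₁ → ℂ | (α₁.mat l).rank ≤ r} = ⊤ := by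
  set b : Matrix (Fin k₂) (Fin k₁) ℂ :=
    (LinearMap.toMatrix' (B : (Fin k₁ → ℝ) →ₗ[ℝ] (Fin k₂ → ℝ))).map Complex.ofReal with hb
  set b' : Matrix (Fin k₁) (Fin k₂) ℂ :=
    (LinearMap.toMatrix' (B.symm : (Fin k₂ → ℝ) →ₗ[ℝ] (Fin k₁ → ℝ))).map Complex.ofReal with hb'
  have hbb : b' * b = 1 := by
    have h1 : LinearMap.toMatrix' (B.symm : (Fin k₂ → ℝ) →ₗ[ℝ] (Fin k₁ → ℝ)) *
        LinearMap.toMatrix' (B : (Fin k₁ → ℝ) →ₗ[ℝ] (Fin k₂ → ℝ)) = 1 := by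
      rw [← LinearMap.toMatrix'_comp]
      have h2 : (B.symm : (Fin k₂ → ℝ) →ₗ[ℝ] (Fin k₁ → ℝ)) ∘ₗ
          (B : (Fin k₁ → ℝ) →ₗ[ℝ] (Fin k₂ → ℝ)) = LinearMap.id := by
        ext1
        simp
      rw [h2, LinearMap.toMatrix'_id]
    have h3 := congrArg (fun M : Matrix (Fin k₁) (Fin k₁) ℝ => M.map (Complex.ofRealHom)) h1
    simp only [Matrix.map_mul] at h3
    rw [Matrix.map_one _ (map_zero _) (map_one _)] at h3
    exact h3
  rw [eq_top_iff]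
  rintro l -
  have hl : l = (l ᵥ* b') ᵥ* b := by
    rw [Matrix.vecMul_vecMul, hbb, Matrix.vecMul_one]
  have h4 : l ᵥ* b' ∈ Submodule.span ℂ {l : Fin k₂ → ℂ | (α₂.mat l).rank ≤ r} := by
    rw [hr]
    trivial
  rw [hl]
  have h5 : ∀ x ∈ Submodule.span ℂ {l : Fin k₂ → ℂ | (α₂.mat l).rank ≤ r},
      x ᵥ* b ∈ Submodule.span ℂ {l : Fin k₁ → ℂ | (α₁.mat l).rank ≤ r} := by
    intro x hx
    induction hx using Submodule.span_induction with
    | mem x hx =>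
      apply Submodule.subset_span
      exact (rank_le α₁ α₂ (A : (Fin m₁ → ℝ) →ₗ[ℝ] (Fin m₂ → ℝ))
        (B : (Fin k₁ → ℝ) →ₗ[ℝ] (Fin k₂ → ℝ)) h x).trans hx
    | zero =>
      rw [Matrix.zero_vecMul]
      exact Submodule.zero_mem _
    | add x y _ _ hx hy =>
      rw [Matrix.add_vecMul]
      exact Submodule.add_mem _ hx hy
    | smul c x _ hx =>
      rw [Matrix.smul_vecMul]
      exact Submodule.smul_mem _ _ hx
  exact h5 _ h4

end RankInv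

theorem rho_eq_of_equiv {m₁ k₁ m₂ k₂ : ℕ} (α₁ : Form m₁ k₁) (α₂ : Form m₂ k₂)
    (A : (Fin m₁ → ℝ) ≃ₗ[ℝ] (Fin m₂ → ℝ)) (B : (Fin k₁ → ℝ) ≃ₗ[ℝ] (Fin k₂ → ℝ))
    (h : ∀ v w, B (α₁.ev v w) = α₂.ev (A v) (A w)) : α₁.rho = α₂.rho := by
  have h' : ∀ v w, B.symm (α₂.ev v w) = α₁.ev (A.symm v) (A.symm w) := by
    intro v w
    rw [LinearEquiv.symm_apply_eq, h, LinearEquiv.apply_symm_apply, LinearEquiv.apply_symm_apply]
  unfold Form.rho
  congr 1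
  ext r
  exact ⟨RankInv.span_top α₂ α₁ A.symm B.symm h', RankInv.span_top α₁ α₂ A B h⟩

end Pool.Agent.MPf60e8a
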