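import Mathlib
import Pool.Agent.Lib.MP_f60e8a_al.Stmts

/-!
# Structure of finitely generated groups of class at most two

Every such group has a homomorphism with finite kernel to the group of an integral form (Baer).
-/

open scoped BigOperators commutatorElement

namespace Pool.Agent.MPf60e8a

namespace Struct

universe u

/-! ## A splitting of a finitely generated abelian group -/

theorem exists_split (M : Type u) [AddCommGroup M] [Module.Finite ℤ M] :
    ∃ (k : ℕ) (κ : M →ₗ[ℤ] (Fin k → ℤ)) (σ : (Fin k → ℤ) →ₗ[ℤ] M) (t : ℕ),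
      (∀ b, κ (σ b) = b) ∧ 0 < t ∧ (∀ x, κ x = 0 → t • x = 0) ∧ {x | κ x = 0}.Finite := by
  classical
  have : Module.Free ℤ (M ⧸ Submodule.torsion ℤ M) := Module.free_of_finite_type_torsion_free'
  let b := Module.finBasis ℤ (M ⧸ Submodule.torsion ℤ M)
  let κ : M →ₗ[ℤ] (Fin (Module.finrank ℤ (M ⧸ Submodule.torsion ℤ M)) → ℤ) :=
    b.equivFun.toLinearMap ∘ₗ (Submodule.torsion ℤ M).mkQ
  have hκ : Function.Surjective κ :=
    b.equivFun.surjective.comp (Submodule.mkQ_surjective _)
  obtain ⟨σ, hσ⟩ := Module.projective_lifting_property κ LinearMap.id hκ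
  have hker : ∀ x, κ x = 0 ↔ x ∈ Submodule.torsion ℤ M := by
    intro x
    constructor
    · intro h
      have h1 : (Submodule.torsion ℤ M).mkQ x = 0 := b.equivFun.injective (by
        rw [map_zero]
        exact h)
      exact (Submodule.Quotient.mk_eq_zero _).mp h1
    · intro h
      have h1 : (Submodule.torsion ℤ M).mkQ x = 0 := (Submodule.Quotient.mk_eq_zero _).mpr h
      show b.equivFun ((Submodule.torsion ℤ M).mkQ x) = 0
      rw [h1, map_zero]
  have : Finite (Submodule.torsion ℤ M) :=
    Module.finite_of_fg_torsion _ (Submodule.torsion_isTorsion)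
  refine ⟨_, κ, σ, Nat.card (Submodule.torsion ℤ M), fun v => ?_, Nat.card_pos, fun x hx => ?_, ?_⟩
  · exact LinearMap.congr_fun hσ v
  · have hx' := (hker x).mp hx
    have h2 : Nat.card (Submodule.torsion ℤ M) • (⟨x, hx'⟩ : Submodule.torsion ℤ M) = 0 :=
      card_nsmul_eq_zero'
    have h3 := congrArg (Subtype.val) h2
    simpa using h3
  · have : {x | κ x = 0} = (Submodule.torsion ℤ M : Set M) := by
      ext x
      exact hker x
    rw [this]
    exact Set.toFinite _

/-! ## Bilinear maps on a group and Baer's twisted group -/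

/-- A bilinear alternating map on a group with values in `ℚ^k`. -/
structure Bil (G : Type u) [Group G] (k : ℕ) where
  w : G → G → Fin k → ℚ
  mul_left : ∀ x y z, w (x * y) z = w x z + w y z
  mul_right : ∀ x y z, w x (y * z) = w x y + w x z
  alt : ∀ x, w x x = 0

namespace Bil

variable {G : Type u} [Group G] {k : ℕ} (W : Bil G k)

@[simp] theorem one_left (x : G) : W.w 1 x = 0 := by
  have := W.mul_left 1 1 x
  rw [mul_one] at this
  simpa using this

@[simp] theorem one_right (x : G) : W.w x 1 = 0 := by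
  have := W.mul_right x 1 1
  rw [mul_one] at this
  simpa using this

theorem inv_left (x y : G) : W.w x⁻¹ y = - W.w x y := by
  have := W.mul_left x⁻¹ x y
  rw [inv_mul_cancel, one_left] at this
  exact eq_neg_of_add_eq_zero_left this.symm

theorem inv_right (x y : G) : W.w x y⁻¹ = - W.w x y := by
  have := W.mul_right x y⁻¹ y
  rw [inv_mul_cancel, one_right] at this
  exact eq_neg_of_add_eq_zero_left this.symm

theorem anti (x y : G) : W.w y x = - W.w x y := by
  have := W.alt (x * y)
  rw [W.mul_left, W.mul_right, W.mul_right, W.alt, W.alt, zero_add, add_zero] at this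
  exact eq_neg_of_add_eq_zero_right this

end Bil

/-- Baer's twisted group. -/
@[ext] structure Tw {G : Type u} [Group G] {k : ℕ} (W : Bil G k) where
  g : G
  u : Fin k → ℚ

namespace Tw

variable {G : Type u} [Group G] {k : ℕ} {W : Bil G k}

instance : Group (Tw W) where
  mul x y := ⟨x.g * y.g, x.u + y.u - (1 / 2 : ℚ) • W.w x.g y.g⟩
  one := ⟨1, 0⟩
  inv x := ⟨x.g⁻¹, -x.u⟩
  mul_assoc x y z := by
    show (⟨_, _⟩ : Tw W) = ⟨_, _⟩
    refine Tw.ext (mul_assoc _ _ _) ?_
    show x.u + y.u - (1 / 2 : ℚ) • W.w x.g y.g + z.u - (1 / 2 : ℚ) • W.w (x.g * y.g) z.g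
      = x.u + (y.u + z.u - (1 / 2 : ℚ) • W.w y.g z.g) - (1 / 2 : ℚ) • W.w x.g (y.g * z.g)
    rw [W.mul_left, W.mul_right, smul_add, smul_add]
    abel
  one_mul x := by
    show (⟨_, _⟩ : Tw W) = _
    refine Tw.ext (one_mul _) ?_
    show (0 : Fin k → ℚ) + x.u - (1 / 2 : ℚ) • W.w 1 x.g = x.u
    rw [W.one_left]
    simp
  mul_one x := by
    show (⟨_, _⟩ : Tw W) = _
    refine Tw.ext (mul_one _) ?_
    show x.u + 0 - (1 / 2 : ℚ) • W.w x.g 1 = x.u
    rw [W.one_right]
    simp
  inv_mul_cancel x := by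
    show (⟨_, _⟩ : Tw W) = ⟨_, _⟩
    refine Tw.ext (inv_mul_cancel _) ?_
    show -x.u + x.u - (1 / 2 : ℚ) • W.w x.g⁻¹ x.g = 0
    rw [W.inv_left, W.alt]
    simp

@[simp] theorem mul_g (x y : Tw W) : (x * y).g = x.g * y.g := rfl
@[simp] theorem mul_u (x y : Tw W) :
    (x * y).u = x.u + y.u - (1 / 2 : ℚ) • W.w x.g y.g := rfl
@[simp] theorem one_g : (1 : Tw W).g = 1 := rfl
@[simp] theorem one_u : (1 : Tw W).u = 0 := rfl
@[simp] theorem inv_g (x : Tw W) : (x⁻¹).g = x.g⁻¹ := rfl
@[simp] theorem inv_u (x : Tw W) : (x⁻¹).u = -x.u := rfl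

theorem comm_eq (x y : Tw W) : ⁅x, y⁆ = ⟨⁅x.g, y.g⁆, - W.w x.g y.g⟩ := by
  rw [commutatorElement_def]
  refine Tw.ext ?_ ?_
  · simp [commutatorElement_def]
  · simp only [mul_u, mul_g, inv_u, inv_g, W.mul_left, W.inv_left, W.inv_right, W.alt, W.anti x.g y.g]
    funext t
    simp
    ring

end Tw

/-- Baer's trick: the existence of a coordinate with a bilinear cocycle. -/
theorem exists_beta {G : Type u} [Group G] {k : ℕ} (W : Bil G k) (D : Subgroup G)
    (κ : G → Fin k → ℚ) (hD : ∀ g h : G, ⁅g, h⁆ ∈ D) (hκ : ∀ g h, κ ⁅g, h⁆ = W.w g h)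
    (hκm : ∀ d ∈ D, ∀ d' ∈ D, κ (d * d') = κ d + κ d')
    (hw : ∀ d ∈ D, ∀ g, W.w d g = 0) :
    ∃ β : G → Fin k → ℚ, (∀ g h, β (g * h) = β g + β h + (1 / 2 : ℚ) • W.w g h) ∧
      ∀ g h, β ⁅g, h⁆ = W.w g h := by
  classical
  have hκ1 : κ 1 = 0 := by
    have := hκm 1 D.one_mem 1 D.one_mem
    rw [mul_one] at this
    simpa using this
  have hκi : ∀ d ∈ D, κ d⁻¹ = - κ d := by
    intro d hd
    have := hκm d⁻¹ (D.inv_mem hd) d hd
    rw [inv_mul_cancel, hκ1] at this
    exact eq_neg_of_add_eq_zero_left this.symm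
  let Q : Subgroup (Tw W) :=
    { carrier := {x | x.g ∈ D ∧ x.u = - κ x.g}
      mul_mem' := by
        rintro x y ⟨hx1, hx2⟩ ⟨hy1, hy2⟩
        refine ⟨D.mul_mem hx1 hy1, ?_⟩
        rw [Tw.mul_u, Tw.mul_g, hx2, hy2, hw _ hx1, hκm _ hx1 _ hy1]
        simp only [smul_zero, sub_zero]
        abel
      one_mem' := ⟨D.one_mem, by simp [hκ1]⟩
      inv_mem' := by
        rintro x ⟨hx1, hx2⟩
        exact ⟨D.inv_mem hx1, by rw [Tw.inv_u, Tw.inv_g, hκi _ hx1, hx2]⟩ }
  have hQ : commutator (Tw W) ≤ Q := by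
    rw [commutator_def, Subgroup.commutator_le]
    intro x _ y _
    rw [Tw.comm_eq]
    exact ⟨hD _ _, by rw [hκ]⟩
  let j : (Fin k → ℚ) →+ Additive (Abelianization (Tw W)) :=
    { toFun := fun v => Additive.ofMul (Abelianization.of (⟨1, v⟩ : Tw W))
      map_zero' := by
        rw [show (⟨1, 0⟩ : Tw W) = 1 from rfl, map_one]
        rfl
      map_add' := by
        intro v v'
        rw [← ofMul_mul, ← map_mul]
        congr 2
        refine Tw.ext ?_ ?_ <;> simp }
  have hj : Function.Injective j := by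
    rw [injective_iff_map_eq_zero]
    intro v hv
    have h1 : Abelianization.of (⟨1, v⟩ : Tw W) = 1 := Additive.ofMul.injective hv
    have h2 : (⟨1, v⟩ : Tw W) ∈ commutator (Tw W) := by
      rw [← Abelianization.ker_of]
      exact h1
    have h3 := (hQ h2).2
    simpa [hκ1] using h3
  obtain ⟨r, hr⟩ := (Module.Baer.of_divisible (Fin k → ℚ)).extension_property_addMonoidHom j hj
    (AddMonoidHom.id _)
  have hr' : ∀ v, r (j v) = v := fun v => DFunLike.congr_fun hr v
  let β : G → Fin k → ℚ := fun g => r (Additive.ofMul (Abelianization.of (⟨g, 0⟩ : Tw W)))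
  have hβ : ∀ g h, β (g * h) = β g + β h + (1 / 2 : ℚ) • W.w g h := by
    intro g h
    have h1 : (⟨g * h, 0⟩ : Tw W) = ⟨g, 0⟩ * ⟨h, 0⟩ * ⟨1, (1 / 2 : ℚ) • W.w g h⟩ := by
      refine Tw.ext ?_ ?_ <;> simp
    show r (Additive.ofMul (Abelianization.of (⟨g * h, 0⟩ : Tw W))) = _
    rw [h1, MonoidHom.map_mul, MonoidHom.map_mul, ofMul_mul, ofMul_mul, map_add, map_add]
    congr 1
    exact hr' _
  refine ⟨β, hβ, fun g h => ?_⟩
  have h1 : ⁅g, h⁆ * (h * g) = g * h := by
    rw [commutatorElement_def]
    group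
  have h2 := hβ ⁅g, h⁆ (h * g)
  rw [h1, hβ g h, hβ h g, hw _ (hD g h), W.anti g h] at h2
  have h3 : β ⁅g, h⁆ = β g + β h + (1 / 2 : ℚ) • W.w g h - (β h + β g + (1 / 2 : ℚ) • (-W.w g h)) := by
    rw [h2]
    simp
  rw [h3]
  funext t
  simp
  ring

/-! ## Commutators in a group of class at most two -/

section Class2

variable {G : Type u} [Group G] (hG : ∀ x y z : G, ⁅⁅x, y⁆, z⁆ = 1)

include hG in
theorem comm_central (x y z : G) : z * ⁅x, y⁆ = ⁅x, y⁆ * z := by
  have := hG x y z
  rw [commutatorElement_eq_one_iff_mul_comm] at this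
  exact this.symm

/-- The commutator as an element of the centre. -/
def cmm (x y : G) : Subgroup.center G :=
  ⟨⁅x, y⁆, Subgroup.mem_center_iff.mpr fun z => comm_central hG x y z⟩

@[simp] theorem cmm_coe (x y : G) : (cmm hG x y : G) = ⁅x, y⁆ := rfl

theorem cmm_mul_left (x y z : G) : cmm hG (x * y) z = cmm hG x z * cmm hG y z := by
  apply Subtype.ext
  rw [Subgroup.coe_mul, cmm_coe, cmm_coe, cmm_coe]
  have h1 : ⁅x * y, z⁆ = x * ⁅y, z⁆ * (z * x⁻¹ * z⁻¹) := by
    simp only [commutatorElement_def]
    group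
  rw [h1, comm_central hG y z x]
  have h2 : ⁅y, z⁆ * x * (z * x⁻¹ * z⁻¹) = ⁅y, z⁆ * ⁅x, z⁆ := by
    simp only [commutatorElement_def]
    group
  rw [h2, comm_central hG x z]

theorem cmm_mul_right (x y z : G) : cmm hG x (y * z) = cmm hG x y * cmm hG x z := by
  apply Subtype.ext
  rw [Subgroup.coe_mul, cmm_coe, cmm_coe, cmm_coe]
  have h1 : ⁅x, y * z⁆ = ⁅x, y⁆ * (y * ⁅x, z⁆ * y⁻¹) := by
    simp only [commutatorElement_def]
    group
  rw [h1, comm_central hG x z y]
  group

/-- The derived group, as a subgroup of the centre. -/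
def der : Subgroup (Subgroup.center G) :=
  Subgroup.closure (Set.range fun p : G × G => cmm hG p.1 p.2)

instance : CommGroup (der hG) :=
  { (inferInstance : Group (der hG)) with
    mul_comm := fun a b => Subtype.ext (Subtype.ext
      (Subgroup.mem_center_iff.mp b.1.2 (a.1 : G))) }

theorem cmm_mem (x y : G) : cmm hG x y ∈ der hG := Subgroup.subset_closure ⟨(x, y), rfl⟩

theorem der_fg [Group.FG G] : (der hG).FG := by
  classical
  obtain ⟨S, hS⟩ := (Group.fg_def (G := G)).mp inferInstance
  refine ⟨(S ×ˢ S).image (fun p : G × G => cmm hG p.1 p.2), ?_⟩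
  set K := Subgroup.closure
    (((S ×ˢ S).image (fun p : G × G => cmm hG p.1 p.2) : Finset _) : Set (Subgroup.center G))
    with hK
  have h0 : ∀ x ∈ S, ∀ y ∈ S, cmm hG x y ∈ K := by
    intro x hx y hy
    refine Subgroup.subset_closure ?_
    rw [Finset.coe_image]
    exact ⟨(x, y), by simp [hx, hy], rfl⟩
  let R : G → (G →* Subgroup.center G) := fun x =>
    MonoidHom.mk' (fun y => cmm hG x y) (cmm_mul_right hG x)
  let L : G → (G →* Subgroup.center G) := fun y =>
    MonoidHom.mk' (fun x => cmm hG x y) (fun a b => cmm_mul_left hG a b y)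
  have h1 : ∀ x ∈ S, ∀ y, cmm hG x y ∈ K := by
    intro x hx y
    have : (⊤ : Subgroup G) ≤ K.comap (R x) := by
      rw [← hS, Subgroup.closure_le]
      intro z hz
      exact h0 x hx z hz
    exact this (Subgroup.mem_top y)
  have h2 : ∀ x y, cmm hG x y ∈ K := by
    intro x y
    have : (⊤ : Subgroup G) ≤ K.comap (L y) := by
      rw [← hS, Subgroup.closure_le]
      intro z hz
      exact h1 z hz y
    exact this (Subgroup.mem_top x)
  apply le_antisymm
  · rw [hK, Subgroup.closure_le]
    intro z hz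
    rw [Finset.coe_image] at hz
    obtain ⟨p, _, rfl⟩ := hz
    exact cmm_mem hG _ _
  · rw [der, Subgroup.closure_le]
    rintro _ ⟨p, rfl⟩
    exact h2 _ _

theorem mem_der_of_mem_commutator {g : G} (hg : g ∈ commutator G) :
    ∃ d : der hG, ((d : Subgroup.center G) : G) = g := by
  have h : commutator G ≤ (der hG).map (Subgroup.center G).subtype := by
    rw [commutator_def, Subgroup.commutator_le]
    intro x _ y _
    exact ⟨cmm hG x y, cmm_mem hG x y, rfl⟩
  obtain ⟨z, hz, rfl⟩ := h hg
  exact ⟨⟨z, hz⟩, rfl⟩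

end Class2

end Struct

open Struct in
/-- Structure of f.g. groups of class at most two. -/
theorem exists_struct {G : Type*} [Group G] [Group.FG G] (hG : ∀ x y z : G, ⁅⁅x, y⁆, z⁆ = 1) :
    ∃ (m k : ℕ) (α : Form m k) (Φ : G →* Gam α ℤ) (s : Multiplicative (Fin k → ℤ) →* G)
      (c₀ c₁ c₂ : ℕ),
      α.Spanning ∧ Finite Φ.ker ∧ (∀ a : Fin m → ℤ, ∃ g, (Φ g).a = a) ∧
      0 < c₀ ∧ 0 < c₁ ∧ 0 < c₂ ∧
      (∀ b : Fin k → ℤ, Φ (s (Multiplicative.ofAdd b)) = Gam.ver α ((c₀ : ℤ) • b)) ∧
      (∀ x y : G, ⁅x, y⁆ ^ c₁ =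
        s (Multiplicative.ofAdd ((c₂ : ℤ) • α.ev (Φ x).a (Φ y).a))) := by
  classical
  -- the derived group
  have hfgD : Group.FG (der hG) := (Group.fg_iff_subgroup_fg _).mpr (der_fg hG)
  have : Module.Finite ℤ (Additive (der hG)) := Module.Finite.iff_addGroup_fg.mpr inferInstance
  obtain ⟨k, κ, σ, t', hκσ, ht', hκt, hκf⟩ := exists_split (Additive (der hG))
  -- the abelianization
  have hofs : Function.Surjective (Abelianization.of (G := G)) := fun x =>
    Quotient.inductionOn' x (fun g => ⟨g, rfl⟩)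
  have hfgA : Group.FG (Abelianization G) := Group.fg_of_surjective hofs
  have : Module.Finite ℤ (Additive (Abelianization G)) :=
    Module.Finite.iff_addGroup_fg.mpr inferInstance
  obtain ⟨m, κA, σA, tA, hA, htA, hAt, hAf⟩ := exists_split (Additive (Abelianization G))
  let τ : G → Fin m → ℤ := fun g => κA (Additive.ofMul (Abelianization.of g))
  have τmul : ∀ g h, τ (g * h) = τ g + τ h := by
    intro g h
    show κA (Additive.ofMul (Abelianization.of (g * h))) = _
    rw [MonoidHom.map_mul, ofMul_mul, map_add]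
  have τ1 : τ 1 = 0 := by
    have := τmul 1 1
    rw [mul_one] at this
    simpa using this
  have τinv : ∀ g, τ g⁻¹ = - τ g := by
    intro g
    have := τmul g⁻¹ g
    rw [inv_mul_cancel, τ1] at this
    exact eq_neg_of_add_eq_zero_left this.symm
  have τsurj : ∀ a, ∃ g, τ g = a := by
    intro a
    obtain ⟨g, hg⟩ := hofs (Additive.toMul (σA a))
    refine ⟨g, ?_⟩
    show κA (Additive.ofMul (Abelianization.of g)) = a
    rw [hg]
    exact hA a
  have derle : ∀ d : der hG, ((d : Subgroup.center G) : G) ∈ commutator G := by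
    have h : der hG ≤ (commutator G).comap (Subgroup.center G).subtype := by
      rw [der, Subgroup.closure_le]
      rintro _ ⟨p, rfl⟩
      exact Subgroup.commutator_mem_commutator (Subgroup.mem_top _) (Subgroup.mem_top _)
    intro d
    exact h d.2
  have τD : ∀ d : der hG, τ ((d : Subgroup.center G) : G) = 0 := by
    intro d
    have h1 : Abelianization.of ((d : Subgroup.center G) : G) = 1 := by
      have := derle d
      rw [← Abelianization.ker_of] at this
      exact this
    show κA (Additive.ofMul (Abelianization.of ((d : Subgroup.center G) : G))) = 0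
    rw [h1, ofMul_one, map_zero]
  have τtor : ∀ g, τ g = 0 → ∃ d : der hG, ((d : Subgroup.center G) : G) = g ^ tA := by
    intro g hg
    have h1 := hAt _ hg
    rw [← ofMul_pow, ← map_pow] at h1
    have h2 : Abelianization.of (g ^ tA) = 1 := Additive.ofMul.injective h1
    refine mem_der_of_mem_commutator hG ?_
    rw [← Abelianization.ker_of]
    exact h2
  -- the commutator form
  let w : G → G → Fin k → ℤ := fun g h => κ (Additive.ofMul ⟨cmm hG g h, cmm_mem hG g h⟩)
  have wml : ∀ x y z, w (x * y) z = w x z + w y z := by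
    intro x y z
    show κ _ = κ _ + κ _
    rw [← map_add, ← ofMul_mul]
    congr 2
    exact Subtype.ext (cmm_mul_left hG x y z)
  have wmr : ∀ x y z, w x (y * z) = w x y + w x z := by
    intro x y z
    show κ _ = κ _ + κ _
    rw [← map_add, ← ofMul_mul]
    congr 2
    exact Subtype.ext (cmm_mul_right hG x y z)
  have wof : ∀ x y, ⁅x, y⁆ = 1 → w x y = 0 := by
    intro x y h
    show κ _ = 0
    have h1 : (⟨cmm hG x y, cmm_mem hG x y⟩ : der hG) = 1 := by
      apply Subtype.ext
      apply Subtype.ext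
      exact h
    rw [h1, ofMul_one, map_zero]
  have walt : ∀ x, w x x = 0 := fun x => wof x x (commutatorElement_self x)
  have w1 : ∀ x, w 1 x = 0 := fun x => wof 1 x (commutatorElement_one_left x)
  have wpow : ∀ x y (n : ℕ), w (x ^ n) y = n • w x y := by
    intro x y n
    induction n with
    | zero => rw [pow_zero, zero_smul, w1]
    | succ n ih => rw [pow_succ, wml, ih, succ_nsmul]
  have wanti : ∀ x y, w y x = - w x y := by
    intro x y
    have := walt (x * y)
    rw [wml, wmr, wmr, walt, walt, zero_add, add_zero] at this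
    exact eq_neg_of_add_eq_zero_right this
  have wcen : ∀ (d : der hG) x, w ((d : Subgroup.center G) : G) x = 0 := by
    intro d x
    apply wof
    rw [commutatorElement_eq_one_iff_mul_comm]
    exact (Subgroup.mem_center_iff.mp (d : Subgroup.center G).2 x).symm
  have wτ0 : ∀ x y, τ x = 0 → w x y = 0 := by
    intro x y hx
    obtain ⟨d, hd⟩ := τtor x hx
    have h1 := wcen d y
    rw [hd, wpow] at h1
    exact (smul_eq_zero.mp h1).resolve_left htA.ne'
  have wτ : ∀ x x' y, τ x = τ x' → w x y = w x' y := by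
    intro x x' y h
    have h1 : w (x * x'⁻¹) y = 0 := wτ0 _ _ (by rw [τmul, τinv, h, add_neg_cancel])
    have h2 : w x y = w (x * x'⁻¹) y + w x' y := by
      rw [← wml, inv_mul_cancel_right]
    rw [h2, h1, zero_add]
  have wτ' : ∀ x y y', τ y = τ y' → w x y = w x y' := by
    intro x y y' h
    rw [wanti y x, wanti y' x, wτ y y' x h]
  choose ρ hρ using τsurj
  let c0 : Fin m → Fin m → Fin k → ℤ := fun i j =>
    w (ρ (Pi.single i 1)) (ρ (Pi.single j 1))
  -- bilinear expansion
  let L : G → ((Fin m → ℤ) →+ (Fin k → ℤ)) := fun x =>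
    AddMonoidHom.mk' (fun a => w x (ρ a)) (fun a b => by
      show w x (ρ (a + b)) = w x (ρ a) + w x (ρ b)
      rw [← wmr]
      apply wτ'
      rw [τmul, hρ, hρ, hρ])
  have hL : ∀ x y, w x y = ∑ j, τ y j • w x (ρ (Pi.single j 1)) := by
    intro x y
    have h1 : w x y = L x (τ y) := wτ' _ _ _ (hρ _).symm
    have h2 : τ y = ∑ j, τ y j • (Pi.single j (1 : ℤ) : Fin m → ℤ) := by
      funext t
      simp [Finset.sum_apply, Pi.single_apply]
    rw [h1]
    conv_lhs => rw [h2]
    rw [map_sum]
    refine Finset.sum_congr rfl fun j _ => ?_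
    rw [map_zsmul]
    rfl
  have hexp : ∀ x y t, w x y t = ∑ i, ∑ j, c0 i j t * τ x i * τ y j := by
    intro x y t
    rw [hL x y, Finset.sum_apply, Finset.sum_comm]
    refine Finset.sum_congr rfl fun j _ => ?_
    have h1 : w x (ρ (Pi.single j 1)) = ∑ i, τ x i • c0 i j := by
      rw [wanti (ρ (Pi.single j 1)) x, hL (ρ (Pi.single j 1)) x, ← Finset.sum_neg_distrib]
      refine Finset.sum_congr rfl fun i _ => ?_
      rw [← smul_neg, ← wanti]
    rw [h1, Pi.smul_apply, Finset.sum_apply, smul_eq_mul, Finset.mul_sum]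
    refine Finset.sum_congr rfl fun i _ => ?_
    rw [Pi.smul_apply, smul_eq_mul]
    ring
  -- Baer coordinates
  let Wq : Bil G k :=
    { w := fun x y t => (w x y t : ℚ)
      mul_left := fun x y z => by
        funext t
        rw [wml]
        simp
      mul_right := fun x y z => by
        funext t
        rw [wmr]
        simp
      alt := fun x => by
        funext t
        rw [walt]
        simp }
  have hcoeinj : ∀ d d' : der hG, ((d : Subgroup.center G) : G) = ((d' : Subgroup.center G) : G) →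
      d = d' := fun d d' h => Subtype.ext (Subtype.ext h)
  let κG : G → Fin k → ℚ := fun g =>
    if h : ∃ d : der hG, ((d : Subgroup.center G) : G) = g then
      fun t => (κ (Additive.ofMul h.choose) t : ℚ) else 0
  have hκG : ∀ d : der hG, κG ((d : Subgroup.center G) : G) =
      fun t => (κ (Additive.ofMul d) t : ℚ) := by
    intro d
    have h : ∃ d' : der hG, ((d' : Subgroup.center G) : G) = ((d : Subgroup.center G) : G) :=
      ⟨d, rfl⟩
    have h1 : h.choose = d := hcoeinj _ _ h.choose_spec
    show (if h : ∃ d' : der hG, ((d' : Subgroup.center G) : G) = ((d : Subgroup.center G) : G) then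
      fun t => (κ (Additive.ofMul h.choose) t : ℚ) else 0) = _
    rw [dif_pos h, h1]
  obtain ⟨β, hβm, hβc⟩ := exists_beta Wq ((der hG).map (Subgroup.center G).subtype) κG
    (fun g h => ⟨cmm hG g h, cmm_mem hG g h, rfl⟩)
    (fun g h => hκG ⟨cmm hG g h, cmm_mem hG g h⟩)
    (by
      rintro _ ⟨d, hd, rfl⟩ _ ⟨d', hd', rfl⟩
      have h1 := hκG ⟨d, hd⟩
      have h2 := hκG ⟨d', hd'⟩
      have h3 := hκG (⟨d, hd⟩ * ⟨d', hd'⟩)
      have h4 : κG ((Subgroup.center G).subtype d * (Subgroup.center G).subtype d') =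
          κG (((⟨d, hd⟩ * ⟨d', hd'⟩ : der hG) : Subgroup.center G) : G) := rfl
      rw [h4, h3]
      show _ = κG d + κG d'
      rw [show κG (d : G) = _ from h1, show κG (d' : G) = _ from h2]
      funext t
      rw [ofMul_mul, map_add]
      simp)
    (by
      rintro _ ⟨d, hd, rfl⟩ g
      have := wcen ⟨d, hd⟩ g
      funext t
      show ((w (d : G) g t : ℤ) : ℚ) = 0
      rw [show w (d : G) g = 0 from this]
      simp)
  have hβm' : ∀ g h t, β (g * h) t = β g t + β h t + (1 / 2 : ℚ) * (w g h t : ℚ) := by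
    intro g h t
    rw [hβm]
    rfl
  have hβ1 : ∀ t, β 1 t = 0 := by
    intro t
    have := hβm' 1 1 t
    rw [mul_one, w1] at this
    simpa using this
  have hβD : ∀ d : der hG, ∀ t, β ((d : Subgroup.center G) : G) t =
      (κ (Additive.ofMul d) t : ℚ) := by
    let f : der hG →* Multiplicative (Fin k → ℚ) :=
      { toFun := fun d => Multiplicative.ofAdd (fun t => β ((d : Subgroup.center G) : G) t -
          (κ (Additive.ofMul d) t : ℚ))
        map_one' := by
          rw [← ofAdd_zero]
          congr 1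
          funext t
          rw [ofMul_one, map_zero]
          simp [hβ1]
        map_mul' := by
          intro d d'
          rw [← ofAdd_add]
          congr 1
          funext t
          rw [ofMul_mul, map_add, Subgroup.coe_mul, Subgroup.coe_mul, hβm', wcen]
          simp
          ring }
    have hf : ∀ d : der hG, f d = 1 := by
      intro d
      obtain ⟨d, hd⟩ := d
      refine Subgroup.closure_induction (p := fun x hx => f ⟨x, hx⟩ = 1) ?_ ?_ ?_ ?_ hd
      · rintro _ ⟨⟨x, y⟩, rfl⟩
        show Multiplicative.ofAdd _ = Multiplicative.ofAdd 0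
        congr 1
        funext t
        have h1 := congrFun (hβc x y) t
        show β ⁅x, y⁆ t - (w x y t : ℚ) = 0
        rw [h1]
        show (w x y t : ℚ) - (w x y t : ℚ) = 0
        ring
      · exact f.map_one
      · intro x y hx hy h1 h2
        have := f.map_mul ⟨x, hx⟩ ⟨y, hy⟩
        rw [h1, h2, mul_one] at this
        exact this
      · intro x hx h1
        have := f.map_inv ⟨x, hx⟩
        rw [h1, inv_one] at this
        exact this
    intro d t
    have h1 : (fun t => β ((d : Subgroup.center G) : G) t -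
          (κ (Additive.ofMul d) t : ℚ)) = 0 := Multiplicative.ofAdd.injective (hf d)
    have h2 := congrFun h1 t
    simp only [Pi.zero_apply] at h2
    linarith
  -- integrality
  obtain ⟨S, hS⟩ := (Group.fg_def (G := G)).mp inferInstance
  let q : ℕ := ∏ x ∈ S, ∏ t, (β x t).den
  have hq : 0 < q := Finset.prod_pos fun x _ => Finset.prod_pos fun t _ => (β x t).den_pos
  have hqS : ∀ x ∈ S, ∀ t, ∃ n : ℤ, (n : ℚ) = q * β x t := by
    intro x hx t
    have h1 : (β x t).den ∣ q :=
      (Finset.dvd_prod_of_mem (fun t => (β x t).den) (Finset.mem_univ t)).trans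
        (Finset.dvd_prod_of_mem (fun x => ∏ t, (β x t).den) hx)
    obtain ⟨c, hc⟩ := h1
    refine ⟨c * (β x t).num, ?_⟩
    rw [hc]
    push_cast
    have h2 : ((β x t).den : ℚ) * β x t = (β x t).num := by
      rw [mul_comm]
      exact Rat.mul_den_eq_num (β x t)
    rw [mul_comm ((β x t).den : ℚ) (c : ℚ), mul_assoc, h2]
  have hint : ∀ g t, ∃ n : ℤ, (n : ℚ) = 2 * q * β g t := by
    let H : Subgroup G :=
      { carrier := {g | ∀ t, ∃ n : ℤ, (n : ℚ) = 2 * q * β g t}
        mul_mem' := by
          intro a b ha hb t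
          obtain ⟨n1, h1⟩ := ha t
          obtain ⟨n2, h2⟩ := hb t
          refine ⟨n1 + n2 + q * w a b t, ?_⟩
          rw [hβm']
          push_cast
          rw [h1, h2]
          ring
        one_mem' := fun t => ⟨0, by rw [hβ1]; simp⟩
        inv_mem' := by
          intro a ha t
          obtain ⟨n1, h1⟩ := ha t
          refine ⟨-n1, ?_⟩
          have h2 := hβm' a⁻¹ a t
          have h3 : w a⁻¹ a t = 0 := by
            have := wml a⁻¹ a a
            rw [inv_mul_cancel, w1, walt, add_zero] at this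
            rw [← this]
            rfl
          rw [inv_mul_cancel, hβ1, h3] at h2
          push_cast
          rw [h1]
          have h4 : β a⁻¹ t = - β a t := by
            simp only [Int.cast_zero, mul_zero, add_zero] at h2
            linarith
          rw [h4]
          ring }
    intro g
    have : (⊤ : Subgroup G) ≤ H := by
      rw [← hS, Subgroup.closure_le]
      intro x hx t
      obtain ⟨n, hn⟩ := hqS x hx t
      refine ⟨2 * n, ?_⟩
      push_cast
      rw [hn]
      ring
    exact this (Subgroup.mem_top g)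
  choose B hB using hint
  -- the form
  let α : Form m k :=
    { c := fun i j t => q * c0 i j t
      anti := fun i j t => by
        show (q : ℤ) * w _ _ t = -(q * w _ _ t)
        rw [wanti (ρ (Pi.single j 1)) (ρ (Pi.single i 1))]
        simp }
  have hαev : ∀ x y, α.ev (τ x) (τ y) = (q : ℤ) • w x y := by
    intro x y
    funext t
    rw [Form.ev_apply, Pi.smul_apply, hexp, smul_eq_mul, Finset.mul_sum]
    refine Finset.sum_congr rfl fun i _ => ?_
    rw [Finset.mul_sum]
    refine Finset.sum_congr rfl fun j _ => ?_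
    show (((q : ℤ) * c0 i j t : ℤ) : ℤ) * τ x i * τ y j = _
    ring
  let Φ : G →* Gam α ℤ := MonoidHom.mk' (fun g => ⟨τ g, B g⟩) (fun g h => by
    refine Gam.ext (τmul g h) ?_
    show B (g * h) = B g + B h + α.ev (τ g) (τ h)
    rw [hαev]
    funext t
    have h1 := hB (g * h) t
    rw [hβm'] at h1
    have h2 := hB g t
    have h3 := hB h t
    have h4 : ((B (g * h) t : ℤ) : ℚ) = ((B g t + B h t + (q : ℤ) * w g h t : ℤ) : ℚ) := by
      rw [h1]
      push_cast
      rw [h2, h3]
      ring
    exact_mod_cast h4)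
  let s : Multiplicative (Fin k → ℤ) →* G := MonoidHom.mk'
    (fun b => (((Additive.toMul (σ (Multiplicative.toAdd b)) : der hG) : Subgroup.center G) : G))
    (fun a b => by
      rw [toAdd_mul, map_add, toMul_add]
      rfl)
  have hΦD : ∀ d : der hG, Φ ((d : Subgroup.center G) : G) =
      Gam.ver α ((2 * q : ℤ) • κ (Additive.ofMul d)) := by
    intro d
    refine Gam.ext (τD d) ?_
    show B ((d : Subgroup.center G) : G) = (2 * q : ℤ) • κ (Additive.ofMul d)
    funext t
    have h1 := hB ((d : Subgroup.center G) : G) t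
    rw [hβD] at h1
    rw [Pi.smul_apply, smul_eq_mul]
    exact_mod_cast h1
  refine ⟨m, k, α, Φ, s, 2 * q, t' * q, t', ?_, ?_, ?_, by positivity, by positivity, ht', ?_, ?_⟩
  · -- spanning
    show Submodule.span ℚ (Set.range fun p : Fin m × Fin m => fun t => (α.c p.1 p.2 t : ℚ)) = ⊤
    set V := Submodule.span ℚ (Set.range fun p : Fin m × Fin m => fun t => (α.c p.1 p.2 t : ℚ))
      with hV
    have hq' : (q : ℚ) ≠ 0 := by exact_mod_cast hq.ne'
    have hwV : ∀ x y, (fun t => (w x y t : ℚ)) ∈ V := by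
      intro x y
      have h1 : (fun t => (w x y t : ℚ)) = ∑ i, ∑ j,
          (((q : ℚ)⁻¹ * τ x i * τ y j) • fun t => (α.c i j t : ℚ)) := by
        funext t
        rw [hexp, Finset.sum_apply]
        push_cast
        refine Finset.sum_congr rfl fun i _ => ?_
        rw [Finset.sum_apply]
        refine Finset.sum_congr rfl fun j _ => ?_
        rw [Pi.smul_apply, smul_eq_mul]
        show (c0 i j t : ℚ) * τ x i * τ y j = (q : ℚ)⁻¹ * τ x i * τ y j * (((q : ℤ) * c0 i j t : ℤ) : ℚ)
        push_cast
        field_simp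
      rw [h1]
      refine Submodule.sum_mem _ fun i _ => Submodule.sum_mem _ fun j _ => ?_
      exact Submodule.smul_mem _ _ (Submodule.subset_span ⟨(i, j), rfl⟩)
    have hκV : ∀ d : der hG, (fun t => (κ (Additive.ofMul d) t : ℚ)) ∈ V := by
      rintro ⟨d, hd⟩
      refine Subgroup.closure_induction
        (p := fun x hx => (fun t => (κ (Additive.ofMul (⟨x, hx⟩ : der hG)) t : ℚ)) ∈ V)
        ?_ ?_ ?_ ?_ hd
      · rintro _ ⟨⟨x, y⟩, rfl⟩
        exact hwV x y
      · have : (fun t => (κ (Additive.ofMul (1 : der hG)) t : ℚ)) = 0 := by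
          funext t
          rw [ofMul_one, map_zero]
          simp
        show (fun t => (κ (Additive.ofMul (1 : der hG)) t : ℚ)) ∈ V
        rw [this]
        exact V.zero_mem
      · intro x y hx hy h1 h2
        have h3 := V.add_mem h1 h2
        have h4 : (fun t => (κ (Additive.ofMul ((⟨x, hx⟩ : der hG) * ⟨y, hy⟩)) t : ℚ)) =
            (fun t => (κ (Additive.ofMul (⟨x, hx⟩ : der hG)) t : ℚ)) +
            (fun t => (κ (Additive.ofMul (⟨y, hy⟩ : der hG)) t : ℚ)) := by
          funext t
          rw [ofMul_mul, map_add]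
          simp
        rw [← h4] at h3
        exact h3
      · intro x hx h1
        have h3 := V.neg_mem h1
        have h4 : (fun t => (κ (Additive.ofMul ((⟨x, hx⟩ : der hG)⁻¹)) t : ℚ)) =
            -(fun t => (κ (Additive.ofMul (⟨x, hx⟩ : der hG)) t : ℚ)) := by
          funext t
          rw [ofMul_inv, map_neg]
          simp
        rw [← h4] at h3
        exact h3
    rw [eq_top_iff]
    intro v _
    have h1 : v = ∑ t, v t • (fun u => (κ (σ (Pi.single t 1)) u : ℚ)) := by
      funext u
      rw [Finset.sum_apply]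
      simp only [hκσ, Pi.smul_apply, smul_eq_mul, Pi.single_apply]
      simp
    rw [h1]
    refine Submodule.sum_mem _ fun t _ => Submodule.smul_mem _ _ ?_
    exact hκV (Additive.toMul (σ (Pi.single t 1)))
  · -- finite kernel
    let f : Φ.ker →* Abelianization G := (Abelianization.of (G := G)).comp Φ.ker.subtype
    refine (f.finite_iff_finite_ker_range).mpr ⟨?_, ?_⟩
    · -- the kernel of `f` embeds in the kernel of `κ`
      have h1 : ∀ x : f.ker, ∃ d : der hG, ((d : Subgroup.center G) : G) = ((x : Φ.ker) : G) ∧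
          κ (Additive.ofMul d) = 0 := by
        rintro ⟨⟨x, hx⟩, hx'⟩
        have h2 : x ∈ commutator G := by
          rw [← Abelianization.ker_of]
          exact hx'
        obtain ⟨d, hd⟩ := mem_der_of_mem_commutator hG h2
        refine ⟨d, hd, ?_⟩
        have h3 := hΦD d
        rw [hd, show Φ x = 1 from hx] at h3
        have h4 : (0 : Fin k → ℤ) = (2 * q : ℤ) • κ (Additive.ofMul d) := congrArg Gam.b h3
        have h5 : (2 * q : ℤ) ≠ 0 := by positivity
        exact (smul_eq_zero.mp h4.symm).resolve_left h5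
      choose d hd hd' using h1
      have : Finite {x | κ x = 0} := hκf
      refine Finite.of_injective (fun x : f.ker =>
        (⟨Additive.ofMul (d x), hd' x⟩ : {x | κ x = 0})) ?_
      intro x y hxy
      have h2 : d x = d y := Additive.ofMul.injective (congrArg Subtype.val hxy)
      apply Subtype.ext
      apply Subtype.ext
      rw [← hd x, ← hd y, h2]
    · have : Finite {x | κA x = 0} := hAf
      refine Finite.of_injective (β := {x | κA x = 0}) (fun y => ⟨Additive.ofMul (y : Abelianization G), ?_⟩) ?_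
      · obtain ⟨y, ⟨⟨x, hx⟩, rfl⟩⟩ := y
        show τ x = 0
        have : Φ x = 1 := hx
        exact congrArg Gam.a this
      · intro x y hxy
        apply Subtype.ext
        have h1 := congrArg (fun z : {x | κA x = 0} => Additive.toMul z.1) hxy
        exact h1
  · intro a
    exact ⟨ρ a, hρ a⟩
  · intro b
    show Φ (((Additive.toMul (σ b) : der hG) : Subgroup.center G) : G) = _
    rw [hΦD]
    congr 1
    rw [ofMul_toMul, hκσ]
    push_cast
    rfl
  · intro x y
    have h1 : (Φ x).a = τ x := rfl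
    have h2 : (Φ y).a = τ y := rfl
    rw [h1, h2, hαev]
    set c : Additive (der hG) := Additive.ofMul ⟨cmm hG x y, cmm_mem hG x y⟩ with hc
    have h3 : w x y = κ c := rfl
    have h4 : κ (c - σ (κ c)) = 0 := by
      rw [map_sub, hκσ, sub_self]
    have h5 := hκt _ h4
    have h6 : t' • c = t' • σ (κ c) := by
      rw [smul_sub, sub_eq_zero] at h5
      exact h5
    have h7 : (t' * q) • c = σ ((t' : ℤ) • (q : ℤ) • w x y) := by
      rw [h3, map_zsmul, map_zsmul, mul_comm t' q, mul_smul, h6]
      simp only [natCast_zsmul]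
      rw [smul_comm]
    have h8 : ⁅x, y⁆ ^ (t' * q) =
        (((Additive.toMul ((t' * q) • c) : der hG) : Subgroup.center G) : G) := rfl
    rw [h8, h7]
    rfl

end Pool.Agent.MPf60e8a
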