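import Mathlib
import Pool.Agent.Lib.MP_f60e8a_al.Stmts

/-!
# Upper bound for the residual finiteness growth
-/

open scoped BigOperators commutatorElement

namespace Pool.Agent.MPf60e8a

namespace Upper

variable {m k : ℕ} (α : Form m k)

theorem sum_ev {R : Type*} [CommRing R] (l : Fin k → R) (u v : Fin m → R) :
    ∑ t, l t * α.ev u v t = ∑ j, Matrix.vecMul u (α.mat l) j * v j := by
  have h1 : ∑ t, l t * α.ev u v t = ∑ t, ∑ i, ∑ j, l t * ((α.c i j t : R) * u i * v j) := by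
    refine Finset.sum_congr rfl fun t _ => ?_
    rw [Form.ev_apply, Finset.mul_sum]
    refine Finset.sum_congr rfl fun i _ => ?_
    rw [Finset.mul_sum]
  have h2 : ∑ j, Matrix.vecMul u (α.mat l) j * v j
      = ∑ j, ∑ i, ∑ t, l t * ((α.c i j t : R) * u i * v j) := by
    refine Finset.sum_congr rfl fun j _ => ?_
    rw [Matrix.vecMul, dotProduct, Finset.sum_mul]
    refine Finset.sum_congr rfl fun i _ => ?_
    rw [Form.mat, Finset.mul_sum, Finset.sum_mul]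
    refine Finset.sum_congr rfl fun t _ => ?_
    ring
  rw [h1, h2, Finset.sum_comm]
  conv_rhs => rw [Finset.sum_comm]
  refine Finset.sum_congr rfl fun i _ => ?_
  rw [Finset.sum_comm]

/-- The kernel of a functional on the centre together with its radical. -/
def lsub {p : ℕ} (l : Fin k → ZMod p) : Subgroup (Gam α (ZMod p)) where
  carrier := {x | Matrix.vecMul x.a (α.mat l) = 0 ∧ ∑ t, l t * x.b t = 0}
  mul_mem' := by
    rintro x y ⟨hx1, hx2⟩ ⟨hy1, hy2⟩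
    refine ⟨?_, ?_⟩
    · rw [Gam.mul_a, Matrix.add_vecMul, hx1, hy1, add_zero]
    · have h := sum_ev α l x.a y.a
      rw [hx1] at h
      simp only [Pi.zero_apply, zero_mul, Finset.sum_const_zero] at h
      simp only [Gam.mul_b, Pi.add_apply, mul_add, Finset.sum_add_distrib]
      rw [hx2, hy2, h]
      simp
  one_mem' := by
    refine ⟨?_, ?_⟩
    · rw [Gam.one_a, Matrix.zero_vecMul]
    · simp
  inv_mem' := by
    rintro x ⟨hx1, hx2⟩
    refine ⟨?_, ?_⟩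
    · rw [Gam.inv_a, Matrix.neg_vecMul, hx1, neg_zero]
    · simp only [Gam.inv_b, Pi.neg_apply, mul_neg, Finset.sum_neg_distrib]
      rw [hx2, neg_zero]

theorem mem_lsub {p : ℕ} (l : Fin k → ZMod p) (x : Gam α (ZMod p)) :
    x ∈ lsub α l ↔ Matrix.vecMul x.a (α.mat l) = 0 ∧ ∑ t, l t * x.b t = 0 := Iff.rfl

theorem lsub_normal {p : ℕ} (l : Fin k → ZMod p) : (lsub α l).Normal := by
  refine ⟨?_⟩
  rintro x ⟨hx1, hx2⟩ y
  rw [mem_lsub]
  have hb : (y * x * y⁻¹).b = x.b - (α.ev x.a y.a + α.ev x.a y.a) := by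
    simp only [Gam.mul_b, Gam.mul_a, Gam.inv_b, Gam.inv_a, Form.ev_neg_right, Form.ev_add_left,
      Form.ev_self]
    rw [α.ev_anti y.a x.a]
    abel
  have ha : (y * x * y⁻¹).a = x.a := by
    simp only [Gam.mul_a, Gam.inv_a]
    abel
  have h := sum_ev α l x.a y.a
  rw [hx1] at h
  simp only [Pi.zero_apply, zero_mul, Finset.sum_const_zero] at h
  refine ⟨by rw [ha, hx1], ?_⟩
  rw [hb]
  simp only [Pi.sub_apply, Pi.add_apply, mul_sub, mul_add, Finset.sum_sub_distrib,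
    Finset.sum_add_distrib]
  rw [h, hx2]
  simp

theorem index_le_of {H : Type*} [Group H] (N : Subgroup H) {X : Type*} [Finite X] (f : H → X)
    (hf : ∀ x y, f x = f y → x⁻¹ * y ∈ N) : N.index ≠ 0 ∧ N.index ≤ Nat.card X := by
  have hinj : Function.Injective (fun q : H ⧸ N => f q.out) := by
    intro q1 q2 h
    have h2 := hf _ _ h
    rw [← QuotientGroup.out_eq' q1, ← QuotientGroup.out_eq' q2]
    exact QuotientGroup.eq.mpr h2
  have : Finite (H ⧸ N) := Finite.of_injective _ hinj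
  exact ⟨Nat.card_pos.ne', Nat.card_le_card_of_injective _ hinj⟩

theorem lsub_index {p : ℕ} [Fact p.Prime] (l : Fin k → ZMod p) :
    (lsub α l).index ≠ 0 ∧ (lsub α l).index ≤ p ^ ((α.mat l).rank + 1) := by
  classical
  let V := LinearMap.range (Matrix.vecMulLinear (α.mat l))
  have hV : Nat.card V = p ^ (α.mat l).rank := by
    have h1 : Nat.card V = Nat.card (ZMod p) ^ Module.finrank (ZMod p) V :=
      Module.natCard_eq_pow_finrank
    have h2 : Module.finrank (ZMod p) V = (α.mat l).rank := by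
      rw [← Matrix.rank_transpose]
      unfold Matrix.rank
      rw [Matrix.mulVecLin_transpose]
    rw [h1, h2, Nat.card_zmod]
  have key := index_le_of (lsub α l) (X := V × ZMod p)
    (fun x => (⟨Matrix.vecMulLinear (α.mat l) x.a, LinearMap.mem_range_self _ _⟩,
      ∑ t, l t * x.b t)) (by
      intro x y h
      rw [Prod.mk.injEq, Subtype.mk.injEq] at h
      obtain ⟨h1, h2⟩ := h
      rw [Matrix.vecMulLinear_apply, Matrix.vecMulLinear_apply] at h1
      rw [mem_lsub]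
      refine ⟨?_, ?_⟩
      · rw [Gam.mul_a, Gam.inv_a, Matrix.add_vecMul, Matrix.neg_vecMul, h1, neg_add_cancel]
      · have h3 := sum_ev α l x.a y.a
        rw [h1, ← sum_ev α l y.a y.a, Form.ev_self] at h3
        simp only [Pi.zero_apply, mul_zero, Finset.sum_const_zero] at h3
        simp only [Gam.mul_b, Gam.inv_b, Gam.inv_a, Form.ev_neg_left, Pi.add_apply,
          Pi.neg_apply, mul_add, mul_neg, Finset.sum_add_distrib, Finset.sum_neg_distrib]
        rw [h3, h2]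
        simp)
  refine ⟨key.1, key.2.trans ?_⟩
  rw [Nat.card_prod, hV, Nat.card_zmod, pow_succ]

theorem exists_sub {G : Type*} [Group G] {H : Type*} [Group H] (Ψ : G →* H) (N : Subgroup H)
    (hN : N.Normal) {B : ℕ} (h0 : N.index ≠ 0) (hB : N.index ≤ B) {g : G} (hg : Ψ g ∉ N) :
    ∃ N' : Subgroup G, N'.Normal ∧ N'.index ≠ 0 ∧ g ∉ N' ∧ N'.index ≤ B := by
  have hd : (N.comap Ψ).index ∣ N.index := by
    rw [Subgroup.index_comap]
    exact Subgroup.relIndex_dvd_index_of_normal N _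
  refine ⟨N.comap Ψ, hN.comap Ψ, ?_, ?_, ?_⟩
  · intro h
    rw [h] at hd
    exact h0 (Nat.eq_zero_of_zero_dvd hd)
  · exact hg
  · exact (Nat.le_of_dvd (Nat.pos_of_ne_zero h0) hd).trans hB

/-- The reduction modulo `p`. -/
def red {G : Type*} [Group G] (Φ : G →* Gam α ℤ) (p : ℕ) : G →* Gam α (ZMod p) :=
  (Gam.map α (Int.castRingHom (ZMod p))).comp Φ

theorem exists_vert {G : Type*} [Group G] (Φ : G →* Gam α ℤ) {p : ℕ} (hp : p.Prime)
    (hgood : GoodPrime α p) (g : G) (t : Fin k) (ht : ¬ ((p : ℤ) ∣ (Φ g).b t)) :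
    ∃ N' : Subgroup G, N'.Normal ∧ N'.index ≠ 0 ∧ g ∉ N' ∧ N'.index ≤ p ^ (α.rho + 1) := by
  have : Fact p.Prime := ⟨hp⟩
  obtain ⟨Λ, h1, h2⟩ := hgood
  have hb : (fun s => (((Φ g).b s : ℤ) : ZMod p)) ≠ 0 := by
    intro h
    apply ht
    have h3 := congrFun h t
    rw [Pi.zero_apply] at h3
    exact (ZMod.intCast_zmod_eq_zero_iff_dvd _ p).mp h3
  obtain ⟨i, hi⟩ := h1 _ hb
  have h3 := lsub_index α (Λ i)
  have h4 : p ^ ((α.mat (Λ i)).rank + 1) ≤ p ^ (α.rho + 1) :=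
    Nat.pow_le_pow_right hp.pos (Nat.add_le_add_right (h2 i) 1)
  refine exists_sub (red α Φ p) (lsub α (Λ i)) (lsub_normal α _) h3.1 (h3.2.trans h4) ?_
  rintro ⟨_, h5⟩
  exact hi h5

theorem exists_hor {G : Type*} [Group G] (Φ : G →* Gam α ℤ) {p : ℕ} (hp : p.Prime)
    (g : G) (i : Fin m) (hi : ¬ ((p : ℤ) ∣ (Φ g).a i)) :
    ∃ N' : Subgroup G, N'.Normal ∧ N'.index ≠ 0 ∧ g ∉ N' ∧ N'.index ≤ p ^ (α.rho + 1) := by
  have : Fact p.Prime := ⟨hp⟩
  let Ψ : G →* Multiplicative (ZMod p) :=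
    { toFun := fun x => Multiplicative.ofAdd (((Φ x).a i : ℤ) : ZMod p)
      map_one' := by simp
      map_mul' := by
        intro x y
        rw [map_mul, Gam.mul_a, Pi.add_apply, Int.cast_add, ofAdd_add] }
  have h3 := index_le_of (⊥ : Subgroup (Multiplicative (ZMod p))) (X := ZMod p)
    (fun x => Multiplicative.toAdd x) (by
      intro x y h
      have h4 : x = y := Multiplicative.toAdd.injective h
      rw [h4, inv_mul_cancel]
      exact Subgroup.one_mem _)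
  rw [Nat.card_zmod] at h3
  refine exists_sub Ψ ⊥ inferInstance h3.1 (h3.2.trans ?_) ?_
  · exact Nat.le_self_pow (Nat.succ_ne_zero _) p
  · intro h
    apply hi
    rw [Subgroup.mem_bot] at h
    have h4 : (((Φ g).a i : ℤ) : ZMod p) = 0 := Multiplicative.ofAdd.injective h
    exact (ZMod.intCast_zmod_eq_zero_iff_dvd _ p).mp h4

theorem exists_good_prime {good : ℕ → Prop} (h : PosDensity good) (A : ℝ) :
    ∃ C : ℝ, 0 < C ∧ ∀ n : ℕ, 1 ≤ n → ∀ z : ℤ, z ≠ 0 → |(z : ℝ)| ≤ A * (n : ℝ) ^ 2 →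
      ∃ p : ℕ, p.Prime ∧ good p ∧ (p : ℝ) ≤ C * (1 + Real.log n) ∧ ¬ ((p : ℤ) ∣ z) := by
  classical
  obtain ⟨c, x₀, hc, hx⟩ := h
  have hA' : 1 ≤ max A 1 := le_max_right _ _
  have hlA : 0 ≤ Real.log (max A 1) := Real.log_nonneg hA'
  refine ⟨max x₀ 0 + (Real.log (max A 1) + 2) / c + 1, by positivity, ?_⟩
  intro n hn z hz hzA
  by_contra hcon
  push Not at hcon
  set C := max x₀ 0 + (Real.log (max A 1) + 2) / c + 1 with hC
  have hn' : (1 : ℝ) ≤ n := by exact_mod_cast hn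
  have hln : 0 ≤ Real.log n := Real.log_nonneg hn'
  set x := C * (1 + Real.log n) with hxdef
  have hCx₀ : x₀ ≤ C := by
    have h1 := le_max_left x₀ 0
    have h2 : 0 ≤ (Real.log (max A 1) + 2) / c := by positivity
    linarith
  have hC0 : 0 < C := by positivity
  have hxC : C ≤ x := by
    rw [hxdef]
    nlinarith
  have hsum := hx x (hCx₀.trans hxC)
  have hx0 : 0 ≤ x := by linarith
  set s := (Finset.range (⌊x⌋₊ + 1)).filter (fun p => p.Prime ∧ good p) with hs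
  have hdvd : ∏ p ∈ s, (p : ℤ) ∣ z := by
    have h1 : ∏ p ∈ s, p ∣ z.natAbs := by
      refine Finset.prod_primes_dvd _ ?_ ?_
      · intro p hp
        rw [hs, Finset.mem_filter] at hp
        exact hp.2.1.prime
      · intro p hp
        rw [hs, Finset.mem_filter, Finset.mem_range] at hp
        have h2 : (p : ℝ) ≤ x := by
          have h3 : p ≤ ⌊x⌋₊ := by omega
          exact (Nat.le_floor_iff hx0).mp h3
        have h3 := hcon p hp.2.1 hp.2.2 h2
        exact Int.natCast_dvd.mp h3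
    have h2 := Int.natCast_dvd.mpr h1
    push_cast at h2
    exact h2
  have hle : Real.log (∏ p ∈ s, (p : ℝ)) ≤ Real.log |(z : ℝ)| := by
    refine Real.log_le_log ?_ ?_
    · refine Finset.prod_pos fun p hp => ?_
      rw [hs, Finset.mem_filter] at hp
      exact_mod_cast hp.2.1.pos
    · have h1 := Int.le_of_dvd (abs_pos.mpr hz) ((dvd_abs _ _).mpr hdvd)
      have h2 : ((∏ p ∈ s, (p : ℤ) : ℤ) : ℝ) ≤ ((|z| : ℤ) : ℝ) := by exact_mod_cast h1
      rw [Int.cast_prod, Int.cast_abs] at h2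
      simpa using h2
  have hlogprod : Real.log (∏ p ∈ s, (p : ℝ)) = ∑ p ∈ s, Real.log p := by
    refine Real.log_prod ?_
    intro p hp
    rw [hs, Finset.mem_filter] at hp
    exact_mod_cast hp.2.1.pos.ne'
  have hzpos : 0 < |(z : ℝ)| := abs_pos.mpr (by exact_mod_cast hz)
  have hzlog : Real.log |(z : ℝ)| ≤ Real.log (max A 1) + 2 * Real.log n := by
    have h1 : |(z : ℝ)| ≤ max A 1 * (n : ℝ) ^ 2 := by
      refine hzA.trans ?_
      gcongr
      exact le_max_left _ _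
    refine (Real.log_le_log hzpos h1).trans ?_
    rw [Real.log_mul (by positivity) (by positivity), Real.log_pow]
    push_cast
    exact le_rfl
  have hfin : c * x ≤ Real.log (max A 1) + 2 * Real.log n := by
    have h1 : ∑ p ∈ s, Real.log (p : ℝ) ≤ Real.log (max A 1) + 2 * Real.log n := by
      rw [← hlogprod]
      exact hle.trans hzlog
    exact hsum.trans h1
  have hcC : Real.log (max A 1) + 2 + c ≤ c * C := by
    rw [hC, mul_add, mul_add, mul_div_cancel₀ _ hc.ne', mul_one]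
    have : 0 ≤ c * max x₀ 0 := by
      have := le_max_right x₀ 0
      positivity
    linarith
  have hlow : (Real.log (max A 1) + 2 + c) * (1 + Real.log n) ≤ c * x := by
    rw [hxdef, ← mul_assoc]
    gcongr
  nlinarith [mul_nonneg hlA hln, mul_nonneg hc.le hln]

theorem main {G : Type*} [Group G] {S : Finset G}
    (hS : Subgroup.closure (S : Set G) = ⊤)
    (hgood : PosDensity (GoodPrime α)) (Φ : G →* Gam α ℤ) :
    ∃ C : ℝ, 0 < C ∧ ∀ n : ℕ, 1 ≤ n → ∀ g : G, wordLen S g ≤ n → Φ g ≠ 1 →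
      ∃ N : Subgroup G, N.Normal ∧ N.index ≠ 0 ∧ g ∉ N ∧
        (N.index : ℝ) ≤ C * (1 + Real.log n) ^ (α.rho + 1) := by
  obtain ⟨C₁, hC₁, hN⟩ := exists_le_mul_wordLen hS
    (fun g => Gam.nrm (Gam.toReal α (Φ g))) (by simp)
    (by
      intro x y
      show Gam.nrm (Gam.toReal α (Φ (x * y))) ≤ _
      rw [map_mul, map_mul]
      exact Gam.nrm_mul_le _ _)
    (by
      intro x
      show Gam.nrm (Gam.toReal α (Φ x⁻¹)) = _
      rw [map_inv, map_inv, Gam.nrm_inv])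
  have hbd := α.bd_pos
  obtain ⟨C₂, hC₂, hp⟩ := exists_good_prime hgood (C₁ + α.bd * C₁ ^ 2)
  refine ⟨C₂ ^ (α.rho + 1), by positivity, ?_⟩
  intro n hn g hg hΦ
  have hn' : (1 : ℝ) ≤ n := by exact_mod_cast hn
  have hnrm : Gam.nrm (Gam.toReal α (Φ g)) ≤ C₁ * n := by
    refine (hN g).trans ?_
    have : (wordLen S g : ℝ) ≤ n := by exact_mod_cast hg
    gcongr
  have hnn : (n : ℝ) ≤ (n : ℝ) ^ 2 := by nlinarith
  have fin : ∀ p : ℕ, (p : ℝ) ≤ C₂ * (1 + Real.log n) →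
      (∃ N' : Subgroup G, N'.Normal ∧ N'.index ≠ 0 ∧ g ∉ N' ∧ N'.index ≤ p ^ (α.rho + 1)) →
      ∃ N : Subgroup G, N.Normal ∧ N.index ≠ 0 ∧ g ∉ N ∧
        (N.index : ℝ) ≤ C₂ ^ (α.rho + 1) * (1 + Real.log n) ^ (α.rho + 1) := by
    rintro p hpx ⟨N', h1, h2, h3, h4⟩
    refine ⟨N', h1, h2, h3, ?_⟩
    rw [← mul_pow]
    calc (N'.index : ℝ) ≤ ((p ^ (α.rho + 1) : ℕ) : ℝ) := by exact_mod_cast h4
      _ = (p : ℝ) ^ (α.rho + 1) := by push_cast; rfl
      _ ≤ (C₂ * (1 + Real.log n)) ^ (α.rho + 1) := by gcongr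
  by_cases ha : (Φ g).a = 0
  · have hb : (Φ g).b ≠ 0 := by
      intro hb
      exact hΦ (Gam.ext ha hb)
    obtain ⟨t, ht⟩ := Function.ne_iff.mp hb
    rw [Pi.zero_apply] at ht
    have hsz : |(((Φ g).b t : ℤ) : ℝ)| ≤ (C₁ + α.bd * C₁ ^ 2) * (n : ℝ) ^ 2 := by
      have h1 : |(((Φ g).b t : ℤ) : ℝ)| ≤ ‖(Gam.toReal α (Φ g)).b‖ := by
        have := norm_le_pi_norm (Gam.toReal α (Φ g)).b t
        simpa using this
      have h2 := Gam.norm_b_le (Gam.toReal α (Φ g))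
      have h3 : α.bd * Gam.nrm (Gam.toReal α (Φ g)) ^ 2 ≤ α.bd * (C₁ * n) ^ 2 := by
        have := Gam.nrm_nonneg (Gam.toReal α (Φ g))
        gcongr
      have h4 : 0 ≤ C₁ * (n : ℝ) ^ 2 := by positivity
      calc |(((Φ g).b t : ℤ) : ℝ)| ≤ α.bd * (C₁ * n) ^ 2 := h1.trans (h2.trans h3)
        _ ≤ (C₁ + α.bd * C₁ ^ 2) * (n : ℝ) ^ 2 := by nlinarith
    obtain ⟨p, hp1, hp2, hp3, hp4⟩ := hp n hn _ ht hsz
    exact fin p hp3 (exists_vert α Φ hp1 hp2 g t hp4)
  · obtain ⟨i, hi⟩ := Function.ne_iff.mp ha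
    rw [Pi.zero_apply] at hi
    have hsz : |(((Φ g).a i : ℤ) : ℝ)| ≤ (C₁ + α.bd * C₁ ^ 2) * (n : ℝ) ^ 2 := by
      have h1 : |(((Φ g).a i : ℤ) : ℝ)| ≤ ‖(Gam.toReal α (Φ g)).a‖ := by
        have := norm_le_pi_norm (Gam.toReal α (Φ g)).a i
        simpa using this
      have h2 := Gam.norm_a_le (Gam.toReal α (Φ g))
      have h4 : 0 ≤ α.bd * C₁ ^ 2 * (n : ℝ) ^ 2 := by positivity
      calc |(((Φ g).a i : ℤ) : ℝ)| ≤ C₁ * n := h1.trans (h2.trans hnrm)
        _ ≤ C₁ * (n : ℝ) ^ 2 := by gcongr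
        _ ≤ (C₁ + α.bd * C₁ ^ 2) * (n : ℝ) ^ 2 := by nlinarith
    obtain ⟨p, hp1, hp2, hp3, hp4⟩ := hp n hn _ hi hsz
    exact fin p hp3 (exists_hor α Φ hp1 g i hp4)

end Upper

/-- The upper bound for the residual finiteness growth. -/
theorem upper {G : Type*} [Group G] {S : Finset G}
    (hS : Subgroup.closure (S : Set G) = ⊤) {m k : ℕ} (α : Form m k)
    (hgood : PosDensity (GoodPrime α))
    (Φ : G →* Gam α ℤ) (hker : Finite Φ.ker) :
    (∀ g : G, Φ g ≠ 1 → ∃ N : Subgroup G, N.Normal ∧ N.index ≠ 0 ∧ g ∉ N) ∧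
    ∃ C : ℝ, 0 < C ∧ ∀ n : ℕ, 1 ≤ n → ∀ g : G, wordLen S g ≤ n →
      (sepIndex g : ℝ) ≤ C * (1 + Real.log n) ^ (α.rho + 1) := by
  classical
  obtain ⟨C, hC, h⟩ := Upper.main α hS hgood Φ
  refine ⟨?_, ?_⟩
  · intro g hg
    obtain ⟨N, h1, h2, h3, _⟩ := h (wordLen S g + 1) (by omega) g (by omega) hg
    exact ⟨N, h1, h2, h3⟩
  · have : Fintype Φ.ker := Fintype.ofFinite _
    refine ⟨C + ∑ x : Φ.ker, (sepIndex (x : G) : ℝ), by positivity, ?_⟩
    intro n hn g hg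
    have hn' : (1 : ℝ) ≤ n := by exact_mod_cast hn
    have hln : 0 ≤ Real.log n := Real.log_nonneg hn'
    have hone : (1 : ℝ) ≤ (1 + Real.log n) ^ (α.rho + 1) := one_le_pow₀ (by linarith)
    have hsum0 : 0 ≤ ∑ x : Φ.ker, (sepIndex (x : G) : ℝ) :=
      Finset.sum_nonneg fun _ _ => Nat.cast_nonneg _
    by_cases hΦ : Φ g = 1
    · have h1 : (sepIndex g : ℝ) ≤ ∑ x : Φ.ker, (sepIndex (x : G) : ℝ) :=
        Finset.single_le_sum (f := fun x : Φ.ker => (sepIndex (x : G) : ℝ))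
          (fun _ _ => Nat.cast_nonneg _) (Finset.mem_univ (⟨g, hΦ⟩ : Φ.ker))
      nlinarith
    · obtain ⟨N, h1, h2, h3, h4⟩ := h n hn g hg hΦ
      have h5 : (sepIndex g : ℝ) ≤ N.index := by
        exact_mod_cast sepIndex_le N h1 h2 h3
      have h6 : C * (1 + Real.log n) ^ (α.rho + 1)
          ≤ (C + ∑ x : Φ.ker, (sepIndex (x : G) : ℝ)) * (1 + Real.log n) ^ (α.rho + 1) := by
        gcongr
        linarith
      linarith

end Pool.Agent.MPf60e8a
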