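import Mathlib
import Pool.Agent.Lib.MP_f60e8a_al.Stmts
import Pool.Agent.Lib.MP_f60e8a_al.Struct
import Pool.Agent.Lib.MP_f60e8a_al.Metric
import Pool.Agent.Lib.MP_f60e8a_al.Mean
import Pool.Agent.Lib.MP_f60e8a_al.Energy
import Pool.Agent.Lib.MP_f60e8a_al.Blowup
import Pool.Agent.Lib.MP_f60e8a_al.Deriv
import Pool.Agent.Lib.MP_f60e8a_al.Rank
import Pool.Agent.Lib.MP_f60e8a_al.NTCount
import Pool.Agent.Lib.MP_f60e8a_al.NTLog
import Pool.Agent.Lib.MP_f60e8a_al.NTCheb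
import Pool.Agent.Lib.MP_f60e8a_al.NTBox
import Pool.Agent.Lib.MP_f60e8a_al.NTMertens
import Pool.Agent.Lib.MP_f60e8a_al.NTField
import Pool.Agent.Lib.MP_f60e8a_al.NTHoms
import Pool.Agent.Lib.MP_f60e8a_al.Pencil
import Pool.Agent.Lib.MP_f60e8a_al.Upper
import Pool.Agent.Lib.MP_f60e8a_al.Lower

/-!
# Assembly: quasi-isometric groups of class at most two have equivalent residual
finiteness growth
-/

open scoped BigOperators commutatorElement

namespace Pool.Agent.MPf60e8a.Final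

open Gam

/-- Summary of the facts on one group. -/
theorem exists_data {G : Type*} [Group G] (T : Subgroup G) [T.Normal] [Finite T]
    (hG : ∀ x y z : G, ⁅⁅x, y⁆, z⁆ ∈ T) {S : Finset G}
    (hS : Subgroup.closure (S : Set G) = ⊤) :
    ∃ (m k : ℕ) (α : Form m k) (Φ : G →* Gam α ℤ) (C : ℝ), α.Spanning ∧ 0 < C ∧
      (∀ g : G, (wordLen S g : ℝ) ≤ C * nrm (toReal α (Φ g)) + C) ∧
      (∀ g : G, nrm (toReal α (Φ g)) ≤ C * wordLen S g) ∧
      (∀ x : Gam α ℤ, ∃ g : G, nrm (toReal α (x⁻¹ * Φ g)) ≤ C) ∧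
      (∀ n : ℕ, 1 ≤ n → ∀ g : G, wordLen S g ≤ n →
        (sepIndex g : ℝ) ≤ C * (1 + Real.log n) ^ (α.rho + 1)) ∧
      (0 < m → ∀ n : ℕ, 1 ≤ n → ∃ g : G, g ≠ 1 ∧ (wordLen S g : ℝ) ≤ Real.exp (C * n) ∧
        n ^ (α.rho + 1) ≤ sepIndex g) ∧
      (m = 0 → Finite G) := by
  have hFG : Group.FG G := ⟨⟨S, hS⟩⟩
  have hGT : ∀ x y z : G ⧸ T, ⁅⁅x, y⁆, z⁆ = 1 := by
    intro x y z
    obtain ⟨x, rfl⟩ := QuotientGroup.mk_surjective x
    obtain ⟨y, rfl⟩ := QuotientGroup.mk_surjective y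
    obtain ⟨z, rfl⟩ := QuotientGroup.mk_surjective z
    exact (QuotientGroup.eq_one_iff _).mpr (hG x y z)
  obtain ⟨m, k, α, Φ', s, c₀, c₁, c₂, hα, hker', hsurj', h₀, h₁, h₂, hs, hc⟩ := exists_struct hGT
  set Φ : G →* Gam α ℤ := Φ'.comp (QuotientGroup.mk' T) with hΦdef
  have hΦ : ∀ g, Φ g = Φ' (QuotientGroup.mk g) := fun g => rfl
  have hker : Finite Φ.ker := by
    have h1 : (Φ.ker : Set G) = (QuotientGroup.mk : G → G ⧸ T) ⁻¹' (Φ'.ker : Set (G ⧸ T)) := by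
      ext g
      rfl
    have h2 : (Φ.ker : Set G).Finite := by
      rw [h1]
      refine Set.Finite.preimage' (Set.toFinite _) fun b _ => ?_
      obtain ⟨g₀, rfl⟩ := QuotientGroup.mk_surjective b
      refine ((Set.toFinite (T : Set G)).image (fun t => g₀ * t)).subset ?_
      intro g hg
      refine ⟨g₀⁻¹ * g, ?_, by simp⟩
      exact QuotientGroup.eq.mp (Set.mem_singleton_iff.mp hg).symm
    exact h2.to_subtype
  have hsurj : ∀ a : Fin m → ℤ, ∃ g, (Φ g).a = a := by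
    intro a
    obtain ⟨q, hq⟩ := hsurj' a
    obtain ⟨g, rfl⟩ := QuotientGroup.mk_surjective q
    exact ⟨g, hq⟩
  obtain ⟨C₁, hC₁, hC₁'⟩ := wordLen_le_nrm hS α hα Φ hker hsurj
  obtain ⟨C₂, hC₂, hC₂'⟩ := exists_le_mul_wordLen hS (fun g => nrm (toReal α (Φ g)))
    (by simp) (fun x y => by simpa using nrm_mul_le _ _) (fun x => by simp)
  have hgood : PosDensity (GoodPrime α) :=
    good_density (fun R _ _ h => density_homs (fun K _ _ =>
      density_field K (cheb_field K) (mertens K (NumberField.RingOfIntegers.basis K)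
        (ideal_count K _) (log_norm K) (cheb_field K) (box_norm K _))) R h) α
  obtain ⟨hres, C₃, hC₃, hC₃'⟩ := upper hS α hgood Φ hker
  -- density of the image
  have hden : ∃ C₄ : ℝ, 0 < C₄ ∧ ∀ x : Gam α ℤ, ∃ g : G, nrm (toReal α (x⁻¹ * Φ g)) ≤ C₄ := by
    have hb := α.bd_pos
    refine ⟨Real.sqrt (c₀ / α.bd) + 1, by positivity, fun x => ?_⟩
    obtain ⟨g, hg⟩ := hsurj x.a
    -- correct the `b`-coordinate modulo `c₀`
    set b := (x⁻¹ * Φ g).b with hbdef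
    have ha0 : (x⁻¹ * Φ g).a = 0 := by
      rw [mul_a, inv_a, hg, neg_add_cancel]
    obtain ⟨u, hu⟩ := QuotientGroup.mk_surjective
      (s (Multiplicative.ofAdd (fun t => -(b t / (c₀ : ℤ)))))
    refine ⟨g * u, ?_⟩
    have h1 : x⁻¹ * Φ (g * u) = ver α (fun t => b t % (c₀ : ℤ)) := by
      rw [map_mul, hΦ u, hu, hs, ← mul_assoc]
      refine Gam.ext ?_ ?_
      · rw [mul_a, ha0, ver_a, ver_a, add_zero]
      · rw [mul_b, ver_a, Form.ev_zero_right, ver_b, ver_b, ← hbdef]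
        funext t
        have := Int.emod_add_mul_ediv (b t) (c₀ : ℤ)
        simp only [Pi.add_apply, Pi.smul_apply, smul_eq_mul, Pi.zero_apply, add_zero]
        linarith
    rw [h1]
    refine nrm_le_of (by positivity) ?_ ?_
    · have : (toReal α (ver α (fun t => b t % (c₀ : ℤ)))).a = 0 := by
        funext i
        simp
      rw [this, norm_zero]
      positivity
    · have h2 : ‖(toReal α (ver α (fun t => b t % (c₀ : ℤ)))).b‖ ≤ c₀ := by
        rw [pi_norm_le_iff_of_nonneg (by positivity)]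
        intro t
        have e1 : (toReal α (ver α (fun t => b t % (c₀ : ℤ)))).b t
            = ((b t % (c₀ : ℤ) : ℤ) : ℝ) := rfl
        rw [e1, Real.norm_eq_abs, abs_of_nonneg]
        · have := (Int.emod_lt_of_pos (b t) (by exact_mod_cast h₀ : (0 : ℤ) < c₀)).le
          exact_mod_cast this
        · have := Int.emod_nonneg (b t) (by exact_mod_cast h₀.ne' : (c₀ : ℤ) ≠ 0)
          exact_mod_cast this
      refine h2.trans ?_
      have h3 : (0 : ℝ) ≤ c₀ / α.bd := by positivity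
      have h4 := Real.sq_sqrt h3
      have h5 : (c₀ : ℝ) = α.bd * Real.sqrt (c₀ / α.bd) ^ 2 := by
        rw [h4]
        field_simp
      have h6 := Real.sqrt_nonneg ((c₀ : ℝ) / α.bd)
      calc (c₀ : ℝ) = α.bd * Real.sqrt (c₀ / α.bd) ^ 2 := h5
        _ ≤ α.bd * (Real.sqrt (c₀ / α.bd) + 1) ^ 2 := by
          gcongr
          linarith
  obtain ⟨C₄, hC₄, hC₄'⟩ := hden
  -- lower bound
  have hlow : ∃ C₅ : ℝ, 0 < C₅ ∧ (0 < m → ∀ n : ℕ, 1 ≤ n → ∃ g : G, g ≠ 1 ∧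
      (wordLen S g : ℝ) ≤ Real.exp (C₅ * n) ∧ n ^ (α.rho + 1) ≤ sepIndex g) := by
    rcases Nat.eq_zero_or_pos m with hm | hm
    · exact ⟨1, one_pos, fun h => absurd h (by omega)⟩
    · obtain ⟨x, C₅, n₀, hC₅, hx⟩ :=
        Lower.lower_assembly hm α Φ' hsurj' s c₀ c₁ c₂ h₀ h₂ hs hc
      obtain ⟨n₁, hx'⟩ : ∃ n₁ : ℕ, ∀ n : ℕ, 1 ≤ n → n₁ ≤ n → Φ' x ≠ 1 := by
        refine ⟨n₀, fun n hn hnn h => ?_⟩
        obtain ⟨K, _, _, _, hK, _⟩ := hx n hn hnn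
        exact hK (by rw [map_pow, h, one_pow])
      have hx1 : Φ' x ≠ 1 := hx' (n₁ + 1) (by omega) (by omega)
      obtain ⟨C₆, hC₆, h6⟩ := Lower.lower_lift hS T (α.rho + 1) x C₅ n₀ hC₅ (fun n hn hnn => by
        obtain ⟨K, k1, k2, k3, k4, k5⟩ := hx n hn hnn
        exact ⟨K, k1, k2, k3, fun h => k4 (by rw [h, map_one]), k5⟩)
      refine ⟨C₆, hC₆, fun _ n hn => ?_⟩
      obtain ⟨g, hg1, ⟨K, hgK⟩, hg2, hg3⟩ := h6 n hn
      have hΦg : Φ g ≠ 1 := by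
        rw [hΦ, hgK, map_pow]
        -- `Gam α ℤ` is torsion free
        intro h
        have hK0 : K ≠ 0 := by
          rintro rfl
          exact hg1 (by rw [hgK, pow_zero])
        apply hx1
        have hK1 : (K : ℤ) ≠ 0 := by exact_mod_cast hK0
        rw [pow_eq] at h
        have ha := congrArg Gam.a h
        have hb := congrArg Gam.b h
        simp only [one_a, one_b] at ha hb
        refine Gam.ext ?_ ?_
        · exact (smul_eq_zero.mp ha).resolve_left hK1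
        · exact (smul_eq_zero.mp hb).resolve_left hK1
      refine ⟨g, ?_, hg2, le_sepIndex (hres g hΦg) hg3⟩
      rintro rfl
      exact hΦg (map_one Φ)
  obtain ⟨C₅, hC₅, hC₅'⟩ := hlow
  have hfin : m = 0 → Finite G := by
    intro hm
    subst hm
    -- `k = 0` as the form spans
    have hk : k = 0 := by
      unfold Form.Spanning at hα
      have h1 : (Set.range fun p : Fin 0 × Fin 0 => fun t => (α.c p.1 p.2 t : ℚ)) = ∅ := by
        rw [Set.range_eq_empty_iff]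
        infer_instance
      rw [h1, Submodule.span_empty] at hα
      by_contra hk
      have h2 : (fun _ => 1 : Fin k → ℚ) ∈ (⊤ : Submodule ℚ (Fin k → ℚ)) := trivial
      rw [← hα, Submodule.mem_bot] at h2
      have := congrFun h2 ⟨0, Nat.pos_of_ne_zero hk⟩
      simp at this
    subst hk
    have hΦ : Φ.ker = ⊤ := by
      ext g
      simp only [MonoidHom.mem_ker, Subgroup.mem_top, iff_true]
      exact Gam.ext (Subsingleton.elim _ _) (Subsingleton.elim _ _)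
    rw [hΦ] at hker
    exact Finite.of_equiv _ (Subgroup.topEquiv (G := G)).toEquiv
  refine ⟨m, k, α, Φ, C₁ + C₂ + C₃ + C₄ + C₅, hα, by positivity, ?_, ?_, ?_, ?_, ?_, hfin⟩
  · intro g
    have := nrm_nonneg (toReal α (Φ g))
    refine (hC₁' g).trans ?_
    have h1 : C₁ ≤ C₁ + C₂ + C₃ + C₄ + C₅ := by linarith
    gcongr
  · intro g
    refine (hC₂' g).trans ?_
    have h1 : C₂ ≤ C₁ + C₂ + C₃ + C₄ + C₅ := by linarith
    gcongr
  · intro x
    obtain ⟨g, hg⟩ := hC₄' x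
    exact ⟨g, hg.trans (by linarith)⟩
  · intro n hn g hg
    refine (hC₃' n hn g hg).trans ?_
    have h1 : C₃ ≤ C₁ + C₂ + C₃ + C₄ + C₅ := by linarith
    have h2 : 0 ≤ Real.log n := Real.log_natCast_nonneg n
    gcongr
  · intro hm n hn
    obtain ⟨g, hg1, hg2, hg3⟩ := hC₅' hm n hn
    refine ⟨g, hg1, hg2.trans (Real.exp_le_exp.mpr ?_), hg3⟩
    have h1 : C₅ ≤ C₁ + C₂ + C₃ + C₄ + C₅ := by linarith
    gcongr

/-- Quasi-isometric embedding inequalities. -/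
def QIEmb {G H : Type*} [Group G] [Group H] (S : Finset G) (T : Finset H) (f : G → H) (K : ℕ) :
    Prop :=
  (∀ x y, wordLen T ((f x)⁻¹ * f y) ≤ K * wordLen S (x⁻¹ * y) + K) ∧
  (∀ x y, wordLen S (x⁻¹ * y) ≤ K * wordLen T ((f x)⁻¹ * f y) + K)

/-- A quasi-isometric embedding induces injective linear maps between the data. -/
theorem exists_AB {G H : Type*} [Group G] [Group H] {S : Finset G} {T : Finset H}
    {m₁ k₁ m₂ k₂ : ℕ} (α₁ : Form m₁ k₁) (α₂ : Form m₂ k₂) (Φ₁ : G →* Gam α₁ ℤ)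
    (Φ₂ : H →* Gam α₂ ℤ) (C₁ C₂ : ℝ) (hs : α₁.Spanning) (hC₁ : 0 < C₁) (hC₂ : 0 < C₂)
    (a1 : ∀ g : G, (wordLen S g : ℝ) ≤ C₁ * nrm (toReal α₁ (Φ₁ g)) + C₁)
    (a2 : ∀ g : G, nrm (toReal α₁ (Φ₁ g)) ≤ C₁ * wordLen S g)
    (a3 : ∀ x : Gam α₁ ℤ, ∃ g : G, nrm (toReal α₁ (x⁻¹ * Φ₁ g)) ≤ C₁)
    (b1 : ∀ g : H, (wordLen T g : ℝ) ≤ C₂ * nrm (toReal α₂ (Φ₂ g)) + C₂)
    (b2 : ∀ g : H, nrm (toReal α₂ (Φ₂ g)) ≤ C₂ * wordLen T g)
    (f : G → H) (K : ℕ) (hf : QIEmb S T f K) :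
    ∃ (A : (Fin m₁ → ℝ) →ₗ[ℝ] (Fin m₂ → ℝ)) (B : (Fin k₁ → ℝ) →ₗ[ℝ] (Fin k₂ → ℝ)),
      Function.Injective A ∧ Function.Injective B ∧
      ∀ v w, B (α₁.ev v w) = α₂.ev (A v) (A w) := by
  choose γ hγ using a3
  let F : Gam α₁ ℤ → Gam α₂ ℤ := fun x => Φ₂ (f (γ x))
  have hK0 : (0 : ℝ) ≤ K := Nat.cast_nonneg K
  set K' : ℝ := C₂ * K * C₁ + C₂ * (K * (2 * C₁ ^ 2 + C₁) + K) + (C₁ * K * C₂ + C₁ * K + 2 * C₁)
    + 1 with hK'
  have hK'0 : 0 < K' := by positivity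
  -- comparison of `x⁻¹ y` and `γ x⁻¹ γ y`
  have hcmp1 : ∀ x y, nrm (toReal α₁ (Φ₁ ((γ x)⁻¹ * γ y))) ≤
      nrm (toReal α₁ (x⁻¹ * y)) + 2 * C₁ := by
    intro x y
    have h1 : Φ₁ ((γ x)⁻¹ * γ y) = (x⁻¹ * Φ₁ (γ x))⁻¹ * (x⁻¹ * y) * (y⁻¹ * Φ₁ (γ y)) := by
      rw [map_mul, map_inv]
      group
    rw [h1, map_mul, map_mul, map_inv]
    have h2 := nrm_mul_le ((toReal α₁ (x⁻¹ * Φ₁ (γ x)))⁻¹ * toReal α₁ (x⁻¹ * y))
      (toReal α₁ (y⁻¹ * Φ₁ (γ y)))
    have h3 := nrm_mul_le (toReal α₁ (x⁻¹ * Φ₁ (γ x)))⁻¹ (toReal α₁ (x⁻¹ * y))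
    rw [nrm_inv] at h3
    have h4 := hγ x
    have h5 := hγ y
    linarith
  have hcmp2 : ∀ x y, nrm (toReal α₁ (x⁻¹ * y)) ≤
      nrm (toReal α₁ (Φ₁ ((γ x)⁻¹ * γ y))) + 2 * C₁ := by
    intro x y
    have h1 : x⁻¹ * y = (x⁻¹ * Φ₁ (γ x)) * Φ₁ ((γ x)⁻¹ * γ y) * (y⁻¹ * Φ₁ (γ y))⁻¹ := by
      rw [map_mul, map_inv]
      group
    conv_lhs => rw [h1]
    rw [map_mul (toReal α₁), map_mul (toReal α₁), map_inv (toReal α₁)]
    have h2 := nrm_mul_le (toReal α₁ (x⁻¹ * Φ₁ (γ x)) * toReal α₁ (Φ₁ ((γ x)⁻¹ * γ y)))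
      (toReal α₁ (y⁻¹ * Φ₁ (γ y)))⁻¹
    have h3 := nrm_mul_le (toReal α₁ (x⁻¹ * Φ₁ (γ x))) (toReal α₁ (Φ₁ ((γ x)⁻¹ * γ y)))
    rw [nrm_inv] at h2
    have h4 := hγ x
    have h5 := hγ y
    linarith
  have hub : ∀ x y, nrm (toReal α₂ ((F x)⁻¹ * F y)) ≤
      K' * nrm (toReal α₁ (x⁻¹ * y)) + K' := by
    intro x y
    have h0 := nrm_nonneg (toReal α₁ (x⁻¹ * y))
    have h1 : (F x)⁻¹ * F y = Φ₂ ((f (γ x))⁻¹ * f (γ y)) := by
      rw [map_mul, map_inv]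
    rw [h1]
    have h2 := b2 ((f (γ x))⁻¹ * f (γ y))
    have h3 : (wordLen T ((f (γ x))⁻¹ * f (γ y)) : ℝ) ≤ K * wordLen S ((γ x)⁻¹ * γ y) + K := by
      exact_mod_cast hf.1 (γ x) (γ y)
    have h4 := a1 ((γ x)⁻¹ * γ y)
    have h5 := hcmp1 x y
    have h6 : (wordLen S ((γ x)⁻¹ * γ y) : ℝ) ≤
        C₁ * (nrm (toReal α₁ (x⁻¹ * y)) + 2 * C₁) + C₁ := by
      have := mul_le_mul_of_nonneg_left h5 hC₁.le
      linarith
    have h7 : (wordLen T ((f (γ x))⁻¹ * f (γ y)) : ℝ) ≤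
        K * (C₁ * (nrm (toReal α₁ (x⁻¹ * y)) + 2 * C₁) + C₁) + K := by
      have := mul_le_mul_of_nonneg_left h6 hK0
      linarith
    have h8 : nrm (toReal α₂ (Φ₂ ((f (γ x))⁻¹ * f (γ y)))) ≤
        C₂ * (K * (C₁ * (nrm (toReal α₁ (x⁻¹ * y)) + 2 * C₁) + C₁) + K) :=
      h2.trans (mul_le_mul_of_nonneg_left h7 hC₂.le)
    have h9 : C₂ * (K * (C₁ * (nrm (toReal α₁ (x⁻¹ * y)) + 2 * C₁) + C₁) + K) =
        C₂ * K * C₁ * nrm (toReal α₁ (x⁻¹ * y)) + C₂ * (K * (2 * C₁ ^ 2 + C₁) + K) := by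
      ring
    have h10 : C₂ * K * C₁ * nrm (toReal α₁ (x⁻¹ * y)) ≤ K' * nrm (toReal α₁ (x⁻¹ * y)) := by
      refine mul_le_mul_of_nonneg_right ?_ h0
      rw [hK']
      have : 0 ≤ C₂ * (K * (2 * C₁ ^ 2 + C₁) + K) + (C₁ * K * C₂ + C₁ * K + 2 * C₁) + 1 := by
        positivity
      linarith
    have h11 : C₂ * (K * (2 * C₁ ^ 2 + C₁) + K) ≤ K' := by
      rw [hK']
      have : 0 ≤ C₂ * K * C₁ + (C₁ * K * C₂ + C₁ * K + 2 * C₁) + 1 := by positivity
      linarith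
    linarith
  have hlb : ∀ x y, nrm (toReal α₁ (x⁻¹ * y)) ≤
      K' * nrm (toReal α₂ ((F x)⁻¹ * F y)) + K' := by
    intro x y
    have h0 := nrm_nonneg (toReal α₂ ((F x)⁻¹ * F y))
    have h1 : (F x)⁻¹ * F y = Φ₂ ((f (γ x))⁻¹ * f (γ y)) := by
      rw [map_mul, map_inv]
    rw [h1] at h0 ⊢
    have h2 := hcmp2 x y
    have h3 := a2 ((γ x)⁻¹ * γ y)
    have h4 : (wordLen S ((γ x)⁻¹ * γ y) : ℝ) ≤ K * wordLen T ((f (γ x))⁻¹ * f (γ y)) + K := by
      exact_mod_cast hf.2 (γ x) (γ y)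
    have h5 := b1 ((f (γ x))⁻¹ * f (γ y))
    have h6 : (wordLen S ((γ x)⁻¹ * γ y) : ℝ) ≤
        K * (C₂ * nrm (toReal α₂ (Φ₂ ((f (γ x))⁻¹ * f (γ y)))) + C₂) + K := by
      have := mul_le_mul_of_nonneg_left h5 hK0
      linarith
    have h7 := mul_le_mul_of_nonneg_left h6 hC₁.le
    have h8 : C₁ * (K * (C₂ * nrm (toReal α₂ (Φ₂ ((f (γ x))⁻¹ * f (γ y)))) + C₂) + K) =
        C₁ * K * C₂ * nrm (toReal α₂ (Φ₂ ((f (γ x))⁻¹ * f (γ y)))) + (C₁ * K * C₂ + C₁ * K) := by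
      ring
    have h9 : C₁ * K * C₂ * nrm (toReal α₂ (Φ₂ ((f (γ x))⁻¹ * f (γ y)))) ≤
        K' * nrm (toReal α₂ (Φ₂ ((f (γ x))⁻¹ * f (γ y)))) := by
      refine mul_le_mul_of_nonneg_right ?_ h0
      rw [hK']
      have : 0 ≤ C₂ * K * C₁ + C₂ * (K * (2 * C₁ ^ 2 + C₁) + K) + (C₁ * K + 2 * C₁) + 1 := by
        positivity
      linarith
    have h10 : C₁ * K * C₂ + C₁ * K + 2 * C₁ ≤ K' := by
      rw [hK']
      have : 0 ≤ C₂ * K * C₁ + C₂ * (K * (2 * C₁ ^ 2 + C₁) + K) + 1 := by positivity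
      linarith
    linarith
  obtain ⟨L, hL1, hL2, hL3, hL4⟩ :=
    exists_limit α₁ α₂ (exists_base α₁ (exists_mean α₁) m₂) F K' hK'0 hub hlb
  exact exists_linear α₁ α₂ hs L K' hK'0 hL1 hL2 hL3 hL4

/-- Two functions with the same polylogarithmic bounds. -/
theorem dominated_of_bounds {G H : Type*} [Group G] [Group H] {S : Finset G} {T : Finset H}
    (hS : Subgroup.closure (S : Set G) = ⊤) (hT : Subgroup.closure (T : Set H) = ⊤) (d : ℕ)
    (C₁ C₂ : ℝ) (hC₁ : 0 < C₁) (hC₂ : 0 < C₂)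
    (hup : ∀ n : ℕ, 1 ≤ n → ∀ g : G, wordLen S g ≤ n →
        (sepIndex g : ℝ) ≤ C₁ * (1 + Real.log n) ^ d)
    (hlow : ∀ n : ℕ, 1 ≤ n → ∃ g : H, g ≠ 1 ∧ (wordLen T g : ℝ) ≤ Real.exp (C₂ * n) ∧
        n ^ d ≤ sepIndex g) :
    ∃ C : ℕ, 0 < C ∧ ∀ n, RF S n ≤ C * RF T (C * n) := by
  set E : ℕ := ⌈Real.exp C₂⌉₊ with hE
  set D : ℕ := ⌈C₁ * (1 + 2 * C₂) ^ d⌉₊ with hD
  have hE1 : 1 ≤ E := Nat.one_le_ceil_iff.mpr (Real.exp_pos _)
  refine ⟨E + D, by omega, fun n => ?_⟩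
  rcases Nat.eq_zero_or_pos n with hn | hn
  · subst hn
    refine (RF_le (B := 0) ?_).trans (Nat.zero_le _)
    intro g hg hl
    exfalso
    apply hg
    obtain ⟨l, h1, _, h3⟩ := wordLen_spec hS g
    have : l = [] := List.eq_nil_of_length_eq_zero (by omega)
    rw [← h3, this, List.prod_nil]
  · -- the scale
    have hL0 : 0 ≤ Real.log n := Real.log_natCast_nonneg n
    set j : ℕ := max 1 ⌊Real.log n / C₂⌋₊ with hj
    have hj1 : 1 ≤ j := le_max_left _ _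
    obtain ⟨h, hh1, hh2, hh3⟩ := hlow j hj1
    have hn1 : (1 : ℝ) ≤ n := by exact_mod_cast hn
    have hjC : Real.exp (C₂ * j) ≤ E * n := by
      have hEc : Real.exp C₂ ≤ E := Nat.le_ceil _
      rcases le_total 1 ⌊Real.log n / C₂⌋₊ with hc | hc
      · rw [hj, max_eq_right hc]
        have h1 : (⌊Real.log n / C₂⌋₊ : ℝ) ≤ Real.log n / C₂ := Nat.floor_le (by positivity)
        have h2 : C₂ * (⌊Real.log n / C₂⌋₊ : ℝ) ≤ Real.log n := by
          have := mul_le_mul_of_nonneg_left h1 hC₂.le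
          rwa [mul_div_cancel₀ _ hC₂.ne'] at this
        calc Real.exp (C₂ * (⌊Real.log n / C₂⌋₊ : ℝ)) ≤ Real.exp (Real.log n) :=
              Real.exp_le_exp.mpr h2
          _ = n := Real.exp_log (by linarith)
          _ ≤ E * n := by
            have : (1 : ℝ) ≤ E := by exact_mod_cast hE1
            nlinarith
      · rw [hj, max_eq_left hc]
        simp only [Nat.cast_one, mul_one]
        have : (0 : ℝ) ≤ E := Nat.cast_nonneg E
        nlinarith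
    have hlen : wordLen T h ≤ (E + D) * n := by
      have h1 : (wordLen T h : ℝ) ≤ E * n := hh2.trans hjC
      have h2 : wordLen T h ≤ E * n := by exact_mod_cast h1
      exact h2.trans (Nat.mul_le_mul_right n (by omega))
    have hRF : j ^ d ≤ RF T ((E + D) * n) := hh3.trans (sepIndex_le_RF hT hh1 hlen)
    have hjL : 1 + Real.log n ≤ (1 + 2 * C₂) * j := by
      have h1 : Real.log n / C₂ < ⌊Real.log n / C₂⌋₊ + 1 := Nat.lt_floor_add_one _
      have h2 : (⌊Real.log n / C₂⌋₊ : ℝ) ≤ j := by exact_mod_cast le_max_right _ _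
      have h3 : (1 : ℝ) ≤ j := by exact_mod_cast hj1
      rw [div_lt_iff₀ hC₂] at h1
      nlinarith
    refine RF_le fun g hg hl => ?_
    have h1 := hup n hn g hl
    have h2 : (1 + Real.log n) ^ d ≤ ((1 + 2 * C₂) * j) ^ d := by gcongr
    have h3 : (sepIndex g : ℝ) ≤ D * (j : ℝ) ^ d := by
      calc (sepIndex g : ℝ) ≤ C₁ * (1 + Real.log n) ^ d := h1
        _ ≤ C₁ * ((1 + 2 * C₂) * j) ^ d := by gcongr
        _ = (C₁ * (1 + 2 * C₂) ^ d) * (j : ℝ) ^ d := by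
          rw [mul_pow]
          ring
        _ ≤ D * (j : ℝ) ^ d := by
          have := Nat.le_ceil (C₁ * (1 + 2 * C₂) ^ d)
          gcongr
    have h4 : sepIndex g ≤ D * j ^ d := by exact_mod_cast h3
    calc sepIndex g ≤ D * j ^ d := h4
      _ ≤ (E + D) * RF T ((E + D) * n) := Nat.mul_le_mul (by omega) hRF

theorem dominated_of_finite {G H : Type*} [Group G] [Group H] [Nontrivial H] [Finite G]
    [Finite H] {S : Finset G} {T : Finset H}
    (hS : Subgroup.closure (S : Set G) = ⊤) (hT : Subgroup.closure (T : Set H) = ⊤) :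
    ∃ C : ℕ, 0 < C ∧ ∀ n, RF S n ≤ C * RF T (C * n) := by
  obtain ⟨B, hB⟩ := (Set.finite_range (sepIndex (G := G))).bddAbove
  have hB' : ∀ g : G, sepIndex g ≤ B := fun g => hB ⟨g, rfl⟩
  refine ⟨B + 1, by omega, fun n => ?_⟩
  rcases Nat.eq_zero_or_pos n with hn | hn
  · subst hn
    refine (RF_le (B := 0) ?_).trans (Nat.zero_le _)
    intro g hg hl
    exfalso
    apply hg
    obtain ⟨l, h1, _, h3⟩ := wordLen_spec hS g
    have : l = [] := List.eq_nil_of_length_eq_zero (by omega)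
    rw [← h3, this, List.prod_nil]
  · -- a nontrivial generator
    have hgen : ∃ t ∈ T, t ≠ 1 := by
      by_contra hcon
      push Not at hcon
      have h1 : (T : Set H) ⊆ {1} := fun t ht => hcon t ht
      have h2 : Subgroup.closure (T : Set H) ≤ ⊥ := by
        rw [Subgroup.closure_le]
        intro t ht
        simpa using h1 ht
      rw [hT] at h2
      obtain ⟨x, hx⟩ := exists_ne (1 : H)
      exact hx (by simpa using h2 (Subgroup.mem_top x))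
    obtain ⟨t, htT, ht1⟩ := hgen
    have h1 : wordLen T t ≤ 1 := wordLen_le_of_list [t] (by simpa using Or.inl htT) (by simp)
    have h2 : 1 ≤ sepIndex t := by
      refine le_sepIndex ⟨⊥, inferInstance, Subgroup.index_ne_zero_of_finite, by simpa using ht1⟩ ?_
      intro N _ hi _
      exact Nat.one_le_iff_ne_zero.mpr hi
    have h3 : 1 ≤ RF T ((B + 1) * n) := by
      refine h2.trans (sepIndex_le_RF hT ht1 (h1.trans ?_))
      exact Nat.mul_pos (by omega) hn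
    refine RF_le fun g _ _ => ?_
    calc sepIndex g ≤ (B + 1) * 1 := by
          have := hB' g
          omega
      _ ≤ (B + 1) * RF T ((B + 1) * n) := Nat.mul_le_mul_left _ h3

/-- Main theorem, commutator form of the hypothesis. -/
theorem main {G H : Type*} [Group G] [Group H] [Nontrivial G] [Nontrivial H]
    (V : Subgroup G) [V.Normal] [Finite V] (hG : ∀ x y z : G, ⁅⁅x, y⁆, z⁆ ∈ V)
    (W : Subgroup H) [W.Normal] [Finite W] (hH : ∀ x y z : H, ⁅⁅x, y⁆, z⁆ ∈ W)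
    {S : Finset G} {T : Finset H}
    (hS : Subgroup.closure (S : Set G) = ⊤) (hT : Subgroup.closure (T : Set H) = ⊤)
    (f : G → H) (K : ℕ) (hf : QIEmb S T f K) (hcoarse : ∀ z, ∃ x, wordLen T ((f x)⁻¹ * z) ≤ K) :
    (∃ C : ℕ, 0 < C ∧ ∀ n, RF S n ≤ C * RF T (C * n)) ∧
    (∃ C : ℕ, 0 < C ∧ ∀ n, RF T n ≤ C * RF S (C * n)) := by
  -- quasi-inverse
  choose f' hf' using hcoarse
  have hf2 : QIEmb T S f' (2 * K * K + 3 * K) := by
    constructor
    · intro z w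
      have h1 := hf.2 (f' z) (f' w)
      have h2 : wordLen T ((f (f' z))⁻¹ * f (f' w)) ≤ wordLen T (z⁻¹ * w) + 2 * K := by
        have h3 := wordLen_triangle hT (f (f' z)) z (f (f' w))
        have h4 := wordLen_triangle hT z w (f (f' w))
        have h5 := hf' z
        have h6 := hf' w
        rw [wordLen_inv_mul_comm hT] at h6
        omega
      have h3 : K * wordLen T ((f (f' z))⁻¹ * f (f' w)) ≤
          K * (wordLen T (z⁻¹ * w) + 2 * K) := Nat.mul_le_mul_left K h2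
      have h4 : K * wordLen T (z⁻¹ * w) ≤ (2 * K * K + 3 * K) * wordLen T (z⁻¹ * w) :=
        Nat.mul_le_mul_right _ (by nlinarith)
      nlinarith
    · intro z w
      have h1 := hf.1 (f' z) (f' w)
      have h2 : wordLen T (z⁻¹ * w) ≤ wordLen T ((f (f' z))⁻¹ * f (f' w)) + 2 * K := by
        have h3 := wordLen_triangle hT z (f (f' z)) w
        have h4 := wordLen_triangle hT (f (f' z)) (f (f' w)) w
        have h5 := hf' z
        have h6 := hf' w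
        rw [wordLen_inv_mul_comm hT] at h5
        omega
      have h4 : K * wordLen S ((f' z)⁻¹ * f' w) ≤
          (2 * K * K + 3 * K) * wordLen S ((f' z)⁻¹ * f' w) :=
        Nat.mul_le_mul_right _ (by nlinarith)
      nlinarith
  obtain ⟨m₁, k₁, α₁, Φ₁, C₁, s1, p1, a1, a2, a3, a4, a5, a6⟩ := exists_data V hG hS
  obtain ⟨m₂, k₂, α₂, Φ₂, C₂, s2, p2, b1, b2, b3, b4, b5, b6⟩ := exists_data W hH hT
  obtain ⟨A, B, hA, hB, hAB⟩ :=
    exists_AB α₁ α₂ Φ₁ Φ₂ C₁ C₂ s1 p1 p2 a1 a2 a3 b1 b2 f K hf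
  obtain ⟨A', B', hA', hB', _⟩ :=
    exists_AB α₂ α₁ Φ₂ Φ₁ C₂ C₁ s2 p2 p1 b1 b2 b3 a1 a2 f' _ hf2
  have hm : m₁ = m₂ := by
    have h1 := LinearMap.finrank_le_finrank_of_injective hA
    have h2 := LinearMap.finrank_le_finrank_of_injective hA'
    simp only [Module.finrank_fintype_fun_eq_card, Fintype.card_fin] at h1 h2
    omega
  have hk : k₁ = k₂ := by
    have h1 := LinearMap.finrank_le_finrank_of_injective hB
    have h2 := LinearMap.finrank_le_finrank_of_injective hB'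
    simp only [Module.finrank_fintype_fun_eq_card, Fintype.card_fin] at h1 h2
    omega
  have hrho : α₁.rho = α₂.rho := by
    refine rho_eq_of_equiv α₁ α₂ (LinearEquiv.ofInjectiveOfFinrankEq A hA (by simp [hm]))
      (LinearEquiv.ofInjectiveOfFinrankEq B hB (by simp [hk])) ?_
    intro v w
    exact hAB v w
  rcases Nat.eq_zero_or_pos m₁ with h0 | hpos
  · have : Finite G := a6 h0
    have : Finite H := b6 (by omega)
    exact ⟨dominated_of_finite hS hT, dominated_of_finite hT hS⟩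
  · refine ⟨dominated_of_bounds hS hT (α₁.rho + 1) C₁ C₂ p1 p2 a4 ?_,
      dominated_of_bounds hT hS (α₁.rho + 1) C₂ C₁ p2 p1 ?_ (a5 hpos)⟩
    · rw [hrho]
      exact b5 (by omega)
    · rw [hrho]
      exact b4

end Pool.Agent.MPf60e8a.Final
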